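import Pool.Agent.R960.Sand
import Pool.Agent.H974R2.Block
import Pool.Agent.H974R2.Circ

/-!
Uniform decay of the four-arm probability.
-/

namespace Pool.Agent.R960

open H974 H12S H973N H973N.NP Finset

theorem circ_sub {n m : ℕ} (hnm : n < m) :
    LRE (-(m:ℤ)) m (n + 1) m ⊆ annE n m ∧ LRE (-(m:ℤ)) m (-m) (-(n + 1)) ⊆ annE n m ∧
      TBE ((n:ℤ) + 1) m (-m) m ⊆ annE n m ∧ TBE (-(m:ℤ)) (-(n + 1)) (-m) m ⊆ annE n m := by
  have h : (n:ℤ) < m := by exact_mod_cast hnm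
  have h0 : (0:ℤ) ≤ n := by positivity
  unfold annE boxE
  refine ⟨?_, ?_, ?_, ?_⟩
  · rintro ⟨x, y, _ | _⟩ h8
    · simp only [mem_LRE_false, Finset.mem_sdiff, mem_RE_false] at h8 ⊢; omega
    · simp only [mem_LRE_true, Finset.mem_sdiff, mem_RE_true] at h8 ⊢; omega
  · rintro ⟨x, y, _ | _⟩ h8
    · simp only [mem_LRE_false, Finset.mem_sdiff, mem_RE_false] at h8 ⊢; omega
    · simp only [mem_LRE_true, Finset.mem_sdiff, mem_RE_true] at h8 ⊢; omega
  · rintro ⟨x, y, _ | _⟩ h8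
    · simp only [mem_TBE_false, Finset.mem_sdiff, mem_RE_false] at h8 ⊢; omega
    · simp only [mem_TBE_true, Finset.mem_sdiff, mem_RE_true] at h8 ⊢; omega
  · rintro ⟨x, y, _ | _⟩ h8
    · simp only [mem_TBE_false, Finset.mem_sdiff, mem_RE_false] at h8 ⊢; omega
    · simp only [mem_TBE_true, Finset.mem_sdiff, mem_RE_true] at h8 ⊢; omega

theorem circ_local {n m : ℕ} (hnm : n < m) {S : Finset Edg} (hS : annE n m ⊆ S)
    (F : Finset Edg) : Circ (n + 1) m F ↔ Circ (n + 1) m (F ∩ S) := by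
  obtain ⟨h1, h2, h3, h4⟩ := circ_sub hnm
  unfold Circ
  rw [LRc_local (F := F) (h1.trans hS), LRc_local (F := F) (h2.trans hS),
    TBc_local (F := F) (h3.trans hS), TBc_local (F := F) (h4.trans hS)]

section
variable {q : ℝ} (hq : 1/2 ≤ q) (h1 : q ≤ 1)
include hq h1

theorem pr_circ {r : ℕ} (hr : 9 ≤ r) {S : Finset Edg} (hS : annE r (3 * r) ⊆ S) :
    (1/2 : ℝ) ^ 188 ≤ Pr (fun _ => q) S (Circ (r + 1) ((3 * r : ℕ) : ℤ)) := by
  have h0 : 0 ≤ q := by linarith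
  have hr' : (9:ℤ) ≤ r := by exact_mod_cast hr
  have e1 : Pr (fun _ => q) (boxE (3 * r)) (Circ (r + 1) ((3 * r : ℕ) : ℤ)) =
      Pr (fun _ => q) (annE r (3 * r)) (Circ (r + 1) ((3 * r : ℕ) : ℤ)) :=
    Pr_local Finset.sdiff_subset (fun F _ => circ_local (by omega) (Finset.Subset.refl _) F)
  have e2 : Pr (fun _ => q) S (Circ (r + 1) ((3 * r : ℕ) : ℤ)) =
      Pr (fun _ => q) (annE r (3 * r)) (Circ (r + 1) ((3 * r : ℕ) : ℤ)) :=
    Pr_local hS (fun F _ => circ_local (by omega) (Finset.Subset.refl _) F)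
  rw [e2, ← e1]
  refine le_trans ?_ (pr_Circ h0 h1 (R1 := r + 1) (R2 := ((3 * r : ℕ) : ℤ)) (by positivity)
    (by push_cast; omega) (Finset.Subset.refl _))
  have k := rsw_p hq h1 (n := r - 1) (w := 2 * ((3 * r : ℕ) : ℤ))
    (h := ((3 * r : ℕ) : ℤ) - (r + 1)) (by omega)
    (by push_cast; omega) (by push_cast; omega) (by push_cast; omega)
  calc (1/2 : ℝ)^188 = ((1/2 : ℝ)^47)^4 := by norm_num
    _ ≤ _ := pow_le_pow_left₀ (by positivity) k 4

theorem pr_circs (K : ℕ) {U : Finset Edg} (hU : boxE (RR K) ⊆ U) :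
    Pr (fun _ => q) U (fun F => ∀ k < K, ¬ Circ (RR k + 1) (RR (k + 1)) F) ≤
      (1 - (1/2 : ℝ)^188)^K := by
  have ok := okq (q := q) (by linarith) h1
  induction K with
  | zero =>
    simp only [pow_zero]
    exact Pr_le_one ok _ _
  | succ K ih =>
    have hlt : RR K < RR (K + 1) := by rw [RR_succ]; have := RR_ge K; omega
    have hU' : boxE (RR K) ⊆ U := (boxE_mono hlt.le).trans hU
    have i1 := ih hU'
    have hann : annE (RR K) (RR (K + 1)) ⊆ U := Finset.sdiff_subset.trans hU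
    have e1 : Pr (fun _ => q) U (fun F => ∀ k < K + 1, ¬ Circ (RR k + 1) (RR (k + 1)) F) =
        Pr (fun _ => q) U (fun F => (∀ k < K, ¬ Circ (RR k + 1) (RR (k + 1)) F) ∧
          ¬ Circ (RR K + 1) (RR (K + 1)) F) := by
      apply Pr_congr
      intro F _
      constructor
      · intro h
        exact ⟨fun k hk => h k (by omega), h K (by omega)⟩
      · rintro ⟨h, h'⟩ k hk
        rcases Nat.lt_or_ge k K with hlt | hge
        · exact h k hlt
        · have : k = K := by omega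
          rw [this]; exact h'
    have i2 := Pr_indep (p := fun _ => q) (A := fun F => ∀ k < K, ¬ Circ (RR k + 1) (RR (k + 1)) F)
      (B := fun F => ¬ Circ (RR K + 1) (RR (K + 1)) F) hU' hann (Finset.disjoint_sdiff)
      (fun F _ => forall_congr' fun k => forall_congr' fun hk => not_congr
        (circ_local (by rw [RR_succ]; have := RR_ge k; omega)
          (Finset.sdiff_subset.trans (boxE_mono (RR_mono (by omega)))) F))
      (fun F _ => not_congr (circ_local hlt (Finset.Subset.refl _) F))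
    rw [e1, i2, Pr_not, pow_succ]
    have hb : (1/2 : ℝ)^188 ≤ Pr (fun _ => q) U (Circ (RR K + 1) (RR (K + 1))) := by
      rw [RR_succ] at hann ⊢
      exact pr_circ hq h1 (by have := RR_ge K; omega) hann
    apply mul_le_mul i1 (by linarith)
    · have := Pr_le_one ok U (Circ (RR K + 1) (RR (K + 1)))
      linarith
    · apply pow_nonneg
      have : (1/2 : ℝ)^188 ≤ 1 := pow_le_one₀ (by norm_num) (by norm_num)
      linarith

theorem a4b_high (K : ℕ) (β : Bool) :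
    PQ q (boxE (RR K)) (fun F => A4 (-(RR K : ℕ)) (RR K : ℕ) (-(RR K : ℕ)) (RR K : ℕ) (e0 β) ↑F) ≤
      (1 - (1/2 : ℝ)^188)^K := by
  have h0 : 0 ≤ q := by linarith
  refine le_trans (Pr_mono (okq h0 h1) ?_) (pr_circs hq h1 K (Finset.Subset.refl _))
  rintro F _ ⟨⟨w, hw, hrw⟩, ⟨w', hw', hrw'⟩, hnot⟩ k hk hcirc
  have hlt : RR k < RR (k + 1) := by rw [RR_succ]; have := RR_ge k; omega
  have h9 := RR_ge k
  have hle : RR (k + 1) ≤ RR K := RR_mono (by omega)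
  have hle' : (RR (k + 1) : ℤ) ≤ RR K := by exact_mod_cast hle
  have hc2 : Circ (RR k + 1) (RR (k + 1)) (F.erase (e0 β)) := by
    have h3 := (circ_local hlt (Finset.Subset.refl _) F).1 hcirc
    apply h3.mono
    intro x hx
    rw [Finset.mem_inter] at hx
    rw [Finset.mem_erase]
    refine ⟨?_, hx.1⟩
    rintro rfl
    have := (Finset.mem_sdiff.mp hx.2).2
    exact this (e0_box (by omega))
  have h10 : RR k + 1 < RR (k + 1) := by rw [RR_succ]; omega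
  obtain ⟨z, hz⟩ := circ_meet (by positivity) (by exact_mod_cast h10) hc2
  have go : ∀ u w : Vtx, inR (-(1:ℤ)) 1 (-1) 1 u → w ∈ bdR (-(RR K : ℕ) : ℤ) (RR K : ℕ)
      (-(RR K : ℕ)) (RR K : ℕ) →
      Reach (((↑F : Set Edg) ∩ ↑(RE (-(RR K : ℕ) : ℤ) (RR K : ℕ) (-(RR K : ℕ)) (RR K : ℕ))) \
        {e0 β}) u w →
      Reach (((↑F : Set Edg) ∩ ↑(RE (-(RR K : ℕ) : ℤ) (RR K : ℕ) (-(RR K : ℕ)) (RR K : ℕ))) \
        {e0 β}) u z := by
    intro u w hu hw hr
    obtain ⟨w1, k1, k2, k3⟩ := first_exit (a := -(RR (k + 1) : ℕ)) (b := (RR (k + 1) : ℕ))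
      (c := -(RR (k + 1) : ℕ)) (d := (RR (k + 1) : ℕ))
      (by unfold inR at hu ⊢; omega) hr (by
        obtain ⟨hw1, hw2⟩ := hw
        omega)
    have m1 : Reach (↑(F.erase (e0 β)) ∩ ↑(RE (-(RR (k + 1) : ℕ) : ℤ) (RR (k + 1) : ℕ)
        (-(RR (k + 1) : ℕ)) (RR (k + 1) : ℕ))) u w1 := by
      refine k3.mono ?_
      rintro x ⟨⟨⟨h4, -⟩, h5⟩, h6⟩
      refine ⟨?_, h6⟩
      rw [Finset.coe_erase]
      exact ⟨h4, h5⟩
    have m2 := hz u w1 (by unfold inR at hu ⊢; omega) (by omega) m1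
    refine m2.mono ?_
    rintro x ⟨h4, h5⟩
    rw [Finset.coe_erase] at h4
    refine ⟨⟨h4.1, ?_⟩, h4.2⟩
    have : RE (-(RR (k + 1) : ℕ) : ℤ) (RR (k + 1) : ℕ) (-(RR (k + 1) : ℕ)) (RR (k + 1) : ℕ) ⊆
        RE (-(RR K : ℕ) : ℤ) (RR K : ℕ) (-(RR K : ℕ)) (RR K : ℕ) := by
      apply RE_subset <;> omega
    exact_mod_cast this h5
  have hs : inR (-(1:ℤ)) 1 (-1) 1 (src (e0 β)) := by
    unfold inR e0
    simp only [src_mk]
    omega
  have ht : inR (-(1:ℤ)) 1 (-1) 1 (tgt (e0 β)) := by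
    unfold inR e0
    cases β
    · simp only [tgt_false]
      omega
    · simp only [tgt_true]
      omega
  exact hnot ((go _ _ hs hw hrw).trans (go _ _ ht hw' hrw').symm)

end

theorem a4b_low {q : ℝ} (h0 : 0 ≤ q) (hq : q ≤ 1/2) (m : ℕ) (β : Bool) :
    PQ q (boxE m) (fun F => A4 (-m) m (-m) m (e0 β) ↑F) ≤ arm (1/2) m := by
  refine le_trans ?_ (arm_mono_param h0 hq (by norm_num) m)
  apply Pr_mono (okq h0 (by linarith))
  rintro F _ ⟨⟨w, hw, hr⟩, -⟩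
  refine ⟨w, hw, ?_⟩
  exact hr.mono Set.sdiff_subset

theorem a4_dec {q : ℝ} (h0 : 0 ≤ q) (h1 : q ≤ 1) (K : ℕ) :
    a4 q (RR K) ≤ 2 * (1 - (1/2 : ℝ)^188)^K := by
  have key : ∀ β, PQ q (boxE (RR K))
      (fun F => A4 (-(RR K : ℕ)) (RR K : ℕ) (-(RR K : ℕ)) (RR K : ℕ) (e0 β) ↑F) ≤
      (1 - (1/2 : ℝ)^188)^K := by
    intro β
    rcases le_total q (1/2) with h | h
    · exact (a4b_low h0 h _ β).trans (arm_decay K)
    · exact a4b_high h h1 K β
  have k1 := key true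
  have k2 := key false
  unfold a4
  linarith

/-- Uniform decay. -/
theorem a4_unif {ε : ℝ} (hε : 0 < ε) : ∃ N : ℕ, 1 ≤ N ∧ ∀ m : ℕ, N ≤ m → ∀ q : ℝ, 0 ≤ q → q ≤ 1 →
    a4 q m ≤ ε := by
  have hlt : (1 - (1/2 : ℝ)^188) < 1 := by
    have : (0:ℝ) < (1/2 : ℝ)^188 := by positivity
    linarith
  have hge : 0 ≤ (1 - (1/2 : ℝ)^188) := by
    have : (1/2 : ℝ)^188 ≤ 1 := pow_le_one₀ (by norm_num) (by norm_num)
    linarith
  obtain ⟨K, hK⟩ := exists_pow_lt_of_lt_one (show 0 < ε / 2 by positivity) hlt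
  refine ⟨RR K, by have := RR_ge K; omega, ?_⟩
  intro m hm q h0 h1
  have h3 := a4_dec h0 h1 K
  have h4 := a4_anti h0 h1 (show 1 ≤ RR K by have := RR_ge K; omega) hm
  linarith

end Pool.Agent.R960
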