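import Pool.Agent.H12R2.Sep.Exit5
import Pool.Agent.H12R2.Sep.Key2
import Pool.Agent.H973R3.NC.TS

/-!
Four arms around a block (near-critical), part 1: definitions and deterministic facts.
-/

namespace Pool.Agent.R960

open H974 H12S Finset

/-- Vertices of the block `blk z s`. -/
def inB (z : ℤ × ℤ) (s : ℕ) (v : Vtx) : Prop := inR (z.1 - s) (z.1 + s) (z.2 - s) (z.2 + s) v

/-- Two distinct clusters outside of `blk z s` join its vertices to the boundary of the box. -/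
def B4 (z : ℤ × ℤ) (s : ℕ) (a b c d : ℤ) (F : Set Edg) : Prop :=
  ∃ u v : Vtx, inB z s u ∧ inB z s v ∧
    (∃ w ∈ bdR a b c d, Reach ((F ∩ ↑(RE a b c d)) \ ↑(blk z s)) u w) ∧
    (∃ w ∈ bdR a b c d, Reach ((F ∩ ↑(RE a b c d)) \ ↑(blk z s)) v w) ∧
    ¬ Reach ((F ∩ ↑(RE a b c d)) \ ↑(blk z s)) u v

/-- The probability of four arms between the block of radius `s` and distance `R`. -/
noncomputable def b4 (q : ℝ) (s R : ℕ) : ℝ :=
  PQ q (boxE R) (fun F => B4 (0, 0) s (-R) R (-R) R ↑F)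

theorem B4_congr {z : ℤ × ℤ} {s : ℕ} {a b c d : ℤ} {F F' : Set Edg}
    (h : ∀ g ∈ RE a b c d, g ∉ blk z s → (g ∈ F ↔ g ∈ F')) :
    B4 z s a b c d F ↔ B4 z s a b c d F' := by
  have e1 : (F ∩ ↑(RE a b c d)) \ ↑(blk z s) = (F' ∩ ↑(RE a b c d)) \ ↑(blk z s) := by
    ext g
    simp only [Set.mem_sdiff, Set.mem_inter_iff, Finset.mem_coe]
    constructor
    · rintro ⟨⟨h1, h2⟩, h3⟩
      exact ⟨⟨(h g h2 h3).mp h1, h2⟩, h3⟩
    · rintro ⟨⟨h1, h2⟩, h3⟩
      exact ⟨⟨(h g h2 h3).mpr h1, h2⟩, h3⟩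
  unfold B4
  rw [e1]

theorem B4_sub {z : ℤ × ℤ} {s : ℕ} {a b c d a' b' c' d' : ℤ} (ha : a ≤ a') (hb : b' ≤ b)
    (hc : c ≤ c') (hd : d' ≤ d) (h1 : a' ≤ z.1 - s) (h2 : z.1 + s ≤ b') (h3 : c' ≤ z.2 - s)
    (h4 : z.2 + s ≤ d') {F : Set Edg} (h : B4 z s a b c d F) : B4 z s a' b' c' d' F := by
  obtain ⟨u, v, hu, hv, hwu, hwv, hn⟩ := h
  have hsub : (RE a' b' c' d' : Finset Edg) ⊆ RE a b c d := RE_subset ha hb hc hd
  have key : ∀ u : Vtx, inB z s u → (∃ w ∈ bdR a b c d,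
      Reach ((F ∩ ↑(RE a b c d)) \ ↑(blk z s)) u w) → ∃ w ∈ bdR a' b' c' d',
      Reach ((F ∩ ↑(RE a' b' c' d')) \ ↑(blk z s)) u w := by
    rintro u hu ⟨w, ⟨-, hw⟩, hr⟩
    have hu' : inR a' b' c' d' u := by
      unfold inB inR at hu
      unfold inR
      omega
    obtain ⟨w', k1, k2, k3⟩ := first_exit hu' hr (by omega)
    refine ⟨w', ⟨k1, k2⟩, k3.mono ?_⟩
    rintro x ⟨⟨⟨m1, -⟩, m2⟩, m3⟩
    exact ⟨⟨m1, m3⟩, m2⟩
  refine ⟨u, v, hu, hv, key u hu hwu, key v hv hwv, fun h => hn (h.mono ?_)⟩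
  rintro x ⟨⟨m1, m2⟩, m3⟩
  exact ⟨⟨m1, hsub m2⟩, m3⟩

theorem B4_trl {z : ℤ × ℤ} {σ : ℕ} {a b c d s t : ℤ} {F : Set Edg} (h : B4 z σ a b c d F) :
    B4 (z.1 + s, z.2 + t) σ (a + s) (b + s) (c + t) (d + t) ((trl s t).φ '' F) := by
  have hblk : (blk (z.1 + s, z.2 + t) σ : Finset Edg) = (trl s t).mp (blk z σ) := by
    unfold blk
    rw [trl_RE]
    congr 1 <;> simp only <;> ring
  have hset : ((trl s t).φ '' F ∩ ↑(RE (a + s) (b + s) (c + t) (d + t))) \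
      ↑(blk (z.1 + s, z.2 + t) σ) = (trl s t).φ '' ((F ∩ ↑(RE a b c d)) \ ↑(blk z σ)) := by
    rw [← trl_RE, EP_image_inter, Set.image_sdiff (trl s t).φ.injective, hblk, LSym.coe_mp]
  have hbd : ∀ w ∈ bdR a b c d, (trl s t).ψ w ∈ bdR (a + s) (b + s) (c + t) (d + t) := by
    rintro ⟨w1, w2⟩ ⟨h1, h2⟩
    unfold inR at h1
    simp only at h1 h2
    rw [trl_ψ]
    refine ⟨?_, ?_⟩
    · unfold inR
      simp only
      omega
    · simp only
      omega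
  have hin : ∀ u : Vtx, inB z σ u → inB (z.1 + s, z.2 + t) σ ((trl s t).ψ u) := by
    rintro ⟨u1, u2⟩ hu
    unfold inB inR at hu ⊢
    rw [trl_ψ]
    simp only at hu ⊢
    omega
  obtain ⟨u, v, hu, hv, ⟨w, hw, h1⟩, ⟨w', hw', h2⟩, h3⟩ := h
  unfold B4
  rw [hset]
  refine ⟨_, _, hin u hu, hin v hv, ⟨_, hbd w hw, (trl s t).reach h1⟩,
    ⟨_, hbd w' hw', (trl s t).reach h2⟩, ?_⟩
  rw [LSym.reach_iff]
  exact h3

/-- The local event around `z`. -/
theorem pr_B4 {q : ℝ} (h0 : 0 ≤ q) (h1 : q ≤ 1) (s R : ℕ) (z : ℤ × ℤ) {S : Finset Edg}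
    (hS : RE (z.1 - R) (z.1 + R) (z.2 - R) (z.2 + R) ⊆ S) :
    PQ q S (fun F => B4 z s (z.1 - R) (z.1 + R) (z.2 - R) (z.2 + R) ↑F) ≤ b4 q s R := by
  obtain ⟨x, y⟩ := z
  simp only at hS ⊢
  have hok : Ok (fun _ : Edg => q) := okq h0 h1
  unfold PQ
  rw [Pr_local hS (fun F _ => by
    apply B4_congr
    intro g hg _
    rw [Finset.coe_inter]
    exact ⟨fun h => ⟨h, hg⟩, fun h => h.1⟩)]
  have h2 : (trl (-x) (-y)).mp (RE (x - R) (x + R) (y - R) (y + R)) = boxE R := by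
    rw [trl_RE]
    unfold boxE
    congr 1 <;> ring
  unfold b4 PQ
  rw [← h2, LSym.pr]
  apply Pr_mono hok
  intro F _ hF
  have h4 := B4_trl (s := -x) (t := -y) hF
  rw [← LSym.coe_mp] at h4
  have e1 : x - (R:ℤ) + -x = -R := by ring
  have e2 : x + (R:ℤ) + -x = R := by ring
  have e3 : y - (R:ℤ) + -y = -R := by ring
  have e4 : y + (R:ℤ) + -y = R := by ring
  have e5 : ((x + -x, y + -y) : ℤ × ℤ) = (0, 0) := by
    rw [add_neg_cancel, add_neg_cancel]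
  simp only at h4
  rw [e1, e2, e3, e4, e5] at h4
  exact h4

/-- The reverse inequality. -/
theorem b4_le_pr {q : ℝ} (h0 : 0 ≤ q) (h1 : q ≤ 1) (s R : ℕ) (z : ℤ × ℤ) {S : Finset Edg}
    (hS : S ⊆ RE (z.1 - R) (z.1 + R) (z.2 - R) (z.2 + R)) {a b c d : ℤ}
    (hab : RE a b c d = S) (ha : z.1 - R ≤ a) (hb : b ≤ z.1 + R) (hc : z.2 - R ≤ c)
    (hd : d ≤ z.2 + R) (k1 : a ≤ z.1 - s) (k2 : z.1 + s ≤ b) (k3 : c ≤ z.2 - s)
    (k4 : z.2 + s ≤ d) :
    b4 q s R ≤ PQ q S (fun F => B4 z s a b c d ↑F) := by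
  obtain ⟨x, y⟩ := z
  simp only at hS ha hb hc hd k1 k2 k3 k4 ⊢
  have hok : Ok (fun _ : Edg => q) := okq h0 h1
  have h2 : (trl x y).mp (boxE R) = RE (x - R) (x + R) (y - R) (y + R) := by
    unfold boxE
    rw [trl_RE]
    congr 1 <;> ring
  have h3 : PQ q S (fun F => B4 (x, y) s a b c d ↑F) =
      PQ q (RE (x - R) (x + R) (y - R) (y + R)) (fun F => B4 (x, y) s a b c d ↑F) := by
    unfold PQ
    rw [Pr_local hS (fun F _ => by
      apply B4_congr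
      intro g hg _
      rw [Finset.coe_inter]
      exact ⟨fun h => ⟨h, by rw [← hab]; exact hg⟩, fun h => h.1⟩)]
  rw [h3]
  unfold b4 PQ
  rw [← h2, LSym.pr]
  apply Pr_mono hok
  intro F _ hF
  have h4 := B4_trl (s := x) (t := y) hF
  rw [← LSym.coe_mp] at h4
  have e1 : -(R:ℤ) + x = x - R := by ring
  have e2 : (R:ℤ) + x = x + R := by ring
  have e3 : -(R:ℤ) + y = y - R := by ring
  have e4 : (R:ℤ) + y = y + R := by ring
  have e5 : (((0, 0) : ℤ × ℤ).1 + x, ((0, 0) : ℤ × ℤ).2 + y) = (x, y) := by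
    simp
  rw [e5, e1, e2, e3, e4] at h4
  exact B4_sub ha hb hc hd k1 k2 k3 k4 h4

theorem boxE_sub' {m k : ℕ} (h : k ≤ m) : boxE k ⊆ boxE m := by
  unfold boxE
  have : (k:ℤ) ≤ m := by exact_mod_cast h
  exact RE_subset (by omega) (by omega) (by omega) (by omega)

theorem b4_nonneg {q : ℝ} (h0 : 0 ≤ q) (h1 : q ≤ 1) (s R : ℕ) : 0 ≤ b4 q s R :=
  Pr_nonneg (okq h0 h1) _ _

theorem b4_le_one {q : ℝ} (h0 : 0 ≤ q) (h1 : q ≤ 1) (s R : ℕ) : b4 q s R ≤ 1 :=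
  Pr_le_one (okq h0 h1) _ _

theorem b4_anti {q : ℝ} (h0 : 0 ≤ q) (h1 : q ≤ 1) {s R R' : ℕ} (hs : s ≤ R) (h : R ≤ R') :
    b4 q s R' ≤ b4 q s R := by
  have hR : (R:ℤ) ≤ R' := by exact_mod_cast h
  have hsR : (s:ℤ) ≤ R := by exact_mod_cast hs
  refine (b4_le_pr h0 h1 s R' (0, 0) (S := boxE R) (a := -R) (b := R) (c := -R) (d := R)
    ?_ rfl ?_ ?_ ?_ ?_ ?_ ?_ ?_ ?_).trans (le_of_eq rfl)
  · unfold boxE
    apply RE_subset <;> simp only <;> omega
  all_goals simp only; omega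

/-- Adding the edges of `H` one by one. -/
theorem exists_pivot {G : Set Edg} {u v : Vtx} (hn : ¬ Reach G u v) (H : Finset Edg)
    (hH : Reach (G ∪ ↑H) u v) : ∃ e ∈ H, ∃ H' ⊆ H, Reach (insert e (G ∪ ↑H')) u v ∧
      ¬ Reach (G ∪ ↑H') u v := by
  classical
  induction H using Finset.induction_on with
  | empty =>
    exfalso
    apply hn
    simpa using hH
  | insert a H ha ih =>
    by_cases h : Reach (G ∪ ↑H) u v
    · obtain ⟨e, he, H', hH', h1, h2⟩ := ih h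
      exact ⟨e, Finset.mem_insert_of_mem he, H', hH'.trans (Finset.subset_insert _ _), h1, h2⟩
    · refine ⟨a, Finset.mem_insert_self _ _, H, Finset.subset_insert _ _, ?_, h⟩
      rw [Finset.coe_insert] at hH
      refine hH.mono ?_
      rintro x (hx | hx | hx)
      · exact Or.inr (Or.inl hx)
      · exact Or.inl hx
      · exact Or.inr (Or.inr hx)

/-- Horizontal lines in a full rectangle. -/
theorem reach_rowRE {a b c d : ℤ} {y : ℤ} (hc : c ≤ y) (hd : y ≤ d) {x : ℤ} (n : ℕ)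
    (ha : a ≤ x) (hb : x + n ≤ b) : Reach (↑(RE a b c d) : Set Edg) (x, y) (x + n, y) := by
  induction n with
  | zero =>
    simpa using Reach.refl _ _
  | succ n ih =>
    push_cast at hb ⊢
    refine (ih (by omega)).trans (Adj.reach ⟨(x + n, y, true), ?_, Or.inl ⟨rfl, ?_⟩⟩)
    · rw [Finset.mem_coe, mem_RE_true]
      omega
    · rw [tgt_true]
      congr 1
      ring

theorem reach_colRE {a b c d : ℤ} {x : ℤ} (ha : a ≤ x) (hb : x ≤ b) {y : ℤ} (n : ℕ)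
    (hc : c ≤ y) (hd : y + n ≤ d) : Reach (↑(RE a b c d) : Set Edg) (x, y) (x, y + n) := by
  induction n with
  | zero =>
    simpa using Reach.refl _ _
  | succ n ih =>
    push_cast at hd ⊢
    refine (ih (by omega)).trans (Adj.reach ⟨(x, y + n, false), ?_, Or.inl ⟨rfl, ?_⟩⟩)
    · rw [Finset.mem_coe, mem_RE_false]
      omega
    · rw [tgt_false]
      congr 1
      ring

theorem reach_RE {a b c d : ℤ} {u v : Vtx} (hu : inR a b c d u) (hv : inR a b c d v) :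
    Reach (↑(RE a b c d) : Set Edg) u v := by
  obtain ⟨u1, u2⟩ := u
  obtain ⟨v1, v2⟩ := v
  unfold inR at hu hv
  simp only at hu hv
  have row : ∀ x x' : ℤ, a ≤ x → x ≤ b → a ≤ x' → x' ≤ b →
      Reach (↑(RE a b c d) : Set Edg) (x, u2) (x', u2) := by
    intro x x' k1 k2 k3 k4
    rcases le_total x x' with h | h
    · obtain ⟨n, hn⟩ := Int.eq_ofNat_of_zero_le (sub_nonneg.mpr h)
      have e : x' = x + n := by omega
      rw [e]
      exact reach_rowRE (by omega) (by omega) n k1 (by omega)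
    · obtain ⟨n, hn⟩ := Int.eq_ofNat_of_zero_le (sub_nonneg.mpr h)
      have e : x = x' + n := by omega
      rw [e]
      exact (reach_rowRE (by omega) (by omega) n k3 (by omega)).symm
  have col : ∀ y y' : ℤ, c ≤ y → y ≤ d → c ≤ y' → y' ≤ d →
      Reach (↑(RE a b c d) : Set Edg) (v1, y) (v1, y') := by
    intro x x' k1 k2 k3 k4
    rcases le_total x x' with h | h
    · obtain ⟨n, hn⟩ := Int.eq_ofNat_of_zero_le (sub_nonneg.mpr h)
      have e : x' = x + n := by omega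
      rw [e]
      exact reach_colRE (by omega) (by omega) n k1 (by omega)
    · obtain ⟨n, hn⟩ := Int.eq_ofNat_of_zero_le (sub_nonneg.mpr h)
      have e : x = x' + n := by omega
      rw [e]
      exact (reach_colRE (by omega) (by omega) n k3 (by omega)).symm
  exact (row u1 v1 (by omega) (by omega) (by omega) (by omega)).trans
    (col u2 v2 (by omega) (by omega) (by omega) (by omega))

/-- Four arms from the block give four arms from an edge of the block, after a modification of the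
configuration in the block. -/
theorem B4_edge {z : ℤ × ℤ} {s : ℕ} {a b c d : ℤ} {F : Set Edg} (hF : F ⊆ ↑(RE a b c d))
    (hblk : blk z s ⊆ RE a b c d) (h : B4 z s a b c d F) :
    ∃ e ∈ blk z s, ∃ H ⊆ blk z s, A4 a b c d e ((F \ ↑(blk z s)) ∪ ↑H) := by
  have e0 : (F ∩ ↑(RE a b c d)) \ ↑(blk z s) = F \ ↑(blk z s) := by
    rw [Set.inter_eq_left.mpr hF]
  unfold B4 at h
  rw [e0] at h
  obtain ⟨u, v, hu, hv, ⟨w, hw, hwu⟩, ⟨w', hw', hwv⟩, hn⟩ := h
  have h1 : Reach ((F \ ↑(blk z s)) ∪ ↑(blk z s)) u v := by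
    refine Reach.mono (Set.subset_union_right) ?_
    exact reach_RE hu hv
  obtain ⟨e, he, H, hH, h2, h3⟩ := exists_pivot hn (blk z s) h1
  refine ⟨e, he, H, hH, ?_⟩
  set G : Set Edg := (F \ ↑(blk z s)) ∪ ↑H with hG
  have hGR : G ⊆ ↑(RE a b c d) := by
    rintro x (hx | hx)
    · exact hF hx.1
    · exact hblk (hH hx)
  have heG : e ∉ G := by
    intro hcon
    apply h3
    rwa [Set.insert_eq_of_mem hcon] at h2
  have e1 : (G ∩ ↑(RE a b c d)) \ {e} = G := by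
    rw [Set.inter_eq_left.mpr hGR, Set.sdiff_singleton_eq_self heG]
  unfold A4
  rw [e1]
  have hsub : F \ ↑(blk z s) ⊆ G := Set.subset_union_left
  have h4 := (GR_insert (s := src) (t := tgt) (F := G) (e := e) (x := u) (y := v)).mp h2
  rcases h4 with h4 | ⟨h4, h5⟩ | ⟨h4, h5⟩
  · exact absurd h4 h3
  · have h4' : Reach G u (src e) := h4
    have h5' : Reach G (tgt e) v := h5
    exact ⟨⟨w, hw, h4'.symm.trans (hwu.mono hsub)⟩, ⟨w', hw', h5'.trans (hwv.mono hsub)⟩,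
      fun h6 => h3 ((h4'.trans h6).trans h5')⟩
  · have h4' : Reach G u (tgt e) := h4
    have h5' : Reach G (src e) v := h5
    exact ⟨⟨w', hw', h5'.trans (hwv.mono hsub)⟩, ⟨w, hw, h4'.symm.trans (hwu.mono hsub)⟩,
      fun h6 => h3 ((h4'.trans h6.symm).trans h5')⟩

end Pool.Agent.R960
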