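import Pool.Agent.R960.B4a

/-!
Four arms around a block (near-critical), part 2: the exit inequality for a general event.
-/

namespace Pool.Agent.R960

open H974 H12S Finset EP2

/-- The end event. -/
def EndE (L m : ℕ) (F : Finset Edg) : Prop := ∃ u v : Vtx, |u.1| ≤ m ∧ (L * m : ℕ) ≤ |v.1| ∧
    |u.2| ≤ m ∧ Reach (↑(F ∩ (RE (-(L * m : ℕ)) (L * m : ℕ) (-m) m \ boxE (m / 2 - 1))) : Set Edg) u v

/-- Independence of an event and of the configuration outside of `boxE (m / 2 - 1)`. -/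
def IndP (q : ℝ) (L m : ℕ) (Ev : Finset Edg → Prop) (P0 : ℝ) : Prop :=
  ∀ B : Finset Edg → Prop, (∀ F, B F ↔ B (F \ boxE (m / 2 - 1))) →
    PQ q (SR L m) (fun F => Ev F ∧ B F) ≤ P0 * PQ q (SR L m) B

/-- The deterministic exit lemma, for a general event `Ev`. -/
def DetP (L m r ρ : ℕ) (Ev : Finset Edg → Prop)
    (T : ℕ → ℕ → ℕ → ℕ → Bool → ℤ → Bool → ℤ → Finset Edg → Prop) : Prop :=
  ∀ F : Finset Edg, F ⊆ SR L m → Ev F → ¬ EndE L m F →
    (∀ (σ : Bool) (k : ℤ), |2 * r * k| ≤ (L * m : ℕ) + r → ¬ H3s σ m (2 * r * k) r ρ ↑F) →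
    (∀ (σ : Bool) (k : ℤ), |4 * ρ * k| ≤ (L * m : ℕ) + 8 * ρ →
      ¬ H3s σ m (4 * ρ * k) (8 * ρ) (m / 2) ↑F) →
    ∃ (σ σ' : Bool) (k k' : ℤ), |2 * r * k| ≤ (L * m : ℕ) + r ∧ |2 * r * k'| ≤ (L * m : ℕ) + r ∧
      T L m r ρ σ (2 * r * k) σ' (2 * r * k') F

theorem ind_H3 {κ C c : ℝ} (H3 : H3B κ C c) {q : ℝ} {n : ℕ} (hW : Win q κ n)
    {L m : ℕ} (hm : 64 ≤ m) {Ev : Finset Edg → Prop} {P0 : ℝ} (hP0 : 0 ≤ P0)
    (HA : IndP q L m Ev P0) {r R : ℕ} (hr : 1 ≤ r)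
    (hrR : r ≤ R) (hR : 2 * R ≤ m) (hn : R ≤ n) (σ : Bool) {x0 : ℤ}
    (hx : |x0| + R ≤ (2 * L * m : ℕ)) :
    PQ q (SR L m) (fun F => Ev F ∧ H3s σ m x0 r R ↑F) ≤ P0 * (C * ((r:ℝ) / R) ^ (1 + c)) := by
  refine (HA (fun F => H3s σ m x0 r R ↑F) ?_).trans
    (mul_le_mul_of_nonneg_left (H3 q n hW r R hr hrR hn σ m x0 _ (HB_sub (by omega) hx)) hP0)
  intro F
  apply H3s_congr
  ext x
  simp only [Set.mem_inter_iff, Finset.mem_coe, Finset.mem_sdiff]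
  constructor
  · rintro ⟨hxF, hxH⟩
    exact ⟨⟨hxF, HB_notMem hR (by omega) hxH⟩, hxH⟩
  · rintro ⟨⟨hxF, _⟩, hxH⟩
    exact ⟨hxF, hxH⟩

theorem end_bound (κ : ℝ) (hκ : 0 < κ) : ∃ C c : ℝ, 0 < C ∧ 0 < c ∧ ∀ (q : ℝ) (n : ℕ),
    Win q κ n → ∀ m L : ℕ, 64 ≤ m → 2 ≤ L → 2 * m ≤ n → ∀ (Ev : Finset Edg → Prop) (P0 : ℝ),
      0 ≤ P0 → IndP q L m Ev P0 →
      PQ q (SR L m) (fun F => Ev F ∧ EndE L m F) ≤ P0 * (C * Real.exp (-c * L)) := by
  obtain ⟨C, c, hC, hc, h⟩ := win_end_of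
    (fun {q κ n} h {m} hm hmn c1 c2 S => win_blk h hm hmn c1 c2 S) κ hκ
  refine ⟨C, c, hC, hc, ?_⟩
  intro q n hw m L hm hL hmn Ev P0 hP0 HA
  set S0 : Finset Edg := RE (-(L * m : ℕ)) (L * m : ℕ) (-m) m \ boxE (m / 2 - 1) with hS0
  have hB : ∀ F, EndE L m F ↔ EndE L m (F \ boxE (m / 2 - 1)) := by
    intro F
    have h1 : F ∩ S0 = (F \ boxE (m / 2 - 1)) ∩ S0 := by
      ext f
      simp only [Finset.mem_inter, Finset.mem_sdiff, hS0]
      tauto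
    unfold EndE
    rw [← hS0, ← h1]
  refine (HA _ hB).trans (mul_le_mul_of_nonneg_left ?_ hP0)
  have hS0S : S0 ⊆ SR L m := by
    rw [hS0]
    refine Finset.sdiff_subset.trans ?_
    unfold SR
    have h2N : 2 * L * m = 2 * (L * m) := by ring
    rw [h2N]
    exact RE_subset (by omega) (by omega) (by omega) (by omega)
  have h3 : PQ q (SR L m) (EndE L m) = PQ q S0 (EndE L m) := by
    unfold PQ
    apply Pr_local hS0S
    intro F _
    unfold EndE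
    rw [← hS0, Finset.inter_assoc, Finset.inter_self]
  rw [h3]
  refine le_trans ?_ (h q n hw m L (by omega) hmn S0 Finset.sdiff_subset)
  apply Pr_mono hw.ok
  rintro F - ⟨u, v, hu, hv, hu2, hr⟩
  refine ⟨u, v, hu, hv, hu2, hr.mono ?_⟩
  rw [Finset.coe_inter]
  exact Set.inter_subset_left

theorem exit_abs (κ : ℝ) (hκ : 0 < κ) :
    ∃ C c : ℝ, 0 < C ∧ 0 < c ∧ ∀ (L : ℕ) (δ : ℝ), 2 ≤ L →
    0 < δ → ∃ M1 M2 N : ℕ, 64 ≤ M1 ∧ 8 * M1 ≤ M2 ∧ ∀ (q : ℝ) (n : ℕ), Win q κ n → ∀ m : ℕ,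
      M2 ≤ m → 4 * L * m ≤ n → ∀ (Ev : Finset Edg → Prop) (P0 : ℝ)
      (T : ℕ → ℕ → ℕ → ℕ → Bool → ℤ → Bool → ℤ → Finset Edg → Prop), 0 ≤ P0 →
      IndP q L m Ev P0 → DetP L m (m / M2) (m / M1) Ev T →
      PQ q (SR L m) Ev ≤
        (∑ p ∈ prs L m (m / M2) N, PQ q (SR L m) (fun F =>
          T L m (m / M2) (m / M1) p.1.1 (2 * (m / M2 : ℕ) * p.1.2) p.2.1
            (2 * (m / M2 : ℕ) * p.2.2) F)) +
        (δ + C * Real.exp (-c * L)) * P0 := by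
  classical
  obtain ⟨C1, c1, hC1, hc1, H3⟩ := H3s_prob κ hκ
  obtain ⟨C2, c2, hC2, hc2, HE⟩ := end_bound κ hκ
  refine ⟨C2, c2, hC2, hc2, ?_⟩
  intro L δ hL hδ
  obtain ⟨M1, hM1, hM1b⟩ := choose_M (4 * L) 10 C1 20 (by positivity) (by norm_num) hC1.le
    (by norm_num) hc1 (half_pos hδ) 64
  obtain ⟨M2, hM2, hM2b⟩ := choose_M (4 * L) 6 C1 (2 * M1) (by positivity) (by norm_num) hC1.le
    (by positivity) hc1 (half_pos hδ) (8 * M1)
  refine ⟨M1, M2, L * M2 + 1, hM1, hM2, ?_⟩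
  intro q n hW m hm hn Ev P0 T hP0 HA HT
  obtain ⟨h0, h1⟩ := win01 hW
  obtain ⟨r, hr⟩ : ∃ r : ℕ, r = m / M2 := ⟨_, rfl⟩
  obtain ⟨ρ, hρ⟩ : ∃ ρ : ℕ, ρ = m / M1 := ⟨_, rfl⟩
  have hr1 : 1 ≤ r := by rw [hr]; exact (Nat.one_le_div_iff (by omega)).mpr hm
  have hρ1 : 1 ≤ ρ := by rw [hρ]; exact (Nat.one_le_div_iff (by omega)).mpr (by omega)
  have hmul1 : M1 * ρ ≤ m := by rw [hρ]; exact Nat.mul_div_le m M1
  have hmul2 : M2 * r ≤ m := by rw [hr]; exact Nat.mul_div_le m M2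
  have hlt1 : m < M1 * ρ + M1 := by
    rw [hρ]
    have := Nat.div_add_mod m M1
    have := Nat.mod_lt m (show M1 > 0 by omega)
    omega
  have hlt2 : m < M2 * r + M2 := by
    rw [hr]
    have := Nat.div_add_mod m M2
    have := Nat.mod_lt m (show M2 > 0 by omega)
    omega
  have h64 : 64 * ρ ≤ m := le_trans (Nat.mul_le_mul_right ρ hM1) hmul1
  have h8 : 8 * r ≤ ρ := by
    have : 8 * r * M1 ≤ m := by
      calc 8 * r * M1 = 8 * M1 * r := by ring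
        _ ≤ M2 * r := Nat.mul_le_mul_right r hM2
        _ ≤ m := hmul2
    rw [hρ]
    exact (Nat.le_div_iff_mul_le (by omega)).mpr this
  have hm64 : 64 ≤ m := by omega
  have hLm : 2 * m ≤ L * m := Nat.mul_le_mul_right m hL
  have hLm2 : 2 * L * m = 2 * (L * m) := by ring
  have hLm4 : 4 * L * m = 4 * (L * m) := by ring
  rw [← hr, ← hρ] at HT
  simp only [← hr, ← hρ]
  set K1 : Finset ℤ := (Icc (-((L * M2 + 1 : ℕ) : ℤ)) ((L * M2 + 1 : ℕ) : ℤ)).filter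
    (fun k => |2 * r * k| ≤ (L * m : ℕ) + (r:ℤ)) with hK1
  set K2 : Finset ℤ := (Icc (-((L * M1 + 2 : ℕ) : ℤ)) ((L * M1 + 2 : ℕ) : ℤ)).filter
    (fun k => |4 * ρ * k| ≤ (L * m : ℕ) + 8 * (ρ:ℤ)) with hK2
  have mK1 : ∀ k : ℤ, |2 * r * k| ≤ (L * m : ℕ) + (r:ℤ) → k ∈ K1 := by
    intro k hk
    rw [hK1, Finset.mem_filter]
    refine ⟨?_, hk⟩
    rw [Finset.mem_Icc, ← abs_le]
    rw [abs_mul, abs_of_nonneg (by positivity : (0:ℤ) ≤ 2 * r)] at hk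
    by_contra hcon
    push Not at hcon
    have h3 : ((L * M2 + 2 : ℕ) : ℤ) ≤ |k| := by
      push_cast at hcon ⊢
      linarith
    have h4 : (2 * r : ℤ) * ((L * M2 + 2 : ℕ) : ℤ) ≤ 2 * r * |k| :=
      mul_le_mul_of_nonneg_left h3 (by positivity)
    have h5 : L * m ≤ L * (M2 * r + M2) := Nat.mul_le_mul_left L hlt2.le
    have h6 : L * M2 ≤ L * M2 * r := Nat.le_mul_of_pos_right _ (by omega)
    have h7 : (2 * r : ℤ) * ((L * M2 + 2 : ℕ) : ℤ) ≤ (L * m : ℕ) + (r:ℤ) := h4.trans hk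
    have h8' : 2 * r * (L * M2 + 2) ≤ L * m + r := by exact_mod_cast h7
    have h9 : 2 * r * (L * M2 + 2) = 2 * (L * M2 * r) + 4 * r := by ring
    have h10 : L * (M2 * r + M2) = L * M2 * r + L * M2 := by ring
    omega
  have mK2 : ∀ k : ℤ, |4 * ρ * k| ≤ (L * m : ℕ) + 8 * (ρ:ℤ) → k ∈ K2 := by
    intro k hk
    rw [hK2, Finset.mem_filter]
    refine ⟨?_, hk⟩
    rw [Finset.mem_Icc, ← abs_le]
    rw [abs_mul, abs_of_nonneg (by positivity : (0:ℤ) ≤ 4 * ρ)] at hk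
    by_contra hcon
    push Not at hcon
    have h3 : ((L * M1 + 3 : ℕ) : ℤ) ≤ |k| := by
      push_cast at hcon ⊢
      linarith
    have h4 : (4 * ρ : ℤ) * ((L * M1 + 3 : ℕ) : ℤ) ≤ 4 * ρ * |k| :=
      mul_le_mul_of_nonneg_left h3 (by positivity)
    have h5 : L * m ≤ L * (M1 * ρ + M1) := Nat.mul_le_mul_left L hlt1.le
    have h6 : L * M1 ≤ L * M1 * ρ := Nat.le_mul_of_pos_right _ (by omega)
    have h7 : (4 * ρ : ℤ) * ((L * M1 + 3 : ℕ) : ℤ) ≤ (L * m : ℕ) + 8 * (ρ:ℤ) := h4.trans hk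
    have h8' : 4 * ρ * (L * M1 + 3) ≤ L * m + 8 * ρ := by exact_mod_cast h7
    have h9 : 4 * ρ * (L * M1 + 3) = 4 * (L * M1 * ρ) + 12 * ρ := by ring
    have h10 : L * (M1 * ρ + M1) = L * M1 * ρ + L * M1 := by ring
    omega
  -- union bound
  have hub : PQ q (SR L m) Ev ≤
      PQ q (SR L m) (fun F => (∃ p ∈ prs L m r (L * M2 + 1),
          T L m r ρ p.1.1 (2 * r * p.1.2) p.2.1 (2 * r * p.2.2) F) ∨
        ((Ev F ∧
          EndE L m F) ∨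
        ((∃ s ∈ (univ : Finset Bool) ×ˢ K1, Ev F ∧
          H3s s.1 m (2 * r * s.2) r ρ ↑F) ∨
        (∃ s ∈ (univ : Finset Bool) ×ˢ K2, Ev F ∧
          H3s s.1 m (4 * ρ * s.2) (8 * ρ) (m / 2) ↑F)))) := by
    apply Pr_mono (okq h0 h1)
    intro F hF hA
    by_contra hcon
    push Not at hcon
    obtain ⟨hQ, hEnd, hS, hB⟩ := hcon
    obtain ⟨σ, σ', k, k', hk, hk', hQe⟩ := HT F hF hA (hEnd hA)
      (fun σ k hk => hS (σ, k) (Finset.mem_product.mpr ⟨Finset.mem_univ _, mK1 k hk⟩) hA)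
      (fun σ k hk => hB (σ, k) (Finset.mem_product.mpr ⟨Finset.mem_univ _, mK2 k hk⟩) hA)
    refine hQ ((σ, k), (σ', k')) ?_ hQe
    have m1 := mK1 k hk
    have m2 := mK1 k' hk'
    rw [hK1, Finset.mem_filter] at m1 m2
    unfold prs
    rw [Finset.mem_filter, Finset.mem_product, Finset.mem_product, Finset.mem_product]
    exact ⟨⟨⟨Finset.mem_univ _, m1.1⟩, ⟨Finset.mem_univ _, m2.1⟩⟩, hk, hk'⟩
  have b1 := pr_biUnion h0 h1 (SR L m) (prs L m r (L * M2 + 1)) (fun p F =>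
    T L m r ρ p.1.1 (2 * r * p.1.2) p.2.1 (2 * r * p.2.2) F)
  have b2 := HE q n hW m L hm64 hL (by omega) Ev P0 hP0 HA
  have a4n := hP0
  -- small events
  have b3 : PQ q (SR L m) (fun F => ∃ s ∈ (univ : Finset Bool) ×ˢ K1,
      Ev F ∧ H3s s.1 m (2 * r * s.2) r ρ ↑F) ≤
      δ / 2 * P0 := by
    refine (pr_biUnion h0 h1 (SR L m) _ _).trans ?_
    have hterm : ∀ s ∈ (univ : Finset Bool) ×ˢ K1, PQ q (SR L m) (fun F =>
        Ev F ∧ H3s s.1 m (2 * r * s.2) r ρ ↑F) ≤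
        P0 * (C1 * (2 * M1 / M2) ^ (1 + c1)) := by
      rintro ⟨σ, k⟩ hs
      rw [Finset.mem_product, hK1, Finset.mem_filter] at hs
      obtain ⟨-, -, hk⟩ := hs
      refine (ind_H3 H3 hW hm64 hP0 HA hr1 (by omega) (by omega) (by omega) σ ?_).trans ?_
      · simp only at hk ⊢
        push_cast at hk ⊢
        have h3 : ((2 * m : ℕ) : ℤ) ≤ ((L * m : ℕ) : ℤ) := by exact_mod_cast hLm
        push_cast at h3
        have h4 : (64 * ρ : ℤ) ≤ m := by exact_mod_cast h64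
        have h5 : (8 * r : ℤ) ≤ ρ := by exact_mod_cast h8
        have h6 : (0:ℤ) ≤ r := by positivity
        have h7 : (0:ℤ) ≤ ρ := by positivity
        linarith
      · refine mul_le_mul_of_nonneg_left (mul_le_mul_of_nonneg_left (ratio_le (by positivity) ?_ hc1)
          hC1.le) a4n
        have h3 : (r:ℝ) ≤ m / M2 := by rw [hr]; exact Nat.cast_div_le
        have h4 : (m:ℝ) / (2 * M1) ≤ ρ := by rw [hρ]; exact div_ge (by omega) (by omega)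
        have hM1p : (0:ℝ) < M1 := by exact_mod_cast (by omega : 0 < M1)
        have hM2p : (0:ℝ) < M2 := by exact_mod_cast (by omega : 0 < M2)
        have hmp : (0:ℝ) < m := by exact_mod_cast (by omega : 0 < m)
        have hρp : (0:ℝ) < ρ := by exact_mod_cast (by omega : 0 < ρ)
        calc (r:ℝ) / ρ ≤ (m / M2) / (m / (2 * M1)) :=
              div_le_div₀ (by positivity) h3 (by positivity) h4
          _ = 2 * M1 / M2 := by field_simp
    refine (Finset.sum_le_sum hterm).trans ?_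
    rw [Finset.sum_const, nsmul_eq_mul]
    have hcard : ((((univ : Finset Bool) ×ˢ K1).card : ℕ) : ℝ) ≤ 4 * L * M2 + 6 := by
      rw [Finset.card_product, Finset.card_univ, Fintype.card_bool]
      have h3 : K1.card ≤ 2 * (L * M2 + 1) + 1 := by
        refine (Finset.card_filter_le _ _).trans ?_
        rw [Int.card_Icc]
        omega
      calc (((2 * K1.card : ℕ)) : ℝ) ≤ ((2 * (2 * (L * M2 + 1) + 1) : ℕ) : ℝ) := by
            exact_mod_cast Nat.mul_le_mul_left 2 h3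
        _ = 4 * L * M2 + 6 := by push_cast; ring
    have hpos : 0 ≤ P0 * (C1 * (2 * (M1:ℝ) / M2) ^ (1 + c1)) := by positivity
    calc _ ≤ (4 * L * M2 + 6) * (P0 * (C1 * (2 * (M1:ℝ) / M2) ^ (1 + c1))) :=
          mul_le_mul_of_nonneg_right hcard hpos
      _ = ((4 * L * M2 + 6) * (C1 * (2 * (M1:ℝ) / M2) ^ (1 + c1))) * P0 := by ring
      _ ≤ δ / 2 * P0 := mul_le_mul_of_nonneg_right hM2b a4n
  -- big events
  have b4 : PQ q (SR L m) (fun F => ∃ s ∈ (univ : Finset Bool) ×ˢ K2,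
      Ev F ∧
        H3s s.1 m (4 * ρ * s.2) (8 * ρ) (m / 2) ↑F) ≤ δ / 2 * P0 := by
    refine (pr_biUnion h0 h1 (SR L m) _ _).trans ?_
    have hterm : ∀ s ∈ (univ : Finset Bool) ×ˢ K2, PQ q (SR L m) (fun F =>
        Ev F ∧
          H3s s.1 m (4 * ρ * s.2) (8 * ρ) (m / 2) ↑F) ≤
        P0 * (C1 * (20 / M1) ^ (1 + c1)) := by
      rintro ⟨σ, k⟩ hs
      rw [Finset.mem_product, hK2, Finset.mem_filter] at hs
      obtain ⟨-, -, hk⟩ := hs
      refine (ind_H3 H3 hW hm64 hP0 HA (by omega) (by omega) (by omega) (by omega) σ ?_).trans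
        ?_
      · simp only at hk ⊢
        have h2' : ((m / 2 : ℕ) : ℤ) ≤ m := by exact_mod_cast Nat.div_le_self m 2
        have h3 : ((2 * m : ℕ) : ℤ) ≤ ((L * m : ℕ) : ℤ) := by exact_mod_cast hLm
        have h4 : (64 * ρ : ℤ) ≤ m := by exact_mod_cast h64
        have h7 : (0:ℤ) ≤ ρ := by positivity
        have h9 : ((2 * L * m : ℕ) : ℤ) = 2 * ((L * m : ℕ) : ℤ) := by push_cast; ring
        rw [h9]
        push_cast at hk h3 ⊢
        push_cast at h2'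
        linarith
      · refine mul_le_mul_of_nonneg_left (mul_le_mul_of_nonneg_left (ratio_le (by positivity) ?_ hc1)
          hC1.le) a4n
        have h3 : (ρ:ℝ) ≤ m / M1 := by rw [hρ]; exact Nat.cast_div_le
        have h4 : (2:ℝ) / 5 * m ≤ ((m / 2 : ℕ) : ℝ) := by
          have h5 : 2 * m ≤ 5 * (m / 2) := by omega
          have h6 : (2:ℝ) * m ≤ 5 * ((m / 2 : ℕ) : ℝ) := by exact_mod_cast h5
          linarith
        have hM1p : (0:ℝ) < M1 := by exact_mod_cast (by omega : 0 < M1)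
        have hmp : (0:ℝ) < m := by exact_mod_cast (by omega : 0 < m)
        have h5 : ((8 * ρ : ℕ) : ℝ) ≤ 8 * (m / M1) := by
          push_cast
          linarith
        calc ((8 * ρ : ℕ) : ℝ) / ((m / 2 : ℕ) : ℝ) ≤ (8 * (m / M1)) / (2 / 5 * m) :=
              div_le_div₀ (by positivity) h5 (by positivity) h4
          _ = 20 / M1 := by field_simp; norm_num
    refine (Finset.sum_le_sum hterm).trans ?_
    rw [Finset.sum_const, nsmul_eq_mul]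
    have hcard : ((((univ : Finset Bool) ×ˢ K2).card : ℕ) : ℝ) ≤ 4 * L * M1 + 10 := by
      rw [Finset.card_product, Finset.card_univ, Fintype.card_bool]
      have h3 : K2.card ≤ 2 * (L * M1 + 2) + 1 := by
        refine (Finset.card_filter_le _ _).trans ?_
        rw [Int.card_Icc]
        omega
      calc (((2 * K2.card : ℕ)) : ℝ) ≤ ((2 * (2 * (L * M1 + 2) + 1) : ℕ) : ℝ) := by
            exact_mod_cast Nat.mul_le_mul_left 2 h3
        _ = 4 * L * M1 + 10 := by push_cast; ring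
    have hpos : 0 ≤ P0 * (C1 * (20 / (M1:ℝ)) ^ (1 + c1)) := by positivity
    calc _ ≤ (4 * L * M1 + 10) * (P0 * (C1 * (20 / (M1:ℝ)) ^ (1 + c1))) :=
          mul_le_mul_of_nonneg_right hcard hpos
      _ = ((4 * L * M1 + 10) * (C1 * (20 / (M1:ℝ)) ^ (1 + c1))) * P0 := by ring
      _ ≤ δ / 2 * P0 := mul_le_mul_of_nonneg_right hM1b a4n
  have c1' := Pr_or_le (okq h0 h1) (SR L m) (fun F => ∃ p ∈ prs L m r (L * M2 + 1),
          T L m r ρ p.1.1 (2 * r * p.1.2) p.2.1 (2 * r * p.2.2) F) (fun F =>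
        ((Ev F ∧
          EndE L m F) ∨
        ((∃ s ∈ (univ : Finset Bool) ×ˢ K1, Ev F ∧
          H3s s.1 m (2 * r * s.2) r ρ ↑F) ∨
        (∃ s ∈ (univ : Finset Bool) ×ˢ K2, Ev F ∧
          H3s s.1 m (4 * ρ * s.2) (8 * ρ) (m / 2) ↑F))))
  have c2' := Pr_or_le (okq h0 h1) (SR L m) (fun F =>
        (Ev F ∧
          EndE L m F)) (fun F =>
        ((∃ s ∈ (univ : Finset Bool) ×ˢ K1, Ev F ∧
          H3s s.1 m (2 * r * s.2) r ρ ↑F) ∨
        (∃ s ∈ (univ : Finset Bool) ×ˢ K2, Ev F ∧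
          H3s s.1 m (4 * ρ * s.2) (8 * ρ) (m / 2) ↑F)))
  have c3' := Pr_or_le (okq h0 h1) (SR L m) (fun F =>
        (∃ s ∈ (univ : Finset Bool) ×ˢ K1, Ev F ∧
          H3s s.1 m (2 * r * s.2) r ρ ↑F)) (fun F =>
        (∃ s ∈ (univ : Finset Bool) ×ˢ K2, Ev F ∧
          H3s s.1 m (4 * ρ * s.2) (8 * ρ) (m / 2) ↑F))
  have e1 : (δ + C2 * Real.exp (-c2 * L)) * P0 =
      P0 * (C2 * Real.exp (-c2 * L)) + (δ / 2 * P0 + δ / 2 * P0) := by
    ring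
  rw [e1]
  exact hub.trans (c1'.trans (add_le_add b1 (c2'.trans (add_le_add b2 (c3'.trans
    (add_le_add b3 b4))))))


end Pool.Agent.R960
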