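import Pool.Agent.R960.B4b

/-!
Four arms around a block (near-critical), part 3: `b4 q s R ≤ A s / R` in the window.
-/

namespace Pool.Agent.R960

open H974 H12S H973N Finset EP2

theorem boxE_sub {m k : ℕ} (h : k ≤ m) : boxE k ⊆ boxE m := by
  unfold boxE
  have : (k:ℤ) ≤ m := by exact_mod_cast h
  exact RE_subset (by omega) (by omega) (by omega) (by omega)

theorem boxE_SR {L m k : ℕ} (hL : 2 ≤ L) (h : k ≤ m) : boxE k ⊆ SR L m := by
  unfold boxE SR
  have h1 : m ≤ 2 * L * m := Nat.le_mul_of_pos_left _ (by omega)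
  exact RE_subset (by omega) (by omega) (by omega) (by omega)

theorem cross_EndE {L m : ℕ} (hL : 2 ≤ L) (hm : 64 ≤ m) {F : Finset Edg} {G : Set Edg}
    (hG : G ⊆ ↑(SR L m)) (hGF : ∀ g ∈ G, g ∉ boxE (m / 2 - 1) → g ∈ F) {u v : Vtx}
    (hu1 : |u.1| ≤ m) (hu2 : |u.2| ≤ m) (h : Reach G u v) (hv : ((L * m : ℕ) : ℤ) ≤ |v.1|) :
    EndE L m F := by
  obtain ⟨N, hNdef⟩ : ∃ N : ℕ, N = L * m := ⟨_, rfl⟩
  have hNm : 2 * m ≤ N := by rw [hNdef]; exact Nat.mul_le_mul_right _ hL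
  have h2N : 2 * L * m = 2 * N := by rw [hNdef]; ring
  obtain ⟨x', y', hx', hy', hr'⟩ := WA_cross (F := G) src tgt
    (P := fun v : Vtx => |v.1| ≤ m ∧ |v.2| ≤ m) (Q := fun v : Vtx => (L * m : ℕ) ≤ |v.1|)
    h ⟨hu1, hu2⟩ hv
  refine ⟨x', y', hx'.1, hy', hx'.2, ?_⟩
  have hr'' : Reach (G ∩ WA_T src tgt
    (fun v : Vtx => |v.1| ≤ m ∧ |v.2| ≤ m) (fun v : Vtx => ((L * m : ℕ) : ℤ) ≤ |v.1|)) x' y' := hr'
  refine hr''.mono ?_
  rintro f ⟨hf1, hf2, hf3⟩
  have hfS := hG hf1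
  have hff := hGF f hf1
  rw [Finset.coe_inter]
  have hkey : f ∈ RE (-((L * m : ℕ) : ℤ)) (L * m : ℕ) (-m) m ∧ f ∉ boxE (m / 2 - 1) := by
    rw [← hNdef] at hf3 ⊢
    unfold SR at hfS
    rw [h2N] at hfS
    obtain ⟨x, y, _ | _⟩ := f
    · simp only [src_mk, tgt_false, abs_le, le_abs, not_and_or, not_or, not_le] at hf2 hf3
      rw [Finset.mem_coe, mem_RE_false] at hfS
      rw [mem_RE_false]
      unfold boxE
      rw [mem_RE_false]
      omega
    · simp only [src_mk, tgt_true, abs_le, le_abs, not_and_or, not_or, not_le] at hf2 hf3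
      rw [Finset.mem_coe, mem_RE_true] at hfS
      rw [mem_RE_true]
      unfold boxE
      rw [mem_RE_true]
      omega
  refine ⟨hff hkey.2, ?_⟩
  rw [Finset.mem_coe, Finset.mem_sdiff]
  exact hkey

theorem detP_B4 {L m r ρ : ℕ} (hL : 2 ≤ L) (hr : 1 ≤ r) (hρ : 8 * r ≤ ρ) (hm : 64 * ρ ≤ m)
    {z : ℤ × ℤ} {s : ℕ} (hz : blk z s ⊆ boxE (m / 4)) :
    DetP L m r ρ (fun F => B4 z s (-(2 * L * m : ℕ)) (2 * L * m : ℕ) (-m) m ↑F)
      (fun _ m r _ σ x σ' x' F => BPv (cell σ m x r) (cell σ' m x' r) (blk z s) ↑F) := by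
  intro F hF hB hEnd hS hBig
  have hm64 : 64 ≤ m := by omega
  have hF' : (↑F : Set Edg) ⊆ ↑(RE (-(2 * L * m : ℕ)) (2 * L * m : ℕ) (-m) m) := by
    exact_mod_cast hF
  have hbSR : blk z s ⊆ RE (-(2 * L * m : ℕ)) (2 * L * m : ℕ) (-m) m :=
    hz.trans (boxE_SR hL (by omega))
  have hb2 : blk z s ⊆ boxE (m / 2 - 1) := hz.trans (boxE_sub (by omega))
  obtain ⟨e, he, H, hH, hA⟩ := B4_edge hF' hbSR hB
  set F2 : Set Edg := ((↑F : Set Edg) \ ↑(blk z s)) ∪ ↑H with hF2d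
  have hF2 : F2 ⊆ ↑(RE (-(2 * L * m : ℕ)) (2 * L * m : ℕ) (-m) m) := by
    rintro x (hx | hx)
    · exact hF' hx.1
    · exact hbSR (hH hx)
  have hH3 : ∀ (σ : Bool) (x0 : ℤ) (r R : ℕ), 2 * R ≤ m → H3s σ m x0 r R F2 →
      H3s σ m x0 r R ↑F := by
    intro σ x0 r R hR h
    refine (H3s_congr ?_).1 h
    ext x
    simp only [Set.mem_inter_iff, Finset.mem_coe, hF2d, Set.mem_union, Set.mem_sdiff]
    constructor
    · rintro ⟨hx | hx, hxH⟩
      · exact ⟨hx.1, hxH⟩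
      · exact absurd (hb2 (hH hx)) (HB_notMem hR (by omega) hxH)
    · rintro ⟨hx, hxH⟩
      exact ⟨Or.inl ⟨hx, fun hxb => HB_notMem hR (by omega) hxH (hb2 hxb)⟩, hxH⟩
  have hGF : ∀ g ∈ F2 \ {e}, g ∉ boxE (m / 2 - 1) → g ∈ F := by
    rintro g ⟨hg | hg, -⟩ hgb
    · exact hg.1
    · exact absurd (hb2 (hH hg)) hgb
  obtain ⟨σ, σ', k, k', hk, hk', hSev⟩ := exit_det2 hL hr hρ hm (hz he) hF2 hA
    (fun u v hu1 hu2 hr0 => by
      by_contra hcon
      push Not at hcon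
      exact hEnd (cross_EndE hL hm64 (G := F2 \ {e}) (fun x hx => hF2 hx.1) hGF hu1 hu2 hr0 hcon))
    (fun σ k hk h => hS σ k hk (hH3 σ _ r ρ (by omega) h))
    (fun σ k hk h => hBig σ k hk (hH3 σ _ (8 * ρ) (m / 2) (by omega) h))
  refine ⟨σ, σ', k, k', hk, hk', ?_⟩
  have hP := Qev_Pv (by omega) hSev.1
  refine ⟨Cn_mono ?_ hP.1, fun h => hP.2 (Cn_mono ?_ h)⟩
  · rintro x (rfl | hx | hx)
    · exact Or.inr he
    · exact Or.inl hx.1
    · exact Or.inr (hH hx)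
  · rintro x ⟨hx1, hx2⟩
    refine ⟨Or.inl ⟨hx1, hx2⟩, ?_⟩
    rintro rfl
    exact hx2 he

theorem blk_box {z : ℤ × ℤ} {s k : ℕ} (h1 : |z.1| + s ≤ k) (h2 : |z.2| + s ≤ k) :
    blk z s ⊆ boxE k := by
  have := abs_le.mp (le_refl |z.1|)
  have := abs_le.mp (le_refl |z.2|)
  unfold blk boxE
  exact RE_subset (by omega) (by omega) (by omega) (by omega)

theorem indP_B4 {q : ℝ} (h0 : 0 ≤ q) (h1 : q ≤ 1) {L m : ℕ} (hL : 2 ≤ L) (hm : 64 ≤ m)
    {z : ℤ × ℤ} {s : ℕ} (hz1 : |z.1| ≤ (m / 8 : ℕ)) (hz2 : |z.2| ≤ (m / 8 : ℕ)) (hs : s ≤ m / 8) :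
    IndP q L m (fun F => B4 z s (-(2 * L * m : ℕ)) (2 * L * m : ℕ) (-m) m ↑F) (b4 q s (m / 8)) := by
  intro B hB
  have hok : Ok (fun _ : Edg => q) := okq h0 h1
  obtain ⟨k, hk⟩ : ∃ k : ℕ, k = m / 8 := ⟨_, rfl⟩
  rw [← hk] at hz1 hz2 hs ⊢
  have hLm : m ≤ 2 * L * m := Nat.le_mul_of_pos_left _ (by omega)
  have hz1' := abs_le.mp hz1
  have hz2' := abs_le.mp hz2
  have hRbox : RE (z.1 - k) (z.1 + k) (z.2 - k) (z.2 + k) ⊆ boxE (m / 2 - 1) := by
    unfold boxE
    exact RE_subset (by omega) (by omega) (by omega) (by omega)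
  have hboxS : boxE (m / 2 - 1) ⊆ SR L m := boxE_SR hL (by omega)
  have hRS := hRbox.trans hboxS
  have hloc := pr_B4 h0 h1 s k z hRS
  have hstep : PQ q (SR L m)
      (fun F => B4 z s (-(2 * L * m : ℕ)) (2 * L * m : ℕ) (-m) m ↑F ∧ B F) ≤
      PQ q (SR L m) (fun F => B4 z s (z.1 - k) (z.1 + k) (z.2 - k) (z.2 + k) ↑F ∧ B F) := by
    apply Pr_mono hok
    rintro F - ⟨hF, hBF⟩
    exact ⟨B4_sub (by omega) (by omega) (by omega) (by omega) (by omega) (by omega) (by omega)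
      (by omega) hF, hBF⟩
  refine hstep.trans ?_
  have hind := Pr_indep (p := fun _ : Edg => q) (U := SR L m)
    (S := RE (z.1 - k) (z.1 + k) (z.2 - k) (z.2 + k)) (T := SR L m \ boxE (m / 2 - 1))
    (A := fun F => B4 z s (z.1 - k) (z.1 + k) (z.2 - k) (z.2 + k) ↑F) (B := B)
    hRS Finset.sdiff_subset ?_ ?_ ?_
  · unfold PQ
    rw [hind]
    exact mul_le_mul_of_nonneg_right hloc (Pr_nonneg hok _ _)
  · rw [Finset.disjoint_left]
    intro f hf hf'
    exact (Finset.mem_sdiff.1 hf').2 (hRbox hf)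
  · intro F _
    apply B4_congr
    intro g hg _
    rw [Finset.coe_inter]
    exact ⟨fun h => ⟨h, hg⟩, fun h => h.1⟩
  · intro F hF
    have h2 : F ∩ (SR L m \ boxE (m / 2 - 1)) = F \ boxE (m / 2 - 1) := by
      ext f
      rw [Finset.mem_inter, Finset.mem_sdiff, Finset.mem_sdiff]
      constructor
      · rintro ⟨h3, -, h4⟩
        exact ⟨h3, h4⟩
      · rintro ⟨h3, h4⟩
        exact ⟨h3, hF h3, h4⟩
    rw [h2]
    exact hB F

theorem b4_le_SR {q : ℝ} (h0 : 0 ≤ q) (h1 : q ≤ 1) {L m : ℕ} (hL : 2 ≤ L) (hm : 64 ≤ m)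
    {z : ℤ × ℤ} {s : ℕ} (hz1 : |z.1| ≤ (m / 8 : ℕ)) (hz2 : |z.2| ≤ (m / 8 : ℕ)) (hs : s ≤ m / 8) :
    b4 q s (4 * L * m) ≤
      PQ q (SR L m) (fun F => B4 z s (-(2 * L * m : ℕ)) (2 * L * m : ℕ) (-m) m ↑F) := by
  have hLm : m ≤ 2 * L * m := Nat.le_mul_of_pos_left _ (by omega)
  have h4 : 4 * L * m = 2 * (2 * L * m) := by ring
  have hz1' := abs_le.mp hz1
  have hz2' := abs_le.mp hz2
  rw [h4]
  refine b4_le_pr h0 h1 s (2 * (2 * L * m)) z ?_ rfl ?_ ?_ ?_ ?_ ?_ ?_ ?_ ?_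
  · unfold SR
    exact RE_subset (by omega) (by omega) (by omega) (by omega)
  all_goals omega

theorem card_prs (L m r N : ℕ) : (prs L m r N).card ≤ (2 * (2 * N + 1)) ^ 2 := by
  unfold prs
  refine (Finset.card_filter_le _ _).trans ?_
  rw [Finset.card_product, Finset.card_product, Finset.card_univ, Fintype.card_bool,
    Int.card_Icc]
  have : ((N:ℤ) + 1 - -(N:ℤ)).toNat = 2 * N + 1 := by omega
  rw [this, sq]

/-- The key inequality at one scale. -/
theorem b4_key (κ : ℝ) (hκ : 0 < κ) (η0 : ℝ) (hη0 : 0 < η0) :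
    ∃ (L M : ℕ) (C η : ℝ), 2 ≤ L ∧ 64 ≤ M ∧ 0 < C ∧ 0 < η ∧ η * (128 * (L:ℝ)) ≤ η0 ∧
      ∀ (q : ℝ) (n : ℕ), Win q κ n → ∀ m : ℕ, M ≤ m → 4 * L * m ≤ n → ∀ s : ℕ, 1 ≤ s →
        s ≤ m / 8 → b4 q s (4 * L * m) ≤ C * ((s:ℝ) / m) + η * b4 q s (m / 8) := by
  classical
  obtain ⟨C0, c, hC0, hc, hex⟩ := exit_abs κ hκ
  obtain ⟨L, hL, hLK⟩ := KY_choose_L (C0 / η0) c 1 hc
  have hLr : (2:ℝ) ≤ L := by exact_mod_cast hL
  have hL0 : (0:ℝ) < L := by linarith
  obtain ⟨δ, hδ⟩ : ∃ δ : ℝ, δ = η0 / (512 * L) := ⟨_, rfl⟩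
  have hδ0 : 0 < δ := by rw [hδ]; positivity
  obtain ⟨M1, M2, N, hM1, hM2, hex2⟩ := hex L δ hL hδ0
  obtain ⟨cd, hcd⟩ : ∃ cd : ℝ, cd = (2 * (2 * (N:ℝ) + 1)) ^ 2 := ⟨_, rfl⟩
  have hcd0 : 0 < cd := by rw [hcd]; positivity
  refine ⟨L, M2 + 64, 1568 * κ⁻¹ ^ 4 * cd, δ + C0 * Real.exp (-c * L), hL, by omega,
    by positivity, by positivity, ?_, ?_⟩
  · have e1 : C0 * Real.exp (-c * L) * L ≤ η0 / 6144 := by
      rw [Real.rpow_one] at hLK
      push_cast at hLK
      have e2 : C0 / η0 * Real.exp (-c * L) * (64 * (3 * L)) =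
          (C0 * Real.exp (-c * L) * L) * (192 / η0) := by ring
      rw [e2] at hLK
      have e3 : C0 * Real.exp (-c * L) * L ≤ 1 / 32 / (192 / η0) := by
        rw [le_div_iff₀ (by positivity)]
        exact hLK
      refine e3.trans (le_of_eq ?_)
      field_simp
      norm_num
    have e4 : δ * (128 * L) = η0 / 4 := by
      rw [hδ]
      field_simp
      norm_num
    nlinarith
  · intro q n hW m hm hn s hs hsm
    obtain ⟨h0, h1⟩ := win01 hW
    have hok : Ok (fun _ : Edg => q) := okq h0 h1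
    have hm64 : 64 ≤ m := by omega
    obtain ⟨t, ht⟩ : ∃ t : ℕ, t = m / 8 / s := ⟨_, rfl⟩
    have hst : s * t ≤ m / 8 := by rw [ht]; exact Nat.mul_div_le _ _
    obtain ⟨k8, hk8⟩ : ∃ k8 : ℕ, k8 = m / 8 := ⟨_, rfl⟩
    obtain ⟨η, hη⟩ : ∃ η : ℝ, η = δ + C0 * Real.exp (-c * L) := ⟨_, rfl⟩
    rw [← hη]
    set TT : Finset (ℤ × ℤ) := Finset.Icc (-(t:ℤ)) t ×ˢ Finset.Icc (-(t:ℤ)) t with hTT
    have hcardT : TT.card = (2 * t + 1) ^ 2 := by
      rw [hTT, Finset.card_product, Int.card_Icc]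
      have : ((t:ℤ) + 1 - -(t:ℤ)).toNat = 2 * t + 1 := by omega
      rw [this, sq]
    have hmemT : ∀ w ∈ TT, |(s:ℤ) * w.1| ≤ (m / 8 : ℕ) ∧ |(s:ℤ) * w.2| ≤ (m / 8 : ℕ) := by
      intro w hw
      rw [hTT, Finset.mem_product, Finset.mem_Icc, Finset.mem_Icc, ← abs_le, ← abs_le] at hw
      have key : ∀ x : ℤ, |x| ≤ t → |(s:ℤ) * x| ≤ (m / 8 : ℕ) := by
        intro x hx
        rw [abs_mul, abs_of_nonneg (by positivity : (0:ℤ) ≤ s)]
        calc (s:ℤ) * |x| ≤ s * t := mul_le_mul_of_nonneg_left hx (by positivity)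
          _ ≤ ((m / 8 : ℕ) : ℤ) := by exact_mod_cast hst
      exact ⟨key _ hw.1, key _ hw.2⟩
    -- one block
    have one : ∀ w ∈ TT, b4 q s (4 * L * m) ≤
        (∑ p ∈ prs L m (m / M2) N, PQ q (SR L m) (Bf (CO (cell p.1.1 m
          (2 * (m / M2 : ℕ) * p.1.2) (m / M2)) (cell p.2.1 m
            (2 * (m / M2 : ℕ) * p.2.2) (m / M2)) ∅) (blk ((s:ℤ) * w.1, (s:ℤ) * w.2) s))) +
          η * b4 q s (m / 8) := by
      intro w hw
      obtain ⟨hw1, hw2⟩ := hmemT w hw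
      have a1 := b4_le_SR h0 h1 hL hm64 (z := ((s:ℤ) * w.1, (s:ℤ) * w.2)) hw1 hw2 hsm
      have a2 := hex2 q n hW m (by omega) hn _ _ _ (b4_nonneg h0 h1 s (m / 8))
        (indP_B4 h0 h1 hL hm64 (z := ((s:ℤ) * w.1, (s:ℤ) * w.2)) hw1 hw2 hsm)
        (detP_B4 (L := L) (m := m) (r := m / M2) (ρ := m / M1) hL
          ((Nat.one_le_div_iff (by omega)).mpr (by omega)) ?_ ?_ ?_)
      · rw [← hη] at a2
        refine a1.trans (a2.trans (add_le_add (le_of_eq ?_) le_rfl))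
        apply Finset.sum_congr rfl
        intro p _
        apply Pr_congr
        intro F _
        unfold BPv Bf CO
        simp only [Set.union_empty, Finset.coe_union, Finset.coe_sdiff]
      · rw [Nat.le_div_iff_mul_le (by omega)]
        calc 8 * (m / M2) * M1 = 8 * M1 * (m / M2) := by ring
          _ ≤ M2 * (m / M2) := Nat.mul_le_mul_right _ hM2
          _ ≤ m := Nat.mul_div_le _ _
      · calc 64 * (m / M1) ≤ M1 * (m / M1) := Nat.mul_le_mul_right _ hM1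
          _ ≤ m := Nat.mul_div_le _ _
      · apply blk_box <;> simp only <;> omega
    -- the sum over the blocks
    have tile : ∀ p : (Bool × ℤ) × (Bool × ℤ), ∑ w ∈ TT, PQ q (SR L m) (Bf (CO (cell p.1.1 m
          (2 * (m / M2 : ℕ) * p.1.2) (m / M2)) (cell p.2.1 m
            (2 * (m / M2 : ℕ) * p.2.2) (m / M2)) ∅) (blk ((s:ℤ) * w.1, (s:ℤ) * w.2) s)) ≤
        98 * κ⁻¹ ^ 4 * (2 * t + 1) := by
      intro p
      have hs8 : 8 * s ≤ m := by omega
      have h4Lm : m ≤ 4 * L * m := Nat.le_mul_of_pos_left _ (by omega)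
      have := tile_sum (K := 7) hW (S := SR L m) (I := cell p.1.1 m
          (2 * (m / M2 : ℕ) * p.1.2) (m / M2)) (J := cell p.2.1 m
            (2 * (m / M2 : ℕ) * p.2.2) (m / M2)) (O := ∅) (by simp) (s := s) (R := s) hs hs
          (by omega) (by norm_num) (by omega) TT ?_ ?_
      · refine this.trans (le_of_eq ?_)
        rw [hcardT]
        have e5 : Real.sqrt (((2 * t + 1) ^ 2 : ℕ) : ℝ) = 2 * t + 1 := by
          push_cast
          exact Real.sqrt_sq (by positivity)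
        rw [e5]
        push_cast
        ring
      · intro w hw
        obtain ⟨hw1, hw2⟩ := hmemT w hw
        refine (blk_box (k := m) ?_ ?_).trans (boxE_SR hL le_rfl)
        · simp only
          push_cast
          omega
        · simp only
          push_cast
          omega
      · intro w hw v hv hv'
        obtain ⟨hw1, hw2⟩ := hmemT w hw
        have hw2' := abs_le.mp hw2
        have hv2 : v.2 = m ∨ v.2 = -m := by
          have : ∀ (σ : Bool) (x0 : ℤ) (r : ℕ), v ∈ cell σ m x0 r → v.2 = m ∨ v.2 = -m := by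
            intro σ x0 r h
            rw [mem_cell] at h
            unfold sy at h
            cases σ
            · right
              simpa using h.1
            · left
              simpa using h.1
          rcases hv with hv | hv
          · exact this _ _ _ hv
          · exact this _ _ _ hv
        omega
    have total : ((2 * t + 1 : ℝ)) ^ 2 * b4 q s (4 * L * m) ≤
        cd * (98 * κ⁻¹ ^ 4 * (2 * t + 1)) + (2 * t + 1 : ℝ) ^ 2 * (η * b4 q s (m / 8)) := by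
      have a3 := Finset.sum_le_sum one
      rw [Finset.sum_const, nsmul_eq_mul, hcardT, Finset.sum_add_distrib, Finset.sum_const,
        nsmul_eq_mul, hcardT, Finset.sum_comm] at a3
      push_cast at a3
      refine a3.trans (add_le_add ?_ le_rfl)
      refine (Finset.sum_le_sum (fun p _ => tile p)).trans ?_
      rw [Finset.sum_const, nsmul_eq_mul]
      apply mul_le_mul_of_nonneg_right _ (by positivity)
      rw [hcd]
      exact_mod_cast card_prs L m (m / M2) N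
    have htpos : (0:ℝ) < 2 * t + 1 := by positivity
    have h5 : b4 q s (4 * L * m) ≤ cd * (98 * κ⁻¹ ^ 4) / (2 * t + 1) + η * b4 q s (m / 8) := by
      rw [← mul_le_mul_iff_right₀ (show (0:ℝ) < (2 * t + 1) ^ 2 by positivity)]
      refine total.trans (le_of_eq ?_)
      field_simp
    refine h5.trans (add_le_add ?_ le_rfl)
    have h6 : (m:ℝ) ≤ 16 * s * (2 * t + 1) := by
      have h7 : m / 8 < s * t + s := by
        rw [ht]
        have := Nat.div_add_mod (m / 8) s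
        have := Nat.mod_lt (m / 8) (show s > 0 by omega)
        omega
      have h8 : m ≤ 16 * (s * t + s) := by omega
      have h9 : (m:ℝ) ≤ 16 * (s * t + s) := by exact_mod_cast h8
      have hs0 : (0:ℝ) ≤ s := Nat.cast_nonneg _
      have ht0 : (0:ℝ) ≤ t := Nat.cast_nonneg _
      nlinarith [mul_nonneg hs0 ht0]
    have hmr : (0:ℝ) < m := by exact_mod_cast (by omega : 0 < m)
    rw [div_le_iff₀ htpos]
    have hκ4 : 0 < κ⁻¹ ^ 4 := by positivity
    calc cd * (98 * κ⁻¹ ^ 4) = cd * (98 * κ⁻¹ ^ 4) * 1 := by ring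
      _ ≤ cd * (98 * κ⁻¹ ^ 4) * (16 * s * (2 * t + 1) / m) := by
          apply mul_le_mul_of_nonneg_left _ (by positivity)
          rw [le_div_iff₀ hmr, one_mul]
          exact h6
      _ = 1568 * κ⁻¹ ^ 4 * cd * ((s:ℝ) / m) * (2 * t + 1) := by ring

/-- Four arms between the scales `s` and `R`. -/
theorem b4_bound (κ : ℝ) (hκ : 0 < κ) : ∃ A : ℝ, 1 ≤ A ∧ ∀ (q : ℝ) (n : ℕ), Win q κ n →
    ∀ s R : ℕ, 1 ≤ s → s ≤ R → R ≤ n → b4 q s R ≤ A * ((s:ℝ) / R) := by
  obtain ⟨L, M, C, η, hL, hM, hC, hη, hηL, hkey⟩ := b4_key κ hκ (1/2) (by norm_num)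
  have hLr : (2:ℝ) ≤ L := by exact_mod_cast hL
  obtain ⟨A, hA⟩ : ∃ A : ℝ, A = 4 * L * (M + 80) + 256 * L * C := ⟨_, rfl⟩
  have hMr : (64:ℝ) ≤ M := by exact_mod_cast hM
  have hA1 : 4 * L * (M + 80) ≤ A := by rw [hA]; nlinarith [mul_pos (by linarith : (0:ℝ) < L) hC]
  have hA2 : 256 * L * C ≤ A := by rw [hA]; nlinarith [mul_pos (by linarith : (0:ℝ) < L) hC]
  have hA0 : 1 ≤ A := by nlinarith
  refine ⟨A, hA0, ?_⟩
  intro q n hW s R
  induction R using Nat.strong_induction_on generalizing s with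
  | _ R ih =>
    intro hs hsR hRn
    obtain ⟨h0, h1⟩ := win01 hW
    have hsr : (1:ℝ) ≤ s := by exact_mod_cast hs
    have hRr : (1:ℝ) ≤ R := by exact_mod_cast (hs.trans hsR)
    by_cases hsmall : R < 4 * L * (M + 80) * s
    · refine (b4_le_one h0 h1 s R).trans ?_
      have h2 : (R:ℝ) ≤ 4 * L * (M + 80) * s := by exact_mod_cast hsmall.le
      rw [mul_div_assoc', le_div_iff₀ (by linarith), one_mul]
      refine h2.trans (mul_le_mul_of_nonneg_right hA1 (by linarith))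
    · push Not at hsmall
      obtain ⟨m, hm⟩ : ∃ m : ℕ, m = R / (4 * L) := ⟨_, rfl⟩
      have h4L : 0 < 4 * L := by omega
      have hmR : 4 * L * m ≤ R := by rw [hm]; exact Nat.mul_div_le _ _
      have hmlt : R < 4 * L * m + 4 * L := by
        rw [hm]
        have := Nat.div_add_mod R (4 * L)
        have := Nat.mod_lt R h4L
        omega
      have hm1 : (M + 80) * s ≤ m := by
        rw [hm, Nat.le_div_iff_mul_le h4L]
        calc (M + 80) * s * (4 * L) = 4 * L * (M + 80) * s := by ring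
          _ ≤ R := hsmall
      have hms : M * s + 80 * s ≤ m := by linarith [add_mul M 80 s]
      have hMs : M ≤ M * s := Nat.le_mul_of_pos_right _ (by omega)
      have hmM : M ≤ m := by omega
      have hm8 : s ≤ m / 8 := by omega
      have hm8R : m / 8 < R := by
        have : m ≤ 4 * L * m := Nat.le_mul_of_pos_left _ h4L
        omega
      have k1 := hkey q n hW m hmM (hmR.trans hRn) s hs hm8
      have k2 := ih (m / 8) hm8R s hs hm8 (by omega)
      have k3 := b4_anti h0 h1 (s := s) (R := 4 * L * m) (R' := R) (by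
        have : m ≤ 4 * L * m := Nat.le_mul_of_pos_left _ h4L
        omega) hmR
      have hmr : (0:ℝ) < m := by exact_mod_cast (by omega : 0 < m)
      have hm8r : (0:ℝ) < ((m / 8 : ℕ) : ℝ) := by exact_mod_cast (by omega : 0 < m / 8)
      have r1 : (R:ℝ) ≤ 8 * L * m := by
        have : R ≤ 8 * L * m := by nlinarith
        exact_mod_cast this
      have r2 : (m:ℝ) ≤ 16 * ((m / 8 : ℕ) : ℝ) := by
        have : m ≤ 16 * (m / 8) := by omega
        exact_mod_cast this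
      have i1 : (s:ℝ) / m ≤ 8 * L * (s / R) := by
        rw [div_le_iff₀ hmr]
        have e : 8 * L * ((s:ℝ) / R) * m = s * ((8 * L * m) / R) := by ring
        rw [e]
        have : 1 ≤ (8 * L * (m:ℝ)) / R := by rw [one_le_div (by linarith)]; exact r1
        nlinarith
      have i2 : (s:ℝ) / ((m / 8 : ℕ) : ℝ) ≤ 128 * L * (s / R) := by
        rw [div_le_iff₀ hm8r]
        have e : 128 * L * ((s:ℝ) / R) * ((m / 8 : ℕ) : ℝ) =
          s * ((8 * L * (16 * ((m / 8 : ℕ) : ℝ))) / R) := by ring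
        rw [e]
        have : 1 ≤ (8 * L * (16 * ((m / 8 : ℕ) : ℝ))) / R := by
          rw [one_le_div (by linarith)]
          refine r1.trans ?_
          nlinarith
        nlinarith
      have hsR0 : 0 ≤ (s:ℝ) / R := by positivity
      calc b4 q s R ≤ C * ((s:ℝ) / m) + η * b4 q s (m / 8) := k3.trans k1
        _ ≤ C * (8 * L * (s / R)) + η * (A * (128 * L * (s / R))) := by
            apply add_le_add (mul_le_mul_of_nonneg_left i1 hC.le)
            apply mul_le_mul_of_nonneg_left _ hη.le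
            exact k2.trans (mul_le_mul_of_nonneg_left i2 (by linarith))
        _ = (8 * L * C + (η * (128 * L)) * A) * (s / R) := by ring
        _ ≤ A * ((s:ℝ) / R) := by
            apply mul_le_mul_of_nonneg_right _ hsR0
            nlinarith

end Pool.Agent.R960
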