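import Pool.Agent.R960.Hol

/-!
The number of clusters of a finite box.
-/

namespace Pool.Agent.R960

open H974 H12S H973N H973N.NP Finset Filter Topology

/-- The vertices of the box. -/
def VB (n : ℕ) : Type := {v : Vtx // (0 ≤ v.1 ∧ v.1 < n) ∧ (0 ≤ v.2 ∧ v.2 < n)}

/-- The connection relation. -/
def rel (n : ℕ) (F : Set Edg) (u v : VB n) : Prop := Reach F u.1 v.1

/-- The setoid. -/
def std (n : ℕ) (F : Set Edg) : Setoid (VB n) where
  r := rel n F
  iseqv := ⟨fun u => Reach.refl _ u.1, fun h => Reach.symm h, fun h1 h2 => Reach.trans h1 h2⟩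

/-- The number of clusters. -/
noncomputable def KC (n : ℕ) (F : Set Edg) : ℕ := Nat.card (Quotient (std n F))

/-- The edges of the box. -/
noncomputable def SE (n : ℕ) : Finset Edg := RE 0 ((n:ℤ) - 1) 0 ((n:ℤ) - 1)

instance VB_finite (n : ℕ) : Finite (VB n) := by
  have : Finite ((Set.Icc (0:ℤ) n ×ˢ Set.Icc (0:ℤ) n : Set (ℤ × ℤ))) :=
    Set.Finite.to_subtype (Set.Finite.prod (Set.finite_Icc _ _) (Set.finite_Icc _ _))
  apply Finite.of_injective (fun v : VB n => (⟨v.1,
    ⟨⟨v.2.1.1, v.2.1.2.le⟩, ⟨v.2.2.1, v.2.2.2.le⟩⟩⟩ :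
      (Set.Icc (0:ℤ) n ×ˢ Set.Icc (0:ℤ) n : Set (ℤ × ℤ))))
  intro u v h
  apply Subtype.ext
  have h2 := congrArg Subtype.val h
  exact h2

theorem se_ends {n : ℕ} {e : Edg} (he : e ∈ SE n) :
    ((0 ≤ (src e).1 ∧ (src e).1 < n) ∧ (0 ≤ (src e).2 ∧ (src e).2 < n)) ∧
    ((0 ≤ (tgt e).1 ∧ (tgt e).1 < n) ∧ (0 ≤ (tgt e).2 ∧ (tgt e).2 < n)) := by
  unfold SE at he
  obtain ⟨x, y, _ | _⟩ := e
  · rw [mem_RE_false] at he
    simp only [src_mk, tgt_false]
    omega
  · rw [mem_RE_true] at he
    simp only [src_mk, tgt_true]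
    omega

theorem card_ne {α : Type*} [Finite α] (a : α) : Nat.card {x : α // x ≠ a} + 1 = Nat.card α := by
  classical
  rw [← Finite.card_option, Nat.card_congr (Equiv.optionSubtypeNe a)]

theorem KC_insert {n : ℕ} {F : Finset Edg} {e : Edg} (he : e ∈ SE n) :
    (KC n ↑(insert e F) : ℝ) - KC n ↑F = -ind (¬ Con e F) := by
  classical
  obtain ⟨hs, ht⟩ := se_ends he
  have hins : ∀ u v : Vtx, Reach (↑(insert e F) : Set Edg) u v ↔
      Reach (↑F : Set Edg) u v ∨ (Reach (↑F : Set Edg) u (src e) ∧ Reach (↑F : Set Edg) (tgt e) v) ∨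
      (Reach (↑F : Set Edg) u (tgt e) ∧ Reach (↑F : Set Edg) (src e) v) := by
    intro u v
    rw [Finset.coe_insert]
    exact GR_insert (s := src) (t := tgt) (F := (↑F : Set Edg)) (e := e) (x := u) (y := v)
  by_cases hc : Con e F
  · rw [ind_not_of (by simpa using hc)]
    have : std n ↑(insert e F) = std n (↑F : Set Edg) := by
      ext u v
      show Reach (↑(insert e F) : Set Edg) u.1 v.1 ↔ Reach (↑F : Set Edg) u.1 v.1
      rw [hins]
      constructor
      · rintro (h | ⟨h1, h2⟩ | ⟨h1, h2⟩)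
        · exact h
        · exact h1.trans (Reach.trans hc h2)
        · exact h1.trans (Reach.trans (Reach.symm hc) h2)
      · exact fun h => Or.inl h
    unfold KC
    rw [this]
    ring
  · rw [ind_of hc]
    set y : VB n := ⟨tgt e, ht⟩ with hy
    set x : VB n := ⟨src e, hs⟩ with hx
    have hsub : ∀ u v : VB n, (std n (↑F : Set Edg)).r u v → (std n ↑(insert e F)).r u v :=
      fun u v h => (hins _ _).2 (Or.inl h)
    let φ : {c : Quotient (std n (↑F : Set Edg)) // c ≠ Quotient.mk _ y} →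
      Quotient (std n ↑(insert e F)) := fun c => Quotient.map' id (fun u v h => hsub u v h) c.1
    have hbij : Function.Bijective φ := by
      constructor
      · rintro ⟨c1, h1⟩ ⟨c2, h2⟩ h
        induction c1 using Quotient.inductionOn with
        | h u =>
        induction c2 using Quotient.inductionOn with
        | h v =>
        have h3 : Reach (↑(insert e F) : Set Edg) u.1 v.1 := Quotient.exact h
        have n1 : ¬ Reach (↑F : Set Edg) u.1 (tgt e) := fun h4 => h1 (Quotient.sound h4)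
        have n2 : ¬ Reach (↑F : Set Edg) v.1 (tgt e) := fun h4 => h2 (Quotient.sound h4)
        apply Subtype.ext
        apply Quotient.sound
        rcases (hins _ _).1 h3 with h4 | ⟨h4, h5⟩ | ⟨h4, h5⟩
        · exact h4
        · exact absurd h5.symm n2
        · exact absurd h4 n1
      · intro c
        induction c using Quotient.inductionOn with
        | h u =>
        by_cases hu : Reach (↑F : Set Edg) u.1 (tgt e)
        · refine ⟨⟨Quotient.mk _ x, fun h => ?_⟩, ?_⟩
          · exact hc (Quotient.exact h)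
          · apply Quotient.sound
            show Reach (↑(insert e F) : Set Edg) (src e) u.1
            rw [hins]
            exact Or.inr (Or.inl ⟨Reach.refl _ _, hu.symm⟩)
        · exact ⟨⟨Quotient.mk _ u, fun h => hu (Quotient.exact h)⟩, rfl⟩
    have h1 := Nat.card_congr (Equiv.ofBijective φ hbij)
    have h2 := card_ne (Quotient.mk (std n (↑F : Set Edg)) y)
    unfold KC
    rw [← h1, ← h2]
    push_cast
    ring

/-- The mean number of clusters. -/
noncomputable def EK (n : ℕ) (q : ℝ) : ℝ := Ex (fun _ => q) (SE n) (fun F => (KC n ↑F : ℝ))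

theorem EK_deriv (n : ℕ) (q : ℝ) :
    HasDerivAt (EK n) (-∑ e ∈ SE n, (1 - PQ q ((SE n).erase e) (Con e))) q := by
  have h := Ex_hasDerivAt (E := Edg) (fun q _ => q) (fun _ => (1:ℝ)) q
    (fun _ => hasDerivAt_id q) (SE n) (fun F => (KC n ↑F : ℝ))
  have e1 : ∑ e ∈ SE n, (1:ℝ) * Ex (fun _ => q) ((SE n).erase e)
      (fun F => (KC n ↑(insert e F) : ℝ) - KC n ↑F) =
      -∑ e ∈ SE n, (1 - PQ q ((SE n).erase e) (Con e)) := by
    rw [← Finset.sum_neg_distrib]
    apply Finset.sum_congr rfl
    intro e he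
    rw [one_mul]
    have e2 : Ex (fun _ => q) ((SE n).erase e) (fun F => (KC n ↑(insert e F) : ℝ) - KC n ↑F) =
        Ex (fun _ => q) ((SE n).erase e) (fun F => (-1) * ind (¬ Con e F)) := by
      apply Ex_congr
      intro F _
      rw [KC_insert he]
      ring
    rw [e2, Ex_mul_left]
    have e3 := Pr_not (p := fun _ => q) ((SE n).erase e) (Con e)
    unfold Pr at e3
    rw [e3]
    unfold PQ Pr
    ring
  rw [← e1]
  exact h

theorem KC_empty (n : ℕ) : KC n ∅ = n ^ 2 := by
  have hr : ∀ u v : Vtx, Reach (∅ : Set Edg) u v → u = v := by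
    intro u v h
    induction h with
    | refl => rfl
    | tail _ hs _ =>
      obtain ⟨e, he, -⟩ := hs
      exact absurd he (Set.notMem_empty e)
  have e1 : KC n ∅ = Nat.card (VB n) := by
    unfold KC
    apply Nat.card_congr
    refine (Equiv.ofBijective (Quotient.mk (std n ∅)) ⟨?_, Quotient.mk_surjective⟩).symm
    intro u v h
    exact Subtype.ext (hr _ _ (Quotient.exact h))
  rw [e1]
  have e2 : VB n ≃ (Finset.Ico (0:ℤ) n ×ˢ Finset.Ico (0:ℤ) n : Finset (ℤ × ℤ)) :=
    { toFun := fun v => ⟨v.1, by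
        obtain ⟨v, hv⟩ := v
        rw [Finset.mem_product, Finset.mem_Ico, Finset.mem_Ico]
        exact hv⟩
      invFun := fun v => ⟨v.1, by
        obtain ⟨v, hv⟩ := v
        rw [Finset.mem_product, Finset.mem_Ico, Finset.mem_Ico] at hv
        exact hv⟩
      left_inv := fun v => rfl
      right_inv := fun v => rfl }
  rw [Nat.card_congr e2, Nat.card_eq_fintype_card, Fintype.card_coe, Finset.card_product,
    Int.card_Ico]
  simp
  ring

theorem EK_zero (n : ℕ) : EK n 0 = (n:ℝ) ^ 2 := by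
  unfold EK Ex
  rw [Finset.sum_eq_single ∅]
  · simp [KC_empty]
  · intro F _ hF
    obtain ⟨e, he⟩ := Finset.nonempty_iff_ne_empty.mpr hF
    rw [Finset.prod_eq_zero he rfl]
    ring
  · intro h
    exact absurd (Finset.empty_mem_powerset _) h

end Pool.Agent.R960
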