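import Pool.Agent.R960.NPO

/-!
Conditioning on the configuration outside of a region.
-/

namespace Pool.Agent.R960

open H974 H12S H973N H973N.NP Finset

section Gen
variable {E : Type*} [DecidableEq E]

/-- Conditioning on the configuration outside of `R`. -/
theorem cond_eq {p : E → ℝ} {U R : Finset E} (hR : R ⊆ U) {Ev A : Finset E → Prop}
    (hEv : ∀ F, F ⊆ U → (Ev F ↔ Ev (F ∩ (U \ R)))) :
    Pr p U (fun F => Ev F ∧ A F) =
      Ex p (U \ R) (fun w => ind (Ev w) * Pr p R (fun F => A (w ∪ F))) := by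
  have hU : U = (U \ R) ∪ R := by rw [Finset.sdiff_union_of_subset hR]
  have hd : Disjoint (U \ R) R := Finset.sdiff_disjoint
  unfold Pr
  conv_lhs => rw [hU, Ex_union hd]
  apply Ex_congr
  intro w hw
  rw [← Ex_mul_left]
  apply Ex_congr
  intro F hF
  rw [ind_and]
  congr 1
  apply ind_congr
  rw [hEv (w ∪ F) (Finset.union_subset (hw.trans Finset.sdiff_subset) (hF.trans hR))]
  have : (w ∪ F) ∩ (U \ R) = w := by
    ext x
    simp only [Finset.mem_inter, Finset.mem_union, Finset.mem_sdiff]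
    constructor
    · rintro ⟨h | h, h2, h3⟩
      · exact h
      · exact absurd (hF h) h3
    · intro h
      exact ⟨Or.inl h, (Finset.mem_sdiff.mp (hw h))⟩
  rw [this]

theorem cond_sum {p : E → ℝ} (hp : Ok p) {U R : Finset E} (hR : R ⊆ U) {Ev : Finset E → Prop}
    (hEv : ∀ F, F ⊆ U → (Ev F ↔ Ev (F ∩ (U \ R)))) {ι : Type*} (T : Finset ι) (c : ι → ℝ)
    (A : ι → Finset E → Prop) {W : ℝ}
    (hW : ∀ w, w ⊆ U \ R → ∑ i ∈ T, c i * Pr p R (fun F => A i (w ∪ F)) ≤ W) :
    ∑ i ∈ T, c i * Pr p U (fun F => Ev F ∧ A i F) ≤ Pr p U Ev * W := by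
  have e1 : ∑ i ∈ T, c i * Pr p U (fun F => Ev F ∧ A i F) =
      Ex p (U \ R) (fun w => ind (Ev w) * ∑ i ∈ T, c i * Pr p R (fun F => A i (w ∪ F))) := by
    have e2 : ∀ i ∈ T, c i * Pr p U (fun F => Ev F ∧ A i F) =
        Ex p (U \ R) (fun w => ind (Ev w) * (c i * Pr p R (fun F => A i (w ∪ F)))) := by
      intro i _
      rw [cond_eq hR hEv, ← Ex_mul_left]
      apply Ex_congr
      intro w _
      ring
    rw [Finset.sum_congr rfl e2, ← Ex_sum]
    apply Ex_congr
    intro w _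
    rw [Finset.mul_sum]
  have e3 : Pr p U Ev = Ex p (U \ R) (fun w => ind (Ev w)) := by
    unfold Pr
    exact Ex_local Finset.sdiff_subset (fun F hF => ind_congr (hEv F hF))
  rw [e1, e3, ← Ex_mul_right]
  apply Ex_mono hp
  intro w hw
  exact mul_le_mul_of_nonneg_left (hW w hw) (ind_nonneg _)

/-- Independence of an event on `R` and of an event on the complement. -/
theorem indep_mul {p : E → ℝ} {U R : Finset E} (hR : R ⊆ U) {A B : Finset E → Prop}
    (hA : ∀ F, F ⊆ U → (A F ↔ A (F ∩ R))) (hB : ∀ F, F ⊆ U → (B F ↔ B (F ∩ (U \ R)))) :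
    Pr p U (fun F => A F ∧ B F) = Pr p U A * Pr p U B :=
  Pr_indep hR Finset.sdiff_subset Finset.disjoint_sdiff hA hB

theorem SD_comm {f : Finset E → Prop} {e g : E} {F : Finset E} : SD f e g F ↔ SD f g e F := by
  unfold SD
  rw [Finset.insert_comm, Finset.erase_right_comm]
  tauto

end Gen

/-- The second difference in terms of the conditioned connection event (both edges in `R`). -/
theorem SD_cond {I J : Set Vtx} {R w F : Finset Edg} (hw : Disjoint w R) {g g' : Edg}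
    (hg : g ∈ R) (hg' : g' ∈ R) :
    SD (CO I J ∅) g g' (w ∪ F) ↔ SD (CO I J ↑w) g g' F := by
  have hgw : g ∉ w := fun h => (Finset.disjoint_left.mp hw h) hg
  have hgw' : g' ∉ w := fun h => (Finset.disjoint_left.mp hw h) hg'
  have key : ∀ G : Finset Edg, CO I J ∅ (w ∪ G) ↔ CO I J ↑w G := by
    intro G
    unfold CO
    rw [Set.union_empty, Finset.coe_union, Set.union_comm]
  have i1 : ∀ (x : Edg) (G : Finset Edg), insert x (w ∪ G) = w ∪ insert x G := by
    intro x G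
    rw [Finset.union_insert]
  have i2 : ∀ (x : Edg) (G : Finset Edg), x ∉ w → (w ∪ G).erase x = w ∪ G.erase x := by
    intro x G hx
    rw [Finset.erase_union_distrib, Finset.erase_eq_of_notMem hx]
  unfold SD Pf
  simp only [i1, i2 _ _ hgw, i2 _ _ hgw', key]

/-- Pivotality in terms of the conditioned connection event. -/
theorem Pf_cond {I J : Set Vtx} {R w F : Finset Edg} (hw : Disjoint w R) {g : Edg}
    (hg : g ∈ R) : Pf (CO I J ∅) g (w ∪ F) ↔ Pf (CO I J ↑w) g F := by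
  have hgw : g ∉ w := fun h => (Finset.disjoint_left.mp hw h) hg
  have key : ∀ G : Finset Edg, CO I J ∅ (w ∪ G) ↔ CO I J ↑w G := by
    intro G
    unfold CO
    rw [Set.union_empty, Finset.coe_union, Set.union_comm]
  have i1 : ∀ (x : Edg) (G : Finset Edg), insert x (w ∪ G) = w ∪ insert x G := by
    intro x G
    rw [Finset.union_insert]
  have i2 : ∀ (x : Edg) (G : Finset Edg), x ∉ w → (w ∪ G).erase x = w ∪ G.erase x := by
    intro x G hx
    rw [Finset.erase_union_distrib, Finset.erase_eq_of_notMem hx]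
  unfold Pf
  rw [i1, i2 _ _ hgw, key, key]

/-- The second difference, one edge outside of `R`. -/
theorem SD_cond1 {I J : Set Vtx} {R w F : Finset Edg} (hw : Disjoint w R) (hF : F ⊆ R)
    {g g' : Edg} (hg : g ∉ R) (hg' : g' ∈ R) (h : SD (CO I J ∅) g g' (w ∪ F)) :
    Pf (CO I J ↑(w.erase g)) g' F ∨ Pf (CO I J ↑(insert g w)) g' F := by
  have hgF : g ∉ F := fun h => hg (hF h)
  rcases h.2.1 with h' | h'
  · left
    have e1 : (w ∪ F).erase g = w.erase g ∪ F := by
      rw [Finset.erase_union_distrib, Finset.erase_eq_of_notMem hgF]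
    rw [e1] at h'
    refine (Pf_cond (R := R) ?_ hg').1 h'
    exact Finset.disjoint_of_subset_left (Finset.erase_subset _ _) hw
  · right
    have e1 : insert g (w ∪ F) = insert g w ∪ F := by rw [Finset.insert_union]
    rw [e1] at h'
    refine (Pf_cond (R := R) ?_ hg').1 h'
    rw [Finset.disjoint_insert_left]
    exact ⟨hg, hw⟩

/-- Sum over the pairs inside of `R`. -/
theorem sum_pairs {q : ℝ} (h0 : 0 ≤ q) (h1 : q ≤ 1) {U R : Finset Edg} (hR : R ⊆ U)
    {I J : Set Vtx} {Ev : Finset Edg → Prop}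
    (hEv : ∀ F, F ⊆ U → (Ev F ↔ Ev (F ∩ (U \ R)))) (T : Finset (Edg × Edg))
    (hT : ∀ i ∈ T, i.1 ∈ R ∧ i.2 ∈ R)
    (himp : ∀ i ∈ T, ∀ F, F ⊆ U → SD (CO I J ∅) i.1 i.2 F → Ev F) {W : ℝ}
    (hW : ∀ w, w ⊆ U \ R → ∑ i ∈ T, PQ q R (SD (CO I J ↑w) i.1 i.2) ≤ W) :
    ∑ i ∈ T, PQ q U (SD (CO I J ∅) i.1 i.2) ≤ PQ q U Ev * W := by
  have hok : Ok (fun _ : Edg => q) := fun _ => ⟨h0, h1⟩
  have := cond_sum (p := fun _ : Edg => q) hok hR hEv T (fun _ => (1:ℝ))
    (fun i F => SD (CO I J ∅) i.1 i.2 F) (W := W) ?_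
  · refine le_trans (Finset.sum_le_sum ?_) this
    intro i hi
    rw [one_mul]
    apply Pr_mono hok
    intro F hF h
    exact ⟨himp i hi F hF h, h⟩
  · intro w hw
    refine le_trans (le_of_eq ?_) (hW w hw)
    apply Finset.sum_congr rfl
    intro i hi
    rw [one_mul]
    apply Pr_congr
    intro F _
    apply SD_cond _ (hT i hi).1 (hT i hi).2
    exact Finset.disjoint_of_subset_left hw Finset.sdiff_disjoint

/-- Sum over the second edge in `R`, the first edge being outside. -/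
theorem sum_single {q : ℝ} (h0 : 0 ≤ q) (h1 : q ≤ 1) {U R : Finset Edg} (hR : R ⊆ U)
    {I J : Set Vtx} {Ev : Finset Edg → Prop}
    (hEv : ∀ F, F ⊆ U → (Ev F ↔ Ev (F ∩ (U \ R)))) {g : Edg} (hgU : g ∈ U) (hg : g ∉ R)
    (T : Finset Edg) (hT : T ⊆ R)
    (himp : ∀ i ∈ T, ∀ F, F ⊆ U → SD (CO I J ∅) g i F → Ev F) {W : ℝ}
    (hW : ∀ w : Finset Edg, w ⊆ U \ R → ∑ i ∈ T, PQ q R (Pf (CO I J ↑w) i) ≤ W) :
    ∑ i ∈ T, PQ q U (SD (CO I J ∅) g i) ≤ PQ q U Ev * (2 * W) := by
  have hok : Ok (fun _ : Edg => q) := fun _ => ⟨h0, h1⟩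
  have := cond_sum (p := fun _ : Edg => q) hok hR hEv T (fun _ => (1:ℝ))
    (fun i F => SD (CO I J ∅) g i F) (W := 2 * W) ?_
  · refine le_trans (Finset.sum_le_sum ?_) this
    intro i hi
    rw [one_mul]
    apply Pr_mono hok
    intro F hF h
    exact ⟨himp i hi F hF h, h⟩
  · intro w hw
    have hd : Disjoint w R := Finset.disjoint_of_subset_left hw Finset.sdiff_disjoint
    have k1 := hW (w.erase g) ((Finset.erase_subset _ _).trans hw)
    have k2 := hW (insert g w) (Finset.insert_subset (Finset.mem_sdiff.mpr ⟨hgU, hg⟩) hw)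
    have k3 : ∑ i ∈ T, 1 * Pr (fun _ : Edg => q) R (fun F => SD (CO I J ∅) g i (w ∪ F)) ≤
        ∑ i ∈ T, (PQ q R (Pf (CO I J ↑(w.erase g)) i) + PQ q R (Pf (CO I J ↑(insert g w)) i)) := by
      apply Finset.sum_le_sum
      intro i hi
      rw [one_mul]
      refine le_trans (Pr_mono hok ?_) (Pr_or_le hok R _ _)
      intro F hF h
      exact SD_cond1 hd hF hg (hT hi) h
    rw [Finset.sum_add_distrib] at k3
    linarith

/-- First order. -/
theorem sum_first {q : ℝ} (h0 : 0 ≤ q) (h1 : q ≤ 1) {U R : Finset Edg} (hR : R ⊆ U)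
    {I J : Set Vtx} {Ev : Finset Edg → Prop}
    (hEv : ∀ F, F ⊆ U → (Ev F ↔ Ev (F ∩ (U \ R))))
    (T : Finset Edg) (hT : T ⊆ R)
    (himp : ∀ i ∈ T, ∀ F, F ⊆ U → Pf (CO I J ∅) i F → Ev F) {W : ℝ}
    (hW : ∀ w : Finset Edg, w ⊆ U \ R → ∑ i ∈ T, PQ q R (Pf (CO I J ↑w) i) ≤ W) :
    ∑ i ∈ T, PQ q U (Pf (CO I J ∅) i) ≤ PQ q U Ev * W := by
  have hok : Ok (fun _ : Edg => q) := fun _ => ⟨h0, h1⟩
  have := cond_sum (p := fun _ : Edg => q) hok hR hEv T (fun _ => (1:ℝ))
    (fun i F => Pf (CO I J ∅) i F) (W := W) ?_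
  · refine le_trans (Finset.sum_le_sum ?_) this
    intro i hi
    rw [one_mul]
    apply Pr_mono hok
    intro F hF h
    exact ⟨himp i hi F hF h, h⟩
  · intro w hw
    have hd : Disjoint w R := Finset.disjoint_of_subset_left hw Finset.sdiff_disjoint
    refine le_trans (le_of_eq ?_) (hW w hw)
    apply Finset.sum_congr rfl
    intro i hi
    rw [one_mul]
    apply Pr_congr
    intro F _
    exact Pf_cond hd (hT hi)

end Pool.Agent.R960
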