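import Mathlib

/-!
A dyadic sum with an exponential cutoff.
-/

namespace Pool.Agent.R960

theorem exp_cut {b c : ℝ} (hb : 0 ≤ b) (hc : 0 < c) : ∃ K : ℝ, 1 ≤ K ∧ ∀ y : ℝ, 0 < y →
    Real.exp (-(c * y)) * (1 + y ^ b) ≤ K := by
  obtain ⟨m, hm⟩ := exists_nat_ge b
  refine ⟨2 + 2 * (m.factorial / c ^ m), by
    have : 0 ≤ (m.factorial : ℝ) / c ^ m := by positivity
    linarith, ?_⟩
  intro y hy
  have hf0 : 0 ≤ (m.factorial : ℝ) / c ^ m := by positivity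
  have he1 : Real.exp (-(c * y)) ≤ 1 := by
    rw [Real.exp_le_one_iff]
    have : 0 < c * y := by positivity
    linarith
  have he0 := Real.exp_pos (-(c * y))
  rcases le_total y 1 with h | h
  · have h1 : y ^ b ≤ 1 := Real.rpow_le_one hy.le h hb
    have h2 : 0 ≤ y ^ b := by positivity
    nlinarith
  · have h1 : y ^ b ≤ y ^ m := by
      rw [← Real.rpow_natCast y m]
      exact Real.rpow_le_rpow_of_exponent_le h hm
    have h3 := Real.pow_div_factorial_le_exp (x := c * y) (by positivity) m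
    have h4 : Real.exp (-(c * y)) * y ^ m ≤ m.factorial / c ^ m := by
      rw [Real.exp_neg, ← div_eq_inv_mul, div_le_div_iff₀ (Real.exp_pos _) (by positivity)]
      have hfp : (0:ℝ) < m.factorial := by exact_mod_cast Nat.factorial_pos m
      rw [div_le_iff₀ hfp, mul_pow] at h3
      linarith
    have h5 : Real.exp (-(c * y)) * y ^ b ≤ m.factorial / c ^ m :=
      (mul_le_mul_of_nonneg_left h1 he0.le).trans h4
    rw [mul_add, mul_one]
    linarith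

theorem dya_sum {a c : ℝ} (ha : 0 < a) (hc : 0 < c) : ∃ K : ℝ, 0 < K ∧ ∀ H : ℝ, 0 < H →
    ∀ N : ℕ, ∑ j ∈ Finset.range N, ((2:ℝ) ^ j) ^ a * Real.exp (-(c * (2 ^ j * H))) ≤
      K * H ^ (-a) := by
  obtain ⟨K, hK, hcut⟩ := exp_cut (b := a) ha.le (show 0 < c / 2 by positivity)
  have h2a : (1:ℝ) < 2 ^ a := Real.one_lt_rpow (by norm_num) ha
  refine ⟨K ^ 2 * (2 ^ a / (2 ^ a - 1)), by
    have : 0 < (2:ℝ) ^ a - 1 := by linarith
    positivity, ?_⟩
  intro H hH N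
  have hD : 0 < (2:ℝ) ^ a - 1 := by linarith
  -- telescoping
  have tel : ∀ j : ℕ, ((2:ℝ) ^ j * H) ^ a * Real.exp (-(c * (2 ^ j * H))) ≤
      K ^ 2 * (2 ^ a / (2 ^ a - 1)) * ((((2:ℝ) ^ (j + 1) * H) ^ a / (1 + ((2:ℝ) ^ (j + 1) * H) ^ a)) -
        (((2:ℝ) ^ j * H) ^ a / (1 + ((2:ℝ) ^ j * H) ^ a))) := by
    intro j
    obtain ⟨y, hy⟩ : ∃ y, y = (2:ℝ) ^ j * H := ⟨_, rfl⟩
    have hy0 : 0 < y := by rw [hy]; positivity
    have e1 : (2:ℝ) ^ (j + 1) * H = 2 * y := by rw [hy]; ring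
    rw [e1, ← hy, Real.mul_rpow (by norm_num) hy0.le]
    obtain ⟨z, hz⟩ : ∃ z, z = y ^ a := ⟨_, rfl⟩
    obtain ⟨q, hq⟩ : ∃ q, q = (2:ℝ) ^ a := ⟨_, rfl⟩
    have hz0 : 0 < z := by rw [hz]; positivity
    rw [← hz, ← hq]
    rw [← hq] at h2a hD
    have h1 := hcut y hy0
    rw [← hz] at h1
    have e2 : Real.exp (-(c * y)) = Real.exp (-(c / 2 * y)) ^ 2 := by
      rw [← Real.exp_nat_mul]
      congr 1
      push_cast
      ring
    have he0 := Real.exp_pos (-(c / 2 * y))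
    have h2 : Real.exp (-(c / 2 * y)) ≤ K / (1 + z) := by
      rw [le_div_iff₀ (by positivity)]
      exact h1
    have h3 : Real.exp (-(c * y)) ≤ (K / (1 + z)) ^ 2 := by
      rw [e2]
      exact pow_le_pow_left₀ he0.le h2 2
    refine (mul_le_mul_of_nonneg_left h3 hz0.le).trans ?_
    have e3 : K ^ 2 * (q / (q - 1)) * (q * z / (1 + q * z) - z / (1 + z)) =
        z * K ^ 2 * (q / ((1 + q * z) * (1 + z))) := by
      field_simp
      ring
    rw [e3, div_pow, ← mul_div_assoc]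
    rw [← mul_div_assoc]
    rw [div_le_div_iff₀ (by positivity) (by positivity)]
    have h4 : (1 + q * z) ≤ q * (1 + z) := by nlinarith
    have h5 : 0 ≤ z * K ^ 2 * (1 + z) := by positivity
    calc z * K ^ 2 * ((1 + q * z) * (1 + z)) = z * K ^ 2 * (1 + z) * (1 + q * z) := by ring
      _ ≤ z * K ^ 2 * (1 + z) * (q * (1 + z)) := mul_le_mul_of_nonneg_left h4 h5
      _ = _ := by ring
  have hsum : ∑ j ∈ Finset.range N, ((2:ℝ) ^ j * H) ^ a * Real.exp (-(c * (2 ^ j * H))) ≤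
      K ^ 2 * (2 ^ a / (2 ^ a - 1)) := by
    refine (Finset.sum_le_sum (fun j _ => tel j)).trans ?_
    rw [← Finset.mul_sum, Finset.sum_range_sub (fun j => ((2:ℝ) ^ j * H) ^ a /
      (1 + ((2:ℝ) ^ j * H) ^ a))]
    have h6 : ((2:ℝ) ^ N * H) ^ a / (1 + ((2:ℝ) ^ N * H) ^ a) ≤ 1 := by
      rw [div_le_one (by positivity)]
      linarith
    have h7 : 0 ≤ ((2:ℝ) ^ 0 * H) ^ a / (1 + ((2:ℝ) ^ 0 * H) ^ a) := by positivity
    have h8 : 0 ≤ K ^ 2 * ((2:ℝ) ^ a / (2 ^ a - 1)) := by positivity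
    calc _ ≤ K ^ 2 * ((2:ℝ) ^ a / (2 ^ a - 1)) * 1 :=
          mul_le_mul_of_nonneg_left (by linarith) h8
      _ = _ := mul_one _
  have hfin : ∑ j ∈ Finset.range N, ((2:ℝ) ^ j) ^ a * Real.exp (-(c * (2 ^ j * H))) =
      (∑ j ∈ Finset.range N, ((2:ℝ) ^ j * H) ^ a * Real.exp (-(c * (2 ^ j * H)))) *
        H ^ (-a) := by
    rw [Finset.sum_mul]
    apply Finset.sum_congr rfl
    intro j _
    rw [Real.mul_rpow (by positivity) hH.le, Real.rpow_neg hH.le]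
    have : H ^ a ≠ 0 := by positivity
    field_simp
  rw [hfin]
  exact mul_le_mul_of_nonneg_right hsum (by positivity)

end Pool.Agent.R960
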