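import Pool.Agent.R960.Root
import Pool.Agent.H973R3.NC.FP
import Pool.Agent.W424.NC.NearA

/-!
Dyadic sums.
-/

namespace Pool.Agent.R960

open H974 H12S H973N Finset

/-- `2 ^ (1/4)`. -/
noncomputable def vv : ℝ := (2:ℝ) ^ (1/4 : ℝ)

theorem vv_pos : 0 < vv := by unfold vv; positivity

theorem vv_rpow (n : ℕ) : vv ^ n = (2:ℝ) ^ ((n:ℝ) / 4) := by
  unfold vv
  rw [← Real.rpow_natCast, ← Real.rpow_mul (by norm_num)]
  congr 1
  ring

theorem vv4 : vv ^ 4 = 2 := by
  rw [vv_rpow]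
  norm_num

theorem vv_gt : 1 < vv := by
  unfold vv
  apply Real.one_lt_rpow (by norm_num) (by norm_num)

theorem vv_low : (1.18:ℝ) ≤ vv := by
  have h : (1.18:ℝ) ^ 4 ≤ vv ^ 4 := by
    rw [vv4]
    norm_num
  exact le_of_pow_le_pow_left₀ (by norm_num) vv_pos.le h

theorem vv_one (n : ℕ) : 1 ≤ vv ^ n := one_le_pow₀ vv_gt.le

theorem vv_mono {m n : ℕ} (h : m ≤ n) : vv ^ m ≤ vv ^ n := pow_le_pow_right₀ vv_gt.le h

theorem vv_two (k : ℕ) : (2:ℝ) ^ k = vv ^ (4 * k) := by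
  rw [pow_mul, vv4]

theorem vv_four (k : ℕ) : (4:ℝ) ^ k = vv ^ (8 * k) := by
  rw [show (4:ℝ) = 2 ^ 2 by norm_num, ← pow_mul, vv_two]
  congr 1
  ring

theorem rpow_vv (k : ℕ) (c : ℕ) : ((2:ℝ) ^ k) ^ ((c:ℝ) / 4) = vv ^ (c * k) := by
  rw [vv_rpow, ← Real.rpow_natCast 2 k, ← Real.rpow_mul (by norm_num)]
  congr 1
  push_cast
  ring

theorem rpow_neg_vv (k : ℕ) : ((2:ℝ) ^ k) ^ (-(5/4 : ℝ)) = (vv ^ (5 * k))⁻¹ := by
  rw [Real.rpow_neg (by positivity)]
  congr 1
  have := rpow_vv k 5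
  norm_num at this ⊢
  exact this

/-- Geometric sum. -/
theorem geo {r : ℝ} (hr : 1 < r) (n : ℕ) : ∑ i ∈ range n, r ^ i ≤ r ^ n / (r - 1) := by
  rw [geom_sum_eq (by linarith)]
  have : 0 < r - 1 := by linarith
  rw [div_le_div_iff_of_pos_right this]
  linarith

/-- The class of an edge. -/
noncomputable def cl (g : Edg) : ℕ := Nat.log 2 (nm g).toNat

theorem nm_nonneg (g : Edg) : 0 ≤ nm g := le_trans (abs_nonneg _) (le_max_left _ _)

theorem nm_lt_cl (g : Edg) : nm g < 2 ^ (cl g + 1) := by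
  have h := Nat.lt_pow_succ_log_self (b := 2) (by norm_num) (nm g).toNat
  have h2 : (((nm g).toNat : ℕ) : ℤ) < ((2 ^ (cl g + 1) : ℕ) : ℤ) := by exact_mod_cast h
  rw [Int.toNat_of_nonneg (nm_nonneg g)] at h2
  push_cast at h2
  exact h2

theorem cl_le_nm {g : Edg} (h : 1 ≤ nm g) : 2 ^ (cl g) ≤ nm g := by
  have h1 := Nat.pow_log_le_self 2 (x := (nm g).toNat) (by omega)
  have h2 : ((2 ^ (cl g) : ℕ) : ℤ) ≤ (((nm g).toNat : ℕ) : ℤ) := by exact_mod_cast h1
  rw [Int.toNat_of_nonneg (nm_nonneg g)] at h2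
  push_cast at h2
  exact h2

theorem cl_pos_nm {g : Edg} (h : 1 ≤ cl g) : (2:ℤ) ^ (cl g) ≤ nm g := by
  apply cl_le_nm
  by_contra hcon
  push Not at hcon
  have h0 : nm g = 0 := by
    have := nm_nonneg g
    omega
  unfold cl at h
  rw [h0] at h
  simp at h

theorem cl_lt {g : Edg} {J : ℕ} (hJ : 1 ≤ J) (h : nm g < 2 ^ J) : cl g < J := by
  unfold cl
  by_cases h0 : (nm g).toNat = 0
  · rw [h0]
    simp
    omega
  · apply Nat.log_lt_of_lt_pow h0
    have h2 : (((nm g).toNat : ℕ) : ℤ) < ((2 ^ J : ℕ) : ℤ) := by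
      rw [Int.toNat_of_nonneg (nm_nonneg g)]
      push_cast
      exact h
    exact_mod_cast h2

theorem sum_cl {J : ℕ} (hJ : 1 ≤ J) (T : Finset Edg) (hT : ∀ g ∈ T, nm g < 2 ^ J) (φ : ℕ → ℝ)
    (hφ : ∀ j, 0 ≤ φ j) : ∑ g ∈ T, φ (cl g) ≤ ∑ j ∈ range J, 72 * 4 ^ j * φ j := by
  classical
  rw [← Finset.sum_fiberwise_of_maps_to (s := T) (t := range J) (g := cl)
    (fun g hg => Finset.mem_range.mpr (cl_lt hJ (hT g hg)))]
  apply Finset.sum_le_sum
  intro j _
  have h1 : ∑ g ∈ T with cl g = j, φ (cl g) = ((T.filter (fun g => cl g = j)).card : ℝ) * φ j := by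
    rw [← nsmul_eq_mul, ← Finset.sum_const]
    apply Finset.sum_congr rfl
    intro g hg
    rw [(Finset.mem_filter.mp hg).2]
  rw [h1]
  apply mul_le_mul_of_nonneg_right _ (hφ j)
  have h2 := FPX.card_core (T.filter (fun g => cl g = j)) (2 ^ (j + 1)) Nat.one_le_two_pow (by
    intro g hg
    have h3 := nm_lt_cl g
    rw [(Finset.mem_filter.mp hg).2, nm_lt] at h3
    rw [abs_le, abs_le]
    push_cast
    omega)
  refine h2.trans (le_of_eq ?_)
  push_cast
  have e4 : (4:ℝ) ^ j = (2 ^ j) ^ 2 := by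
    rw [← pow_mul, mul_comm, pow_mul]
    norm_num
  rw [e4]
  ring

/-- The weight of a pair of classes. -/
noncomputable def wt (i j : ℕ) : ℝ := (vv ^ (6 * min i j + 9 * max i j))⁻¹

theorem wt_nonneg (i j : ℕ) : 0 ≤ wt i j := by
  have := vv_pos
  unfold wt
  positivity

theorem wt_sum (J : ℕ) : ∑ j ∈ range J, 72 * 4 ^ j * (∑ i ∈ range J, 72 * 4 ^ i * wt j i) ≤
    400000 * vv ^ J := by
  have hv := vv_pos
  have key : ∀ i j : ℕ, (4:ℝ) ^ j * (4 ^ i * wt j i) ≤
      (if i ≤ j then (vv ^ 2) ^ i / vv ^ j else 0) + (if j ≤ i then (vv ^ 2) ^ j / vv ^ i else 0) := by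
    intro i j
    have hp : ∀ a b : ℕ, 0 ≤ (vv ^ 2) ^ a / vv ^ b := fun a b => by positivity
    rcases le_total i j with h | h
    · rw [if_pos h]
      have e1 : (4:ℝ) ^ j * (4 ^ i * wt j i) = (vv ^ 2) ^ i / vv ^ j := by
        unfold wt
        rw [min_eq_right h, max_eq_left h, vv_four, vv_four, ← pow_mul]
        rw [← div_eq_mul_inv, ← mul_div_assoc, ← pow_add, div_eq_div_iff (by positivity)
          (by positivity), ← pow_add, ← pow_add]
        congr 1
        ring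
      rw [e1]
      have : 0 ≤ (if j ≤ i then (vv ^ 2) ^ j / vv ^ i else 0) := by
        split_ifs
        · exact hp _ _
        · exact le_rfl
      linarith
    · rw [if_pos h]
      have e1 : (4:ℝ) ^ j * (4 ^ i * wt j i) = (vv ^ 2) ^ j / vv ^ i := by
        unfold wt
        rw [min_eq_left h, max_eq_right h, vv_four, vv_four, ← pow_mul]
        rw [← div_eq_mul_inv, ← mul_div_assoc, ← pow_add, div_eq_div_iff (by positivity)
          (by positivity), ← pow_add, ← pow_add]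
        congr 1
        ring
      rw [e1]
      have : 0 ≤ (if i ≤ j then (vv ^ 2) ^ i / vv ^ j else 0) := by
        split_ifs
        · exact hp _ _
        · exact le_rfl
      linarith
  have hv2 : (1.39:ℝ) ≤ vv ^ 2 := by nlinarith [vv_low]
  have hv2' : vv ^ 2 ≤ 1.5 := by
    have : (vv ^ 2) ^ 2 ≤ 1.5 ^ 2 := by
      rw [← pow_mul, vv4]
      norm_num
    exact le_of_pow_le_pow_left₀ (by norm_num) (by norm_num) this
  have half : ∑ j ∈ range J, ∑ i ∈ range J, (if i ≤ j then (vv ^ 2) ^ i / vv ^ j else 0) ≤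
      25 * vv ^ J := by
    have inner : ∀ j ∈ range J, ∑ i ∈ range J, (if i ≤ j then (vv ^ 2) ^ i / vv ^ j else 0) ≤
        4 * vv ^ j := by
      intro j _
      have h1 : ∑ i ∈ range J, (if i ≤ j then (vv ^ 2) ^ i / vv ^ j else 0) ≤
          ∑ i ∈ range (j + 1), (vv ^ 2) ^ i / vv ^ j := by
        rw [← Finset.sum_filter]
        apply Finset.sum_le_sum_of_subset_of_nonneg
        · intro i hi
          rw [Finset.mem_filter] at hi
          rw [Finset.mem_range]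
          omega
        · intro i _ _
          positivity
      refine h1.trans ?_
      rw [← Finset.sum_div, div_le_iff₀ (by positivity)]
      refine (geo (by linarith) (j + 1)).trans ?_
      rw [div_le_iff₀ (by linarith)]
      have e2 : (vv ^ 2) ^ (j + 1) = vv ^ 2 * (vv ^ j * vv ^ j) := by
        rw [pow_succ, ← pow_mul, ← pow_add]
        ring
      rw [e2]
      have h3 : 0 < vv ^ j * vv ^ j := by positivity
      nlinarith
    refine (Finset.sum_le_sum inner).trans ?_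
    rw [← Finset.mul_sum]
    have h2 := geo vv_gt J
    have h3 : vv ^ J / (vv - 1) ≤ 6 * vv ^ J := by
      rw [div_le_iff₀ (by linarith [vv_gt])]
      have : 0 < vv ^ J := by positivity
      nlinarith [vv_low]
    have h5 : 0 < vv ^ J := by positivity
    linarith [h2.trans h3]
  have hsum : ∑ j ∈ range J, 72 * 4 ^ j * (∑ i ∈ range J, 72 * 4 ^ i * wt j i) =
      5184 * ∑ j ∈ range J, ∑ i ∈ range J, (4:ℝ) ^ j * (4 ^ i * wt j i) := by
    rw [Finset.mul_sum]
    apply Finset.sum_congr rfl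
    intro j _
    rw [Finset.mul_sum, Finset.mul_sum]
    apply Finset.sum_congr rfl
    intro i _
    ring
  rw [hsum]
  have h4 : ∑ j ∈ range J, ∑ i ∈ range J, (4:ℝ) ^ j * (4 ^ i * wt j i) ≤ 50 * vv ^ J := by
    refine (Finset.sum_le_sum (fun j _ => Finset.sum_le_sum (fun i _ => key i j))).trans ?_
    simp only [Finset.sum_add_distrib]
    have h5 : ∑ j ∈ range J, ∑ i ∈ range J, (if j ≤ i then (vv ^ 2) ^ j / vv ^ i else 0) =
        ∑ j ∈ range J, ∑ i ∈ range J, (if i ≤ j then (vv ^ 2) ^ i / vv ^ j else 0) := by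
      rw [Finset.sum_comm]
    rw [h5]
    linarith
  have : 0 < vv ^ J := by positivity
  nlinarith

/-- Summation of the boundary terms. -/
theorem bd_sum (J : ℕ) : ∑ j ∈ range J, 72 * 4 ^ j * (vv ^ (6 * j + J))⁻¹ ≤ 300 * vv ^ J := by
  have hv := vv_pos
  have hv2 : (1.39:ℝ) ≤ vv ^ 2 := by nlinarith [vv_low]
  have h1 : ∀ j ∈ range J, 72 * (4:ℝ) ^ j * (vv ^ (6 * j + J))⁻¹ = 72 / vv ^ J * (vv ^ 2) ^ j := by
    intro j _
    rw [vv_four, ← pow_mul, mul_assoc, ← div_eq_mul_inv, div_mul_eq_mul_div, mul_div_assoc]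
    congr 1
    rw [div_eq_div_iff (by positivity) (by positivity), ← pow_add, ← pow_add]
    congr 1
    ring
  rw [Finset.sum_congr rfl h1, ← Finset.mul_sum]
  have h2 := geo (show 1 < vv ^ 2 by linarith) J
  have h3 : (vv ^ 2) ^ J / (vv ^ 2 - 1) ≤ 3 * (vv ^ J * vv ^ J) := by
    rw [div_le_iff₀ (by linarith)]
    have e : (vv ^ 2) ^ J = vv ^ J * vv ^ J := by rw [← pow_mul, ← pow_add]; congr 1; ring
    rw [e]
    have : 0 < vv ^ J * vv ^ J := by positivity
    nlinarith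
  have h4 : 0 < vv ^ J := by positivity
  calc 72 / vv ^ J * ∑ i ∈ range J, (vv ^ 2) ^ i ≤ 72 / vv ^ J * (3 * (vv ^ J * vv ^ J)) :=
        mul_le_mul_of_nonneg_left (h2.trans h3) (by positivity)
    _ = 216 * vv ^ J := by field_simp; norm_num
    _ ≤ 300 * vv ^ J := by nlinarith

end Pool.Agent.R960
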