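import Pool.Agent.R960.Tay
import Pool.Agent.R960.Arm4

/-!
The first order expansion of the infinite volume connection probability at the critical point.
-/

namespace Pool.Agent.R960

open H974 H12S H973N H973N.NP Finset Filter Topology

theorem HI_01 {q : ℝ} (h0 : 0 ≤ q) (h1 : q ≤ 1) (β : Bool) : 0 ≤ HI β q ∧ HI β q ≤ 1 := by
  constructor
  · exact (HM_bd h0 h1 β 1).1.trans (HI_bd h0 h1 β le_rfl).1
  · exact ciSup_le (fun k => (HM_bd h0 h1 β _).2)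

theorem HI_window : ∃ b C : ℝ, 0 < b ∧ 0 < C ∧ ∀ (β : Bool), ∃ ℓ : ℝ, ∀ M : ℕ, 16 ≤ M →
    ∀ q : ℝ, 0 ≤ q → q ≤ 1 → |q - 1/2| ≤ b * (vv ^ (3 * M))⁻¹ →
    |HI β q - HI β (1/2) - ℓ * (q - 1/2)| ≤ C * (vv ^ (5 * M))⁻¹ := by
  obtain ⟨b0, C0, hb0, hC0, ht⟩ := taylorM
  have hv := vv_pos
  obtain ⟨b, hbdef⟩ : ∃ b, b = min b0 (1/2) := ⟨_, rfl⟩
  have hb : 0 < b := by rw [hbdef]; exact lt_min hb0 (by norm_num)
  have hbb : b ≤ b0 := by rw [hbdef]; exact min_le_left _ _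
  have hb2 : b ≤ 1/2 := by rw [hbdef]; exact min_le_right _ _
  obtain ⟨C2, hC2⟩ : ∃ C2, C2 = C0 * b + C0 := ⟨_, rfl⟩
  have hC2p : 0 < C2 := by rw [hC2]; positivity
  have hr0 : 0 < (vv ^ 2)⁻¹ := by positivity
  have hr1 : (vv ^ 2)⁻¹ < 1 := inv_lt_one_of_one_lt₀ (by nlinarith [vv_low])
  obtain ⟨C3, hC3⟩ : ∃ C3, C3 = 2 * C2 / b * vv ^ 3 := ⟨_, rfl⟩
  have hC3p : 0 < C3 := by rw [hC3]; positivity
  refine ⟨b, C2 + C3 / (1 - (vv ^ 2)⁻¹) * b, hb, ?_, ?_⟩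
  · have : 0 < 1 - (vv ^ 2)⁻¹ := by linarith
    positivity
  intro β
  have step1 : ∀ M : ℕ, 16 ≤ M → ∀ q : ℝ, 0 ≤ q → q ≤ 1 → |q - 1/2| ≤ b * (vv ^ (3 * M))⁻¹ →
      |HI β q - HI β (1/2) - TM β M (1/2) * (q - 1/2)| ≤ C2 * (vv ^ (5 * M))⁻¹ := by
    intro M hM q h0 h1 hq
    have hp3 : 0 < (vv ^ (3 * M))⁻¹ := by positivity
    obtain ⟨k1, k2⟩ := ht β M hM q (hq.trans (mul_le_mul_of_nonneg_right hbb hp3.le))
    obtain ⟨-, k3⟩ := ht β M hM (1/2) (by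
      rw [sub_self, abs_zero]
      positivity)
    obtain ⟨j1, j2⟩ := HI_bd h0 h1 β (m := 2 ^ M) Nat.one_le_two_pow
    obtain ⟨j3, j4⟩ := HI_bd (q := 1/2) (by norm_num) (by norm_num) β (m := 2 ^ M)
      Nat.one_le_two_pow
    have e1 : C0 * (vv ^ (2 * M))⁻¹ * |q - 1/2| ≤ C0 * b * (vv ^ (5 * M))⁻¹ := by
      refine (mul_le_mul_of_nonneg_left hq (by positivity)).trans (le_of_eq ?_)
      field_simp
      ring
    have e2 : C2 * (vv ^ (5 * M))⁻¹ = C0 * b * (vv ^ (5 * M))⁻¹ + C0 * (vv ^ (5 * M))⁻¹ := by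
      rw [hC2]
      ring
    rw [e2]
    have k1' := k1.trans e1
    rw [abs_le] at k1' ⊢
    constructor <;> linarith [k1'.1, k1'.2]
  have step2 : ∀ M : ℕ, 16 ≤ M → |TM β M (1/2) - TM β (M + 1) (1/2)| ≤
      C3 * ((vv ^ 2)⁻¹) ^ M := by
    intro M hM
    obtain ⟨t, htt⟩ : ∃ t, t = b * (vv ^ (3 * (M + 1)))⁻¹ := ⟨_, rfl⟩
    have ht0 : 0 < t := by rw [htt]; positivity
    have ht1 : t ≤ 1/2 := by
      rw [htt]
      have h2 : (vv ^ (3 * (M + 1)))⁻¹ ≤ 1 := inv_le_one_of_one_le₀ (vv_one _)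
      have := mul_le_mul hb2 h2 (by positivity) (by norm_num)
      linarith
    have hmon : b * (vv ^ (3 * (M + 1)))⁻¹ ≤ b * (vv ^ (3 * M))⁻¹ := by
      apply mul_le_mul_of_nonneg_left _ hb.le
      exact inv_anti₀ (by positivity) (vv_mono (by omega))
    have i1 := step1 M hM (1/2 + t) (by linarith) (by linarith) (by
      rw [add_sub_cancel_left, abs_of_pos ht0, htt]
      exact hmon)
    have i2 := step1 (M + 1) (by omega) (1/2 + t) (by linarith) (by linarith) (by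
      rw [add_sub_cancel_left, abs_of_pos ht0, htt])
    rw [add_sub_cancel_left] at i1 i2
    have hmon2 : C2 * (vv ^ (5 * (M + 1)))⁻¹ ≤ C2 * (vv ^ (5 * M))⁻¹ := by
      apply mul_le_mul_of_nonneg_left _ hC2p.le
      exact inv_anti₀ (by positivity) (vv_mono (by omega))
    have i3 : |TM β M (1/2) - TM β (M + 1) (1/2)| * t ≤ 2 * C2 * (vv ^ (5 * M))⁻¹ := by
      have e9 : |TM β M (1/2) - TM β (M + 1) (1/2)| * t =
          |(TM β M (1/2) - TM β (M + 1) (1/2)) * t| := by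
        rw [abs_mul, abs_of_pos ht0]
      rw [e9]
      have e3 : (TM β M (1/2) - TM β (M + 1) (1/2)) * t =
        (HI β (1/2 + t) - HI β (1/2) - TM β (M + 1) (1/2) * t) -
          (HI β (1/2 + t) - HI β (1/2) - TM β M (1/2) * t) := by ring
      rw [e3]
      refine (abs_sub _ _).trans ?_
      linarith
    have i4 : |TM β M (1/2) - TM β (M + 1) (1/2)| ≤ 2 * C2 * (vv ^ (5 * M))⁻¹ / t := by
      rw [le_div_iff₀ ht0]
      exact i3
    refine i4.trans (le_of_eq ?_)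
    rw [htt, hC3, ← inv_pow, ← inv_pow, ← inv_pow]
    have hv' : vv * vv⁻¹ = 1 := mul_inv_cancel₀ hv.ne'
    obtain ⟨w, hw⟩ : ∃ w, w = vv⁻¹ := ⟨_, rfl⟩
    rw [← hw] at hv' ⊢
    have hw0 : 0 < w := by rw [hw]; positivity
    rw [div_eq_iff (by positivity)]
    have e8 : 2 * C2 / b * vv ^ 3 * (w ^ 2) ^ M * (b * w ^ (3 * (M + 1))) =
        2 * C2 * (b / b) * (vv * w) ^ 3 * w ^ (5 * M) := by ring
    rw [e8, hv', div_self hb.ne']
    ring
  -- the limit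
  have hcau : ∀ n : ℕ, dist (TM β (n + 16) (1/2)) (TM β (n + 16 + 1) (1/2)) ≤
      C3 * ((vv ^ 2)⁻¹) ^ 16 * ((vv ^ 2)⁻¹) ^ n := by
    intro n
    rw [Real.dist_eq]
    refine (step2 (n + 16) (by omega)).trans (le_of_eq ?_)
    ring
  have hcs := cauchySeq_of_le_geometric _ _ hr1 (f := fun n => TM β (n + 16) (1/2))
    (by
      intro n
      have := hcau n
      rw [show n + 16 + 1 = n + 1 + 16 by ring] at this
      exact this)
  obtain ⟨ℓ, hℓ⟩ := cauchySeq_tendsto_of_complete hcs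
  have hdist : ∀ M : ℕ, 16 ≤ M → |TM β M (1/2) - ℓ| ≤
      C3 / (1 - (vv ^ 2)⁻¹) * (vv ^ (2 * M))⁻¹ := by
    intro M hM
    obtain ⟨n, rfl⟩ : ∃ n, M = n + 16 := ⟨M - 16, by omega⟩
    have := dist_le_of_le_geometric_of_tendsto ((vv ^ 2)⁻¹) (C3 * ((vv ^ 2)⁻¹) ^ 16) hr1
      (f := fun n => TM β (n + 16) (1/2)) (by
      intro n
      have := hcau n
      rw [show n + 16 + 1 = n + 1 + 16 by ring] at this
      exact this) hℓ n
    rw [Real.dist_eq] at this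
    refine this.trans (le_of_eq ?_)
    rw [pow_mul, ← inv_pow, pow_add]
    ring
  refine ⟨ℓ, ?_⟩
  intro M hM q h0 h1 hq
  have i1 := step1 M hM q h0 h1 hq
  have i2 := hdist M hM
  have i3 : |TM β M (1/2) - ℓ| * |q - 1/2| ≤
      C3 / (1 - (vv ^ 2)⁻¹) * b * (vv ^ (5 * M))⁻¹ := by
    have h1r : 0 < 1 - (vv ^ 2)⁻¹ := by linarith
    refine (mul_le_mul i2 hq (abs_nonneg _) (by positivity)).trans (le_of_eq ?_)
    have e5 : (vv ^ (2 * M))⁻¹ * (vv ^ (3 * M))⁻¹ = (vv ^ (5 * M))⁻¹ := by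
      rw [← mul_inv, ← pow_add]
      congr 2
      ring
    rw [← e5]
    ring
  have e4 : HI β q - HI β (1/2) - ℓ * (q - 1/2) =
      (HI β q - HI β (1/2) - TM β M (1/2) * (q - 1/2)) + (TM β M (1/2) - ℓ) * (q - 1/2) := by
    ring
  rw [e4]
  refine (abs_add_le _ _).trans ?_
  rw [abs_mul]
  have e6 : (C2 + C3 / (1 - (vv ^ 2)⁻¹) * b) * (vv ^ (5 * M))⁻¹ =
    C2 * (vv ^ (5 * M))⁻¹ + C3 / (1 - (vv ^ 2)⁻¹) * b * (vv ^ (5 * M))⁻¹ := by ring
  rw [e6]
  exact add_le_add i1 i3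

theorem HI_taylor (β : Bool) : ∃ ℓ C : ℝ, 0 < C ∧ ∀ q : ℝ, 0 ≤ q → q ≤ 1 →
    |HI β q - HI β (1/2) - ℓ * (q - 1/2)| ≤ C * |q - 1/2| ^ (5/3 : ℝ) := by
  obtain ⟨b, C, hb, hC, hw⟩ := HI_window
  obtain ⟨ℓ, hℓ⟩ := hw β
  have hv := vv_pos
  obtain ⟨D, hD⟩ : ∃ D, D = C * vv ^ 5 + (1 + |ℓ|) * vv ^ 80 + (1 + |ℓ|) := ⟨_, rfl⟩
  have habs := abs_nonneg ℓ
  have hDp : 0 < D := by rw [hD]; positivity
  refine ⟨ℓ, D / b ^ (5/3 : ℝ), by positivity, ?_⟩
  intro q h0 h1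
  have htriv : |HI β q - HI β (1/2) - ℓ * (q - 1/2)| ≤ 1 + |ℓ| := by
    refine (abs_sub _ _).trans ?_
    rw [abs_mul]
    obtain ⟨j1, j2⟩ := HI_01 h0 h1 β
    obtain ⟨j3, j4⟩ := HI_01 (q := 1/2) (by norm_num) (by norm_num) β
    have k1 : |HI β q - HI β (1/2)| ≤ 1 := by
      rw [abs_le]
      constructor <;> linarith
    have k2 : |q - 1/2| ≤ 1 := by
      rw [abs_le]
      constructor <;> linarith
    have k3 := mul_le_mul_of_nonneg_left k2 habs
    linarith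
  by_cases hq : q = 1/2
  · subst hq
    simp
  have ht0 : 0 < |q - 1/2| := abs_pos.mpr (sub_ne_zero.mpr hq)
  obtain ⟨t, ht⟩ : ∃ t, t = |q - 1/2| := ⟨_, rfl⟩
  rw [← ht] at ht0
  have hgoal : ∀ y : ℝ, y ≤ D * (t / b) ^ (5/3 : ℝ) → y ≤ D / b ^ (5/3 : ℝ) * t ^ (5/3 : ℝ) := by
    intro y hy
    rw [Real.div_rpow ht0.le hb.le] at hy
    refine hy.trans (le_of_eq ?_)
    ring
  rw [← ht]
  apply hgoal
  by_cases hx : 1 ≤ b / t
  · obtain ⟨M, hM1, hM2⟩ := exists_nat_pow_near hx (show 1 < vv ^ 3 by nlinarith [vv_low, sq_nonneg vv])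
    rw [← pow_mul] at hM1 hM2
    -- lower bound for the right hand side
    have h5 : (vv ^ (5 * (M + 1)))⁻¹ ≤ (t / b) ^ (5/3 : ℝ) := by
      have e1 : (vv ^ (5 * (M + 1)))⁻¹ = ((vv ^ (3 * (M + 1)))⁻¹) ^ (5/3 : ℝ) := by
        rw [Real.inv_rpow (by positivity)]
        congr 1
        rw [← Real.rpow_natCast, ← Real.rpow_natCast, ← Real.rpow_mul hv.le]
        congr 1
        push_cast
        ring
      rw [e1]
      apply Real.rpow_le_rpow (by positivity) _ (by norm_num)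
      rw [← inv_div b t]
      exact inv_anti₀ (by positivity) hM2.le
    by_cases hM : 16 ≤ M
    · have h6 := hℓ M hM q h0 h1 (by
        rw [← ht]
        have : vv ^ (3 * M) * t ≤ b := by
          rw [le_div_iff₀ ht0] at hM1
          exact hM1
        rw [← div_eq_mul_inv, le_div_iff₀ (by positivity)]
        linarith)
      refine h6.trans ?_
      have e2 : C * (vv ^ (5 * M))⁻¹ = C * vv ^ 5 * (vv ^ (5 * (M + 1)))⁻¹ := by
        field_simp
        ring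
      rw [e2]
      apply mul_le_mul _ h5 (by positivity) hDp.le
      rw [hD]
      have : 0 < (1 + |ℓ|) * vv ^ 80 := by positivity
      linarith
    · refine htriv.trans ?_
      have e3 : 1 ≤ vv ^ 80 * (vv ^ (5 * (M + 1)))⁻¹ := by
        rw [← div_eq_mul_inv, le_div_iff₀ (by positivity), one_mul]
        exact vv_mono (by omega)
      calc 1 + |ℓ| ≤ (1 + |ℓ|) * (vv ^ 80 * (vv ^ (5 * (M + 1)))⁻¹) :=
            le_mul_of_one_le_right (by positivity) e3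
        _ = (1 + |ℓ|) * vv ^ 80 * (vv ^ (5 * (M + 1)))⁻¹ := by ring
        _ ≤ D * (t / b) ^ (5/3 : ℝ) := by
          apply mul_le_mul _ h5 (by positivity) hDp.le
          rw [hD]
          have : 0 < C * vv ^ 5 := by positivity
          linarith
  · push Not at hx
    refine htriv.trans ?_
    have h7 : 1 ≤ (t / b) ^ (5/3 : ℝ) := by
      apply Real.one_le_rpow _ (by norm_num)
      rw [div_lt_one ht0] at hx
      rw [le_div_iff₀ hb]
      linarith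
    calc 1 + |ℓ| ≤ D := by
          rw [hD]
          have : 0 < C * vv ^ 5 := by positivity
          have : 0 < (1 + |ℓ|) * vv ^ 80 := by positivity
          linarith
      _ ≤ D * (t / b) ^ (5/3 : ℝ) := le_mul_of_one_le_right hDp.le h7

theorem HM_cont (β : Bool) (m : ℕ) : Continuous (HM β m) := by
  rw [continuous_iff_continuousAt]
  intro q
  exact (deriv_f (UU β m) (fR β) fR_mono q).continuousAt

theorem HI_cont (β : Bool) : ContinuousOn (HI β) (Set.Icc 0 1) := by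
  have hu : TendstoUniformlyOn (fun m : ℕ => HM β m) (HI β) atTop (Set.Icc 0 1) := by
    rw [Metric.tendstoUniformlyOn_iff]
    intro ε hε
    obtain ⟨N, hN, h⟩ := a4_unif (show 0 < ε / 2 by positivity)
    rw [eventually_atTop]
    refine ⟨N, fun m hm q hq => ?_⟩
    have h2 := h m hm q hq.1 hq.2
    have h3 := HI_bd hq.1 hq.2 β (hN.trans hm)
    rw [Real.dist_eq, abs_of_nonneg (by linarith [h3.1])]
    linarith [h3.2]
  exact hu.continuousOn (Eventually.frequently (Eventually.of_forall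
    (fun m => (HM_cont β m).continuousOn)))

end Pool.Agent.R960
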