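import Pool.Agent.R960.Comp

/-!
The cluster density: existence, derivative, expansion at the critical point.
-/

namespace Pool.Agent.R960

open H974 H12S H973N H973N.NP Finset Filter Topology

/-- The derivative of the cluster density. -/
noncomputable def gK (q : ℝ) : ℝ := -((1 - HI true q) + (1 - HI false q))

/-- All the slots. -/
noncomputable def TS (n : ℕ) : Finset Edg :=
  Finset.Ico (0:ℤ) n ×ˢ (Finset.Ico (0:ℤ) n ×ˢ (Finset.univ : Finset Bool))

theorem mem_TS {n : ℕ} {e : Edg} :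
    e ∈ TS n ↔ (0 ≤ e.1 ∧ e.1 < n) ∧ (0 ≤ e.2.1 ∧ e.2.1 < n) := by
  unfold TS
  rw [Finset.mem_product, Finset.mem_product, Finset.mem_Ico, Finset.mem_Ico]
  simp

theorem SE_TS (n : ℕ) : SE n ⊆ TS n := by
  intro e he
  rw [mem_TS]
  have := (se_ends he).1
  obtain ⟨x, y, b⟩ := e
  exact this

/-- Edges away from the boundary. -/
def Gd (n m : ℕ) (e : Edg) : Prop :=
  ((m:ℤ) ≤ e.1 ∧ e.1 < (n:ℤ) - (m:ℤ)) ∧ ((m:ℤ) ≤ e.2.1 ∧ e.2.1 < (n:ℤ) - (m:ℤ))

instance (n m : ℕ) : DecidablePred (Gd n m) := fun e => by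
  unfold Gd
  infer_instance

theorem blk_SE {n m : ℕ} {e : Edg} (h : Gd n m e) : blk (bp e) m ⊆ SE n := by
  unfold Gd at h
  unfold blk SE bp
  simp only
  apply RE_subset <;> omega

theorem card_bad (n m : ℕ) : (((TS n).filter (fun e => ¬ Gd n m e)).card : ℝ) ≤ 8 * m * n := by
  have hsub : (TS n).filter (fun e => ¬ Gd n m e) ⊆
      ((Finset.Ico (0:ℤ) m ×ˢ (Finset.Ico (0:ℤ) n ×ˢ (Finset.univ : Finset Bool))) ∪
       (Finset.Ico ((n:ℤ) - m) n ×ˢ (Finset.Ico (0:ℤ) n ×ˢ (Finset.univ : Finset Bool)))) ∪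
      ((Finset.Ico (0:ℤ) n ×ˢ (Finset.Ico (0:ℤ) m ×ˢ (Finset.univ : Finset Bool))) ∪
       (Finset.Ico (0:ℤ) n ×ˢ (Finset.Ico ((n:ℤ) - m) n ×ˢ (Finset.univ : Finset Bool)))) := by
    intro e he
    rw [Finset.mem_filter, mem_TS] at he
    unfold Gd at he
    simp only [Finset.mem_union, Finset.mem_product, Finset.mem_Ico, Finset.mem_univ, and_true]
    omega
  have hcard : ((TS n).filter (fun e => ¬ Gd n m e)).card ≤ 8 * m * n := by
    refine (Finset.card_le_card hsub).trans ?_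
    refine (Finset.card_union_le _ _).trans ?_
    refine (add_le_add (Finset.card_union_le _ _) (Finset.card_union_le _ _)).trans ?_
    simp only [Finset.card_product, Int.card_Ico, Finset.card_univ, Fintype.card_bool]
    have e1 : ((m:ℤ) - 0).toNat = m := by simp
    have e2 : ((n:ℤ) - 0).toNat = n := by simp
    have e3 : ((n:ℤ) - (n - m)).toNat = m := by
      rw [sub_sub_cancel]
      simp
    rw [e1, e2, e3]
    apply le_of_eq
    ring
  exact_mod_cast hcard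

theorem card_TS (n : ℕ) : ((TS n).card : ℝ) = 2 * (n:ℝ) ^ 2 := by
  unfold TS
  simp only [Finset.card_product, Int.card_Ico, Finset.card_univ, Fintype.card_bool]
  have e2 : ((n:ℤ) - 0).toNat = n := by simp
  rw [e2]
  push_cast
  ring

theorem sum_HI (n : ℕ) (q : ℝ) : ∑ e ∈ TS n, (1 - HI e.2.2 q) = -((n:ℝ) ^ 2 * gK q) := by
  unfold TS gK
  rw [Finset.sum_product]
  simp only [Finset.sum_product, Fintype.sum_bool, Finset.sum_const, Int.card_Ico, nsmul_eq_mul]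
  have e2 : ((n:ℤ) - 0).toNat = n := by simp
  rw [e2]
  ring

theorem deriv_unif {n m : ℕ} (hm : 1 ≤ m) {q : ℝ} (h0 : 0 ≤ q) (h1 : q ≤ 1) :
    |(-∑ e ∈ SE n, (1 - PQ q ((SE n).erase e) (Con e))) - (n:ℝ) ^ 2 * gK q| ≤
      2 * (n:ℝ) ^ 2 * a4 q m + 8 * m * n := by
  classical
  have e1 : ∑ e ∈ SE n, (1 - PQ q ((SE n).erase e) (Con e)) =
      ∑ e ∈ TS n, (if e ∈ SE n then 1 - PQ q ((SE n).erase e) (Con e) else 0) := by
    rw [← Finset.sum_filter]
    apply Finset.sum_congr _ (fun _ _ => rfl)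
    ext e
    rw [Finset.mem_filter]
    exact ⟨fun h => ⟨SE_TS n h, h⟩, fun h => h.2⟩
  have e2 : (-∑ e ∈ SE n, (1 - PQ q ((SE n).erase e) (Con e))) - (n:ℝ) ^ 2 * gK q =
      ∑ e ∈ TS n, ((1 - HI e.2.2 q) -
        (if e ∈ SE n then 1 - PQ q ((SE n).erase e) (Con e) else 0)) := by
    rw [e1]
    have e3 := sum_HI n q
    have e4 := Finset.sum_sub_distrib (s := TS n) (fun e => 1 - HI e.2.2 q)
      (fun e => if e ∈ SE n then 1 - PQ q ((SE n).erase e) (Con e) else 0)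
    rw [e4, e3]
    ring
  rw [e2]
  refine (Finset.abs_sum_le_sum_abs _ _).trans ?_
  rw [← Finset.sum_filter_add_sum_filter_not (TS n) (fun e => Gd n m e)]
  have ha := a4nn h0 h1 m
  apply add_le_add
  · have k1 : ∀ e ∈ (TS n).filter (fun e => Gd n m e), |(1 - HI e.2.2 q) -
        (if e ∈ SE n then 1 - PQ q ((SE n).erase e) (Con e) else 0)| ≤ a4 q m := by
      intro e he
      have hb := blk_SE (Finset.mem_filter.mp he).2
      have hself : e ∈ SE n := hb (by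
        obtain ⟨x, y, _ | _⟩ := e
        · unfold blk bp
          rw [mem_RE_false]
          simp only
          omega
        · unfold blk bp
          rw [mem_RE_true]
          simp only
          omega)
      rw [if_pos hself]
      have := con_HI h0 h1 hm hb
      have e3 : (1 - HI e.2.2 q) - (1 - PQ q ((SE n).erase e) (Con e)) =
        PQ q ((SE n).erase e) (Con e) - HI e.2.2 q := by ring
      rw [e3]
      exact this
    refine (Finset.sum_le_sum k1).trans ?_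
    rw [Finset.sum_const, nsmul_eq_mul]
    apply mul_le_mul_of_nonneg_right _ ha
    rw [← card_TS]
    exact_mod_cast Finset.card_le_card (Finset.filter_subset _ _)
  · have k2 : ∀ e ∈ (TS n).filter (fun e => ¬ Gd n m e), |(1 - HI e.2.2 q) -
        (if e ∈ SE n then 1 - PQ q ((SE n).erase e) (Con e) else 0)| ≤ 1 := by
      intro e _
      obtain ⟨j1, j2⟩ := HI_01 h0 h1 e.2.2
      have j3 : 0 ≤ PQ q ((SE n).erase e) (Con e) := Pr_nonneg (okq h0 h1) _ _
      have j4 : PQ q ((SE n).erase e) (Con e) ≤ 1 := Pr_le_one (okq h0 h1) _ _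
      split_ifs
      · rw [abs_le]
        constructor <;> linarith
      · rw [abs_le]
        constructor <;> linarith
    refine (Finset.sum_le_sum k2).trans ?_
    rw [Finset.sum_const, nsmul_eq_mul, mul_one]
    exact card_bad n m

theorem deriv_conv {ε : ℝ} (hε : 0 < ε) : ∃ N : ℕ, 1 ≤ N ∧ ∀ n : ℕ, N ≤ n → ∀ q : ℝ, 0 ≤ q →
    q ≤ 1 → |(-∑ e ∈ SE n, (1 - PQ q ((SE n).erase e) (Con e))) / (n:ℝ) ^ 2 - gK q| ≤ ε := by
  obtain ⟨m, hm, h⟩ := a4_unif (show 0 < ε / 4 by positivity)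
  obtain ⟨N, hN⟩ := exists_nat_gt (16 * m / ε)
  refine ⟨max N 1, le_max_right _ _, ?_⟩
  intro n hn q h0 h1
  have hn1 : 1 ≤ n := (le_max_right _ _).trans hn
  have hnN : N ≤ n := (le_max_left _ _).trans hn
  have hnr : (0:ℝ) < n := by exact_mod_cast hn1
  have hd := deriv_unif (n := n) hm h0 h1
  have ha := h m le_rfl q h0 h1
  have e1 : (-∑ e ∈ SE n, (1 - PQ q ((SE n).erase e) (Con e))) / (n:ℝ) ^ 2 - gK q =
      ((-∑ e ∈ SE n, (1 - PQ q ((SE n).erase e) (Con e))) - (n:ℝ) ^ 2 * gK q) / (n:ℝ) ^ 2 := by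
    field_simp
  rw [e1, abs_div, abs_of_pos (show (0:ℝ) < (n:ℝ) ^ 2 by positivity), div_le_iff₀ (by positivity)]
  refine hd.trans ?_
  have h3 : 16 * (m:ℝ) ≤ ε * n := by
    have h4 : 16 * (m:ℝ) / ε < n := lt_of_lt_of_le hN (by exact_mod_cast hnN)
    rw [div_lt_iff₀ hε] at h4
    linarith
  have h5 : 2 * (n:ℝ) ^ 2 * a4 q m ≤ 2 * (n:ℝ) ^ 2 * (ε / 4) :=
    mul_le_mul_of_nonneg_left ha (by positivity)
  have h6 : 8 * (m:ℝ) * n ≤ ε / 2 * (n:ℝ) ^ 2 := by nlinarith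
  nlinarith

theorem gK_cont : ContinuousOn gK (Set.Icc 0 1) := by
  unfold gK
  exact (((continuousOn_const).sub (HI_cont true)).add
    ((continuousOn_const).sub (HI_cont false))).neg

/-- The continuous extension. -/
noncomputable def gE (q : ℝ) : ℝ := gK (max 0 (min q 1))

theorem gE_cont : Continuous gE := by
  unfold gE
  apply gK_cont.comp_continuous (by fun_prop)
  intro q
  rw [Set.mem_Icc]
  exact ⟨le_max_left _ _, max_le (by norm_num) (min_le_right _ _)⟩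

theorem gE_eq {q : ℝ} (h0 : 0 ≤ q) (h1 : q ≤ 1) : gE q = gK q := by
  unfold gE
  rw [min_eq_left h1, max_eq_right h0]

/-- The cluster density. -/
noncomputable def kap2 (p : ℝ) : ℝ := 1 + ∫ s in (0:ℝ)..p, gE s

theorem kap2_deriv (p : ℝ) : HasDerivAt kap2 (gE p) p := by
  unfold kap2
  have := intervalIntegral.integral_hasDerivAt_right (gE_cont.intervalIntegrable 0 p)
    (gE_cont.stronglyMeasurableAtFilter _ _) gE_cont.continuousAt
  exact this.const_add 1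

theorem kap2_zero : kap2 0 = 1 := by
  unfold kap2
  simp

theorem kap2_lim {p : ℝ} (h0 : 0 ≤ p) (h1 : p ≤ 1) :
    Tendsto (fun n : ℕ => EK n p / (n:ℝ) ^ 2) atTop (𝓝 (kap2 p)) := by
  rw [Metric.tendsto_atTop]
  intro ε hε
  obtain ⟨N, hN, h⟩ := deriv_conv (show 0 < ε / 2 by positivity)
  refine ⟨N, fun n hn => ?_⟩
  have hn0 : (0:ℝ) < n := by exact_mod_cast (hN.trans hn)
  have key := Convex.norm_image_sub_le_of_norm_hasDerivWithin_le
    (f := fun q => EK n q / (n:ℝ) ^ 2 - kap2 q)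
    (f' := fun q => (-∑ e ∈ SE n, (1 - PQ q ((SE n).erase e) (Con e))) / (n:ℝ) ^ 2 - gE q)
    (s := Set.Icc (0:ℝ) 1) (x := 0) (y := p) (C := ε / 2)
    (fun q _ => (((EK_deriv n q).div_const _).sub (kap2_deriv q)).hasDerivWithinAt)
    (fun q hq => by
      rw [gE_eq hq.1 hq.2]
      exact h n hn q hq.1 hq.2)
    (convex_Icc _ _) ⟨le_rfl, by norm_num⟩ ⟨h0, h1⟩
  simp only [EK_zero, kap2_zero] at key
  have e1 : (n:ℝ) ^ 2 / (n:ℝ) ^ 2 = 1 := div_self (by positivity)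
  rw [e1] at key
  rw [Real.dist_eq]
  rw [Real.norm_eq_abs, Real.norm_eq_abs] at key
  have h2 : |p - 0| ≤ 1 := by
    rw [sub_zero, abs_of_nonneg h0]
    exact h1
  have h3 : ε / 2 * |p - 0| ≤ ε / 2 := mul_le_of_le_one_right (by positivity) h2
  have e2 : EK n p / (n:ℝ) ^ 2 - kap2 p - (1 - 1) = EK n p / (n:ℝ) ^ 2 - kap2 p := by ring
  rw [e2] at key
  linarith

theorem gK_taylor : ∃ ℓ C : ℝ, 0 < C ∧ ∀ q : ℝ, 0 ≤ q → q ≤ 1 →
    |gK q - gK (1/2) - ℓ * (q - 1/2)| ≤ C * |q - 1/2| ^ (5/3 : ℝ) := by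
  obtain ⟨l1, C1, hC1, h1⟩ := HI_taylor true
  obtain ⟨l2, C2, hC2, h2⟩ := HI_taylor false
  refine ⟨l1 + l2, C1 + C2, by positivity, ?_⟩
  intro q k0 k1
  have i1 := h1 q k0 k1
  have i2 := h2 q k0 k1
  have e1 : gK q - gK (1/2) - (l1 + l2) * (q - 1/2) =
      (HI true q - HI true (1/2) - l1 * (q - 1/2)) +
      (HI false q - HI false (1/2) - l2 * (q - 1/2)) := by
    unfold gK
    ring
  rw [e1, add_mul]
  exact (abs_add_le _ _).trans (add_le_add i1 i2)

theorem main_bound : ∃ ℓ C : ℝ, HasDerivAt gE ℓ (1/2) ∧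
    (∀ q : ℝ, 0 ≤ q → q ≤ 1 → |gE q - gE (1/2) - ℓ * (q - 1/2)| ≤ C * |q - 1/2| ^ (5/3 : ℝ)) ∧
    ∀ q : ℝ, 0 ≤ q → q ≤ 1 →
    |kap2 q - kap2 (1/2) - gE (1/2) * (q - 1/2) - 1/2 * ℓ * (q - 1/2) ^ 2| ≤
      C * |q - 1/2| ^ (8/3 : ℝ) := by
  obtain ⟨ℓ, C, hC, h⟩ := gK_taylor
  have hE : ∀ q : ℝ, 0 ≤ q → q ≤ 1 → |gE q - gE (1/2) - ℓ * (q - 1/2)| ≤
      C * |q - 1/2| ^ (5/3 : ℝ) := by
    intro q h0 h1
    rw [gE_eq h0 h1, gE_eq (by norm_num) (by norm_num)]
    exact h q h0 h1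
  refine ⟨ℓ, C, ?_, hE, ?_⟩
  · rw [hasDerivAt_iff_isLittleO]
    rw [Asymptotics.isLittleO_iff]
    intro c hc
    have hcont : Tendsto (fun q : ℝ => C * |q - 1/2| ^ (2/3 : ℝ)) (𝓝 (1/2)) (𝓝 0) := by
      have h1 : Tendsto (fun q : ℝ => |q - 1/2|) (𝓝 (1/2)) (𝓝 0) := by
        have : Continuous (fun q : ℝ => |q - 1/2|) := by fun_prop
        have h2 := this.tendsto (1/2)
        simpa using h2
      have h3 := (h1.rpow_const (p := (2/3 : ℝ)) (Or.inr (by norm_num))).const_mul C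
      rw [Real.zero_rpow (by norm_num), mul_zero] at h3
      exact h3
    have hev : ∀ᶠ q : ℝ in 𝓝 (1/2), C * |q - 1/2| ^ (2/3 : ℝ) < c :=
      hcont.eventually (gt_mem_nhds hc)
    have hev2 : ∀ᶠ q : ℝ in 𝓝 (1/2), q ∈ Set.Icc (0:ℝ) 1 :=
      Icc_mem_nhds (by norm_num) (by norm_num)
    filter_upwards [hev, hev2] with q hq1 hq2
    rw [Real.norm_eq_abs, Real.norm_eq_abs, smul_eq_mul, mul_comm (q - 1/2) ℓ]
    refine (hE q hq2.1 hq2.2).trans ?_
    have e1 : |q - 1/2| ^ (5/3 : ℝ) = |q - 1/2| ^ (2/3 : ℝ) * |q - 1/2| := by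
      by_cases hz : |q - 1/2| = 0
      · rw [hz, Real.zero_rpow (by norm_num), mul_zero]
      · have hp : 0 < |q - 1/2| := lt_of_le_of_ne (abs_nonneg _) (Ne.symm hz)
        nth_rewrite 3 [← Real.rpow_one (|q - 1/2|)]
        rw [← Real.rpow_add hp]
        norm_num
    rw [e1, ← mul_assoc]
    exact mul_le_mul_of_nonneg_right hq1.le (abs_nonneg _)
  · intro q h0 h1
    obtain ⟨r, hr⟩ : ∃ r, r = |q - 1/2| := ⟨_, rfl⟩
    have hr0 : 0 ≤ r := by rw [hr]; exact abs_nonneg _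
    have hr1 : r ≤ 1/2 := by
      rw [hr, abs_le]
      constructor <;> linarith
    have key := mvt (f := fun x => kap2 x - kap2 (1/2) - gE (1/2) * (x - 1/2) -
      1/2 * ℓ * (x - 1/2) ^ 2) (r := r) (C := C * r ^ (5/3 : ℝ)) (x := q) ?_ hr.ge
    · have e1 : kap2 q - kap2 (1/2) - gE (1/2) * (q - 1/2) - 1/2 * ℓ * (q - 1/2) ^ 2 -
          (kap2 (1/2) - kap2 (1/2) - gE (1/2) * (1/2 - 1/2) - 1/2 * ℓ * (1/2 - 1/2) ^ 2) =
          kap2 q - kap2 (1/2) - gE (1/2) * (q - 1/2) - 1/2 * ℓ * (q - 1/2) ^ 2 := by ring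
      simp only [e1] at key
      refine key.trans (le_of_eq ?_)
      rw [← hr]
      by_cases hz : r = 0
      · rw [hz, Real.zero_rpow (by norm_num), mul_zero, Real.zero_rpow (by norm_num), mul_zero]
      · have hp : 0 < r := lt_of_le_of_ne hr0 (Ne.symm hz)
        have e2 : r ^ (8/3 : ℝ) = r ^ (5/3 : ℝ) * r := by
          nth_rewrite 3 [← Real.rpow_one r]
          rw [← Real.rpow_add hp]
          norm_num
        rw [e2]
        ring
    · intro x hx
      have hx0 : 0 ≤ x := by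
        rw [abs_le] at hx
        linarith [hx.1]
      have hx1 : x ≤ 1 := by
        rw [abs_le] at hx
        linarith [hx.2]
      refine ⟨gE x - gE (1/2) - ℓ * (x - 1/2), ?_, ?_⟩
      · have d1 := (kap2_deriv x).sub_const (kap2 (1/2))
        have d2 : HasDerivAt (fun x : ℝ => gE (1/2) * (x - 1/2)) (gE (1/2)) x := by
          have := ((hasDerivAt_id x).sub_const (1/2)).const_mul (gE (1/2))
          simpa using this
        have d3 : HasDerivAt (fun x : ℝ => 1/2 * ℓ * (x - 1/2) ^ 2) (ℓ * (x - 1/2)) x := by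
          have h5 := (((hasDerivAt_id' x).sub_const (1/2)).fun_pow 2).const_mul (1/2 * ℓ)
          refine h5.congr_deriv ?_
          push_cast
          ring
        exact (d1.sub d2).sub d3
      · refine (hE x hx0 hx1).trans ?_
        apply mul_le_mul_of_nonneg_left _ hC.le
        exact Real.rpow_le_rpow (abs_nonneg _) hx (by norm_num)

end Pool.Agent.R960
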