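import Pool.Agent.R960.Kap
import Pool.Agent.H974R2.Infinite

/-!
The number of clusters of a box as a random variable of the infinite volume model.
-/

namespace Pool.Agent.R960

open H974 H12S H973N H973N.NP Finset Filter Topology MeasureTheory

theorem law_integral (p : unitInterval) (S : Finset Edg) (f : Finset Edg → ℝ) :
    ∫ ω, f (FF S ω) ∂(bondLaw p) = Ex (fun _ => (p:ℝ)) S f := by
  classical
  have e1 : ∀ ω, f (FF S ω) = ∑ T ∈ S.powerset,
      Set.indicator {ω | FF S ω = T} (fun _ => f T) ω := by
    intro ω
    rw [Finset.sum_eq_single (FF S ω)]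
    · simp [Set.indicator]
    · intro T _ hT
      rw [Set.indicator_of_notMem]
      intro h
      exact hT (show FF S ω = T from h).symm
    · intro h
      exact absurd (Finset.mem_powerset.mpr (Finset.filter_subset _ _)) h
  simp_rw [e1]
  rw [integral_finsetSum]
  · unfold Ex
    apply Finset.sum_congr rfl
    intro T hT
    rw [integral_indicator (meas_FF S T), setIntegral_const, law_eq p (Finset.mem_powerset.mp hT),
      smul_eq_mul]
  · intro T _
    exact (integrable_const _).indicator (meas_FF S T)

/-- The vertices of the box `{0, …, n - 1}²`. -/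
def bxs (n : ℕ) : Set (ℤ × ℤ) := {v | (0 ≤ v.1 ∧ v.1 < n) ∧ (0 ≤ v.2 ∧ v.2 < n)}

theorem ind_reach (n : ℕ) (ω : sqLattice.edgeSet → Bool) (u v : bxs n) :
    ((openGraph ω).induce (bxs n)).Reachable u v ↔ Reach (↑(FF (SE n) ω) : Set Edg) u.1 v.1 := by
  rw [SimpleGraph.reachable_iff_reflTransGen]
  have hadj : ∀ a b : bxs n, ((openGraph ω).induce (bxs n)).Adj a b ↔
      Adj (↑(FF (SE n) ω) : Set Edg) a.1 b.1 := by
    intro a b
    rw [SimpleGraph.comap_adj, Function.Embedding.subtype_apply, Function.Embedding.subtype_apply,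
      openGraph_adj, FF_coe]
    constructor
    · rintro ⟨e, he, hc⟩
      refine ⟨e, ⟨he, ?_⟩, hc⟩
      obtain ⟨a, ha⟩ := a
      obtain ⟨b, hb⟩ := b
      unfold bxs at ha hb
      simp only [Set.mem_ofPred_eq] at ha hb hc
      obtain ⟨x, y, _ | _⟩ := e
      · unfold SE
        simp only [src_mk, tgt_false] at hc
        rw [Finset.mem_coe, mem_RE_false]
        rcases hc with ⟨h1, h2⟩ | ⟨h1, h2⟩
        · rw [← h1] at ha
          rw [← h2] at hb
          simp only at ha hb
          omega
        · rw [← h1] at hb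
          rw [← h2] at ha
          simp only at ha hb
          omega
      · unfold SE
        simp only [src_mk, tgt_true] at hc
        rw [Finset.mem_coe, mem_RE_true]
        rcases hc with ⟨h1, h2⟩ | ⟨h1, h2⟩
        · rw [← h1] at ha
          rw [← h2] at hb
          simp only at ha hb
          omega
        · rw [← h1] at hb
          rw [← h2] at ha
          simp only at ha hb
          omega
    · rintro ⟨e, he, hc⟩
      exact ⟨e, he.1, hc⟩
  constructor
  · intro h
    induction h with
    | refl => exact Reach.refl _ _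
    | tail _ hs ih => exact ih.trans (Adj.reach ((hadj _ _).1 hs))
  · intro h
    have key : ∀ w : Vtx, Reach (↑(FF (SE n) ω) : Set Edg) u.1 w →
        ∃ hw : w ∈ bxs n, Relation.ReflTransGen ((openGraph ω).induce (bxs n)).Adj u ⟨w, hw⟩ := by
      intro w hw
      induction hw with
      | refl => exact ⟨u.2, Relation.ReflTransGen.refl⟩
      | @tail w w' _ hs ih =>
        obtain ⟨h1, h2⟩ := ih
        have hs' := hs
        obtain ⟨e, he, hc⟩ := hs
        have hend := se_ends (mem_FF.mp (Finset.mem_coe.mp he)).1
        have hw' : w' ∈ bxs n := by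
          rcases hc with ⟨h3, h4⟩ | ⟨h3, h4⟩
          · rw [← h4]
            exact hend.2
          · rw [← h3]
            exact hend.1
        exact ⟨hw', h2.tail ((hadj ⟨w, h1⟩ ⟨w', hw'⟩).2 hs')⟩
    obtain ⟨hw, hr⟩ := key v.1 h
    exact hr

/-- The number of open clusters of the box. -/
theorem card_cc (n : ℕ) (ω : sqLattice.edgeSet → Bool) :
    Nat.card ((openGraph ω).induce (bxs n)).ConnectedComponent = KC n ↑(FF (SE n) ω) := by
  unfold KC SimpleGraph.ConnectedComponent
  have e1 : ∀ u v : bxs n, ((openGraph ω).induce (bxs n)).Reachable u v ↔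
      (std n (↑(FF (SE n) ω) : Set Edg)).r u v := fun u v => ind_reach n ω u v
  exact Nat.card_congr (Quot.congr (Equiv.refl _) (fun u v => e1 u v))

theorem integral_EK (p : unitInterval) (n : ℕ) :
    ∫ ω, (Nat.card ((openGraph ω).induce (bxs n)).ConnectedComponent : ℝ) ∂(bondLaw p) =
      EK n p := by
  simp_rw [card_cc]
  exact law_integral p (SE n) (fun F => (KC n ↑F : ℝ))

end Pool.Agent.R960
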