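import Pool.Agent.Y244.PC.Mom
import Pool.Agent.H160R2.SA.Arm
import Pool.Agent.H974R2.Static

/-!
Moments of the number of vertices of the box connected to the origin.
-/

namespace Pool.Agent.R960

open Finset H974 Pool.Agent.H160R2.CV Pool.Agent.H160R2.CV.Quad H362P MeasureTheory
open Pool.Agent.H389R2.CD Pool.Agent.Y244.PC

theorem inner_sum (hAr : ArS) : ∃ C : ℝ, 0 < C ∧ ∀ n : ℕ, 1 ≤ n → ∀ x ∈ bx n,
    ∑ y ∈ bx n, PX (insert y (insert x ∅)) ≤ C * (n : ℝ) ^ (43 / 24 : ℝ) := by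
  classical
  obtain ⟨c, C, hc, hC, h⟩ := two_point hAr
  refine ⟨1 + 96 * C, by positivity, fun n hn => ?_⟩
  have hn1 : (1 : ℝ) ≤ n := by exact_mod_cast hn
  have hn0 : (0 : ℝ) < n := by linarith
  set f : ℕ → ℝ := fun k => if 1 ≤ k then (k : ℝ) ^ (-(5 / 24 : ℝ)) else 0 with hf
  have hf0 : ∀ k, 0 ≤ f k := by
    intro k
    rw [hf]
    simp only
    split_ifs
    · positivity
    · exact le_rfl
  have hfs : ∑ k ∈ range (2 * n + 1), ((k : ℝ) + 1) * f k ≤ 12 * (n : ℝ) ^ (43 / 24 : ℝ) := by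
    have hterm : ∀ k ∈ range (2 * n + 1), ((k : ℝ) + 1) * f k ≤ 4 * (n : ℝ) ^ (19 / 24 : ℝ) := by
      intro k hk
      rw [Finset.mem_range] at hk
      rw [hf]
      simp only
      split_ifs with h1
      · have hk1 : (1 : ℝ) ≤ k := by exact_mod_cast h1
        have hk0 : (0 : ℝ) < k := by linarith
        have hk2 : (k : ℝ) ≤ 2 * n := by exact_mod_cast (by omega : k ≤ 2 * n)
        have e1 : (k : ℝ) * (k : ℝ) ^ (-(5 / 24 : ℝ)) = (k : ℝ) ^ (19 / 24 : ℝ) := by
          rw [mul_comm, ← Real.rpow_add_one hk0.ne']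
          congr 1
          norm_num
        have h4 : (k : ℝ) ^ (19 / 24 : ℝ) ≤ 2 * (n : ℝ) ^ (19 / 24 : ℝ) := by
          calc (k : ℝ) ^ (19 / 24 : ℝ) ≤ (2 * (n : ℝ)) ^ (19 / 24 : ℝ) :=
                Real.rpow_le_rpow hk0.le hk2 (by norm_num)
            _ = 2 ^ (19 / 24 : ℝ) * (n : ℝ) ^ (19 / 24 : ℝ) :=
                Real.mul_rpow (by norm_num) hn0.le
            _ ≤ 2 ^ (1 : ℝ) * (n : ℝ) ^ (19 / 24 : ℝ) := by
                apply mul_le_mul_of_nonneg_right _ (by positivity)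
                exact Real.rpow_le_rpow_of_exponent_le (by norm_num) (by norm_num)
            _ = _ := by rw [Real.rpow_one]
        have h5 : (0 : ℝ) ≤ (k : ℝ) ^ (-(5 / 24 : ℝ)) := by positivity
        nlinarith
      · rw [mul_zero]
        positivity
    calc ∑ k ∈ range (2 * n + 1), ((k : ℝ) + 1) * f k
        ≤ ∑ k ∈ range (2 * n + 1), 4 * (n : ℝ) ^ (19 / 24 : ℝ) := Finset.sum_le_sum hterm
      _ = (2 * (n : ℝ) + 1) * (4 * (n : ℝ) ^ (19 / 24 : ℝ)) := by
          rw [Finset.sum_const, Finset.card_range, nsmul_eq_mul]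
          push_cast
          ring
      _ ≤ (3 * (n : ℝ)) * (4 * (n : ℝ) ^ (19 / 24 : ℝ)) := by
          apply mul_le_mul_of_nonneg_right _ (by positivity)
          linarith
      _ = 12 * (n : ℝ) ^ (43 / 24 : ℝ) := by
          have : (43 / 24 : ℝ) = 19 / 24 + 1 := by norm_num
          rw [this, Real.rpow_add_one hn0.ne']
          ring
  intro x hx
  have hpt : ∀ y ∈ bx n, PX (insert y (insert x ∅)) ≤
      (if y = x then 1 else 0) + C * f (nv (y - x)) := by
    intro y _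
    by_cases hxy : y = x
    · rw [if_pos hxy, hxy, Finset.insert_idem]
      have h1 : PX (insert x ∅) = 1 := PX_singleton x
      rw [h1]
      have := hf0 (nv (x - x))
      nlinarith
    · rw [if_neg hxy, zero_add]
      have h1 := (h y x hxy).2
      have h2 : 1 ≤ sd y x := sd_pos hxy
      rw [hf]
      simp only
      rw [← sd_eq, if_pos h2]
      exact h1
  calc ∑ y ∈ bx n, PX (insert y (insert x ∅))
      ≤ ∑ y ∈ bx n, ((if y = x then 1 else 0) + C * f (nv (y - x))) := Finset.sum_le_sum hpt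
    _ = (∑ y ∈ bx n, if y = x then (1 : ℝ) else 0) + C * ∑ y ∈ bx n, f (nv (y - x)) := by
        rw [Finset.sum_add_distrib, Finset.mul_sum]
    _ ≤ 1 + C * (8 * (12 * (n : ℝ) ^ (43 / 24 : ℝ))) := by
        apply add_le_add
        · rw [Finset.sum_ite_eq' (bx n) x (fun _ => (1 : ℝ)), if_pos hx]
        · apply mul_le_mul_of_nonneg_left _ hC.le
          refine (sum_bx_shift n x hx f hf0).trans ?_
          linarith
    _ ≤ _ := by
        have : (1 : ℝ) ≤ (n : ℝ) ^ (43 / 24 : ℝ) := Real.one_le_rpow hn1 (by norm_num)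
        nlinarith

theorem zero_bx (n : ℕ) : ((0, 0) : Vtx) ∈ bx n := by
  unfold bx
  rw [Finset.mem_product, Finset.mem_Icc]
  constructor
  · constructor <;> simp
  · constructor <;> simp

/-- The `W` sums started at the origin. -/
theorem W_zero (hAr : ArS) (k : ℕ) : ∃ C : ℝ, 0 < C ∧ ∀ n : ℕ, 1 ≤ n →
    W n (k + 1) {(0, 0)} ≤ C * (n : ℝ) ^ ((91 / 48 : ℝ) * k + 43 / 24) := by
  classical
  obtain ⟨C1, hC1, h1⟩ := step_sum hAr
  obtain ⟨C2, hC2, h2⟩ := inner_sum hAr
  refine ⟨(C1 * ((k + 2 : ℕ) : ℝ) ^ (5 / 96 : ℝ)) ^ k * C2, by positivity, fun n hn => ?_⟩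
  have hn0 : (0 : ℝ) < n := by exact_mod_cast hn
  have key : ∀ x ∈ bx n, W n k (insert x {(0, 0)}) ≤
      (C1 * ((n : ℝ) ^ (91 / 48 : ℝ) * ((k + 2 : ℕ) : ℝ) ^ (5 / 96 : ℝ))) ^ k *
        PX (insert x {(0, 0)}) := by
    intro x hx
    refine W_bound hC1 hn (h1 n hn) k _ _ (Finset.insert_nonempty _ _) ?_ ?_
    · intro y hy
      rw [Finset.mem_insert, Finset.mem_singleton] at hy
      rcases hy with rfl | rfl
      · exact hx
      · exact zero_bx n
    · have := Finset.card_insert_le x ({(0, 0)} : Finset Vtx)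
      rw [Finset.card_singleton] at this
      omega
  show ∑ x ∈ bx n, W n k (insert x {(0, 0)}) ≤ _
  refine (Finset.sum_le_sum key).trans ?_
  rw [← Finset.mul_sum]
  have h3 := h2 n hn (0, 0) (zero_bx n)
  have e1 : ∀ y : Vtx, (insert y {(0, 0)} : Finset Vtx) = insert y (insert (0, 0) ∅) := by
    intro y
    rfl
  have h4 : ∑ x ∈ bx n, PX (insert x {(0, 0)}) ≤ C2 * (n : ℝ) ^ (43 / 24 : ℝ) := h3
  refine (mul_le_mul_of_nonneg_left h4 (by positivity)).trans (le_of_eq ?_)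
  rw [Real.rpow_add hn0, mul_comm (91 / 48 : ℝ) (k : ℝ), mul_comm (k : ℝ) (91 / 48 : ℝ),
    Real.rpow_mul hn0.le, Real.rpow_natCast]
  ring

open Classical in
/-- The number of vertices of the box connected to the origin. -/
noncomputable def vol (n : ℕ) (F : Finset Edg) : ℝ :=
  (((bx n).filter (fun x => Reach (↑F : Set Edg) (0, 0) x)).card : ℝ)

theorem vol_nonneg (n : ℕ) (F : Finset Edg) : 0 ≤ vol n F := by
  unfold vol
  positivity

theorem vol_pow_le (n : ℕ) (F : Finset Edg) (k : ℕ) : vol n F ^ k ≤ U n F k {(0, 0)} := by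
  classical
  unfold vol
  refine U_ge (Finset.filter_subset _ _) ?_ k _ ?_
  · intro u hu v hv
    rw [Finset.mem_filter] at hu hv
    exact (Reach.symm hu.2).trans hv.2
  · intro x hx
    rw [Finset.mem_singleton] at hx
    subst hx
    rw [Finset.mem_filter]
    exact ⟨zero_bx n, Reach.refl _ _⟩

theorem U_mono_param {p : ℝ} (h0 : 0 ≤ p) (hp : p ≤ 1/2) (n : ℕ) (k : ℕ) (X : Finset Vtx) :
    Ex (fun _ => p) (boxE n) (fun F => U n F k X) ≤ Ex P (boxE n) (fun F => U n F k X) := by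
  induction k generalizing X with
  | zero =>
    show Pr (fun _ => p) (boxE n) (fun F => Cn X ↑F) ≤ Pr P (boxE n) (fun F => Cn X ↑F)
    exact Pr_mono_param (okq h0 (by linarith)) (okq (by norm_num) (by norm_num)) (fun _ => hp)
      (fun F G h _ hF => Cn.mono (by exact_mod_cast h) hF)
  | succ k ih =>
    show Ex (fun _ => p) (boxE n) (fun F => ∑ x ∈ bx n, U n F k (insert x X)) ≤
      Ex P (boxE n) (fun F => ∑ x ∈ bx n, U n F k (insert x X))
    rw [Ex_sum, Ex_sum]
    exact Finset.sum_le_sum fun x _ => ih _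

/-- Moments of the volume in the box, for parameters at most `1/2`. -/
theorem vol_moment (k : ℕ) : ∃ C : ℝ, 0 < C ∧ ∀ p : ℝ, 0 ≤ p → p ≤ 1/2 → ∀ n : ℕ, 1 ≤ n →
    Ex (fun _ => p) (boxE n) (fun F => vol n F ^ (k + 1)) ≤
      C * (n : ℝ) ^ ((91 / 48 : ℝ) * k + 43 / 24) := by
  obtain ⟨C, hC, h⟩ := W_zero Pool.Agent.H160R2.SA.arSharp k
  refine ⟨C, hC, ?_⟩
  intro p h0 hp n hn
  refine le_trans (Ex_mono (okq h0 (by linarith)) (fun F _ => vol_pow_le n F (k + 1))) ?_
  exact (U_mono_param h0 hp n (k + 1) _).trans ((Ex_U_le n (k + 1) _).trans (h n hn))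

/-- Moments of the volume on the event that the origin is connected to distance `m`. -/
theorem vol_arm {p : ℝ} (h0 : 0 ≤ p) (h1 : p ≤ 1) (n m k : ℕ) (hmn : m ≤ n) :
    (Ex (fun _ => p) (boxE n) (fun F => vol n F ^ k * ind (Arm m F))) ^ 2 ≤
      Ex (fun _ => p) (boxE n) (fun F => vol n F ^ (2 * k)) * arm p m := by
  have h := Ex_cs (okq h0 h1) (boxE n) (fun F => vol n F ^ k) (fun F => ind (Arm m F))
  have e1 : Ex (fun _ => p) (boxE n) (fun F => (vol n F ^ k) ^ 2) =
      Ex (fun _ => p) (boxE n) (fun F => vol n F ^ (2 * k)) := by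
    apply Ex_congr
    intro F _
    rw [← pow_mul, mul_comm k 2]
  have e2 : Ex (fun _ => p) (boxE n) (fun F => (ind (Arm m F)) ^ 2) = arm p m := by
    rw [← pr_Arm p (boxE_mono hmn)]
    apply Ex_congr
    intro F _
    rw [_root_.sq, ind_sq]
  rw [e1, e2] at h
  exact h

end Pool.Agent.R960
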