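import Pool.Agent.W424.NC.TwoLow
import Pool.Agent.W424.NC.Stab
import Pool.Agent.W424.NC.ArmUp
import Pool.Agent.W424.NC.ArmLow

/-!
The one-arm probability above the critical point.
-/

namespace Pool.Agent.R960

open H974 Pool.Agent.W424.NC

/-- Upper bound at and above the critical point. -/
theorem arm_sup_upper : ∃ C : ℝ, 0 < C ∧ ∀ p : ℝ, 1/2 ≤ p → p ≤ 1 → ∀ n : ℕ, 1 ≤ n →
    arm p n ≤ C * max ((n:ℝ) ^ (-(5/48) : ℝ)) ((p - 1/2) ^ (5/36 : ℝ)) := by
  obtain ⟨κ, b, hκ, hb, hst⟩ := armS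
  obtain ⟨cc, Cc, hcc, hCc, harm⟩ := Pool.Agent.W424.NC.arm_crit
  obtain ⟨D, hD⟩ : ∃ D : ℝ, D = b ^ (-(5/36) : ℝ) := ⟨_, rfl⟩
  have hD0 : 0 < D := by rw [hD]; positivity
  refine ⟨3 * Cc + D + 6 * Cc * D, by positivity, ?_⟩
  intro p hp hp1 n hn
  obtain ⟨t, ht⟩ : ∃ t, t = p - 1/2 := ⟨_, rfl⟩
  have ht0 : 0 ≤ t := by rw [ht]; linarith
  rw [← ht]
  have h0 : 0 ≤ p := by linarith
  have hn0 : (0:ℝ) < n := by exact_mod_cast hn
  have good : ∀ m : ℕ, 1 ≤ m → t * (m:ℝ) ^ (3/4 : ℝ) ≤ b →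
      arm p m ≤ 3 * Cc * (m:ℝ) ^ (-(5/48) : ℝ) := by
    intro m hm hmt
    have hm0 : (0:ℝ) < m := by exact_mod_cast hm
    have h2 := (hst m hm p (by
      rw [← ht, abs_of_nonneg ht0, Real.rpow_neg hm0.le, ← div_eq_mul_inv,
        le_div_iff₀ (by positivity)]
      exact hmt)).2.1
    have h3 := (harm m hm).2
    linarith
  have hmaxl : (n:ℝ) ^ (-(5/48) : ℝ) ≤ max ((n:ℝ) ^ (-(5/48) : ℝ)) (t ^ (5/36 : ℝ)) :=
    le_max_left _ _
  have hmaxr : t ^ (5/36 : ℝ) ≤ max ((n:ℝ) ^ (-(5/48) : ℝ)) (t ^ (5/36 : ℝ)) :=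
    le_max_right _ _
  have hmax0 : 0 ≤ max ((n:ℝ) ^ (-(5/48) : ℝ)) (t ^ (5/36 : ℝ)) :=
    le_trans (by positivity) hmaxl
  by_cases hA : t * (n:ℝ) ^ (3/4 : ℝ) ≤ b
  · refine (good n hn hA).trans ?_
    calc 3 * Cc * (n:ℝ) ^ (-(5/48) : ℝ)
        ≤ 3 * Cc * max ((n:ℝ) ^ (-(5/48) : ℝ)) (t ^ (5/36 : ℝ)) :=
          mul_le_mul_of_nonneg_left hmaxl (by positivity)
      _ ≤ _ := mul_le_mul_of_nonneg_right (by
          have : 0 < 6 * Cc * D := by positivity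
          linarith) hmax0
  · push Not at hA
    have htp : 0 < t := by
      rcases ht0.lt_or_eq with h | h
      · exact h
      · exfalso
        rw [← h, zero_mul] at hA
        linarith
    have hbt : (t / b) ^ (5/36 : ℝ) = D * t ^ (5/36 : ℝ) := by
      rw [Real.div_rpow htp.le hb.le, hD, Real.rpow_neg hb.le]
      ring
    by_cases hB : t ≤ b
    · obtain ⟨x, hx⟩ : ∃ x : ℝ, x = (b / t) ^ (4/3 : ℝ) := ⟨_, rfl⟩
      have hx1 : 1 ≤ x := by
        rw [hx]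
        apply Real.one_le_rpow _ (by norm_num)
        rw [le_div_iff₀ htp]
        linarith
      have hx34 : x ^ (3/4 : ℝ) = b / t := by
        rw [hx, ← Real.rpow_mul (by positivity)]
        norm_num
      have hm1 : 1 ≤ ⌊x⌋₊ := Nat.le_floor (by exact_mod_cast hx1)
      have hm2 : (⌊x⌋₊ : ℝ) ≤ x := Nat.floor_le (by linarith)
      have hm3 : x < ⌊x⌋₊ + 1 := Nat.lt_floor_add_one x
      have hm4 : (1:ℝ) ≤ (⌊x⌋₊ : ℝ) := by exact_mod_cast hm1
      have hxn : x < n := by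
        have h5 : x ^ (3/4 : ℝ) < (n:ℝ) ^ (3/4 : ℝ) := by
          rw [hx34, div_lt_iff₀ htp]
          linarith
        exact (Real.rpow_lt_rpow_iff (by linarith) hn0.le (by norm_num)).1 h5
      have hmn : ⌊x⌋₊ ≤ n := by
        have : ((⌊x⌋₊ : ℕ) : ℝ) < n := lt_of_le_of_lt hm2 hxn
        exact_mod_cast this.le
      have h6 := good ⌊x⌋₊ hm1 (by
        have : ((⌊x⌋₊ : ℕ) : ℝ) ^ (3/4 : ℝ) ≤ b / t := by
          rw [← hx34]
          exact Real.rpow_le_rpow (by positivity) hm2 (by norm_num)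
        rw [le_div_iff₀ htp] at this
        linarith)
      have h7 : ((⌊x⌋₊ : ℕ) : ℝ) ^ (-(5/48) : ℝ) ≤ 2 * (D * t ^ (5/36 : ℝ)) := by
        have h8 : ((⌊x⌋₊ : ℕ) : ℝ) ^ (-(5/48) : ℝ) ≤ (x / 2) ^ (-(5/48) : ℝ) :=
          Real.rpow_le_rpow_of_nonpos (by linarith) (by linarith) (by norm_num)
        refine h8.trans ?_
        rw [Real.div_rpow (by linarith) (by norm_num)]
        have h9 : x ^ (-(5/48) : ℝ) = D * t ^ (5/36 : ℝ) := by
          rw [← hbt, hx, ← Real.rpow_mul (by positivity), ← inv_div t b,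
            Real.inv_rpow (by positivity), ← Real.rpow_neg (by positivity)]
          norm_num
        rw [h9, Real.rpow_neg (by norm_num), div_inv_eq_mul]
        have h10 : (2:ℝ) ^ (5/48 : ℝ) ≤ 2 ^ (1:ℝ) :=
          Real.rpow_le_rpow_of_exponent_le (by norm_num) (by norm_num)
        rw [Real.rpow_one] at h10
        have h11 : 0 ≤ D * t ^ (5/36 : ℝ) := by positivity
        calc D * t ^ (5/36 : ℝ) * 2 ^ (5/48 : ℝ) ≤ D * t ^ (5/36 : ℝ) * 2 :=
              mul_le_mul_of_nonneg_left h10 h11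
          _ = _ := by ring
      calc arm p n ≤ arm p ⌊x⌋₊ := arm_anti h0 hp1 hmn
        _ ≤ _ := h6
        _ ≤ 3 * Cc * (2 * (D * t ^ (5/36 : ℝ))) := mul_le_mul_of_nonneg_left h7 (by positivity)
        _ = 6 * Cc * D * t ^ (5/36 : ℝ) := by ring
        _ ≤ 6 * Cc * D * max ((n:ℝ) ^ (-(5/48) : ℝ)) (t ^ (5/36 : ℝ)) :=
          mul_le_mul_of_nonneg_left hmaxr (by positivity)
        _ ≤ _ := mul_le_mul_of_nonneg_right (by linarith) hmax0
    · push Not at hB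
      have h12 : 1 ≤ D * t ^ (5/36 : ℝ) := by
        rw [← hbt]
        apply Real.one_le_rpow _ (by norm_num)
        rw [le_div_iff₀ hb]
        linarith
      calc arm p n ≤ 1 := arm_le_one h0 hp1 n
        _ ≤ D * t ^ (5/36 : ℝ) := h12
        _ ≤ D * max ((n:ℝ) ^ (-(5/48) : ℝ)) (t ^ (5/36 : ℝ)) :=
          mul_le_mul_of_nonneg_left hmaxr hD0.le
        _ ≤ _ := mul_le_mul_of_nonneg_right (by
          have : 0 < 6 * Cc * D := by positivity
          linarith) hmax0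

/-- Lower bound at and above the critical point. -/
theorem arm_sup_lower : ∃ c : ℝ, 0 < c ∧ ∀ p : ℝ, 1/2 ≤ p → p ≤ 1 → ∀ n : ℕ,
    c * (p - 1/2) ^ (5/36 : ℝ) ≤ arm p n ∧
      (1 ≤ n → c * (n:ℝ) ^ (-(5/48) : ℝ) ≤ arm p n) := by
  obtain ⟨E, hE, hfar⟩ := farN
  obtain ⟨cc, Cc, hcc, hCc, harm⟩ := Pool.Agent.W424.NC.arm_crit
  refine ⟨min cc (cc / 2 * (2 * E) ^ (-(5/48) : ℝ)), lt_min hcc (by positivity), ?_⟩
  intro p hp hp1 n
  have h0 : 0 ≤ p := by linarith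
  constructor
  · obtain ⟨t, ht⟩ : ∃ t, t = p - 1/2 := ⟨_, rfl⟩
    have ht0 : 0 ≤ t := by rw [ht]; linarith
    rw [← ht]
    rcases ht0.lt_or_eq with htp | h
    · obtain ⟨N, hN2, hN3, hN4, hN5⟩ := hfar (1 - p) (by linarith) (by linarith)
      rw [show (1:ℝ) - (1 - p) = p by ring] at hN5
      have e1 : (1:ℝ)/2 - (1 - p) = t := by rw [ht]; ring
      rw [e1] at hN3 hN4
      have hN0 : (0:ℝ) < N := by
        have : 0 < N := by omega
        exact_mod_cast this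
      have k1 := arm_chain h0 hp1 hN2 hN5 n
      have k2 := arm_mono_param (by norm_num) hp hp1 (2 * N)
      have k3 := (harm (2 * N) (by omega)).1
      push_cast at k3
      have k4 : (2 * E) ^ (-(5/48) : ℝ) * t ^ (5/36 : ℝ) ≤ (2 * (N:ℝ)) ^ (-(5/48) : ℝ) := by
        have e2 : t ^ (5/36 : ℝ) = (t ^ (4/3 : ℝ)) ^ (5/48 : ℝ) := by
          rw [← Real.rpow_mul htp.le]
          norm_num
        have e3 : t ^ (4/3 : ℝ) ≤ E / N := by
          rw [le_div_iff₀ hN0]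
          linarith
        have e4 : t ^ (5/36 : ℝ) ≤ (E / N) ^ (5/48 : ℝ) := by
          rw [e2]
          exact Real.rpow_le_rpow (by positivity) e3 (by norm_num)
        calc (2 * E) ^ (-(5/48) : ℝ) * t ^ (5/36 : ℝ)
            ≤ (2 * E) ^ (-(5/48) : ℝ) * (E / N) ^ (5/48 : ℝ) :=
              mul_le_mul_of_nonneg_left e4 (by positivity)
          _ = (2 * (N:ℝ)) ^ (-(5/48) : ℝ) := by
              rw [Real.rpow_neg (by positivity), Real.rpow_neg (by positivity),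
                Real.mul_rpow (by norm_num) (by positivity),
                Real.mul_rpow (by norm_num) (by positivity),
                Real.div_rpow (by positivity) (by positivity)]
              field_simp
      calc min cc (cc / 2 * (2 * E) ^ (-(5/48) : ℝ)) * t ^ (5/36 : ℝ)
          ≤ cc / 2 * (2 * E) ^ (-(5/48) : ℝ) * t ^ (5/36 : ℝ) :=
            mul_le_mul_of_nonneg_right (min_le_right _ _) (by positivity)
        _ = 1/2 * (cc * ((2 * E) ^ (-(5/48) : ℝ) * t ^ (5/36 : ℝ))) := by ring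
        _ ≤ 1/2 * (cc * (2 * (N:ℝ)) ^ (-(5/48) : ℝ)) := by
            apply mul_le_mul_of_nonneg_left _ (by norm_num)
            exact mul_le_mul_of_nonneg_left k4 hcc.le
        _ ≤ 1/2 * arm p (2 * N) := by linarith
        _ ≤ _ := k1
    · rw [← h, Real.zero_rpow (by norm_num), mul_zero]
      exact arm_nonneg h0 hp1 n
  · intro hn
    have k2 := arm_mono_param (by norm_num) hp hp1 n
    have k3 := (harm n hn).1
    calc min cc (cc / 2 * (2 * E) ^ (-(5/48) : ℝ)) * (n:ℝ) ^ (-(5/48) : ℝ)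
        ≤ cc * (n:ℝ) ^ (-(5/48) : ℝ) :=
          mul_le_mul_of_nonneg_right (min_le_left _ _) (by positivity)
      _ ≤ _ := k3.trans k2

/-- The percolation probability up to constants. -/
theorem theta_sharp : ∃ c C : ℝ, 0 < c ∧ 0 < C ∧ ∀ p : unitInterval, (1/2 : ℝ) ≤ p →
    c * ((p:ℝ) - 1/2) ^ (5/36 : ℝ) ≤ theta p ∧ theta p ≤ C * ((p:ℝ) - 1/2) ^ (5/36 : ℝ) := by
  obtain ⟨c, hc, hl⟩ := arm_sup_lower
  obtain ⟨C, hC, hu⟩ := arm_sup_upper
  refine ⟨c, C, hc, hC, ?_⟩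
  intro p hp
  constructor
  · exact le_theta p (fun n => (hl p hp p.2.2 n).1)
  · obtain ⟨t, ht⟩ : ∃ t, t = (p:ℝ) - 1/2 := ⟨_, rfl⟩
    have ht0 : 0 ≤ t := by rw [ht]; linarith
    rcases ht0.lt_or_eq with htp | h
    · obtain ⟨n, hn⟩ := exists_nat_ge (max 1 (t ^ (-(4/3) : ℝ)))
      have hn1 : (1:ℝ) ≤ n := (le_max_left _ _).trans hn
      have hn2 : t ^ (-(4/3) : ℝ) ≤ n := (le_max_right _ _).trans hn
      have hn3 : 1 ≤ n := by exact_mod_cast hn1
      have h2 := hu p hp p.2.2 n hn3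
      rw [← ht] at h2 ⊢
      have h3 : (n:ℝ) ^ (-(5/48) : ℝ) ≤ t ^ (5/36 : ℝ) := by
        have h4 : (n:ℝ) ^ (-(5/48) : ℝ) ≤ (t ^ (-(4/3) : ℝ)) ^ (-(5/48) : ℝ) :=
          Real.rpow_le_rpow_of_nonpos (by positivity) hn2 (by norm_num)
        rw [← Real.rpow_mul htp.le] at h4
        norm_num at h4 ⊢
        exact h4
      rw [max_eq_right h3] at h2
      exact (theta_le_arm p n).trans h2
    · rw [theta_half_le (p := p) (by linarith)]
      rw [← ht, ← h, Real.zero_rpow (by norm_num), mul_zero]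

end Pool.Agent.R960
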