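import Pool.Agent.R960.MomA
import Pool.Agent.R960.Dya
import Pool.Agent.R960.OneArm

/-!
Upper bound for the moments of the cluster size below the critical point.
-/

namespace Pool.Agent.R960

open Finset H974 MeasureTheory
open Pool.Agent.H160R2.CV (bx)

theorem lint_law (p : unitInterval) (S : Finset Edg) (f : Finset Edg → ℝ) (hf : ∀ F, 0 ≤ f F) :
    ∫⁻ ω, ENNReal.ofReal (f (FF S ω)) ∂(bondLaw p) = ENNReal.ofReal (Ex (fun _ => (p:ℝ)) S f) := by
  classical
  have e1 : ∀ ω, ENNReal.ofReal (f (FF S ω)) = ∑ T ∈ S.powerset,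
      Set.indicator {ω | FF S ω = T} (fun _ => ENNReal.ofReal (f T)) ω := by
    intro ω
    rw [Finset.sum_eq_single (FF S ω)]
    · simp [Set.indicator]
    · intro T _ hT
      rw [Set.indicator_of_notMem]
      intro h
      exact hT (show FF S ω = T from h).symm
    · intro h
      exact absurd (Finset.mem_powerset.mpr (Finset.filter_subset _ _)) h
  simp_rw [e1]
  rw [lintegral_finsetSum]
  · unfold Ex
    rw [ENNReal.ofReal_sum_of_nonneg]
    · apply Finset.sum_congr rfl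
      intro T hT
      rw [lintegral_indicator (meas_FF S T), setLIntegral_const,
        ← law_eq p (Finset.mem_powerset.mp hT), measureReal_def, mul_comm,
        ENNReal.ofReal_mul ENNReal.toReal_nonneg, ENNReal.ofReal_toReal (measure_ne_top _ _)]
    · intro T _
      apply mul_nonneg _ (hf T)
      apply mul_nonneg
      · exact Finset.prod_nonneg (fun e _ => p.2.1)
      · exact Finset.prod_nonneg (fun e _ => by linarith [p.2.2])
  · intro T _
    exact measurable_const.indicator (meas_FF S T)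

/-- The cluster is in the box when the origin is not connected to its boundary. -/
theorem cluster_le {n : ℕ} {ω : sqLattice.edgeSet → Bool} (h : ω ∉ ArmE n) :
    ((cluster0 ω).encard : ENNReal) ≤ ENNReal.ofReal (vol n (FF (boxE n) ω)) := by
  classical
  have hsub : cluster0 ω ⊆ ↑((bx n).filter
      (fun x => Reach (↑(FF (boxE n) ω) : Set Edg) (0, 0) x)) := by
    intro x hx
    have hr : Reach (opn ω) (0, 0) x := (open_reach ω _ _).mp hx
    rw [Finset.mem_coe, Finset.mem_filter]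
    by_cases hx2 : x.1 ≤ -(n:ℤ) ∨ (n:ℤ) ≤ x.1 ∨ x.2 ≤ -(n:ℤ) ∨ (n:ℤ) ≤ x.2
    · exfalso
      obtain ⟨w, k1, k2, k3⟩ := first_exit (a := -(n:ℤ)) (b := n) (c := -(n:ℤ)) (d := n)
        (by unfold inR; simp) hr hx2
      exact h (armE_iff.mpr ⟨w, ⟨k1, k2⟩, k3⟩)
    · constructor
      · unfold bx
        rw [Finset.mem_product, Finset.mem_Icc, Finset.mem_Icc]
        omega
      · have key : ∀ w, Reach (opn ω) (0, 0) w → Reach (opn ω ∩ ↑(boxE n)) (0, 0) w := by
          intro w hw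
          induction hw with
          | refl => exact Reach.refl _ _
          | @tail w w' hw hs ih =>
            have hin : ¬ (w.1 ≤ -(n:ℤ) ∨ (n:ℤ) ≤ w.1 ∨ w.2 ≤ -(n:ℤ) ∨ (n:ℤ) ≤ w.2) := by
              intro hx3
              obtain ⟨w1, k1, k2, k3⟩ := first_exit (a := -(n:ℤ)) (b := n) (c := -(n:ℤ)) (d := n)
                (by unfold inR; simp) hw hx3
              exact h (armE_iff.mpr ⟨w1, ⟨k1, k2⟩, k3⟩)
            obtain ⟨⟨x0, y0, bo⟩, heG, hcase⟩ := hs
            have hmem : ((x0, y0, bo) : Edg) ∈ boxE n := by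
              unfold boxE
              cases bo
              · simp only [src_mk, tgt_false] at hcase
                rw [mem_RE_false]
                rcases hcase with ⟨h3, h4⟩ | ⟨h3, h4⟩
                · rw [← h3] at hin; simp only at hin; omega
                · rw [← h4] at hin; simp only at hin; omega
              · simp only [src_mk, tgt_true] at hcase
                rw [mem_RE_true]
                rcases hcase with ⟨h3, h4⟩ | ⟨h3, h4⟩
                · rw [← h3] at hin; simp only at hin; omega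
                · rw [← h4] at hin; simp only at hin; omega
            have hadj : Adj (opn ω ∩ ↑(boxE n)) w w' := ⟨_, ⟨heG, hmem⟩, hcase⟩
            exact ih.trans hadj.reach
        rw [FF_coe]
        exact key x hr
  have h4 := Set.encard_le_encard hsub
  rw [Set.encard_coe_eq_coe_finsetCard] at h4
  have h5 := ENat.toENNReal_le.mpr h4
  refine h5.trans (le_of_eq ?_)
  unfold vol
  rw [ENNReal.ofReal_natCast]
  simp

theorem vol_one_le (F : Finset Edg) : vol 1 F ≤ 9 := by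
  classical
  unfold vol
  have h1 : ((bx 1).filter (fun x => Reach (↑F : Set Edg) (0, 0) x)).card ≤ (bx 1).card :=
    Finset.card_le_card (Finset.filter_subset _ _)
  have h2 : (bx 1).card = 9 := by
    unfold bx
    rw [Finset.card_product, Int.card_Icc]
    rfl
  have h3 : ((bx 1).filter (fun x => Reach (↑F : Set Edg) (0, 0) x)).card ≤ 9 := by omega
  exact_mod_cast h3

/-- The moments of the cluster size. -/
noncomputable def mom (k : ℕ) (p : unitInterval) : ENNReal :=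
  ∫⁻ ω, ((cluster0 ω).encard : ENNReal) ^ k ∂(bondLaw p)

theorem mom_upper (k : ℕ) : ∃ C : ℝ, 0 < C ∧ ∀ p : unitInterval, (p:ℝ) < 1/2 →
    mom (k + 1) p ≤ ENNReal.ofReal
      (C * (1/2 - (p:ℝ)) ^ (-((91 * ((k:ℝ) + 1) - 5) / 36) : ℝ)) := by
  obtain ⟨C1, hC1, hvol⟩ := vol_moment (2 * k + 1)
  obtain ⟨c2, C2, hc2, hC2, harm⟩ := Pool.Agent.W424.NC.arm_upper
  obtain ⟨a, ha⟩ : ∃ a : ℝ, a = (91 * ((k:ℝ) + 1) - 5) / 48 := ⟨_, rfl⟩
  have hk0 : (0:ℝ) ≤ k := by positivity
  have ha0 : 0 < a := by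
    rw [ha]
    have : 0 < 91 * ((k:ℝ) + 1) - 5 := by linarith
    positivity
  obtain ⟨K, hK, hdya⟩ := dya_sum ha0 (show 0 < c2 / 2 by positivity)
  obtain ⟨D, hD⟩ : ∃ D : ℝ, D = Real.sqrt (C1 * 2 ^ (2 * a + 5/48) * C2) := ⟨_, rfl⟩
  have hD0 : 0 ≤ D := by rw [hD]; exact Real.sqrt_nonneg _
  refine ⟨9 ^ (k + 1) + D * K, by positivity, ?_⟩
  intro p hp
  obtain ⟨t, ht⟩ : ∃ t, t = 1/2 - (p:ℝ) := ⟨_, rfl⟩
  have ht0 : 0 < t := by rw [ht]; linarith
  have ht1 : t ≤ 1/2 := by rw [ht]; linarith [p.2.1]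
  obtain ⟨H, hH⟩ : ∃ H, H = t ^ (4/3 : ℝ) := ⟨_, rfl⟩
  have hH0 : 0 < H := by rw [hH]; positivity
  rw [← ht]
  have hexp : t ^ (-((91 * ((k:ℝ) + 1) - 5) / 36) : ℝ) = H ^ (-a) := by
    rw [hH, ← Real.rpow_mul ht0.le, ha]
    congr 1
    ring
  rw [hexp]
  have hp01 := okq p.2.1 p.2.2
  -- one shell
  have shell : ∀ j : ℕ, Ex (fun _ => (p:ℝ)) (boxE (2 ^ (j + 1)))
      (fun F => vol (2 ^ (j + 1)) F ^ (k + 1) * ind (Arm (2 ^ j) F)) ≤
      D * (((2:ℝ) ^ j) ^ a * Real.exp (-(c2 / 2 * (2 ^ j * H)))) := by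
    intro j
    have h1 := vol_arm p.2.1 p.2.2 (2 ^ (j + 1)) (2 ^ j) (k + 1)
      (Nat.pow_le_pow_right (by norm_num) (by omega))
    have h2 := hvol p p.2.1 hp.le (2 ^ (j + 1)) Nat.one_le_two_pow
    have h3 := harm p p.2.1 hp.le (2 ^ j) Nat.one_le_two_pow
    rw [← ht, ← hH] at h3
    push_cast at h2 h3
    have e2 : 2 * (k + 1) = 2 * k + 1 + 1 := by ring
    rw [e2] at h1
    have hx0 : 0 ≤ Ex (fun _ => (p:ℝ)) (boxE (2 ^ (j + 1)))
        (fun F => vol (2 ^ (j + 1)) F ^ (k + 1) * ind (Arm (2 ^ j) F)) :=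
      Ex_nonneg hp01 (fun F _ => mul_nonneg (pow_nonneg (vol_nonneg _ _) _) (ind_nonneg _))
    have harm0 := arm_nonneg p.2.1 p.2.2 (2 ^ j)
    have h4 := h1.trans (mul_le_mul h2 h3 harm0 (by positivity))
    rw [← Real.sqrt_sq hx0]
    refine (Real.sqrt_le_sqrt h4).trans (le_of_eq ?_)
    rw [hD]
    have hz0 : 0 ≤ ((2:ℝ) ^ j) ^ a * Real.exp (-(c2 / 2 * (2 ^ j * H))) := by positivity
    rw [← Real.sqrt_sq hz0, ← Real.sqrt_mul (by positivity)]
    congr 1
    have e3 : Real.exp (-(c2 * (2 ^ j * H))) = Real.exp (-(c2 / 2 * (2 ^ j * H))) ^ 2 := by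
      rw [← Real.exp_nat_mul]
      congr 1
      push_cast
      ring
    have e4 : ((2:ℝ) ^ (j + 1)) ^ ((91:ℝ) / 48 * (2 * k + 1) + 43 / 24) =
        2 ^ (2 * a + 5/48) * ((2:ℝ) ^ j) ^ (2 * a + 5/48) := by
      rw [pow_succ, mul_comm, Real.mul_rpow (by norm_num) (by positivity)]
      congr 2 <;> · rw [ha]; ring
    have e5 : ((2:ℝ) ^ j) ^ (2 * a + 5/48) * ((2:ℝ) ^ j) ^ (-(5/48) : ℝ) =
        (((2:ℝ) ^ j) ^ a) ^ 2 := by
      have h2j : (0:ℝ) < 2 ^ j := by positivity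
      rw [← Real.rpow_add h2j, ← Real.rpow_natCast (((2:ℝ) ^ j) ^ a) 2, ← Real.rpow_mul h2j.le]
      congr 1
      push_cast
      ring
    rw [e3, e4]
    calc C1 * (2 ^ (2 * a + 5/48) * ((2:ℝ) ^ j) ^ (2 * a + 5/48)) *
          (C2 * ((2:ℝ) ^ j) ^ (-(5/48) : ℝ) * Real.exp (-(c2 / 2 * (2 ^ j * H))) ^ 2)
        = C1 * 2 ^ (2 * a + 5/48) * C2 * ((((2:ℝ) ^ j) ^ (2 * a + 5/48) *
          ((2:ℝ) ^ j) ^ (-(5/48) : ℝ)) * Real.exp (-(c2 / 2 * (2 ^ j * H))) ^ 2) := by ring
      _ = _ := by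
        rw [e5, mul_pow]
  -- almost sure bound
  obtain ⟨g, hg⟩ : ∃ g : ℕ → (sqLattice.edgeSet → Bool) → ENNReal, g = fun j ω =>
      ENNReal.ofReal (vol (2 ^ (j + 1)) (FF (boxE (2 ^ (j + 1))) ω) ^ (k + 1) *
        ind (Arm (2 ^ j) (FF (boxE (2 ^ (j + 1))) ω))) := ⟨_, rfl⟩
  have hgint : ∀ j, ∫⁻ ω, g j ω ∂(bondLaw p) ≤
      ENNReal.ofReal (D * (((2:ℝ) ^ j) ^ a * Real.exp (-(c2 / 2 * (2 ^ j * H))))) := by
    intro j
    rw [hg]
    simp only
    rw [lint_law p (boxE (2 ^ (j + 1))) (fun F => vol (2 ^ (j + 1)) F ^ (k + 1) *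
      ind (Arm (2 ^ j) F)) (fun F => mul_nonneg (pow_nonneg (vol_nonneg _ _) _) (ind_nonneg _))]
    exact ENNReal.ofReal_le_ofReal (shell j)
  have hgmeas : ∀ j, Measurable (g j) := by
    intro j
    rw [hg]
    have hcomp : Measurable (FF (boxE (2 ^ (j + 1)))) := by
      apply measurable_to_countable'
      intro T
      exact meas_FF _ T
    exact (measurable_of_countable (fun F : Finset Edg =>
      ENNReal.ofReal (vol (2 ^ (j + 1)) F ^ (k + 1) * ind (Arm (2 ^ j) F)))).comp hcomp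
  have hae : ∀ᵐ ω ∂(bondLaw p), ((cluster0 ω).encard : ENNReal) ^ (k + 1) ≤
      ENNReal.ofReal (9 ^ (k + 1)) + ∑' j, g j ω := by
    have hth : theta p = 0 := theta_half_le hp.le
    have hnull : (bondLaw p) {ω | (cluster0 ω).Infinite} = 0 := by
      have h6 : (bondLaw p).real {ω | (cluster0 ω).Infinite} = 0 := hth
      rw [measureReal_def, ENNReal.toReal_eq_zero_iff] at h6
      exact h6.resolve_right (measure_ne_top _ _)
    have hall : ∀ᵐ ω ∂(bondLaw p), ¬ (cluster0 ω).Infinite := by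
      rw [ae_iff]
      simpa using hnull
    filter_upwards [hall] with ω hω
    rw [infinite_iff] at hω
    push Not at hω
    obtain ⟨n, hn⟩ := hω
    have hex : ∃ j : ℕ, ω ∉ ArmE (2 ^ j) := by
      refine ⟨n, fun hcon => hn (armE_anti ?_ hcon)⟩
      exact (Nat.lt_two_pow_self).le
    classical
    obtain ⟨j, hj1, hj2⟩ : ∃ j, ω ∉ ArmE (2 ^ j) ∧ ∀ i < j, ω ∈ ArmE (2 ^ i) := by
      refine ⟨Nat.find hex, Nat.find_spec hex, fun i hi => ?_⟩
      have := Nat.find_min hex hi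
      push Not at this
      exact this
    have hcl := cluster_le hj1
    rcases Nat.eq_zero_or_pos j with h0 | hpos
    · subst h0
      rw [pow_zero] at hcl
      refine le_trans ?_ le_self_add
      calc ((cluster0 ω).encard : ENNReal) ^ (k + 1)
          ≤ (ENNReal.ofReal (vol 1 (FF (boxE 1) ω))) ^ (k + 1) := pow_le_pow_left' hcl _
        _ = ENNReal.ofReal (vol 1 (FF (boxE 1) ω) ^ (k + 1)) :=
            (ENNReal.ofReal_pow (vol_nonneg _ _) _).symm
        _ ≤ _ := ENNReal.ofReal_le_ofReal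
            (pow_le_pow_left₀ (vol_nonneg _ _) (vol_one_le _) _)
    · obtain ⟨i, rfl⟩ : ∃ i, j = i + 1 := ⟨j - 1, by omega⟩
      have harmi := hj2 i (by omega)
      refine le_trans ?_ (le_trans (ENNReal.le_tsum i) le_add_self)
      rw [hg]
      simp only
      have hA : Arm (2 ^ i) (FF (boxE (2 ^ (i + 1))) ω) := by
        obtain ⟨v, hv, hr⟩ := armE_iff.mp harmi
        refine ⟨v, hv, hr.mono ?_⟩
        rintro e ⟨k1, k2⟩
        refine ⟨?_, k2⟩
        rw [FF_coe]
        refine ⟨k1, ?_⟩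
        have h8 : boxE (2 ^ i) ⊆ boxE (2 ^ (i + 1)) :=
          boxE_mono (Nat.pow_le_pow_right (by norm_num) (by omega))
        exact Finset.mem_coe.mpr (h8 (Finset.mem_coe.mp k2))
      rw [ind_of hA, mul_one]
      calc ((cluster0 ω).encard : ENNReal) ^ (k + 1)
          ≤ (ENNReal.ofReal (vol (2 ^ (i + 1)) (FF (boxE (2 ^ (i + 1))) ω))) ^ (k + 1) :=
            pow_le_pow_left' hcl _
        _ = _ := (ENNReal.ofReal_pow (vol_nonneg _ _) _).symm
  unfold mom
  refine (lintegral_mono_ae hae).trans ?_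
  rw [lintegral_add_left measurable_const, lintegral_const, measure_univ, mul_one,
    lintegral_tsum (fun j => (hgmeas j).aemeasurable)]
  have hts : ∑' j, ∫⁻ ω, g j ω ∂(bondLaw p) ≤ ENNReal.ofReal (D * (K * H ^ (-a))) := by
    apply ENNReal.tsum_le_of_sum_range_le
    intro N
    refine (Finset.sum_le_sum (fun j _ => hgint j)).trans ?_
    rw [← ENNReal.ofReal_sum_of_nonneg (fun j _ => by positivity)]
    apply ENNReal.ofReal_le_ofReal
    rw [← Finset.mul_sum]
    exact mul_le_mul_of_nonneg_left (hdya H hH0 N) hD0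
  refine (add_le_add le_rfl hts).trans ?_
  rw [← ENNReal.ofReal_add (by positivity) (by positivity)]
  apply ENNReal.ofReal_le_ofReal
  have hH1 : H ≤ 1 := by
    rw [hH]
    exact Real.rpow_le_one ht0.le (by linarith) (by norm_num)
  have hone : 1 ≤ H ^ (-a) := Real.one_le_rpow_of_pos_of_le_one_of_nonpos hH0 hH1 (by linarith)
  have h9 : (9:ℝ) ^ (k + 1) ≤ 9 ^ (k + 1) * H ^ (-a) := le_mul_of_one_le_right (by positivity) hone
  calc (9:ℝ) ^ (k + 1) + D * (K * H ^ (-a)) ≤ 9 ^ (k + 1) * H ^ (-a) + D * (K * H ^ (-a)) := by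
        linarith
    _ = _ := by ring

end Pool.Agent.R960
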