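import Pool.Agent.R960.MomB
import Pool.Agent.W424.NC.Corr

/-!
Lower bound for the moments of the cluster size below the critical point.
-/

namespace Pool.Agent.R960

open Finset H31K H974 MeasureTheory
open Pool.Agent.W424.NC (tau_lower tau_tendsto nrm arm_upper)

theorem bern (k : ℕ) {a v : ℝ} (ha : 0 ≤ a) (hv : 0 ≤ v) :
    ((k:ℝ) + 1) * a ^ k * v - k * a ^ (k + 1) ≤ v ^ (k + 1) := by
  rcases ha.eq_or_lt with h | h
  · subst h
    rcases Nat.eq_zero_or_pos k with h0 | h0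
    · subst h0
      simp
    · rw [zero_pow h0.ne', zero_pow (by omega)]
      have : 0 ≤ v ^ (k + 1) := by positivity
      linarith
  · have h1 := one_add_mul_le_pow (a := v / a - 1)
      (by have := div_nonneg hv ha; linarith) (k + 1)
    have e1 : (1 + (v / a - 1)) = v / a := by ring
    rw [e1, div_pow] at h1
    have h2 := mul_le_mul_of_nonneg_left h1 (pow_nonneg ha (k + 1))
    have e2 : a ^ (k + 1) * (v ^ (k + 1) / a ^ (k + 1)) = v ^ (k + 1) := by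
      field_simp
    rw [e2] at h2
    have e3 : a ^ (k + 1) * (1 + ((k + 1 : ℕ) : ℝ) * (v / a - 1)) =
        ((k:ℝ) + 1) * a ^ k * v - k * a ^ (k + 1) := by
      have e4 : a ^ (k + 1) * (v / a) = a ^ k * v := by
        rw [pow_succ]
        field_simp
      push_cast
      calc a ^ (k + 1) * (1 + ((k:ℝ) + 1) * (v / a - 1))
          = a ^ (k + 1) + (k + 1) * (a ^ (k + 1) * (v / a)) - (k + 1) * a ^ (k + 1) := by ring
        _ = _ := by
          rw [e4]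
          ring
    linarith

/-- The number of vertices of `B` connected to the origin. -/
noncomputable def fB (B : Finset Vtx) (F : Finset Edg) : ℝ := ∑ x ∈ B, ind (TP x F)

theorem fB_nonneg (B : Finset Vtx) (F : Finset Edg) : 0 ≤ fB B F :=
  Finset.sum_nonneg fun _ _ => ind_nonneg _

theorem fB_le (B : Finset Vtx) (S : Finset Edg) (ω : sqLattice.edgeSet → Bool) :
    ENNReal.ofReal (fB B (FF S ω)) ≤ ((cluster0 ω).encard : ENNReal) := by
  classical
  have e1 : fB B (FF S ω) = ((B.filter (fun x => TP x (FF S ω))).card : ℝ) := by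
    unfold fB
    rw [Finset.card_filter]
    push_cast
    apply Finset.sum_congr rfl
    intro x _
    by_cases h : TP x (FF S ω)
    · rw [ind_of h, if_pos h]
    · rw [ind_not_of h, if_neg h]
  have hsub : (↑(B.filter (fun x => TP x (FF S ω))) : Set Vtx) ⊆ cluster0 ω := by
    intro x hx
    rw [Finset.mem_coe, Finset.mem_filter] at hx
    refine (open_reach ω _ _).mpr (Reach.mono ?_ hx.2)
    rw [FF_coe]
    exact Set.inter_subset_left
  have h4 := Set.encard_le_encard hsub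
  rw [Set.encard_coe_eq_coe_finsetCard] at h4
  have h5 := ENat.toENNReal_le.mpr h4
  refine le_trans (le_of_eq ?_) h5
  rw [e1, ENNReal.ofReal_natCast]
  simp

theorem mom_ge (p : unitInterval) (B : Finset Vtx) (N k : ℕ) :
    ENNReal.ofReal (Ex (fun _ => (p:ℝ)) (boxE N) (fun F => fB B F ^ (k + 1))) ≤
      mom (k + 1) p := by
  rw [← lint_law p (boxE N) (fun F => fB B F ^ (k + 1))
    (fun F => pow_nonneg (fB_nonneg _ _) _)]
  unfold mom
  apply lintegral_mono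
  intro ω
  show ENNReal.ofReal (fB B (FF (boxE N) ω) ^ (k + 1)) ≤ _
  rw [ENNReal.ofReal_pow (fB_nonneg _ _)]
  exact pow_le_pow_left' (fB_le _ _ _) _

theorem jens {p : ℝ} (h0 : 0 ≤ p) (h1 : p ≤ 1) (S : Finset Edg) (f : Finset Edg → ℝ)
    (hf : ∀ F, 0 ≤ f F) (A : Finset Edg → Prop) (hA : ∀ F, F ⊆ S → ¬ A F → f F = 0) (k : ℕ)
    {v q : ℝ} (hv : 0 ≤ v) (hq : 0 < q) (hv1 : v ≤ Ex (fun _ => p) S f)
    (hq1 : Pr (fun _ => p) S A ≤ q) :
    v * (v / q) ^ k ≤ Ex (fun _ => p) S (fun F => f F ^ (k + 1)) := by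
  obtain ⟨a, ha⟩ : ∃ a, a = v / q := ⟨_, rfl⟩
  have ha0 : 0 ≤ a := by rw [ha]; positivity
  have haq : a * q = v := by rw [ha]; field_simp
  rw [← ha]
  have hmain : ((k:ℝ) + 1) * a ^ k * Ex (fun _ => p) S f -
      k * a ^ (k + 1) * Pr (fun _ => p) S A ≤ Ex (fun _ => p) S (fun F => f F ^ (k + 1)) := by
    have e1 : ((k:ℝ) + 1) * a ^ k * Ex (fun _ => p) S f -
        k * a ^ (k + 1) * Pr (fun _ => p) S A =
        Ex (fun _ => p) S (fun F => ((k:ℝ) + 1) * a ^ k * f F - k * a ^ (k + 1) * ind (A F)) := by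
      rw [Ex_sub, Ex_mul_left, Ex_mul_left]
      rfl
    rw [e1]
    apply Ex_mono (okq h0 h1)
    intro F hF
    by_cases h : A F
    · rw [ind_of h, mul_one]
      exact bern k ha0 (hf F)
    · rw [ind_not_of h, mul_zero, hA F hF h]
      simp
  refine le_trans ?_ hmain
  have hz : 0 ≤ a ^ k := by positivity
  have e1 : ((k:ℝ) + 1) * a ^ k * v ≤ ((k:ℝ) + 1) * a ^ k * Ex (fun _ => p) S f :=
    mul_le_mul_of_nonneg_left hv1 (by positivity)
  have e2 : (k:ℝ) * a ^ (k + 1) * Pr (fun _ => p) S A ≤ k * a ^ (k + 1) * q :=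
    mul_le_mul_of_nonneg_left hq1 (by positivity)
  have e3 : (k:ℝ) * a ^ (k + 1) * q = k * a ^ k * v := by
    rw [pow_succ, ← haq]
    ring
  have e4 : ((k:ℝ) + 1) * a ^ k * v = k * a ^ k * v + v * a ^ k := by ring
  linarith

theorem tp_arm {m : ℕ} {x : Vtx} {F : Finset Edg} (hx : (m:ℤ) ≤ x.1) (h : TP x F) :
    Arm m F := by
  obtain ⟨w, k1, k2, k3⟩ := first_exit (a := -(m:ℤ)) (b := m) (c := -(m:ℤ)) (d := m)
    (by unfold inR; simp) h (Or.inr (Or.inl hx))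
  exact ⟨w, ⟨k1, k2⟩, k3⟩

/-- The box. -/
noncomputable def qb (n : ℕ) : Finset Vtx := Finset.Icc ((n / 2 : ℕ) : ℤ) n ×ˢ Finset.Icc (0:ℤ) n

theorem qb_card (n : ℕ) : (n:ℝ) ^ 2 / 2 ≤ ((qb n).card : ℝ) := by
  unfold qb
  rw [Finset.card_product, Int.card_Icc, Int.card_Icc]
  have h1 : n + 1 ≤ 2 * ((n:ℤ) + 1 - ((n / 2 : ℕ) : ℤ)).toNat := by omega
  have h2 : n ≤ ((n:ℤ) + 1 - 0).toNat := by omega
  have h3 : (n:ℝ) / 2 ≤ ((((n:ℤ) + 1 - ((n / 2 : ℕ) : ℤ)).toNat : ℕ) : ℝ) := by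
    have : ((n + 1 : ℕ) : ℝ) ≤ ((2 * ((n:ℤ) + 1 - ((n / 2 : ℕ) : ℤ)).toNat : ℕ) : ℝ) := by
      exact_mod_cast h1
    rw [Nat.cast_mul, Nat.cast_add, Nat.cast_one, Nat.cast_two] at this
    linarith
  have h4 : (n:ℝ) ≤ ((((n:ℤ) + 1 - 0).toNat : ℕ) : ℝ) := by exact_mod_cast h2
  rw [Nat.cast_mul]
  calc (n:ℝ) ^ 2 / 2 = n / 2 * n := by ring
    _ ≤ _ := mul_le_mul h3 h4 (by positivity) (by positivity)

theorem qb_nrm {n : ℕ} {x : Vtx} (hx : x ∈ qb n) : nrm x ≤ n ∧ ((n / 2 : ℕ) : ℤ) ≤ x.1 := by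
  unfold qb at hx
  rw [Finset.mem_product, Finset.mem_Icc, Finset.mem_Icc] at hx
  unfold nrm
  omega

theorem mom_lower (k : ℕ) : ∃ c : ℝ, 0 < c ∧ ∀ p : unitInterval, (p:ℝ) < 1/2 →
    ENNReal.ofReal (c * (1/2 - (p:ℝ)) ^ (-((91 * ((k:ℝ) + 1) - 5) / 36) : ℝ)) ≤
      mom (k + 1) p := by
  obtain ⟨c1, C1, hc1, hC1, htau⟩ := tau_lower
  obtain ⟨c2, C2, hc2, hC2, harm⟩ := arm_upper
  obtain ⟨a, ha⟩ : ∃ a : ℝ, a = (91 * ((k:ℝ) + 1) - 5) / 48 := ⟨_, rfl⟩
  have hk0 : (0:ℝ) ≤ k := by positivity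
  have ha0 : 0 < a := by
    rw [ha]
    have : 0 < 91 * ((k:ℝ) + 1) - 5 := by linarith
    positivity
  obtain ⟨V, hV⟩ : ∃ V : ℝ, V = c1 / 2 * Real.exp (-C1) / 4 := ⟨_, rfl⟩
  have hV0 : 0 < V := by rw [hV]; positivity
  obtain ⟨Q, hQ⟩ : ∃ Q : ℝ, Q = 3 * C2 + 1 := ⟨_, rfl⟩
  have hQ0 : 0 < Q := by rw [hQ]; positivity
  obtain ⟨D, hD⟩ : ∃ D : ℝ, D = V * (V / Q) ^ k := ⟨_, rfl⟩
  have hD0 : 0 < D := by rw [hD]; positivity
  refine ⟨min (D * 2 ^ (-a)) (((4:ℝ) ^ ((4/3) * a))⁻¹), by positivity, ?_⟩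
  intro p hp
  obtain ⟨t, ht⟩ : ∃ t, t = 1/2 - (p:ℝ) := ⟨_, rfl⟩
  have ht0 : 0 < t := by rw [ht]; linarith
  have ht1 : t ≤ 1/2 := by rw [ht]; linarith [p.2.1]
  obtain ⟨H, hH⟩ : ∃ H, H = t ^ (4/3 : ℝ) := ⟨_, rfl⟩
  have hH0 : 0 < H := by rw [hH]; positivity
  rw [← ht]
  have hexp : t ^ (-((91 * ((k:ℝ) + 1) - 5) / 36) : ℝ) = H ^ (-a) := by
    rw [hH, ← Real.rpow_mul ht0.le, ha]
    congr 1
    ring
  rw [hexp]
  have hHa : 0 < H ^ (-a) := by positivity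
  rcases lt_or_ge (p:ℝ) (1/4) with hq | hq
  · -- far from the critical point
    have h1 : (1:ENNReal) ≤ mom (k + 1) p := by
      unfold mom
      calc (1:ENNReal) = ∫⁻ _, 1 ∂(bondLaw p) := by rw [lintegral_const, measure_univ, mul_one]
        _ ≤ _ := by
          apply lintegral_mono
          intro ω
          apply one_le_pow_of_one_le'
          have hne : (cluster0 ω).Nonempty := ⟨(0, 0), SimpleGraph.Reachable.refl _⟩
          have h6 := Set.one_le_encard_iff_nonempty.mpr hne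
          have h7 := ENat.toENNReal_le.mpr h6
          simpa using h7
    refine le_trans ?_ h1
    rw [← ENNReal.ofReal_one]
    apply ENNReal.ofReal_le_ofReal
    have h2 : H ^ (-a) ≤ (4:ℝ) ^ ((4/3) * a) := by
      rw [hH, ← Real.rpow_mul ht0.le]
      have h3 : (1/4:ℝ) ≤ t := by rw [ht]; linarith
      calc t ^ (4/3 * -a) ≤ (1/4:ℝ) ^ (4/3 * -a) :=
            Real.rpow_le_rpow_of_nonpos (by norm_num) h3 (by nlinarith)
        _ = _ := by
          rw [one_div, Real.inv_rpow (by norm_num), ← Real.rpow_neg (by norm_num)]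
          congr 1
          ring
    calc min (D * 2 ^ (-a)) (((4:ℝ) ^ ((4/3) * a))⁻¹) * H ^ (-a)
        ≤ ((4:ℝ) ^ ((4/3) * a))⁻¹ * (4:ℝ) ^ ((4/3) * a) :=
          mul_le_mul (min_le_right _ _) h2 hHa.le (by positivity)
      _ = 1 := inv_mul_cancel₀ (by positivity)
  · -- near the critical point
    have hH1 : H ≤ 1 := by
      rw [hH]
      exact Real.rpow_le_one ht0.le (by linarith) (by norm_num)
    obtain ⟨n, hn⟩ : ∃ n : ℕ, n = ⌊1 / H⌋₊ := ⟨_, rfl⟩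
    have hH2 : 1 ≤ 1 / H := by
      rw [le_div_iff₀ hH0]
      linarith
    have hn1 : 1 ≤ n := by
      rw [hn]
      exact (Nat.one_le_floor_iff _).mpr hH2
    have hnH : (n:ℝ) ≤ 1 / H := by
      rw [hn]
      exact Nat.floor_le (by positivity)
    have hnH2 : 1 / H < n + 1 := by
      rw [hn]
      exact Nat.lt_floor_add_one _
    have hn1r : (1:ℝ) ≤ n := by exact_mod_cast hn1
    have hn0 : (0:ℝ) < n := by linarith
    have hnH3 : (n:ℝ) * H ≤ 1 := by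
      rw [le_div_iff₀ hH0] at hnH
      exact hnH
    -- the sum of the two-point function
    have hpt : ∀ x ∈ qb n, c1 / 2 * Real.exp (-C1) * (n:ℝ) ^ (-(5/24) : ℝ) ≤ tau p x := by
      intro x hx
      obtain ⟨h1, _⟩ := qb_nrm hx
      refine le_trans ?_ (htau p hq hp.le x)
      rw [← ht, ← hH]
      have h2 : (nrm x : ℝ) ≤ n := by exact_mod_cast h1
      have h3 : (1/2:ℝ) * (n:ℝ) ^ (-(5/24) : ℝ) ≤ ((nrm x : ℝ) + 1) ^ (-(5/24) : ℝ) := by
        calc (1/2:ℝ) * (n:ℝ) ^ (-(5/24) : ℝ) = 2 ^ (-1 : ℝ) * (n:ℝ) ^ (-(5/24) : ℝ) := by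
              rw [Real.rpow_neg_one]; norm_num
          _ ≤ 2 ^ (-(5/24) : ℝ) * (n:ℝ) ^ (-(5/24) : ℝ) := by
              apply mul_le_mul_of_nonneg_right _ (by positivity)
              exact Real.rpow_le_rpow_of_exponent_le (by norm_num) (by norm_num)
          _ = (2 * (n:ℝ)) ^ (-(5/24) : ℝ) := (Real.mul_rpow (by norm_num) hn0.le).symm
          _ ≤ _ := Real.rpow_le_rpow_of_nonpos (by positivity) (by linarith) (by norm_num)
      have h4 : Real.exp (-C1) ≤ Real.exp (-(C1 * (nrm x * H))) := by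
        apply Real.exp_le_exp.mpr
        have h5 : (nrm x : ℝ) * H ≤ 1 := (mul_le_mul_of_nonneg_right h2 hH0.le).trans hnH3
        have := mul_le_mul_of_nonneg_left h5 hC1.le
        linarith
      calc c1 / 2 * Real.exp (-C1) * (n:ℝ) ^ (-(5/24) : ℝ)
          = c1 * (1/2 * (n:ℝ) ^ (-(5/24) : ℝ)) * Real.exp (-C1) := by ring
        _ ≤ _ := mul_le_mul (mul_le_mul_of_nonneg_left h3 hc1.le) h4 (Real.exp_pos _).le
            (by positivity)
    have e43 : (n:ℝ) ^ 2 * (n:ℝ) ^ (-(5/24) : ℝ) = (n:ℝ) ^ (43/24 : ℝ) := by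
      rw [← Real.rpow_natCast (n:ℝ) 2, ← Real.rpow_add hn0]
      congr 1
      norm_num
    have hsum : 2 * (V * (n:ℝ) ^ (43/24 : ℝ)) ≤ ∑ x ∈ qb n, tau p x := by
      have h1 := Finset.sum_le_sum hpt
      rw [Finset.sum_const, nsmul_eq_mul] at h1
      refine le_trans ?_ h1
      calc 2 * (V * (n:ℝ) ^ (43/24 : ℝ))
          = (n:ℝ) ^ 2 / 2 * (c1 / 2 * Real.exp (-C1) * (n:ℝ) ^ (-(5/24) : ℝ)) := by
            rw [← e43, hV]
            ring
        _ ≤ _ := mul_le_mul_of_nonneg_right (qb_card n) (by positivity)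
    have hlim : Filter.Tendsto (fun N : ℕ => ∑ x ∈ qb n, Pr (fun _ => (p:ℝ)) (boxE N) (TP x))
        Filter.atTop (nhds (∑ x ∈ qb n, tau p x)) :=
      tendsto_finsetSum _ (fun x _ => tau_tendsto p x)
    have hVn : 0 < V * (n:ℝ) ^ (43/24 : ℝ) := by positivity
    have hev := hlim.eventually_const_lt
      (show V * (n:ℝ) ^ (43/24 : ℝ) < ∑ x ∈ qb n, tau p x by linarith)
    obtain ⟨N, hN1, hN2⟩ := (hev.and (Filter.eventually_ge_atTop (n / 2))).exists
    have hEx : V * (n:ℝ) ^ (43/24 : ℝ) ≤ Ex (fun _ => (p:ℝ)) (boxE N) (fB (qb n)) := by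
      refine hN1.le.trans (le_of_eq ?_)
      unfold fB
      rw [Ex_sum]
      rfl
    have hPr : Pr (fun _ => (p:ℝ)) (boxE N) (Arm (n / 2)) ≤ Q * (n:ℝ) ^ (-(5/48) : ℝ) := by
      rw [pr_Arm (p:ℝ) (boxE_mono hN2)]
      rcases Nat.lt_or_ge n 2 with h2 | h2
      · have : n = 1 := by omega
        rw [this, Nat.cast_one, Real.one_rpow, mul_one]
        refine (arm_le_one p.2.1 p.2.2 _).trans ?_
        rw [hQ]
        linarith
      · have h3 : 1 ≤ n / 2 := by omega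
        refine (harm p p.2.1 hp.le (n / 2) h3).trans ?_
        have h4 : (n:ℝ) / 3 ≤ ((n / 2 : ℕ) : ℝ) := by
          have h5 : n ≤ 3 * (n / 2) := by omega
          have h6 : (n:ℝ) ≤ ((3 * (n / 2) : ℕ) : ℝ) := by exact_mod_cast h5
          rw [Nat.cast_mul] at h6
          push_cast [-Nat.cast_div] at h6
          linarith
        have h7 : ((n / 2 : ℕ) : ℝ) ^ (-(5/48) : ℝ) ≤ 3 * (n:ℝ) ^ (-(5/48) : ℝ) := by
          calc ((n / 2 : ℕ) : ℝ) ^ (-(5/48) : ℝ) ≤ ((n:ℝ) / 3) ^ (-(5/48) : ℝ) :=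
                Real.rpow_le_rpow_of_nonpos (by positivity) h4 (by norm_num)
            _ = 3 ^ (5/48 : ℝ) * (n:ℝ) ^ (-(5/48) : ℝ) := by
                rw [Real.div_rpow hn0.le (by norm_num), Real.rpow_neg (by norm_num : (0:ℝ) ≤ 3)]
                field_simp
            _ ≤ 3 ^ (1 : ℝ) * (n:ℝ) ^ (-(5/48) : ℝ) := by
                apply mul_le_mul_of_nonneg_right _ (by positivity)
                exact Real.rpow_le_rpow_of_exponent_le (by norm_num) (by norm_num)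
            _ = _ := by rw [Real.rpow_one]
        have h8 : Real.exp (-(c2 * (((n / 2 : ℕ) : ℝ) * (1/2 - (p:ℝ)) ^ (4/3 : ℝ)))) ≤ 1 := by
          rw [Real.exp_le_one_iff]
          have : 0 ≤ c2 * (((n / 2 : ℕ) : ℝ) * (1/2 - (p:ℝ)) ^ (4/3 : ℝ)) := by
            rw [← ht]
            positivity
          linarith
        calc C2 * ((n / 2 : ℕ) : ℝ) ^ (-(5/48) : ℝ) *
              Real.exp (-(c2 * (((n / 2 : ℕ) : ℝ) * (1/2 - (p:ℝ)) ^ (4/3 : ℝ))))
            ≤ C2 * (3 * (n:ℝ) ^ (-(5/48) : ℝ)) * 1 :=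
              mul_le_mul (mul_le_mul_of_nonneg_left h7 hC2.le) h8 (Real.exp_pos _).le
                (by positivity)
          _ ≤ _ := by
            rw [hQ]
            have : 0 ≤ (n:ℝ) ^ (-(5/48) : ℝ) := by positivity
            nlinarith
    have hJ := jens p.2.1 p.2.2 (boxE N) (fB (qb n)) (fB_nonneg _) (Arm (n / 2))
      (by
        intro F _ hF
        unfold fB
        apply Finset.sum_eq_zero
        intro x hx
        apply ind_not_of
        intro hcon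
        exact hF (tp_arm (qb_nrm hx).2 hcon)) k hVn.le
      (show 0 < Q * (n:ℝ) ^ (-(5/48) : ℝ) by positivity) hEx hPr
    refine le_trans ?_ (mom_ge p (qb n) N k)
    apply ENNReal.ofReal_le_ofReal
    refine le_trans ?_ hJ
    have e9 : V * (n:ℝ) ^ (43/24 : ℝ) * (V * (n:ℝ) ^ (43/24 : ℝ) /
        (Q * (n:ℝ) ^ (-(5/48) : ℝ))) ^ k = D * (n:ℝ) ^ a := by
      have e10 : V * (n:ℝ) ^ (43/24 : ℝ) / (Q * (n:ℝ) ^ (-(5/48) : ℝ)) =
          V / Q * (n:ℝ) ^ (91/48 : ℝ) := by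
        rw [mul_div_mul_comm, ← Real.rpow_sub hn0]
        congr 2
        norm_num
      rw [e10, mul_pow, ← Real.rpow_natCast ((n:ℝ) ^ (91/48 : ℝ)) k, ← Real.rpow_mul hn0.le, hD]
      have e11 : (n:ℝ) ^ a = (n:ℝ) ^ (43/24 : ℝ) * (n:ℝ) ^ ((91/48 : ℝ) * k) := by
        rw [← Real.rpow_add hn0, ha]
        congr 1
        ring
      rw [e11]
      ring
    rw [e9]
    have h12 : 2 ^ (-a) * H ^ (-a) ≤ (n:ℝ) ^ a := by
      rw [← Real.mul_rpow (by norm_num) hH0.le, Real.rpow_neg (by positivity),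
        ← Real.inv_rpow (by positivity)]
      apply Real.rpow_le_rpow (by positivity) _ ha0.le
      rw [mul_inv, ← one_div H]
      linarith
    calc min (D * 2 ^ (-a)) (((4:ℝ) ^ ((4/3) * a))⁻¹) * H ^ (-a)
        ≤ D * 2 ^ (-a) * H ^ (-a) := mul_le_mul_of_nonneg_right (min_le_left _ _) hHa.le
      _ = D * (2 ^ (-a) * H ^ (-a)) := by ring
      _ ≤ _ := mul_le_mul_of_nonneg_left h12 hD0.le

end Pool.Agent.R960
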