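import Pool.Agent.H973R3.NC.NP
import Pool.Agent.H973R3.NC.FP

/-!
Near pairs, with forced open edges outside of the box.
-/

namespace Pool.Agent.R960

open H974 H12S H973N H973N.NP Finset

theorem co_mono {I J : Set Vtx} {O : Set Edg} {F G : Finset Edg} (h : F ⊆ G) (hF : CO I J O F) :
    CO I J O G := by
  unfold CO at hF ⊢
  exact cn_mono (Set.union_subset_union_left _ (by exact_mod_cast h)) hF

/-- second difference implies block pivotality -/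
theorem SD_BfO {I J : Set Vtx} {O : Set Edg} {e g : Edg} {b F : Finset Edg} (he : e ∈ b)
    (hg : g ∈ b) (h : SD (CO I J O) e g F) : Bf (CO I J O) b F := by
  obtain ⟨_, _, h3, h4⟩ := h
  refine ⟨co_mono ?_ h3, fun h5 => h4 (co_mono ?_ h5)⟩
  · intro x hx
    rw [Finset.mem_insert, Finset.mem_insert] at hx
    rw [Finset.mem_union]
    rcases hx with rfl | rfl | hx
    · exact Or.inr he
    · exact Or.inr hg
    · exact Or.inl hx
  · intro x hx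
    rw [Finset.mem_sdiff] at hx
    rw [Finset.mem_erase, Finset.mem_erase]
    exact ⟨fun h => hx.2 (h ▸ hg), fun h => hx.2 (h ▸ he), hx.1⟩

/-- a pivotal edge, with another edge outside the ball changed -/
theorem SD_L4_auxO {I J : Set Vtx} {O : Set Edg} {ρ : ℕ} (hρ : 1 ≤ ρ) {e g : Edg}
    {F : Finset Edg} (hO : ∀ g ∈ O, g ∉ blk (bp e) ρ)
    (hI : Off (e.1 - ρ) (e.1 + ρ) (e.2.1 - ρ) (e.2.1 + ρ) I J) (hg : g ∉ blk (bp e) ρ)
    (h : Pf (CO I J O) e (F.erase g) ∨ Pf (CO I J O) e (insert g F)) :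
    L4 ρ e ↑F := by
  rcases h with h | h
  · have h1 := piv_L4 hρ hO hI h
    refine (L4_congr' ?_).1 h1
    intro x hx _
    rw [Finset.mem_erase]
    constructor
    · exact fun h => h.2
    · exact fun h => ⟨fun h' => hg (h' ▸ hx), h⟩
  · have h1 := piv_L4 hρ hO hI h
    refine (L4_congr' ?_).1 h1
    intro x hx _
    rw [Finset.mem_insert]
    constructor
    · rintro (h | h)
      · exact absurd hx (h ▸ hg)
      · exact h
    · exact fun h => Or.inr h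

/-- the bound for a pair of edges -/
theorem pair_boundO {q : ℝ} (h0 : 0 ≤ q) (h1 : q ≤ 1) {a b c d : ℤ} {I J : Set Vtx}
    {O : Set Edg} (hO : ∀ g ∈ O, g ∉ RE a b c d) (hIJ : Off a b c d I J) {ρ : ℕ} (hρ : 1 ≤ ρ) {e g : Edg}
    (he : (a + 24 * ρ ≤ e.1 ∧ e.1 ≤ b - 24 * ρ) ∧ (c + 24 * ρ ≤ e.2.1 ∧ e.2.1 ≤ d - 24 * ρ))
    (h4 : dst e g ≤ 4 * ρ) (h2 : 2 * (ρ : ℤ) < dst e g) :
    PQ q (RE a b c d) (SD (CO I J O) e g) ≤
      (a4 q ρ) ^ 2 * PQ q (RE a b c d) (Bf (CO I J O) (tb ρ (tl ρ e))) := by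
  have hOk : Ok (fun _ : Edg => q) := fun _ => ⟨h0, h1⟩
  have hρ' : (1 : ℤ) ≤ ρ := by exact_mod_cast hρ
  obtain ⟨⟨k1, k2⟩, k3, k4⟩ := dst_le h4
  obtain ⟨⟨m1, m2⟩, m3, m4⟩ := he
  have hee : dst e e ≤ 4 * ρ := by rw [dst_self]; positivity
  have hbe : blk (bp e) ρ ⊆ RE a b c d := by
    unfold blk bp
    apply RE_subset <;> simp only <;> linarith
  have hbg : blk (bp g) ρ ⊆ RE a b c d := by
    unfold blk bp
    apply RE_subset <;> simp only <;> linarith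
  have hge : ∀ x ∈ blk (bp g) ρ, x ∉ blk (bp e) ρ := by
    intro x hx hx'
    unfold blk bp at hx hx'
    obtain ⟨⟨p1, p2⟩, p3, p4⟩ := RE_weak hx
    obtain ⟨⟨r1, r2⟩, r3, r4⟩ := RE_weak hx'
    simp only at p1 p2 p3 p4 r1 r2 r3 r4
    have : dst e g ≤ 2 * ρ := by
      unfold dst
      apply max_le <;> rw [abs_le] <;> constructor <;> linarith
    linarith
  have hball : ∀ x : Edg, x ∈ blk (bp x) ρ := by
    intro x
    unfold blk bp
    apply RE_strong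
    refine ⟨⟨?_, ?_⟩, ?_, ?_⟩ <;> simp only <;> linarith
  have hg1 : g ∉ blk (bp e) ρ := hge g (hball g)
  have he1 : e ∉ blk (bp g) ρ := fun h => hge e h (hball e)
  have hOe : Off (e.1 - ρ) (e.1 + ρ) (e.2.1 - ρ) (e.2.1 + ρ) I J :=
    Off_sub hIJ (by linarith) (by linarith) (by linarith) (by linarith)
  have hOg : Off (g.1 - ρ) (g.1 + ρ) (g.2.1 - ρ) (g.2.1 + ρ) I J :=
    Off_sub hIJ (by linarith) (by linarith) (by linarith) (by linarith)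
  have step1 : PQ q (RE a b c d) (SD (CO I J O) e g) ≤
      PQ q (RE a b c d) (fun F => L4 ρ e ↑F ∧ (L4 ρ g ↑F ∧
        Bf (CO I J O) (tb ρ (tl ρ e)) F)) := by
    refine Pr_mono hOk ?_
    intro F _ hF
    refine ⟨SD_L4_auxO hρ (fun x hx hx2 => hO x hx (hbe hx2)) hOe hg1 hF.1,
      SD_L4_auxO hρ (fun x hx hx2 => hO x hx (hbg hx2)) hOg he1 hF.2.1,
      SD_BfO (mem_tb hρ hee) (mem_tb hρ h4) hF⟩
  refine step1.trans ?_
  have hBl : ∀ (x : Edg), dst e x ≤ 4 * ρ → ∀ F, F ⊆ RE a b c d →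
      (Bf (CO I J O) (tb ρ (tl ρ e)) F ↔
        Bf (CO I J O) (tb ρ (tl ρ e)) (F ∩ (RE a b c d \ blk (bp x) ρ))) :=
    fun x hx F hF => Bf_local (ball_sub_tb hρ hx) F hF
  refine (indep_L4 h0 h1 hbe ?_).trans ?_
  · intro F hF
    rw [← hBl e hee F hF]
    apply and_congr_left
    intro _
    apply L4_congr'
    intro x hx _
    rw [Finset.mem_inter, Finset.mem_sdiff]
    exact ⟨fun h => ⟨h, hF h, hge x hx⟩, fun h => h.1⟩
  · have ha : 0 ≤ a4 q ρ := (Pr_nonneg hOk _ _).trans (pr_L4 h0 h1 hbe)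
    rw [sq, mul_assoc]
    exact mul_le_mul_of_nonneg_left (indep_L4 h0 h1 hbg (hBl g h4)) ha

/-- one class of pairs -/
theorem class_sumO {κ : ℝ} {q : ℝ} {n : ℕ} (hW : Win q κ n) {a b c d : ℤ} {K Λ : ℕ} (hΛ : 1 ≤ Λ)
    (hn : 12 * 2 ^ K ≤ n) {I J : Set Vtx} {O : Set Edg} (hO : ∀ g ∈ O, g ∉ RE a b c d)
    (hIJ : Off a b c d I J) {G : Finset Edg}
    (hG : ∀ e ∈ G, |e.1| ≤ Λ * 2 ^ K ∧ |e.2.1| ≤ Λ * 2 ^ K)
    (hG' : ∀ e ∈ G, (a + 24 * 2 ^ K ≤ e.1 ∧ e.1 ≤ b - 24 * 2 ^ K) ∧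
      (c + 24 * 2 ^ K ≤ e.2.1 ∧ e.2.1 ≤ d - 24 * 2 ^ K))
    {k : ℕ} (hk : k ≤ K) (P : Edg → Edg → Prop)
    (hP : ∀ e g, P e g → dst e g ≤ 4 * ((2 ^ k : ℕ) : ℤ)) {A : ℝ} (hA : 0 ≤ A)
    (hb : ∀ e ∈ G, ∀ g, P e g → PQ q (RE a b c d) (SD (CO I J O) e g) ≤
      A * PQ q (RE a b c d) (Bf (CO I J O) (tb (2 ^ k) (tl (2 ^ k) e)))) :
    ∑ e ∈ G, ∑ g ∈ (RE a b c d).erase e, ind (P e g) *
      PQ q (RE a b c d) (SD (CO I J O) e g) ≤
      162 * 18 * 722 * 3 * κ⁻¹ ^ 4 * Λ * ((16 : ℝ) ^ k * A * 2 ^ (K - k)) := by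
  classical
  have h0 : 0 ≤ q := by linarith [hW.lo]
  have h1 : q ≤ 1 := by linarith [hW.hi]
  have hOk : Ok (fun _ : Edg => q) := fun _ => ⟨h0, h1⟩
  set ρ : ℕ := 2 ^ k with hρdef
  have hρ : 1 ≤ ρ := Nat.one_le_two_pow
  have hρK : ρ ≤ 2 ^ K := Nat.pow_le_pow_right (by norm_num) hk
  have hρKz : (ρ : ℤ) ≤ 2 ^ K := by exact_mod_cast hρK
  have hρ1z : (1 : ℤ) ≤ ρ := by exact_mod_cast hρ
  set B : ℤ × ℤ → ℝ := fun t => PQ q (RE a b c d) (Bf (CO I J O) (tb ρ t)) with hB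
  have hB0 : ∀ t, 0 ≤ B t := fun t => Pr_nonneg hOk _ _
  -- inner sums
  have inner : ∀ e ∈ G, ∑ g ∈ (RE a b c d).erase e, ind (P e g) *
      PQ q (RE a b c d) (SD (CO I J O) e g) ≤
      162 * (ρ : ℝ) ^ 2 * (A * B (tl ρ e)) := by
    intro e he
    have hAB : 0 ≤ A * B (tl ρ e) := mul_nonneg hA (hB0 _)
    calc ∑ g ∈ (RE a b c d).erase e, ind (P e g) *
        PQ q (RE a b c d) (SD (CO I J O) e g)
        ≤ ∑ g ∈ (RE a b c d).erase e, if dst e g ≤ 4 * ρ then A * B (tl ρ e) else 0 := by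
          refine Finset.sum_le_sum fun g _ => ?_
          by_cases hp : P e g
          · rw [ind_of hp, one_mul, if_pos (hP e g hp)]
            exact hb e he g hp
          · rw [ind_not_of hp, zero_mul]
            split_ifs
            · exact hAB
            · exact le_rfl
      _ = (((RE a b c d).erase e).filter (fun g => dst e g ≤ 4 * ρ)).card *
          (A * B (tl ρ e)) := by
          rw [← Finset.sum_filter, Finset.sum_const, nsmul_eq_mul]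
      _ ≤ 162 * (ρ : ℝ) ^ 2 * (A * B (tl ρ e)) :=
          mul_le_mul_of_nonneg_right (card_near e ρ hρ _) hAB
  set T : Finset (ℤ × ℤ) := G.image (tl ρ) with hT
  have hOd : Disjoint O (↑(RE a b c d) : Set Edg) := by
    rw [Set.disjoint_left]
    intro x hx hx2
    exact hO x hx hx2
  have tile : ∑ t ∈ T, B t ≤ 2 * (19 : ℕ) ^ 2 * κ⁻¹ ^ 4 * Real.sqrt T.card := by
    have hTs := tile_sum hW (S := RE a b c d) (I := I) (J := J) (O := O)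
      hOd (s := 2 * ρ) (R := 6 * ρ) (K := 19) (by omega) (by omega)
      (by
        have : 12 * ρ ≤ 12 * 2 ^ K := by omega
        omega) (by norm_num) (by omega) T ?_ ?_
    · exact hTs
    · intro t ht
      rw [hT, Finset.mem_image] at ht
      obtain ⟨e, he, rfl⟩ := ht
      have d1 := div_spec hρ e.1
      have d2 := div_spec hρ e.2.1
      obtain ⟨⟨m1, m2⟩, m3, m4⟩ := hG' e he
      unfold blk tl
      push_cast at d1 d2 ⊢
      apply RE_subset <;> linarith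
    · intro t ht
      rw [hT, Finset.mem_image] at ht
      obtain ⟨e, he, rfl⟩ := ht
      have d1 := div_spec hρ e.1
      have d2 := div_spec hρ e.2.1
      obtain ⟨⟨m1, m2⟩, m3, m4⟩ := hG' e he
      unfold tl
      push_cast at d1 d2 ⊢
      apply Off_sub hIJ <;> linarith
  have hfib : ∑ e ∈ G, 162 * (ρ : ℝ) ^ 2 * (A * B (tl ρ e)) ≤
      162 * (ρ : ℝ) ^ 2 * A * (18 * (ρ : ℝ) ^ 2 * ∑ t ∈ T, B t) := by
    have h2 : ∑ e ∈ G, 162 * (ρ : ℝ) ^ 2 * (A * B (tl ρ e)) =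
        162 * (ρ : ℝ) ^ 2 * A * ∑ e ∈ G, B (tl ρ e) := by
      rw [Finset.mul_sum]
      refine Finset.sum_congr rfl fun e _ => ?_
      ring
    rw [h2]
    apply mul_le_mul_of_nonneg_left _ (by positivity)
    have h3 : ∑ e ∈ G, B (tl ρ e) = ∑ t ∈ T, ∑ e ∈ G.filter (fun e => tl ρ e = t), B (tl ρ e) :=
      (Finset.sum_fiberwise_of_maps_to (fun e he => Finset.mem_image_of_mem _ he) _).symm
    rw [h3, Finset.mul_sum]
    refine Finset.sum_le_sum fun t _ => ?_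
    have h4 : ∑ e ∈ G.filter (fun e => tl ρ e = t), B (tl ρ e) =
        (G.filter (fun e => tl ρ e = t)).card * B t := by
      rw [← nsmul_eq_mul, ← Finset.sum_const]
      refine Finset.sum_congr rfl fun e he => ?_
      rw [(Finset.mem_filter.mp he).2]
    rw [h4]
    exact mul_le_mul_of_nonneg_right (card_tile ρ hρ G t) (hB0 t)
  have hsq : Real.sqrt (T.card : ℝ) ≤ 3 * ((Λ * 2 ^ (K - k) : ℕ) : ℝ) := by
    apply card_tiles ρ hρ (Λ * 2 ^ (K - k)) (Nat.mul_pos hΛ (Nat.two_pow_pos _)) G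
    intro e he
    have h5 : (((Λ * 2 ^ (K - k) : ℕ) : ℤ) * (ρ : ℤ)) = Λ * 2 ^ K := by
      have h6 : (2 : ℤ) ^ K = 2 ^ (K - k) * 2 ^ k := by
        rw [← pow_add]
        congr 1
        omega
      rw [h6, hρdef]
      push_cast
      ring
    rw [h5]
    exact hG e he
  have hκ : 0 ≤ κ⁻¹ ^ 4 := by
    have := hW.kpos
    positivity
  calc ∑ e ∈ G, ∑ g ∈ (RE a b c d).erase e, ind (P e g) *
      PQ q (RE a b c d) (SD (CO I J O) e g)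
      ≤ ∑ e ∈ G, 162 * (ρ : ℝ) ^ 2 * (A * B (tl ρ e)) := Finset.sum_le_sum inner
    _ ≤ 162 * (ρ : ℝ) ^ 2 * A * (18 * (ρ : ℝ) ^ 2 * ∑ t ∈ T, B t) := hfib
    _ ≤ 162 * (ρ : ℝ) ^ 2 * A * (18 * (ρ : ℝ) ^ 2 * (2 * (19 : ℕ) ^ 2 * κ⁻¹ ^ 4 *
          (3 * ((Λ * 2 ^ (K - k) : ℕ) : ℝ)))) := by
        apply mul_le_mul_of_nonneg_left _ (by positivity)
        apply mul_le_mul_of_nonneg_left _ (by positivity)
        refine tile.trans ?_
        apply mul_le_mul_of_nonneg_left hsq (by positivity)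
    _ = 162 * 18 * 722 * 3 * κ⁻¹ ^ 4 * Λ * ((16 : ℝ) ^ k * A * 2 ^ (K - k)) := by
        have h7 : (ρ : ℝ) ^ 2 * (ρ : ℝ) ^ 2 = 16 ^ k := by
          rw [← pow_add, hρdef]
          push_cast
          rw [← pow_mul, mul_comm k, pow_mul]
          norm_num
        push_cast
        linear_combination (162 * 18 * (2 * 19 ^ 2 * κ⁻¹ ^ 4 * (3 * (Λ * 2 ^ (K - k)))) * A) * h7

theorem near_sumO (κ : ℝ) (hκ : 0 < κ) : ∃ C : ℝ, 0 < C ∧ ∀ (q : ℝ) (n : ℕ), Win q κ n →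
    ∀ (a b c d : ℤ) (K Λ : ℕ), 1 ≤ Λ → 12 * 2^K ≤ n →
    ∀ (I J : Set Vtx) (O : Set Edg), (∀ g ∈ O, g ∉ RE a b c d) → Off a b c d I J →
    ∀ G : Finset Edg, (∀ e ∈ G, |e.1| ≤ Λ * 2^K ∧ |e.2.1| ≤ Λ * 2^K) →
    (∀ e ∈ G, (a + 24 * 2^K ≤ e.1 ∧ e.1 ≤ b - 24 * 2^K) ∧
      (c + 24 * 2^K ≤ e.2.1 ∧ e.2.1 ≤ d - 24 * 2^K)) →
    ∑ e ∈ G, ∑ g ∈ (RE a b c d).erase e, ind (dst e g ≤ 4 * 2^K) *
      PQ q (RE a b c d) (SD (CO I J O) e g) ≤ C * Λ * W2s q K := by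
  refine ⟨162 * 18 * 722 * 3 * κ⁻¹ ^ 4, by positivity, ?_⟩
  intro q n hW a b c d K Λ hΛ hn I J O hO hIJ G hG hG'
  have h0 : 0 ≤ q := by linarith [hW.lo]
  have h1 : q ≤ 1 := by linarith [hW.hi]
  have hOk : Ok (fun _ : Edg => q) := fun _ => ⟨h0, h1⟩
  have hX : ∀ e g, 0 ≤ PQ q (RE a b c d) (SD (CO I J O) e g) := fun e g =>
    Pr_nonneg hOk _ _
  have hGk : ∀ k ≤ K, ∀ e ∈ G, (a + 24 * ((2 ^ k : ℕ) : ℤ) ≤ e.1 ∧ e.1 ≤ b - 24 * ((2 ^ k : ℕ) : ℤ)) ∧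
      (c + 24 * ((2 ^ k : ℕ) : ℤ) ≤ e.2.1 ∧ e.2.1 ≤ d - 24 * ((2 ^ k : ℕ) : ℤ)) := by
    intro k hk e he
    have h2 : ((2 ^ k : ℕ) : ℤ) ≤ 2 ^ K := by
      exact_mod_cast Nat.pow_le_pow_right (by norm_num) hk
    obtain ⟨⟨m1, m2⟩, m3, m4⟩ := hG' e he
    refine ⟨⟨?_, ?_⟩, ?_, ?_⟩ <;> linarith
  -- split
  have split : ∀ e g : Edg, ind (dst e g ≤ 4 * 2 ^ K) *
      PQ q (RE a b c d) (SD (CO I J O) e g) ≤
      ind (dst e g ≤ 2) * PQ q (RE a b c d) (SD (CO I J O) e g) +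
      ∑ k ∈ Finset.range (K + 1), ind (2 * ((2 ^ k : ℕ) : ℤ) < dst e g ∧
        dst e g ≤ 4 * ((2 ^ k : ℕ) : ℤ)) *
        PQ q (RE a b c d) (SD (CO I J O) e g) := by
    intro e g
    rw [← Finset.sum_mul, ← add_mul]
    exact mul_le_mul_of_nonneg_right (ind_split K _) (hX e g)
  have close : ∑ e ∈ G, ∑ g ∈ (RE a b c d).erase e, ind (dst e g ≤ 2) *
      PQ q (RE a b c d) (SD (CO I J O) e g) ≤
      162 * 18 * 722 * 3 * κ⁻¹ ^ 4 * Λ * ((16 : ℝ) ^ 0 * 1 * 2 ^ (K - 0)) := by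
    refine class_sumO hW hΛ hn hO hIJ hG hG' (Nat.zero_le K) (fun e g => dst e g ≤ 2) ?_ zero_le_one ?_
    · intro e g h
      norm_num
      linarith
    · intro e he g hg
      rw [one_mul]
      refine Pr_mono hOk ?_
      intro F _ hF
      have hg4 : dst e g ≤ 4 * ((2 ^ 0 : ℕ) : ℤ) := by
        norm_num
        linarith
      have hee : dst e e ≤ 4 * ((2 ^ 0 : ℕ) : ℤ) := by rw [dst_self]; norm_num
      exact SD_BfO (mem_tb (by norm_num) hee) (mem_tb (by norm_num) hg4) hF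
  have cls : ∀ k ∈ Finset.range (K + 1), ∑ e ∈ G, ∑ g ∈ (RE a b c d).erase e,
      ind (2 * ((2 ^ k : ℕ) : ℤ) < dst e g ∧ dst e g ≤ 4 * ((2 ^ k : ℕ) : ℤ)) *
      PQ q (RE a b c d) (SD (CO I J O) e g) ≤
      162 * 18 * 722 * 3 * κ⁻¹ ^ 4 * Λ * ((16 : ℝ) ^ k * (a4 q (2 ^ k)) ^ 2 * 2 ^ (K - k)) := by
    intro k hk
    have hk' : k ≤ K := by
      rw [Finset.mem_range] at hk
      omega
    refine class_sumO hW hΛ hn hO hIJ hG hG' hk' (fun e g => 2 * ((2 ^ k : ℕ) : ℤ) < dst e g ∧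
      dst e g ≤ 4 * ((2 ^ k : ℕ) : ℤ)) (fun e g h => h.2) (sq_nonneg _) ?_
    intro e he g hg
    exact pair_boundO h0 h1 hO hIJ Nat.one_le_two_pow (hGk k hk' e he) hg.2 hg.1
  calc ∑ e ∈ G, ∑ g ∈ (RE a b c d).erase e, ind (dst e g ≤ 4 * 2^K) *
      PQ q (RE a b c d) (SD (CO I J O) e g)
      ≤ ∑ e ∈ G, ∑ g ∈ (RE a b c d).erase e, (ind (dst e g ≤ 2) *
          PQ q (RE a b c d) (SD (CO I J O) e g) +
        ∑ k ∈ Finset.range (K + 1), ind (2 * ((2 ^ k : ℕ) : ℤ) < dst e g ∧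
          dst e g ≤ 4 * ((2 ^ k : ℕ) : ℤ)) *
          PQ q (RE a b c d) (SD (CO I J O) e g)) :=
        Finset.sum_le_sum fun e _ => Finset.sum_le_sum fun g _ => split e g
    _ = (∑ e ∈ G, ∑ g ∈ (RE a b c d).erase e, ind (dst e g ≤ 2) *
          PQ q (RE a b c d) (SD (CO I J O) e g)) +
        ∑ k ∈ Finset.range (K + 1), ∑ e ∈ G, ∑ g ∈ (RE a b c d).erase e,
          ind (2 * ((2 ^ k : ℕ) : ℤ) < dst e g ∧ dst e g ≤ 4 * ((2 ^ k : ℕ) : ℤ)) *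
          PQ q (RE a b c d) (SD (CO I J O) e g) := by
        rw [Finset.sum_comm (s := Finset.range (K + 1)), ← Finset.sum_add_distrib]
        refine Finset.sum_congr rfl fun e _ => ?_
        rw [Finset.sum_add_distrib]
        congr 1
        rw [Finset.sum_comm]
    _ ≤ 162 * 18 * 722 * 3 * κ⁻¹ ^ 4 * Λ * ((16 : ℝ) ^ 0 * 1 * 2 ^ (K - 0)) +
        ∑ k ∈ Finset.range (K + 1), 162 * 18 * 722 * 3 * κ⁻¹ ^ 4 * Λ *
          ((16 : ℝ) ^ k * (a4 q (2 ^ k)) ^ 2 * 2 ^ (K - k)) :=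
        add_le_add close (Finset.sum_le_sum cls)
    _ = 162 * 18 * 722 * 3 * κ⁻¹ ^ 4 * Λ * W2s q K := by
        unfold W2s
        rw [← Finset.mul_sum]
        simp only [pow_zero, one_mul, Nat.sub_zero]
        ring


end Pool.Agent.R960
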