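import Pool.Agent.R960.Prod

/-!
Near pairs in a dyadic shell.
-/

namespace Pool.Agent.R960

open H974 H12S H973N H973N.NP Finset

/-- The square around a tile. -/
noncomputable def Rt (ρ : ℕ) (t : ℤ × ℤ) : Finset Edg :=
  RE (((2 * ρ : ℕ) : ℤ) * t.1 - 32 * ρ) (((2 * ρ : ℕ) : ℤ) * t.1 + 32 * ρ)
    (((2 * ρ : ℕ) : ℤ) * t.2 - 32 * ρ) (((2 * ρ : ℕ) : ℤ) * t.2 + 32 * ρ)

theorem near_class (κ : ℝ) (hκ : 0 < κ) : ∃ C : ℝ, 0 < C ∧ ∀ (β : Bool) (q : ℝ) (n : ℕ),
    Win q κ n → ∀ M j : ℕ, 10 ≤ j → j + 2 ≤ M → 2 ^ M ≤ n →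
    ∀ G : Finset Edg, G ⊆ UU β (2 ^ M) → (∀ g ∈ G, (2:ℤ) ^ j ≤ nm g ∧ nm g < 2 ^ (j + 1)) →
    ∑ g ∈ G, ∑ g' ∈ (UU β (2 ^ M)).filter (fun g' => g' ≠ g ∧ dst g g' ≤ 4 * 2 ^ (j - 6)),
      PQ q (UU β (2 ^ M)) (SD (fR β) g g') ≤ C * (a4 q (2 ^ (j - 2)) * W2s q (j - 6)) := by
  classical
  obtain ⟨C, hC, hN⟩ := near_sumO κ hκ
  refine ⟨147456 * (C * 128), by positivity, ?_⟩
  intro β q n hW M j hj hjM hMn G hGU hG
  have h0 : 0 ≤ q := by linarith [hW.lo]
  have h1 : q ≤ 1 := by linarith [hW.hi]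
  have hok : Ok (fun _ : Edg => q) := fun _ => ⟨h0, h1⟩
  obtain ⟨K, hK⟩ : ∃ K : ℕ, K = j - 6 := ⟨_, rfl⟩
  obtain ⟨ρ, hρ⟩ : ∃ ρ : ℕ, ρ = 2 ^ K := ⟨_, rfl⟩
  have hρ1 : 1 ≤ ρ := by rw [hρ]; exact Nat.one_le_two_pow
  have hj64 : 2 ^ j = 64 * ρ := by
    rw [hρ, hK, show (64:ℕ) = 2 ^ 6 by norm_num, ← pow_add]
    congr 1
    omega
  have hj64z : (2:ℤ) ^ j = 64 * ρ := by exact_mod_cast hj64
  have hj1z : (2:ℤ) ^ (j + 1) = 128 * ρ := by rw [pow_succ, hj64z]; ring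
  have hjm2 : 2 ^ (j - 2) = 16 * ρ := by
    rw [hρ, hK, show (16:ℕ) = 2 ^ 4 by norm_num, ← pow_add]
    congr 1
    omega
  have hM4 : 256 * (ρ:ℤ) ≤ 2 ^ M := by
    have : 2 ^ (j + 2) ≤ 2 ^ M := Nat.pow_le_pow_right (by norm_num) hjM
    have e : 2 ^ (j + 2) = 256 * ρ := by rw [pow_add, hj64]; ring
    rw [e] at this
    exact_mod_cast this
  rw [← hK]
  have hρz : (2:ℤ) ^ K = ρ := by rw [hρ]; push_cast; rfl
  rw [hρz]
  set U := UU β (2 ^ M) with hU
  set T : Finset (ℤ × ℤ) := G.image (tl ρ) with hT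
  -- one tile
  have one : ∀ t ∈ T, ∑ g ∈ G.filter (fun g => tl ρ g = t),
      ∑ g' ∈ U.filter (fun g' => g' ≠ g ∧ dst g g' ≤ 4 * (ρ:ℤ)), PQ q U (SD (fR β) g g') ≤
      a4 q (2 ^ (j - 2)) * (C * 128 * W2s q K) := by
    intro t ht
    have hW2 : 0 ≤ W2s q K := by
      unfold W2s
      have : ∀ k, 0 ≤ a4 q (2 ^ k) := fun k => a4nn h0 h1 _
      apply add_nonneg (by positivity)
      exact Finset.sum_nonneg (fun k _ => by positivity)
    set Gt := G.filter (fun g => tl ρ g = t) with hGt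
    have hRt : Rt ρ t = RE (((2 * ρ : ℕ) : ℤ) * t.1 - 32 * ρ) (((2 * ρ : ℕ) : ℤ) * t.1 + 32 * ρ)
      (((2 * ρ : ℕ) : ℤ) * t.2 - 32 * ρ) (((2 * ρ : ℕ) : ℤ) * t.2 + 32 * ρ) := rfl
    -- position of the edges of `Gt`
    have hpos : ∀ g ∈ Gt, (((2 * ρ : ℕ) : ℤ) * t.1 - ρ ≤ g.1 ∧ g.1 ≤ ((2 * ρ : ℕ) : ℤ) * t.1 + ρ) ∧
        (((2 * ρ : ℕ) : ℤ) * t.2 - ρ ≤ g.2.1 ∧ g.2.1 ≤ ((2 * ρ : ℕ) : ℤ) * t.2 + ρ) := by
      intro g hg
      rw [hGt, Finset.mem_filter] at hg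
      have d1 := div_spec hρ1 g.1
      have d2 := div_spec hρ1 g.2.1
      have e : tl ρ g = t := hg.2
      unfold tl at e
      rw [← e]
      simp only
      constructor <;> constructor <;> linarith
    obtain ⟨g0, hg0, hg0t⟩ := Finset.mem_image.mp ht
    have hg0' : g0 ∈ Gt := Finset.mem_filter.mpr ⟨hg0, hg0t⟩
    have hp0 := hpos g0 hg0'
    have hn0 := hG g0 hg0
    rw [hj64z, hj1z] at hn0
    have hn0' := nm_lt.1 hn0.2
    -- the square
    have hRfar : ∀ x ∈ Rt ρ t, 31 * (ρ:ℤ) ≤ nm x ∧ nm x < 2 ^ M := by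
      intro x hx
      rw [hRt] at hx
      have hx2 := RE_weak hx
      have hxn := (nm_le (g := x) (k := nm x)).1 le_rfl
      constructor
      · by_contra hcon
        push Not at hcon
        have : nm g0 < 64 * ρ := by
          rw [nm_lt]
          rw [nm_lt] at hcon
          omega
        omega
      · rw [nm_lt]
        omega
    have hRU : Rt ρ t ⊆ U := by
      intro x hx
      have := hRfar x hx
      rw [hU, Finset.mem_erase]
      refine ⟨?_, boxE_of_nm (by push_cast; omega)⟩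
      rintro rfl
      have h2 : nm (e0 β) = 0 := by simp [nm, e0]
      omega
    have hdR : ∀ g ∈ Gt, ∀ g' ∈ U, dst g g' ≤ 4 * (ρ:ℤ) → g' ∈ Rt ρ t := by
      intro g hg g' _ hd
      obtain ⟨⟨k1, k2⟩, k3, k4⟩ := dst_le hd
      have hp := hpos g hg
      rw [hRt]
      apply RE_strong
      omega
    have hGtR : Gt ⊆ Rt ρ t := by
      intro g hg
      have hp := hpos g hg
      rw [hRt]
      apply RE_strong
      omega
    set P : Finset (Edg × Edg) := (Gt ×ˢ Rt ρ t).filter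
      (fun i => i.2 ≠ i.1 ∧ dst i.1 i.2 ≤ 4 * (ρ:ℤ)) with hP
    have hPs : ∀ x : Edg → Edg → ℝ, ∑ i ∈ P, x i.1 i.2 = ∑ g ∈ Gt, ∑ g' ∈ Rt ρ t,
        if g' ≠ g ∧ dst g g' ≤ 4 * (ρ:ℤ) then x g g' else 0 := by
      intro x
      rw [hP, Finset.sum_filter]
      exact Finset.sum_product _ _ _
    have toP : ∀ x : Edg → Edg → ℝ, (∀ a b, 0 ≤ x a b) →
        ∑ g ∈ Gt, ∑ g' ∈ U.filter (fun g' => g' ≠ g ∧ dst g g' ≤ 4 * (ρ:ℤ)), x g g' ≤
        ∑ i ∈ P, x i.1 i.2 := by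
      intro x hx
      rw [hPs]
      apply Finset.sum_le_sum
      intro g hg
      rw [← Finset.sum_filter]
      apply Finset.sum_le_sum_of_subset_of_nonneg
      · intro g' hg'
        rw [Finset.mem_filter] at hg' ⊢
        exact ⟨hdR g hg g' hg'.1 hg'.2.2, hg'.2⟩
      · intro g' _ _
        exact hx _ _
    refine (toP _ (fun a b => Pr_nonneg hok _ _)).trans ?_
    refine (sum_pairs h0 h1 hRU (Ev := AR β (2 ^ (j - 2))) ?_ P ?_ ?_ (W := C * 128 * W2s q K)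
      ?_).trans ?_
    · intro F hF
      apply AR_inter
      intro x hx hne hxF
      rw [Finset.mem_sdiff]
      refine ⟨hF hxF, fun hcon => ?_⟩
      have k1 := nm_le_of_boxE hx
      have k2 := (hRfar x hcon).1
      rw [hjm2] at k1
      push_cast at k1
      omega
    · intro i hi
      rw [hP, Finset.mem_filter, Finset.mem_product] at hi
      exact ⟨hGtR hi.1.1, hi.1.2⟩
    · intro i hi F hF h
      rw [hP, Finset.mem_filter, Finset.mem_product] at hi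
      have hnb : ∀ x ∈ Rt ρ t, x ∉ boxE (2 ^ (j - 2)) := by
        intro x hx hcon
        have k1 := nm_le_of_boxE hcon
        have k2 := (hRfar x hx).1
        rw [hjm2] at k1
        push_cast at k1
        omega
      refine SD_AR Nat.one_le_two_pow (hnb _ (hGtR hi.1.1)) (hnb _ hi.1.2)
        (fun h2 => (Finset.mem_erase.mp (hF h2)).1 rfl) h
    · intro w hw
      have hOff : Off (((2 * ρ : ℕ) : ℤ) * t.1 - 32 * ρ) (((2 * ρ : ℕ) : ℤ) * t.1 + 32 * ρ)
          (((2 * ρ : ℕ) : ℤ) * t.2 - 32 * ρ) (((2 * ρ : ℕ) : ℤ) * t.2 + 32 * ρ)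
          {src (e0 β)} {tgt (e0 β)} := by
        have hlow : ¬ (nm g0 < 64 * ρ) := by omega
        rw [nm_lt] at hlow
        rintro v (hv | hv) ⟨⟨h1, h2⟩, h3, h4⟩
        · rw [Set.mem_singleton_iff] at hv
          subst hv
          simp only [e0, src_mk] at h1 h2 h3 h4
          omega
        · rw [Set.mem_singleton_iff] at hv
          subst hv
          cases β
          · simp only [e0, tgt_false] at h1 h2 h3 h4
            omega
          · simp only [e0, tgt_true] at h1 h2 h3 h4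
            omega
      have hns := hN q n hW (((2 * ρ : ℕ) : ℤ) * t.1 - 32 * ρ)
        (((2 * ρ : ℕ) : ℤ) * t.1 + 32 * ρ)
        (((2 * ρ : ℕ) : ℤ) * t.2 - 32 * ρ) (((2 * ρ : ℕ) : ℤ) * t.2 + 32 * ρ) K 128 (by norm_num)
        (by
          rw [← hρ]
          have : 256 * ρ ≤ 2 ^ M := by exact_mod_cast hM4
          omega) {src (e0 β)} {tgt (e0 β)} ↑w
        (by
          intro g hg hcon
          exact (Finset.mem_sdiff.mp (hw hg)).2 hcon) hOff Gt
        (by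
          intro g hg
          have h5 := (nm_lt.1 (by rw [← hj1z]; exact (hG g (Finset.mem_filter.mp hg).1).2 :
            nm g < 128 * ρ))
          rw [hρz, abs_le, abs_le]
          push_cast
          omega)
        (by
          intro g hg
          have hp := hpos g hg
          rw [hρz]
          omega)
      refine le_trans ?_ hns
      rw [hPs (fun a b => PQ q (Rt ρ t) (SD (CO {src (e0 β)} {tgt (e0 β)} ↑w) a b))]
      apply Finset.sum_le_sum
      intro g hg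
      rw [← hRt]
      have e1 : ∑ g' ∈ (Rt ρ t).erase g, ind (dst g g' ≤ 4 * 2 ^ K) *
          PQ q (Rt ρ t) (SD (CO {src (e0 β)} {tgt (e0 β)} ↑w) g g') =
          ∑ g' ∈ Rt ρ t, if g' ≠ g then ind (dst g g' ≤ 4 * 2 ^ K) *
          PQ q (Rt ρ t) (SD (CO {src (e0 β)} {tgt (e0 β)} ↑w) g g') else 0 := by
        rw [← Finset.sum_filter]
        congr 1
        ext x
        rw [Finset.mem_erase, Finset.mem_filter]
        tauto
      rw [e1]
      apply Finset.sum_le_sum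
      intro g' _
      by_cases c1 : g' ≠ g
      · by_cases c2 : dst g g' ≤ 4 * (ρ:ℤ)
        · rw [if_pos ⟨c1, c2⟩, if_pos c1, hρz, ind_of c2, one_mul]
        · rw [if_neg (fun h => c2 h.2), if_pos c1]
          exact mul_nonneg (ind_nonneg _) (Pr_nonneg hok _ _)
      · rw [if_neg (fun h => c1 h.1), if_neg c1]
    · apply mul_le_mul_of_nonneg_right _ (by positivity)
      apply pr_AR h0 h1
      exact Nat.pow_le_pow_right (by norm_num) (by omega)
  have hfib : ∑ g ∈ G, ∑ g' ∈ U.filter (fun g' => g' ≠ g ∧ dst g g' ≤ 4 * (ρ:ℤ)),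
      PQ q U (SD (fR β) g g') = ∑ t ∈ T, ∑ g ∈ G.filter (fun g => tl ρ g = t),
      ∑ g' ∈ U.filter (fun g' => g' ≠ g ∧ dst g g' ≤ 4 * (ρ:ℤ)), PQ q U (SD (fR β) g g') :=
    (Finset.sum_fiberwise_of_maps_to (fun e he => Finset.mem_image_of_mem _ he) _).symm
  rw [hfib]
  refine (Finset.sum_le_sum one).trans ?_
  rw [Finset.sum_const, nsmul_eq_mul]
  have hcard : (T.card : ℝ) ≤ 147456 := by
    have hs := card_tiles ρ hρ1 128 (by norm_num) G (by
      intro g hg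
      have h5 := (nm_lt.1 (by rw [← hj1z]; exact (hG g hg).2 : nm g < 128 * ρ))
      rw [abs_le, abs_le]
      push_cast
      omega)
    rw [← hT] at hs
    have h6 : (T.card : ℝ) = Real.sqrt (T.card : ℝ) ^ 2 := by
      rw [Real.sq_sqrt (Nat.cast_nonneg _)]
    rw [h6]
    calc Real.sqrt (T.card : ℝ) ^ 2 ≤ (3 * ((128 : ℕ) : ℝ)) ^ 2 :=
          pow_le_pow_left₀ (Real.sqrt_nonneg _) hs 2
      _ = 147456 := by norm_num
  have hW2 : 0 ≤ W2s q K := by
    unfold W2s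
    have : ∀ k, 0 ≤ a4 q (2 ^ k) := fun k => a4nn h0 h1 _
    apply add_nonneg (by positivity)
    exact Finset.sum_nonneg (fun k _ => by positivity)
  have ha := a4nn h0 h1 (2 ^ (j - 2))
  calc (T.card : ℝ) * (a4 q (2 ^ (j - 2)) * (C * 128 * W2s q K))
      ≤ 147456 * (a4 q (2 ^ (j - 2)) * (C * 128 * W2s q K)) :=
        mul_le_mul_of_nonneg_right hcard (by positivity)
    _ = 147456 * (C * 128) * (a4 q (2 ^ (j - 2)) * W2s q K) := by ring

end Pool.Agent.R960
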