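import Pool.Agent.R960.Root

/-!
Products of local events.
-/

namespace Pool.Agent.R960

open H974 H12S H973N H973N.NP Finset

theorem LR_inter {ρ : ℕ} {g : Edg} {F S : Finset Edg} (h : ∀ x ∈ blk (bp g) ρ, x ∈ F → x ∈ S) :
    LR ρ g F ↔ LR ρ g (F ∩ S) := by
  apply LR_congr
  intro x hx _
  rw [Finset.mem_inter]
  exact ⟨fun h2 => ⟨h2, h x hx h2⟩, fun h2 => h2.1⟩

theorem AR_inter {β : Bool} {ρ : ℕ} {F S : Finset Edg}
    (h : ∀ x ∈ boxE ρ, x ≠ e0 β → x ∈ F → x ∈ S) : AR β ρ F ↔ AR β ρ (F ∩ S) := by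
  apply AR_congr
  intro x hx hne
  rw [Finset.mem_inter]
  exact ⟨fun h2 => ⟨h2, h x hx hne h2⟩, fun h2 => h2.1⟩

theorem BR_inter {s R : ℕ} {F S : Finset Edg}
    (h : ∀ x ∈ boxE R, x ∉ blk (0, 0) s → x ∈ F → x ∈ S) : BR s R F ↔ BR s R (F ∩ S) := by
  apply BR_congr
  intro x hx hne
  rw [Finset.mem_inter]
  exact ⟨fun h2 => ⟨h2, h x hx hne h2⟩, fun h2 => h2.1⟩

theorem blk_UU {β : Bool} {m ρ : ℕ} {g : Edg} (hg : (ρ:ℤ) < nm g) (hm : nm g + ρ < m) :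
    blk (bp g) ρ ⊆ UU β m := by
  intro x hx
  have h2 := nm_blk hx
  rw [Finset.mem_erase]
  refine ⟨?_, boxE_of_nm (by omega)⟩
  rintro rfl
  have : nm (e0 β) = 0 := by simp [nm, e0]
  omega

theorem mem_blk0 {g : Edg} {s : ℕ} (h : nm g < s) : g ∈ blk (0, 0) s := by
  have := boxE_of_nm (g := g) (m := s) h
  unfold boxE at this
  unfold blk
  simpa using this

theorem blk0_nm {g : Edg} {s : ℕ} (h : g ∈ blk (0, 0) s) : nm g ≤ s := by
  apply nm_le_of_boxE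
  unfold blk at h
  unfold boxE
  simpa using h

section
variable {q : ℝ} (h0 : 0 ≤ q) (h1 : q ≤ 1) {β : Bool} {m : ℕ}
include h0 h1

theorem a4nn (k : ℕ) : 0 ≤ a4 q k := FPX.a4_nonneg h0 h1 k

theorem pr_X1 {ρ : ℕ} {g : Edg} (hg : 2 * (ρ:ℤ) < nm g) (hm : nm g + ρ < m) :
    PQ q (UU β m) (fun F => LR ρ g F ∧ AR β ρ F) ≤ a4 q ρ * a4 q ρ := by
  have hsub := blk_UU (β := β) (m := m) (ρ := ρ) (g := g) (by omega) hm
  unfold PQ
  rw [indep_mul (R := blk (bp g) ρ) hsub]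
  · exact mul_le_mul (pr_LR h0 h1 (by omega) hm) (pr_AR h0 h1 (by omega))
      (Pr_nonneg (okq h0 h1) _ _) (a4nn h0 h1 _)
  · intro F hF
    exact LR_inter (fun x hx _ => hx)
  · intro F hF
    apply AR_inter
    intro x hx hne hxF
    rw [Finset.mem_sdiff]
    refine ⟨hF hxF, fun hcon => ?_⟩
    have k1 := nm_le_of_boxE hx
    have k2 := nm_blk hcon
    omega

theorem pr_X2 {ρ s R : ℕ} {g : Edg} (hg : 2 * (ρ:ℤ) < nm g) (hs : nm g + ρ < s) (hsR : s < R)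
    (hRm : R ≤ m) :
    PQ q (UU β m) (fun F => BR s R F ∧ (LR ρ g F ∧ AR β ρ F)) ≤
      b4 q s R * (a4 q ρ * a4 q ρ) := by
  have hs1 : 1 ≤ s := by
    have : (0:ℤ) ≤ ρ := by positivity
    omega
  have hes : e0 β ∈ blk (0, 0) s := mem_blk0 (by
    have : nm (e0 β) = 0 := by simp [nm, e0]
    omega)
  have hsub : boxE R \ blk (0, 0) s ⊆ UU β m := by
    intro x hx
    rw [Finset.mem_sdiff] at hx
    rw [Finset.mem_erase]
    exact ⟨fun h => hx.2 (h ▸ hes), boxE_sub' hRm hx.1⟩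
  unfold PQ
  rw [indep_mul (R := boxE R \ blk (0, 0) s) hsub]
  · refine mul_le_mul (pr_BR hs1 hRm) (pr_X1 h0 h1 hg (by omega))
      (Pr_nonneg (okq h0 h1) _ _) (b4_nonneg h0 h1 _ _)
  · intro F hF
    apply BR_inter
    intro x hx hne _
    exact Finset.mem_sdiff.mpr ⟨hx, hne⟩
  · intro F hF
    apply and_congr
    · apply LR_inter
      intro x hx hxF
      rw [Finset.mem_sdiff]
      refine ⟨hF hxF, fun hcon => (Finset.mem_sdiff.mp hcon).2 (mem_blk0 ?_)⟩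
      have k2 := nm_blk hx
      omega
    · apply AR_inter
      intro x hx hne hxF
      rw [Finset.mem_sdiff]
      refine ⟨hF hxF, fun hcon => (Finset.mem_sdiff.mp hcon).2 (mem_blk0 ?_)⟩
      have k1 := nm_le_of_boxE hx
      omega

theorem pr_X3 {ρ1 ρ2 s R : ℕ} {g g' : Edg} (hg' : 2 * (ρ1:ℤ) < nm g') (hs : nm g' + ρ1 < s)
    (hsR : s < R) (hg : (R:ℤ) + ρ2 < nm g) (hm : nm g + ρ2 < m) :
    PQ q (UU β m) (fun F => LR ρ2 g F ∧ (BR s R F ∧ (LR ρ1 g' F ∧ AR β ρ1 F))) ≤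
      a4 q ρ2 * (b4 q s R * (a4 q ρ1 * a4 q ρ1)) := by
  have hsub := blk_UU (β := β) (m := m) (ρ := ρ2) (g := g) (by omega) hm
  unfold PQ
  rw [indep_mul (R := blk (bp g) ρ2) hsub]
  · refine mul_le_mul (pr_LR h0 h1 (by omega) hm) (pr_X2 h0 h1 hg' hs hsR (by omega))
      (Pr_nonneg (okq h0 h1) _ _) (a4nn h0 h1 _)
  · intro F hF
    exact LR_inter (fun x hx _ => hx)
  · intro F hF
    have key : ∀ x : Edg, nm x ≤ R → x ∈ F → x ∈ UU β m \ blk (bp g) ρ2 := by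
      intro x hx hxF
      rw [Finset.mem_sdiff]
      refine ⟨hF hxF, fun hcon => ?_⟩
      have k2 := nm_blk hcon
      omega
    refine and_congr ?_ (and_congr ?_ ?_)
    · exact BR_inter (fun x hx _ hxF => key x (nm_le_of_boxE hx) hxF)
    · apply LR_inter
      intro x hx hxF
      have k2 := nm_blk hx
      exact key x (by omega) hxF
    · apply AR_inter
      intro x hx _ hxF
      have k1 := nm_le_of_boxE hx
      exact key x (by omega) hxF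

theorem pr_X3' {ρ2 s R : ℕ} {g : Edg} (hs : 1 ≤ s) (hsR : s < R) (hg : (R:ℤ) + ρ2 < nm g)
    (hm : nm g + ρ2 < m) :
    PQ q (UU β m) (fun F => LR ρ2 g F ∧ BR s R F) ≤ a4 q ρ2 * b4 q s R := by
  have hsub := blk_UU (β := β) (m := m) (ρ := ρ2) (g := g) (by omega) hm
  unfold PQ
  rw [indep_mul (R := blk (bp g) ρ2) hsub]
  · refine mul_le_mul (pr_LR h0 h1 (by omega) hm) (pr_BR hs (by omega))
      (Pr_nonneg (okq h0 h1) _ _) (a4nn h0 h1 _)
  · intro F hF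
    exact LR_inter (fun x hx _ => hx)
  · intro F hF
    refine BR_inter (fun x hx _ hxF => ?_)
    rw [Finset.mem_sdiff]
    refine ⟨hF hxF, fun hcon => ?_⟩
    have k1 := nm_le_of_boxE hx
    have k2 := nm_blk hcon
    omega

theorem pr_X4 {ρ : ℕ} {g g' : Edg} (hg : 2 * (ρ:ℤ) < nm g) (hg' : 2 * (ρ:ℤ) < nm g')
    (hd : 2 * (ρ:ℤ) < dst g g') (hm : nm g + ρ < m) (hm' : nm g' + ρ < m) :
    PQ q (UU β m) (fun F => LR ρ g F ∧ (LR ρ g' F ∧ AR β ρ F)) ≤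
      a4 q ρ * (a4 q ρ * a4 q ρ) := by
  have hsub := blk_UU (β := β) (m := m) (ρ := ρ) (g := g) (by omega) hm
  unfold PQ
  rw [indep_mul (R := blk (bp g) ρ) hsub]
  · refine mul_le_mul (pr_LR h0 h1 (by omega) hm) (pr_X1 h0 h1 hg' hm')
      (Pr_nonneg (okq h0 h1) _ _) (a4nn h0 h1 _)
  · intro F hF
    exact LR_inter (fun x hx _ => hx)
  · intro F hF
    apply and_congr
    · apply LR_inter
      intro x hx hxF
      rw [Finset.mem_sdiff]
      refine ⟨hF hxF, fun hcon => ?_⟩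
      have k1 := mem_blk_bd hx
      have k2 := mem_blk_bd hcon
      have k3 : dst g g' ≤ 2 * (ρ:ℤ) := by
        unfold dst
        apply max_le <;> rw [abs_le] <;> constructor <;> omega
      omega
    · apply AR_inter
      intro x hx _ hxF
      rw [Finset.mem_sdiff]
      refine ⟨hF hxF, fun hcon => ?_⟩
      have k1 := nm_le_of_boxE hx
      have k2 := nm_blk hcon
      omega

/-- One edge near the root. -/
theorem SD_A {ρ1 ρ2 s R : ℕ} (hρ1 : 1 ≤ ρ1) (hρ2 : 1 ≤ ρ2) {g g' : Edg}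
    (hg' : 2 * (ρ1:ℤ) < nm g') (hs : nm g' + ρ1 < s)
    (hsR : s < R) (hg : (R:ℤ) + ρ2 < nm g) (hm : nm g + ρ2 < m) :
    PQ q (UU β m) (SD (fR β) g g') ≤ a4 q ρ2 * (b4 q s R * (a4 q ρ1 * a4 q ρ1)) := by
  refine le_trans (Pr_mono (okq h0 h1) ?_) (pr_X3 h0 h1 hg' hs hsR hg hm)
  intro F hF h
  have he : e0 β ∉ F := fun h => (Finset.mem_erase.mp (hF h)).1 rfl
  have hgb : ∀ k : ℕ, (k:ℤ) < nm g → g ∉ boxE k := fun k hk h => by
    have := nm_le_of_boxE h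
    omega
  have hgb' : ∀ k : ℕ, (k:ℤ) < nm g' → g' ∉ boxE k := fun k hk h => by
    have := nm_le_of_boxE h
    omega
  refine ⟨SD_LR hρ2 (by omega) ?_ h, SD_BR (by omega) hsR (hgb R (by omega))
    (mem_blk0 (by omega)) h, SD_LR hρ1 (by omega) ?_ (SD_comm.1 h),
    SD_AR hρ1 (hgb ρ1 (by omega)) (hgb' ρ1 (by omega)) he h⟩
  · intro hcon
    have := nm_blk hcon
    omega
  · intro hcon
    have := nm_blk hcon
    omega

/-- One edge very near the root. -/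
theorem SD_A' {ρ2 s R : ℕ} (hρ2 : 1 ≤ ρ2) {g g' : Edg} (hs1 : 1 ≤ s) (hs : nm g' < s)
    (hsR : s < R) (hg : (R:ℤ) + ρ2 < nm g) (hm : nm g + ρ2 < m) :
    PQ q (UU β m) (SD (fR β) g g') ≤ a4 q ρ2 * b4 q s R := by
  refine le_trans (Pr_mono (okq h0 h1) ?_) (pr_X3' h0 h1 hs1 hsR hg hm)
  intro F hF h
  have hgb : ∀ k : ℕ, (k:ℤ) < nm g → g ∉ boxE k := fun k hk h => by
    have := nm_le_of_boxE h
    omega
  refine ⟨SD_LR hρ2 (by omega) ?_ h, SD_BR hs1 hsR (hgb R (by omega)) (mem_blk0 (by omega)) h⟩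
  intro hcon
  have := nm_blk hcon
  omega

theorem SD_C {ρ : ℕ} (hρ : 1 ≤ ρ) {g g' : Edg} (hg : 2 * (ρ:ℤ) < nm g) (hg' : 2 * (ρ:ℤ) < nm g')
    (hd : 2 * (ρ:ℤ) < dst g g') (hm : nm g + ρ < m) (hm' : nm g' + ρ < m) :
    PQ q (UU β m) (SD (fR β) g g') ≤ a4 q ρ * (a4 q ρ * a4 q ρ) := by
  refine le_trans (Pr_mono (okq h0 h1) ?_) (pr_X4 h0 h1 hg hg' hd hm hm')
  intro F hF h
  have he : e0 β ∉ F := fun h => (Finset.mem_erase.mp (hF h)).1 rfl
  have hgb : g ∉ boxE ρ := fun h => by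
    have := nm_le_of_boxE h
    omega
  have hgb' : g' ∉ boxE ρ := fun h => by
    have := nm_le_of_boxE h
    omega
  have hd2 : ∀ a b : Edg, b ∈ blk (bp a) ρ → dst a b ≤ ρ := by
    intro a b hab
    have k1 := mem_blk_bd hab
    unfold dst
    apply max_le <;> rw [abs_le] <;> constructor <;> omega
  refine ⟨SD_LR hρ (by omega) ?_ h, SD_LR hρ (by omega) ?_ (SD_comm.1 h), SD_AR hρ hgb hgb' he h⟩
  · intro hcon
    have := hd2 _ _ hcon
    omega
  · intro hcon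
    have := hd2 _ _ hcon
    have : dst g g' = dst g' g := by
      unfold dst
      rw [abs_sub_comm, abs_sub_comm g.2.1]
    omega

end

end Pool.Agent.R960
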