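import Pool.Agent.R960.Cond
import Pool.Agent.R960.B4a

/-!
Local events implied by the pivotality for the connection of the two ends of a fixed edge.
-/

namespace Pool.Agent.R960

open H974 H12S H973N H973N.NP Finset

/-- Sup norm of the base point. -/
def nm (g : Edg) : ℤ := max |g.1| |g.2.1|

/-- The ends of `e0 β` are connected. -/
abbrev fR (β : Bool) : Finset Edg → Prop := CO {src (e0 β)} {tgt (e0 β)} ∅

/-- The box without the edge `e0 β`. -/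
noncomputable abbrev UU (β : Bool) (m : ℕ) : Finset Edg := (boxE m).erase (e0 β)

theorem nm_lt {g : Edg} {k : ℤ} : nm g < k ↔ (-k < g.1 ∧ g.1 < k) ∧ (-k < g.2.1 ∧ g.2.1 < k) := by
  unfold nm
  rw [max_lt_iff, abs_lt, abs_lt]

theorem nm_le {g : Edg} {k : ℤ} : nm g ≤ k ↔ (-k ≤ g.1 ∧ g.1 ≤ k) ∧ (-k ≤ g.2.1 ∧ g.2.1 ≤ k) := by
  unfold nm
  rw [max_le_iff, abs_le, abs_le]

theorem le_nm {g : Edg} {k : ℤ} : k ≤ nm g ↔ k ≤ |g.1| ∨ k ≤ |g.2.1| := by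
  unfold nm
  rw [le_max_iff]

theorem lt_nm {g : Edg} {k : ℤ} : k < nm g ↔ k < |g.1| ∨ k < |g.2.1| := by
  unfold nm
  rw [lt_max_iff]

theorem nm_le_of_boxE {g : Edg} {m : ℕ} (h : g ∈ boxE m) : nm g ≤ m := by
  rw [nm_le]
  obtain ⟨x, y, _ | _⟩ := g
  · unfold boxE at h
    rw [mem_RE_false] at h
    simp only
    omega
  · unfold boxE at h
    rw [mem_RE_true] at h
    simp only
    omega

theorem boxE_of_nm {g : Edg} {m : ℕ} (h : nm g < m) : g ∈ boxE m := by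
  rw [nm_lt] at h
  obtain ⟨x, y, _ | _⟩ := g
  · unfold boxE
    rw [mem_RE_false]
    simp only at h
    omega
  · unfold boxE
    rw [mem_RE_true]
    simp only at h
    omega

theorem e0_box {β : Bool} {ρ : ℕ} (hρ : 1 ≤ ρ) : e0 β ∈ boxE ρ := by
  apply boxE_of_nm
  have : nm (e0 β) = 0 := by simp [nm, e0]
  rw [this]
  exact_mod_cast hρ

theorem off_root {β : Bool} {g : Edg} {ρ : ℕ} (h : (ρ:ℤ) < nm g) :
    Off (g.1 - ρ) (g.1 + ρ) (g.2.1 - ρ) (g.2.1 + ρ) {src (e0 β)} {tgt (e0 β)} := by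
  rw [lt_nm] at h
  have hx : ∀ z : ℤ, (ρ:ℤ) < |z| ↔ (ρ:ℤ) < z ∨ (ρ:ℤ) < -z := fun z => lt_abs
  rw [hx, hx] at h
  rintro v (hv | hv) ⟨⟨h1, h2⟩, h3, h4⟩
  · rw [Set.mem_singleton_iff] at hv
    subst hv
    simp only [e0, src_mk] at h1 h2 h3 h4
    omega
  · rw [Set.mem_singleton_iff] at hv
    subst hv
    cases β
    · simp only [e0, tgt_false] at h1 h2 h3 h4
      omega
    · simp only [e0, tgt_true] at h1 h2 h3 h4
      omega

/-- Far from the box of radius `ρ`. -/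
def FarV (ρ : ℕ) (v : Vtx) : Prop := v.1 ≤ -ρ ∨ (ρ:ℤ) ≤ v.1 ∨ v.2 ≤ -ρ ∨ (ρ:ℤ) ≤ v.2

theorem far_ends {g : Edg} {ρ : ℕ} (hg : g ∉ boxE ρ) : FarV ρ (src g) ∧ FarV ρ (tgt g) := by
  unfold FarV
  obtain ⟨x, y, _ | _⟩ := g
  · unfold boxE at hg
    rw [mem_RE_false] at hg
    simp only [src_mk, tgt_false]
    omega
  · unfold boxE at hg
    rw [mem_RE_true] at hg
    simp only [src_mk, tgt_true]
    omega

theorem piv_ends {x y : Vtx} {g : Edg} {F : Finset Edg} (h : Pf (CO {x} {y} ∅) g F) :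
    ∃ p p' : Vtx, (p = src g ∨ p = tgt g) ∧ (p' = src g ∨ p' = tgt g) ∧
      Reach (↑(F.erase g) : Set Edg) x p ∧ Reach (↑(F.erase g) : Set Edg) y p' ∧
      ¬ Reach (↑(F.erase g) : Set Edg) x y := by
  obtain ⟨h1, h2⟩ := h
  unfold CO at h1 h2
  rw [Set.union_empty] at h1 h2
  obtain ⟨u, hu, v, hv, huv⟩ := h1
  rw [Set.mem_singleton_iff] at hu hv
  subst hu
  subst hv
  have h3 : ¬ Reach (↑(F.erase g) : Set Edg) u v := fun h => h2 ⟨u, rfl, v, rfl, h⟩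
  have e1 : (↑(insert g F) : Set Edg) = insert g (↑(F.erase g) : Set Edg) := by
    ext z
    rw [Finset.coe_insert, Finset.coe_erase, Set.mem_insert_iff, Set.mem_insert_iff,
      Set.mem_sdiff, Set.mem_singleton_iff]
    tauto
  rw [e1] at huv
  have h4 := (GR_insert (s := src) (t := tgt) (F := (↑(F.erase g) : Set Edg)) (e := g) (x := u)
    (y := v)).mp huv
  rcases h4 with h4 | ⟨h4, h5⟩ | ⟨h4, h5⟩
  · exact absurd h4 h3
  · exact ⟨src g, tgt g, Or.inl rfl, Or.inr rfl, h4, Reach.symm h5, h3⟩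
  · exact ⟨tgt g, src g, Or.inr rfl, Or.inl rfl, h4, Reach.symm h5, h3⟩

theorem Pf_root {β : Bool} {ρ : ℕ} (hρ : 1 ≤ ρ) {g : Edg} (hg : g ∉ boxE ρ) {F : Finset Edg}
    (he : e0 β ∉ F) (h : Pf (fR β) g F) : A4 (-ρ) ρ (-ρ) ρ (e0 β) ↑F := by
  obtain ⟨p, p', hp, hp', h1, h2, h3⟩ := piv_ends h
  have hfar := far_ends hg
  have hsub : (↑(F.erase g) : Set Edg) ∩ ↑(RE (-(ρ:ℤ)) ρ (-ρ) ρ) ⊆
      ((↑F : Set Edg) ∩ ↑(RE (-(ρ:ℤ)) ρ (-ρ) ρ)) \ {e0 β} := by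
    rintro z ⟨hz1, hz2⟩
    rw [Finset.coe_erase] at hz1
    refine ⟨⟨hz1.1, hz2⟩, ?_⟩
    rintro rfl
    exact he hz1.1
  have hex : ∀ u v : Vtx, inR (-(ρ:ℤ)) ρ (-ρ) ρ u → FarV ρ v →
      Reach (↑(F.erase g) : Set Edg) u v → ∃ w ∈ bdR (-(ρ:ℤ)) ρ (-ρ) ρ,
      Reach (((↑F : Set Edg) ∩ ↑(RE (-(ρ:ℤ)) ρ (-ρ) ρ)) \ {e0 β}) u w := by
    intro u v hu hv huv
    obtain ⟨w, k1, k2, k3⟩ := first_exit hu huv hv
    exact ⟨w, ⟨k1, k2⟩, k3.mono hsub⟩
  have hs : inR (-(ρ:ℤ)) ρ (-ρ) ρ (src (e0 β)) := by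
    unfold inR e0
    simp only [src_mk]
    omega
  have ht : inR (-(ρ:ℤ)) ρ (-ρ) ρ (tgt (e0 β)) := by
    unfold inR e0
    cases β
    · simp only [tgt_false]
      omega
    · simp only [tgt_true]
      omega
  refine ⟨hex _ p hs ?_ h1, hex _ p' ht ?_ h2, fun h4 => h3 (h4.mono ?_)⟩
  · rcases hp with rfl | rfl
    · exact hfar.1
    · exact hfar.2
  · rcases hp' with rfl | rfl
    · exact hfar.1
    · exact hfar.2
  · rintro z ⟨⟨hz1, hz2⟩, -⟩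
    rw [Finset.coe_erase]
    refine ⟨hz1, ?_⟩
    rintro rfl
    exact hg hz2

theorem Pf_B4 {β : Bool} {s R : ℕ} (hs : 1 ≤ s) (hsR : s < R) {g : Edg} (hg : g ∉ boxE R)
    {F : Finset Edg} (h : Pf (fR β) g F) : B4 (0, 0) s (-R) R (-R) R ↑F := by
  obtain ⟨p, p', hp, hp', h1, h2, h3⟩ := piv_ends h
  have hfar := far_ends hg
  have hgs : g ∉ blk (0, 0) s := by
    intro hcon
    apply hg
    have hb : blk (0, 0) s ⊆ boxE R := by
      unfold blk boxE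
      apply RE_subset <;> simp only <;> omega
    exact hb hcon
  have cut : ∀ u v : Vtx, inB (0, 0) s u → FarV R v → Reach (↑(F.erase g) : Set Edg) u v →
      ∃ u' : Vtx, inB (0, 0) s u' ∧ Reach (↑(F.erase g) : Set Edg) u u' ∧
        ∃ w ∈ bdR (-(R:ℤ)) R (-R) R,
          Reach (((↑F : Set Edg) ∩ ↑(RE (-(R:ℤ)) R (-R) R)) \ ↑(blk (0, 0) s)) u' w := by
    intro u v hu hv huv
    obtain ⟨u', hu', hr'⟩ := WA_cut src tgt (F := (↑(F.erase g) : Set Edg))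
      (Q := inB (0, 0) s) (Reach.symm huv) hu
    have hr1 : Reach ((↑(F.erase g) : Set Edg) ∩
      {e | ¬ (inB (0, 0) s (src e) ∧ inB (0, 0) s (tgt e))}) v u' := hr'
    have hr2 : Reach (↑(F.erase g) : Set Edg) v u' := hr1.mono Set.inter_subset_left
    refine ⟨u', hu', huv.trans hr2, ?_⟩
    have hin : inR (-(R:ℤ)) R (-R) R u' := by
      unfold inB inR at hu'
      unfold inR
      simp only at hu'
      omega
    obtain ⟨w, k1, k2, k3⟩ := first_exit hin hr1.symm hv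
    refine ⟨w, ⟨k1, k2⟩, k3.mono ?_⟩
    rintro z ⟨⟨hz1, hz2⟩, hz3⟩
    rw [Finset.coe_erase] at hz1
    refine ⟨⟨hz1.1, hz3⟩, ?_⟩
    intro hz4
    apply hz2
    rw [Finset.mem_coe] at hz4
    unfold blk at hz4
    unfold inB inR
    obtain ⟨x, y, _ | _⟩ := z
    · rw [mem_RE_false] at hz4
      simp only [src_mk, tgt_false] at hz4 ⊢
      omega
    · rw [mem_RE_true] at hz4
      simp only [src_mk, tgt_true] at hz4 ⊢
      omega
  have hs1 : inB (0, 0) s (src (e0 β)) := by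
    unfold inB inR e0
    simp only [src_mk]
    omega
  have ht1 : inB (0, 0) s (tgt (e0 β)) := by
    unfold inB inR e0
    cases β
    · simp only [tgt_false]
      omega
    · simp only [tgt_true]
      omega
  have hpf : FarV R p := by
    rcases hp with rfl | rfl
    · exact hfar.1
    · exact hfar.2
  have hpf' : FarV R p' := by
    rcases hp' with rfl | rfl
    · exact hfar.1
    · exact hfar.2
  obtain ⟨u, hu, hur, hw⟩ := cut _ p hs1 hpf h1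
  obtain ⟨v, hv, hvr, hw'⟩ := cut _ p' ht1 hpf' h2
  refine ⟨u, v, hu, hv, hw, hw', fun h4 => h3 ?_⟩
  refine (hur.trans (h4.mono ?_)).trans hvr.symm
  rintro z ⟨⟨hz1, hz2⟩, -⟩
  rw [Finset.coe_erase]
  refine ⟨hz1, ?_⟩
  rintro rfl
  exact hg hz2

/-- The root event. -/
def AR (β : Bool) (ρ : ℕ) (F : Finset Edg) : Prop := A4 (-ρ) ρ (-ρ) ρ (e0 β) (↑F : Set Edg)

/-- The four arms around the block at the origin. -/
def BR (s R : ℕ) (F : Finset Edg) : Prop := B4 (0, 0) s (-R) R (-R) R (↑F : Set Edg)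

/-- The local event at `g`. -/
def LR (ρ : ℕ) (g : Edg) (F : Finset Edg) : Prop := L4 ρ g (↑F : Set Edg)

theorem AR_congr {β : Bool} {ρ : ℕ} {F G : Finset Edg}
    (h : ∀ x ∈ boxE ρ, x ≠ e0 β → (x ∈ F ↔ x ∈ G)) : AR β ρ F ↔ AR β ρ G :=
  A4_congr (fun x hx hne => by rw [Finset.mem_coe, Finset.mem_coe]; exact h x hx hne)

theorem BR_congr {s R : ℕ} {F G : Finset Edg}
    (h : ∀ x ∈ boxE R, x ∉ blk (0, 0) s → (x ∈ F ↔ x ∈ G)) : BR s R F ↔ BR s R G :=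
  B4_congr (fun x hx hne => by rw [Finset.mem_coe, Finset.mem_coe]; exact h x hx hne)

theorem LR_congr {ρ : ℕ} {g : Edg} {F G : Finset Edg}
    (h : ∀ x ∈ blk (bp g) ρ, x ≠ g → (x ∈ F ↔ x ∈ G)) : LR ρ g F ↔ LR ρ g G :=
  L4_congr' h

theorem SD_AR {β : Bool} {ρ : ℕ} (hρ : 1 ≤ ρ) {g g' : Edg} (hg : g ∉ boxE ρ) (hg' : g' ∉ boxE ρ)
    {F : Finset Edg} (he : e0 β ∉ F) (h : SD (fR β) g g' F) : AR β ρ F := by
  have hne : g' ≠ e0 β := fun h => hg' (h ▸ e0_box hρ)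
  rcases h.1 with h' | h'
  · have h1 : AR β ρ (F.erase g') := Pf_root hρ hg (fun h2 => he (Finset.mem_of_mem_erase h2)) h'
    refine (AR_congr ?_).1 h1
    intro x hx _
    rw [Finset.mem_erase]
    exact ⟨fun h => h.2, fun h => ⟨fun h2 => hg' (h2 ▸ hx), h⟩⟩
  · have h1 : AR β ρ (insert g' F) := Pf_root hρ hg (fun h2 => by
      rcases Finset.mem_insert.mp h2 with h3 | h3
      · exact hne h3.symm
      · exact he h3) h'
    refine (AR_congr ?_).1 h1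
    intro x hx _
    rw [Finset.mem_insert]
    exact ⟨fun h => h.resolve_left (fun h2 => hg' (h2 ▸ hx)), fun h => Or.inr h⟩

theorem SD_BR {β : Bool} {s R : ℕ} (hs : 1 ≤ s) (hsR : s < R) {g g' : Edg} (hg : g ∉ boxE R)
    (hg' : g' ∈ blk (0, 0) s) {F : Finset Edg} (h : SD (fR β) g g' F) : BR s R F := by
  rcases h.1 with h' | h'
  · have h1 : BR s R (F.erase g') := Pf_B4 hs hsR hg h'
    refine (BR_congr ?_).1 h1
    intro x hx hx2
    rw [Finset.mem_erase]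
    exact ⟨fun h => h.2, fun h => ⟨fun h2 => hx2 (h2 ▸ hg'), h⟩⟩
  · have h1 : BR s R (insert g' F) := Pf_B4 hs hsR hg h'
    refine (BR_congr ?_).1 h1
    intro x hx hx2
    rw [Finset.mem_insert]
    exact ⟨fun h => h.resolve_left (fun h2 => hx2 (h2 ▸ hg')), fun h => Or.inr h⟩

theorem SD_LR {β : Bool} {ρ : ℕ} (hρ : 1 ≤ ρ) {g g' : Edg} (hg : (ρ:ℤ) < nm g)
    (hg' : g' ∉ blk (bp g) ρ) {F : Finset Edg} (h : SD (fR β) g g' F) : LR ρ g F :=
  SD_L4_auxO hρ (by simp) (off_root hg) hg' h.1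

theorem Pf_LR {β : Bool} {ρ : ℕ} (hρ : 1 ≤ ρ) {g : Edg} (hg : (ρ:ℤ) < nm g)
    {F : Finset Edg} (h : Pf (fR β) g F) : LR ρ g F :=
  piv_L4 hρ (by simp) (off_root hg) h

theorem mem_blk_bd {g x : Edg} {ρ : ℕ} (h : x ∈ blk (bp g) ρ) :
    (g.1 - ρ ≤ x.1 ∧ x.1 ≤ g.1 + ρ) ∧ (g.2.1 - ρ ≤ x.2.1 ∧ x.2.1 ≤ g.2.1 + ρ) := by
  unfold blk bp at h
  obtain ⟨a, b, _ | _⟩ := x
  · rw [mem_RE_false] at h
    simp only at h ⊢
    omega
  · rw [mem_RE_true] at h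
    simp only at h ⊢
    omega

theorem nm_blk {g x : Edg} {ρ : ℕ} (h : x ∈ blk (bp g) ρ) : nm g ≤ nm x + ρ ∧ nm x ≤ nm g + ρ := by
  have h1 := mem_blk_bd h
  have hx := (nm_le (g := x) (k := nm x)).1 le_rfl
  have hg := (nm_le (g := g) (k := nm g)).1 le_rfl
  rw [nm_le, nm_le]
  omega

/-- Bound for the local event. -/
theorem pr_LR {q : ℝ} (h0 : 0 ≤ q) (h1 : q ≤ 1) {β : Bool} {m ρ : ℕ} {g : Edg}
    (hg : (ρ:ℤ) < nm g) (hm : nm g + ρ < m) : PQ q (UU β m) (LR ρ g) ≤ a4 q ρ := by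
  refine pr_L4 h0 h1 ?_
  intro x hx
  have h2 := nm_blk hx
  rw [Finset.mem_erase]
  refine ⟨?_, boxE_of_nm (by omega)⟩
  rintro rfl
  have : nm (e0 β) = 0 := by simp [nm, e0]
  omega

theorem pr_AR {q : ℝ} (h0 : 0 ≤ q) (h1 : q ≤ 1) {β : Bool} {m ρ : ℕ} (hm : ρ ≤ m) :
    PQ q (UU β m) (AR β ρ) ≤ a4 q ρ := by
  have hok : Ok (fun _ : Edg => q) := fun _ => ⟨h0, h1⟩
  have e1 : PQ q (UU β m) (AR β ρ) = PQ q ((boxE ρ).erase (e0 β)) (AR β ρ) := by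
    apply Pr_local
    · exact Finset.erase_subset_erase _ (boxE_sub' hm)
    · intro F hF
      apply AR_congr
      intro x hx hne
      rw [Finset.mem_inter, Finset.mem_erase]
      tauto
  have e2 : PQ q (boxE ρ) (AR β ρ) = PQ q ((boxE ρ).erase (e0 β)) (AR β ρ) := by
    apply Pr_local (Finset.erase_subset _ _)
    intro F hF
    apply AR_congr
    intro x hx hne
    rw [Finset.mem_inter, Finset.mem_erase]
    tauto
  rw [e1, ← e2]
  have n1 : 0 ≤ PQ q (boxE ρ) (AR true ρ) := Pr_nonneg hok _ _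
  have n2 : 0 ≤ PQ q (boxE ρ) (AR false ρ) := Pr_nonneg hok _ _
  have e3 : a4 q ρ = PQ q (boxE ρ) (AR true ρ) + PQ q (boxE ρ) (AR false ρ) := rfl
  rw [e3]
  cases β <;> linarith

theorem pr_BR {q : ℝ} {β : Bool} {m s R : ℕ} (hs : 1 ≤ s)
    (hm : R ≤ m) : PQ q (UU β m) (BR s R) ≤ b4 q s R := by
  have hes : e0 β ∈ blk (0, 0) s := by
    have := e0_box (β := β) hs
    unfold boxE at this
    unfold blk
    simpa using this
  have e1 : PQ q (UU β m) (BR s R) = PQ q (boxE R \ blk (0, 0) s) (BR s R) := by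
    apply Pr_local
    · intro x hx
      rw [Finset.mem_sdiff] at hx
      rw [Finset.mem_erase]
      exact ⟨fun h => hx.2 (h ▸ hes), boxE_sub' hm hx.1⟩
    · intro F hF
      apply BR_congr
      intro x hx hne
      rw [Finset.mem_inter, Finset.mem_sdiff]
      tauto
  have e2 : PQ q (boxE R) (BR s R) = PQ q (boxE R \ blk (0, 0) s) (BR s R) := by
    apply Pr_local Finset.sdiff_subset
    intro F hF
    apply BR_congr
    intro x hx hne
    rw [Finset.mem_inter, Finset.mem_sdiff]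
    tauto
  rw [e1, ← e2]
  exact le_of_eq rfl

end Pool.Agent.R960
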