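import Pool.Agent.R960.Prod

/-!
The connection of the two ends of an edge of a large box: comparison with the ball around it.
-/

namespace Pool.Agent.R960

open H974 H12S H973N H973N.NP Finset

theorem fR_iff {β : Bool} {F : Finset Edg} :
    fR β F ↔ Reach (↑F : Set Edg) (src (e0 β)) (tgt (e0 β)) := by
  show Cn {src (e0 β)} {tgt (e0 β)} ((↑F : Set Edg) ∪ ∅) ↔ _
  rw [Set.union_empty]
  constructor
  · rintro ⟨u, hu, v, hv, h⟩
    rw [Set.mem_singleton_iff] at hu hv
    rw [← hu, ← hv]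
    exact h
  · intro h
    exact ⟨_, rfl, _, rfl, h⟩

/-- Connection of the ends of `e`. -/
def Con (e : Edg) (F : Finset Edg) : Prop := Reach (↑F : Set Edg) (src e) (tgt e)

theorem Con.mono {e : Edg} {F G : Finset Edg} (h : F ⊆ G) (hF : Con e F) : Con e G :=
  Reach.mono (by exact_mod_cast h) hF

theorem ends_trl (x y : ℤ) (b : Bool) : (trl x y).ψ (src (e0 b)) = src (x, y, b) ∧
    (trl x y).ψ (tgt (e0 b)) = tgt (x, y, b) := by
  unfold e0
  cases b <;> simp [add_comm]

/-- The probability that the ends of `e0 β` are connected in the box, off `e0 β`. -/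
noncomputable def HM (β : Bool) (m : ℕ) (q : ℝ) : ℝ := PQ q (UU β m) (fR β)

theorem con_blk {q : ℝ} {m : ℕ} (e : Edg) :
    PQ q ((blk (bp e) m).erase e) (Con e) = HM e.2.2 m q := by
  obtain ⟨x, y, b⟩ := e
  have e1 : (blk (bp (x, y, b)) m).erase (x, y, b) = (trl x y).mp (UU b m) := by
    ext ⟨z, w, c⟩
    rw [Finset.mem_erase, LSym.mem_mp, Finset.mem_erase]
    simp only [trl_φs, e0, ne_eq, Prod.mk.injEq]
    unfold blk bp boxE
    cases c
    · rw [mem_RE_false, mem_RE_false]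
      simp only
      constructor
      · rintro ⟨h1, h2⟩
        refine ⟨fun h => h1 ?_, by omega⟩
        exact ⟨by omega, by omega, h.2.2⟩
      · rintro ⟨h1, h2⟩
        refine ⟨fun h => h1 ?_, by omega⟩
        exact ⟨by omega, by omega, h.2.2⟩
    · rw [mem_RE_true, mem_RE_true]
      simp only
      constructor
      · rintro ⟨h1, h2⟩
        refine ⟨fun h => h1 ?_, by omega⟩
        exact ⟨by omega, by omega, h.2.2⟩
      · rintro ⟨h1, h2⟩
        refine ⟨fun h => h1 ?_, by omega⟩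
        exact ⟨by omega, by omega, h.2.2⟩
  rw [e1]
  unfold HM PQ
  rw [LSym.pr]
  refine Pr_congr fun F _ => ?_
  rw [fR_iff]
  unfold Con
  obtain ⟨h1, h2⟩ := ends_trl x y b
  rw [LSym.coe_mp, ← h1, ← h2]
  exact (trl x y).reach_iff

theorem exit_or {G : Set Edg} {a b c d : ℤ} {u v : Vtx} (hu : inR a b c d u)
    (h : Reach G u v) : Reach (G ∩ ↑(RE a b c d)) u v ∨
      ∃ w ∈ bdR a b c d, Reach (G ∩ ↑(RE a b c d)) u w := by
  have key : ∀ w, Reach G u w → (∃ w ∈ bdR a b c d, Reach (G ∩ ↑(RE a b c d)) u w) ∨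
      ((a < w.1 ∧ w.1 < b) ∧ (c < w.2 ∧ w.2 < d) ∧ Reach (G ∩ ↑(RE a b c d)) u w) := by
    intro w hw
    induction hw with
    | refl =>
      by_cases hb : u.1 = a ∨ u.1 = b ∨ u.2 = c ∨ u.2 = d
      · exact Or.inl ⟨u, ⟨hu, hb⟩, Reach.refl _ _⟩
      · right
        obtain ⟨h1, h2⟩ := hu
        refine ⟨by omega, by omega, Reach.refl _ _⟩
    | @tail w w' _ hs ih =>
      rcases ih with ih | ⟨ih1, ih2, ih3⟩
      · exact Or.inl ih
      · obtain ⟨⟨x0, y0, bo⟩, heG, hcase⟩ := hs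
        have hmem : ((x0, y0, bo) : Edg) ∈ RE a b c d := by
          cases bo
          · simp only [src_mk, tgt_false] at hcase
            rw [mem_RE_false]
            rcases hcase with ⟨h3, h4⟩ | ⟨h3, h4⟩
            · rw [← h3] at ih1 ih2; simp only at ih1 ih2; omega
            · rw [← h4] at ih1 ih2; simp only at ih1 ih2; omega
          · simp only [src_mk, tgt_true] at hcase
            rw [mem_RE_true]
            rcases hcase with ⟨h3, h4⟩ | ⟨h3, h4⟩
            · rw [← h3] at ih1 ih2; simp only at ih1 ih2; omega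
            · rw [← h4] at ih1 ih2; simp only at ih1 ih2; omega
        have hadj : Adj (G ∩ ↑(RE a b c d)) w w' := ⟨_, ⟨heG, hmem⟩, hcase⟩
        have hr := ih3.trans hadj.reach
        have hin : inR a b c d w' := by
          unfold inR
          cases bo
          · simp only [src_mk, tgt_false] at hcase
            rcases hcase with ⟨h3, h4⟩ | ⟨h3, h4⟩
            · rw [← h3] at ih1 ih2; rw [← h4]; simp only at ih1 ih2 ⊢; omega
            · rw [← h4] at ih1 ih2; rw [← h3]; simp only at ih1 ih2 ⊢; omega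
          · simp only [src_mk, tgt_true] at hcase
            rcases hcase with ⟨h3, h4⟩ | ⟨h3, h4⟩
            · rw [← h3] at ih1 ih2; rw [← h4]; simp only at ih1 ih2 ⊢; omega
            · rw [← h4] at ih1 ih2; rw [← h3]; simp only at ih1 ih2 ⊢; omega
        by_cases hb : w'.1 = a ∨ w'.1 = b ∨ w'.2 = c ∨ w'.2 = d
        · exact Or.inl ⟨w', ⟨hin, hb⟩, hr⟩
        · right
          obtain ⟨h1, h2⟩ := hin
          refine ⟨by omega, by omega, hr⟩
  rcases key v h with h1 | ⟨-, -, h3⟩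
  · exact Or.inr h1
  · exact Or.inl h3

theorem con_split {e : Edg} {F : Finset Edg} {m : ℕ} (hm : 1 ≤ m) (he : e ∉ F) (h : Con e F) :
    Con e (F ∩ blk (bp e) m) ∨ L4 m e ↑F := by
  have hs : inR (e.1 - m) (e.1 + m) (e.2.1 - m) (e.2.1 + m) (src e) := by
    unfold inR
    obtain ⟨x, y, _ | _⟩ := e <;> simp only [src_mk] <;> omega
  have ht : inR (e.1 - m) (e.1 + m) (e.2.1 - m) (e.2.1 + m) (tgt e) := by
    unfold inR
    obtain ⟨x, y, _ | _⟩ := e
    · simp only [tgt_false]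
      omega
    · simp only [tgt_true]
      omega
  have heq : ((↑F : Set Edg) ∩ ↑(RE (e.1 - m) (e.1 + m) (e.2.1 - m) (e.2.1 + m))) \ {e} =
      (↑F : Set Edg) ∩ ↑(RE (e.1 - m) (e.1 + m) (e.2.1 - m) (e.2.1 + m)) := by
    rw [Set.sdiff_singleton_eq_self]
    intro hcon
    exact he hcon.1
  by_cases hc : Reach ((↑F : Set Edg) ∩ ↑(RE (e.1 - m) (e.1 + m) (e.2.1 - m) (e.2.1 + m)))
      (src e) (tgt e)
  · left
    unfold Con
    rw [Finset.coe_inter]
    exact hc
  · right
    refine ⟨?_, ?_, ?_⟩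
    · rw [heq]
      exact (exit_or hs h).resolve_left hc
    · rw [heq]
      exact (exit_or ht (Reach.symm h)).resolve_left (fun h2 => hc h2.symm)
    · rw [heq]
      exact hc

theorem sand {q : ℝ} (h0 : 0 ≤ q) (h1 : q ≤ 1) {e : Edg} {m : ℕ} (hm : 1 ≤ m) {S : Finset Edg}
    (hS : blk (bp e) m ⊆ S) : HM e.2.2 m q ≤ PQ q (S.erase e) (Con e) ∧
      PQ q (S.erase e) (Con e) ≤ HM e.2.2 m q + a4 q m := by
  have hok := okq h0 h1
  have e1 : PQ q (S.erase e) (fun F => Con e (F ∩ blk (bp e) m)) = HM e.2.2 m q := by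
    rw [← con_blk]
    have hl : PQ q (S.erase e) (fun F => Con e (F ∩ blk (bp e) m)) =
        PQ q ((blk (bp e) m).erase e) (fun F => Con e (F ∩ blk (bp e) m)) := by
      apply Pr_local (Finset.erase_subset_erase _ hS)
      intro F hF
      have : F ∩ (blk (bp e) m).erase e ∩ blk (bp e) m = F ∩ blk (bp e) m := by
        ext x
        rw [Finset.mem_inter, Finset.mem_inter, Finset.mem_inter, Finset.mem_erase]
        constructor
        · rintro ⟨⟨k1, k2⟩, k3⟩
          exact ⟨k1, k3⟩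
        · rintro ⟨k1, k2⟩
          exact ⟨⟨k1, (Finset.mem_erase.mp (hF k1)).1, k2⟩, k2⟩
      rw [this]
    rw [hl]
    apply Pr_congr
    intro F hF
    rw [Finset.inter_eq_left.mpr (hF.trans (Finset.erase_subset _ _))]
  constructor
  · rw [← e1]
    exact Pr_mono hok (fun F _ h => h.mono Finset.inter_subset_left)
  · have h2 : PQ q (S.erase e) (Con e) ≤
        PQ q (S.erase e) (fun F => Con e (F ∩ blk (bp e) m) ∨ L4 m e ↑F) := by
      apply Pr_mono hok
      intro F hF h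
      exact con_split hm (fun h3 => (Finset.mem_erase.mp (hF h3)).1 rfl) h
    refine h2.trans ((Pr_or_le hok _ _ _).trans ?_)
    have e2 : Pr (fun _ => q) (S.erase e) (fun F => Con e (F ∩ blk (bp e) m)) =
      HM e.2.2 m q := e1
    rw [e2]
    have e3 : PQ q S (fun F => L4 m e ↑F) = PQ q (S.erase e) (fun F => L4 m e ↑F) := by
      apply Pr_local (Finset.erase_subset _ _)
      intro F hF
      apply L4_congr'
      intro x hx hne
      rw [Finset.mem_inter, Finset.mem_erase]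
      exact ⟨fun h => ⟨h, hne, hF h⟩, fun h => h.1⟩
    have e4 : Pr (fun _ => q) (S.erase e) (fun F => L4 m e ↑F) ≤ a4 q m := by
      have := pr_L4 h0 h1 (ρ := m) hS
      rw [e3] at this
      exact this
    linarith

theorem blk_e0 (β : Bool) (m : ℕ) : blk (bp (e0 β)) m = boxE m := by
  unfold blk boxE bp e0
  simp

theorem HM_step {q : ℝ} (h0 : 0 ≤ q) (h1 : q ≤ 1) {β : Bool} {m n : ℕ} (hm : 1 ≤ m)
    (hmn : m ≤ n) : HM β m q ≤ HM β n q ∧ HM β n q ≤ HM β m q + a4 q m := by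
  have h := sand h0 h1 (e := e0 β) hm (S := boxE n) (by rw [blk_e0]; exact boxE_sub' hmn)
  have e1 : PQ q ((boxE n).erase (e0 β)) (Con (e0 β)) = HM β n q := by
    apply Pr_congr
    intro F _
    exact fR_iff.symm
  rw [e1] at h
  exact h

theorem HM_bd {q : ℝ} (h0 : 0 ≤ q) (h1 : q ≤ 1) (β : Bool) (m : ℕ) :
    0 ≤ HM β m q ∧ HM β m q ≤ 1 :=
  ⟨Pr_nonneg (okq h0 h1) _ _, Pr_le_one (okq h0 h1) _ _⟩

/-- The infinite volume connection probability. -/
noncomputable def HI (β : Bool) (q : ℝ) : ℝ := ⨆ m : ℕ, HM β (m + 1) q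

theorem HI_bd {q : ℝ} (h0 : 0 ≤ q) (h1 : q ≤ 1) (β : Bool) {m : ℕ} (hm : 1 ≤ m) :
    HM β m q ≤ HI β q ∧ HI β q ≤ HM β m q + a4 q m := by
  have hbdd : BddAbove (Set.range (fun m : ℕ => HM β (m + 1) q)) :=
    ⟨1, by rintro _ ⟨k, rfl⟩; exact (HM_bd h0 h1 β _).2⟩
  constructor
  · obtain ⟨k, rfl⟩ : ∃ k, m = k + 1 := ⟨m - 1, by omega⟩
    exact le_ciSup hbdd k
  · apply ciSup_le
    intro k
    rcases le_total m (k + 1) with h | h
    · exact (HM_step h0 h1 hm h).2
    · have h2 := (HM_step h0 h1 (β := β) (show 1 ≤ k + 1 by omega) h).1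
      have h3 := a4nn h0 h1 m
      linarith

/-- Comparison with the infinite volume. -/
theorem con_HI {q : ℝ} (h0 : 0 ≤ q) (h1 : q ≤ 1) {e : Edg} {m : ℕ} (hm : 1 ≤ m) {S : Finset Edg}
    (hS : blk (bp e) m ⊆ S) : |PQ q (S.erase e) (Con e) - HI e.2.2 q| ≤ a4 q m := by
  have k1 := sand h0 h1 hm hS
  have k2 := HI_bd h0 h1 e.2.2 hm
  rw [abs_le]
  constructor <;> linarith

end Pool.Agent.R960
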