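import Pool.Agent.R960.Zone
import Pool.Agent.R960.Near
import Pool.Agent.R960.Geo

/-!
The bound for the double sum.
-/

namespace Pool.Agent.R960

open H974 H12S H973N H973N.NP Finset

/-- The bounds in the near-critical window. -/
structure NB (q : ℝ) (M : ℕ) (A : ℝ) : Prop where
  h0 : 0 ≤ q
  h1 : q ≤ 1
  A1 : 1 ≤ A
  a4 : ∀ k, k ≤ M → a4 q (2 ^ k) ≤ A / vv ^ (5 * k)
  b4 : ∀ s R, s ≤ R → R ≤ M → b4 q (2 ^ s) (2 ^ R) ≤ A * (vv ^ (4 * s) / vv ^ (4 * R))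
  w1 : ∀ K, K ≤ M → W1s q K ≤ A * vv ^ (3 * K)
  w2 : ∀ K, K ≤ M → W2s q K ≤ A * vv ^ (6 * K)

theorem pow_le_four {A : ℝ} (hA : 1 ≤ A) {k : ℕ} (hk : k ≤ 4) : A ^ k ≤ A ^ 4 :=
  pow_le_pow_right₀ hA hk

theorem cl_le_of {g : Edg} {M : ℕ} (hM : 2 ≤ M) (h : nm g < 2 ^ (M - 1)) : cl g + 2 ≤ M := by
  have := cl_lt (by omega) h
  omega

theorem two_half {M : ℕ} (hM : 1 ≤ M) : (2:ℤ) ^ M = 2 * 2 ^ (M - 1) := by
  rw [← pow_succ']
  congr 1
  omega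

theorem wt_comm (i j : ℕ) : wt i j = wt j i := by
  unfold wt
  rw [min_comm, max_comm]

section
variable {q A : ℝ} {M : ℕ} (h : NB q M A) {β : Bool} {g g' : Edg}
include h

theorem pw_far (hij : cl g' + 4 ≤ cl g) (hM : nm g < 2 ^ (M - 1)) (hM2 : 2 ≤ M) :
    PQ q (UU β (2 ^ M)) (SD (fR β) g g') ≤ A ^ 4 * vv ^ 42 * wt (cl g) (cl g') := by
  have hv := vv_pos
  have hA := h.A1
  have hclM := cl_le_of hM2 hM
  have g1 : (2:ℤ) ^ (cl g) ≤ nm g := cl_pos_nm (by omega)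
  have g2 := nm_lt_cl g'
  have hMz := two_half (M := M) (by omega)
  obtain ⟨j, hj⟩ : ∃ j, j = cl g := ⟨_, rfl⟩
  obtain ⟨i, hi⟩ : ∃ i, i = cl g' := ⟨_, rfl⟩
  rw [← hj] at g1 hij hclM ⊢
  rw [← hi] at g2 hij ⊢
  have hpos2 : ∀ k, 0 ≤ a4 q k := fun k => a4nn h.h0 h.h1 k
  have hMle : (2:ℤ) ^ (j - 2) ≤ 2 ^ (M - 1) := pow_le_pow_right₀ (by norm_num) (by omega)
  by_cases h2 : 2 ≤ i
  · obtain ⟨i0, rfl⟩ : ∃ i0, i = i0 + 2 := ⟨i - 2, by omega⟩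
    obtain ⟨d, rfl⟩ : ∃ d, j = i0 + 6 + d := ⟨j - (i0 + 6), by omega⟩
    have g3 : (2:ℤ) ^ (i0 + 2) ≤ nm g' := by
      rw [hi]
      exact cl_pos_nm (by omega)
    have e1 : (2:ℤ) ^ (i0 + 2) = 4 * 2 ^ i0 := by ring
    have e2 : (2:ℤ) ^ (i0 + 2 + 1) = 8 * 2 ^ i0 := by ring
    have e3 : (2:ℤ) ^ (i0 + 4) = 16 * 2 ^ i0 := by ring
    have e4 : (2:ℤ) ^ (i0 + d + 5) = 2 * 2 ^ (i0 + d + 4) := by ring
    have e5 : (2:ℤ) ^ (i0 + 6 + d) = 4 * 2 ^ (i0 + d + 4) := by ring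
    have e6 : (2:ℤ) ^ (i0 + 6 + d - 2) = 2 ^ (i0 + d + 4) := by congr 1; omega
    have p1 : (0:ℤ) < 2 ^ i0 := by positivity
    have p2 : (0:ℤ) < 2 ^ (i0 + d + 4) := by positivity
    rw [e6] at hMle
    have key := SD_A h.h0 h.h1 (β := β) (m := 2 ^ M) (ρ1 := 2 ^ i0) (ρ2 := 2 ^ (i0 + d + 4))
      (s := 2 ^ (i0 + 4)) (R := 2 ^ (i0 + d + 5)) Nat.one_le_two_pow Nat.one_le_two_pow
      (g := g) (g' := g') (by push_cast; omega) (by push_cast; omega)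
      (Nat.pow_lt_pow_right (by norm_num) (by omega)) (by push_cast; omega) (by push_cast; omega)
    refine key.trans ?_
    have a1 := h.a4 (i0 + d + 4) (by omega)
    have a2 := h.a4 i0 (by omega)
    have a3 := h.b4 (i0 + 4) (i0 + d + 5) (by omega) (by omega)
    have hb0 := b4_nonneg h.h0 h.h1 (2 ^ (i0 + 4)) (2 ^ (i0 + d + 5))
    have m1 := mul_le_mul a2 a2 (hpos2 _) (by positivity)
    have m2 := mul_le_mul a3 m1 (mul_nonneg (hpos2 _) (hpos2 _)) (by positivity)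
    have m3 := mul_le_mul a1 m2 (mul_nonneg hb0 (mul_nonneg (hpos2 _) (hpos2 _))) (by positivity)
    refine m3.trans (le_of_eq ?_)
    unfold wt
    rw [min_eq_right (by omega), max_eq_left (by omega)]
    field_simp
    ring
  · obtain ⟨d, rfl⟩ : ∃ d, j = i + 4 + d := ⟨j - (i + 4), by omega⟩
    have e0 : (2:ℤ) ^ (i + 1) ≤ 4 := by
      have : (2:ℤ) ^ (i + 1) ≤ 2 ^ 2 := pow_le_pow_right₀ (by norm_num) (by omega)
      linarith
    have e4 : (2:ℤ) ^ (i + d + 3) = 2 * 2 ^ (i + d + 2) := by ring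
    have e5 : (2:ℤ) ^ (i + 4 + d) = 4 * 2 ^ (i + d + 2) := by ring
    have e6 : (2:ℤ) ^ (i + 4 + d - 2) = 2 ^ (i + d + 2) := by congr 1; omega
    have p2 : (0:ℤ) < 2 ^ (i + d + 2) := by positivity
    rw [e6] at hMle
    have key := SD_A' h.h0 h.h1 (β := β) (m := 2 ^ M) (ρ2 := 2 ^ (i + d + 2))
      (s := 2 ^ 2) (R := 2 ^ (i + d + 3)) Nat.one_le_two_pow
      (g := g) (g' := g') (by norm_num) (by push_cast; omega)
      (Nat.pow_lt_pow_right (by norm_num) (by omega)) (by push_cast; omega) (by push_cast; omega)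
    refine key.trans ?_
    have a1 := h.a4 (i + d + 2) (by omega)
    have a3 := h.b4 2 (i + d + 3) (by omega) (by omega)
    have m2 := mul_le_mul a1 a3 (b4_nonneg h.h0 h.h1 _ _) (by positivity)
    refine m2.trans ?_
    unfold wt
    rw [min_eq_right (by omega), max_eq_left (by omega)]
    have f1 : A / vv ^ (5 * (i + d + 2)) * (A * (vv ^ (4 * 2) / vv ^ (4 * (i + d + 3)))) =
        A ^ 2 * vv ^ (22 + 6 * i) * (vv ^ (6 * i + 9 * (i + 4 + d)))⁻¹ := by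
      field_simp
      ring
    rw [f1]
    apply mul_le_mul_of_nonneg_right _ (by positivity)
    exact mul_le_mul (pow_le_four hA (by norm_num)) (vv_mono (by omega)) (by positivity)
      (by positivity)

theorem pw_comp (h1 : cl g' < cl g + 4) (h2 : cl g < cl g' + 4) (hj : 10 ≤ cl g)
    (hd : 4 * 2 ^ (cl g - 6) < dst g g') (hM : nm g < 2 ^ (M - 1)) (hM' : nm g' < 2 ^ (M - 1))
    (hM2 : 2 ≤ M) :
    PQ q (UU β (2 ^ M)) (SD (fR β) g g') ≤ A ^ 4 * vv ^ 195 * wt (cl g) (cl g') := by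
  have hv := vv_pos
  have hA := h.A1
  have hclM := cl_le_of hM2 hM
  have g1 : (2:ℤ) ^ (cl g) ≤ nm g := cl_pos_nm (by omega)
  have g2 : (2:ℤ) ^ (cl g') ≤ nm g' := cl_pos_nm (by omega)
  have hMz := two_half (M := M) (by omega)
  obtain ⟨j, hj'⟩ : ∃ j, j = cl g := ⟨_, rfl⟩
  obtain ⟨i, hi'⟩ : ∃ i, i = cl g' := ⟨_, rfl⟩
  rw [← hj'] at g1 h1 h2 hd hj hclM ⊢
  rw [← hi'] at g2 h1 h2 ⊢
  have hpos2 : ∀ k, 0 ≤ a4 q k := fun k => a4nn h.h0 h.h1 k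
  obtain ⟨l, rfl⟩ : ∃ l, j = l + 6 := ⟨j - 6, by omega⟩
  have e1 : (2:ℤ) ^ (l + 6) = 64 * 2 ^ l := by ring
  have e2 : (8:ℤ) * 2 ^ l ≤ 2 ^ i := by
    calc (8:ℤ) * 2 ^ l = 2 ^ (l + 3) := by ring
      _ ≤ 2 ^ i := pow_le_pow_right₀ (by norm_num) (by omega)
  have hMle : (2:ℤ) ^ l ≤ 2 ^ (M - 1) := pow_le_pow_right₀ (by norm_num) (by omega)
  have p1 : (0:ℤ) < 2 ^ l := by positivity
  rw [show l + 6 - 6 = l by omega] at hd
  have key := SD_C h.h0 h.h1 (β := β) (m := 2 ^ M) (ρ := 2 ^ l) Nat.one_le_two_pow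
      (g := g) (g' := g') (by push_cast; omega) (by push_cast; omega) (by push_cast; omega)
      (by push_cast; omega) (by push_cast; omega)
  refine key.trans ?_
  have a1 := h.a4 l (by omega)
  have m1 := mul_le_mul a1 a1 (hpos2 _) (by positivity)
  have m2 := mul_le_mul a1 m1 (mul_nonneg (hpos2 _) (hpos2 _)) (by positivity)
  refine m2.trans ?_
  have f1 : A / vv ^ (5 * l) * (A / vv ^ (5 * l) * (A / vv ^ (5 * l))) =
      A ^ 3 * vv ^ 117 * (vv ^ (15 * l + 117))⁻¹ := by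
    field_simp
    ring
  rw [f1]
  unfold wt
  refine mul_le_mul (mul_le_mul (pow_le_four hA (by norm_num)) (vv_mono (by omega))
    (by positivity) (by positivity)) ?_ (by positivity) (by positivity)
  apply inv_anti₀ (by positivity)
  apply vv_mono
  omega

theorem pw_small (h1 : cl g' < cl g + 4) (hj : cl g < 10) :
    PQ q (UU β (2 ^ M)) (SD (fR β) g g') ≤ A ^ 4 * vv ^ 195 * wt (cl g) (cl g') := by
  have hv := vv_pos
  have hA := h.A1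
  have h2 : PQ q (UU β (2 ^ M)) (SD (fR β) g g') ≤ 1 := Pr_le_one (okq h.h0 h.h1) _ _
  refine h2.trans ?_
  have h3 : (1:ℝ) ≤ A ^ 4 := one_le_pow₀ hA
  have h4 : (1:ℝ) ≤ vv ^ 195 * wt (cl g) (cl g') := by
    unfold wt
    rw [← div_eq_mul_inv, le_div_iff₀ (by positivity), one_mul]
    apply vv_mono
    omega
  calc (1:ℝ) = 1 * 1 := by ring
    _ ≤ A ^ 4 * (vv ^ 195 * wt (cl g) (cl g')) := mul_le_mul h3 h4 (by norm_num) (by positivity)
    _ = _ := by ring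

/-- The pointwise bound. -/
theorem pw (hd : 10 ≤ cl g → 4 * 2 ^ (cl g - 6) < dst g g') (hM : nm g < 2 ^ (M - 1))
    (hM' : nm g' < 2 ^ (M - 1)) (hM2 : 2 ≤ M) :
    PQ q (UU β (2 ^ M)) (SD (fR β) g g') ≤ A ^ 4 * vv ^ 195 * wt (cl g) (cl g') := by
  have hA := h.A1
  have hw : 0 ≤ wt (cl g) (cl g') := wt_nonneg _ _
  have hcmp : A ^ 4 * vv ^ 42 * wt (cl g) (cl g') ≤ A ^ 4 * vv ^ 195 * wt (cl g) (cl g') := by
    apply mul_le_mul_of_nonneg_right _ hw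
    exact mul_le_mul_of_nonneg_left (vv_mono (by norm_num)) (by positivity)
  by_cases c1 : cl g' + 4 ≤ cl g
  · exact (pw_far h c1 hM hM2).trans hcmp
  by_cases c2 : cl g + 4 ≤ cl g'
  · have h3 := pw_far h (β := β) (g := g') (g' := g) c2 hM' hM2
    rw [wt_comm] at h3
    refine le_trans (le_of_eq ?_) (h3.trans hcmp)
    exact Pr_congr fun F hF => SD_comm
  by_cases c3 : cl g < 10
  · exact pw_small h (by omega) c3
  · exact pw_comp h (by omega) (by omega) (by omega) (hd (by omega)) hM hM' hM2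

end

end Pool.Agent.R960
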