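import Pool.Agent.R960.Sum

/-!
The second order sum over the boundary zone.
-/

namespace Pool.Agent.R960

open H974 H12S H973N H973N.NP Finset

theorem dst_blk {a b : Edg} {ρ : ℕ} (hab : b ∈ blk (bp a) ρ) : dst a b ≤ ρ ∧ dst b a ≤ ρ := by
  have k1 := mem_blk_bd hab
  unfold dst
  constructor <;> apply max_le <;> rw [abs_le] <;> constructor <;> omega

theorem dst_tri (a b c : Edg) : dst a c ≤ dst a b + dst b c := by
  have h1 : |a.1 - c.1| ≤ |a.1 - b.1| + |b.1 - c.1| := abs_sub_le _ _ _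
  have h2 : |a.2.1 - c.2.1| ≤ |a.2.1 - b.2.1| + |b.2.1 - c.2.1| := abs_sub_le _ _ _
  have h3 : |a.1 - b.1| ≤ dst a b := le_max_left _ _
  have h4 : |b.1 - c.1| ≤ dst b c := le_max_left _ _
  have h5 : |a.2.1 - b.2.1| ≤ dst a b := le_max_right _ _
  have h6 : |b.2.1 - c.2.1| ≤ dst b c := le_max_right _ _
  unfold dst
  apply max_le
  · exact h1.trans (add_le_add h3 h4)
  · exact h2.trans (add_le_add h5 h6)

theorem self_blk {g : Edg} {ρ : ℕ} (hρ : 1 ≤ ρ) : g ∈ blk (bp g) ρ := by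
  unfold blk bp
  obtain ⟨a, b, _ | _⟩ := g
  · rw [mem_RE_false]
    simp only
    omega
  · rw [mem_RE_true]
    simp only
    omega

section
variable {q A : ℝ} {M : ℕ} (h : NB q M A) {β : Bool} {g : Edg}
include h

theorem zone_far {Cw : ℝ} (hCw : 0 < Cw)
    (hW : ∀ K Λ : ℕ, 1 ≤ Λ → 4 * 2 ^ K ≤ 2 ^ M → 2 ^ (M + 1) ≤ Λ * 2 ^ K →
      WBd β q M K (Cw * Λ * W1s q K)) (hg : g ∈ UU β (2 ^ M)) (hM6 : 6 ≤ M)
    (hj : cl g + 6 ≤ M) :
    ∑ x ∈ (UU β (2 ^ M)).filter (fun x => (2:ℤ) ^ (M - 1) ≤ nm x),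
      PQ q (UU β (2 ^ M)) (SD (fR β) g x) ≤ Cw * A ^ 4 * 2 ^ 30 * (vv ^ (6 * cl g + M))⁻¹ := by
  have hv := vv_pos
  have hA := h.A1
  have hMz := two_half (M := M) (by omega)
  have g2 := nm_lt_cl g
  obtain ⟨j, hjj⟩ : ∃ j, j = cl g := ⟨_, rfl⟩
  have hgj : 1 ≤ j → (2:ℤ) ^ j ≤ nm g := fun h => by rw [hjj]; exact cl_pos_nm (by omega)
  rw [← hjj] at g2 hj ⊢
  have hpos2 : ∀ k, 0 ≤ a4 q k := fun k => a4nn h.h0 h.h1 k
  have hpos1 : 0 ≤ W1s q (M - 2) := by
    unfold W1s
    apply add_nonneg (Real.sqrt_nonneg _)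
    exact Finset.sum_nonneg (fun k _ => mul_nonneg (mul_nonneg (by positivity) (hpos2 _))
      (Real.sqrt_nonneg _))
  obtain ⟨N, rfl⟩ : ∃ N, M = N + 2 := ⟨M - 2, by omega⟩
  rw [show N + 2 - 2 = N by omega] at hpos1
  have e1 : (2:ℤ) ^ (N + 2 - 1) = 2 * 2 ^ N := by
    rw [show N + 2 - 1 = N + 1 by omega]
    ring
  have e2 : (2:ℤ) ^ (N + 2) = 4 * 2 ^ N := by ring
  have e3 : (2:ℤ) ^ (j + 1) ≤ 2 ^ N := pow_le_pow_right₀ (by norm_num) (by omega)
  have p0 : (0:ℤ) < 2 ^ N := by positivity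
  have hfar : ∀ i : Fin 4, ∀ x ∈ rcE (N + 2) i, (2:ℤ) ^ N < nm x := by
    intro i x hx
    have := (rc_good β (by omega) i).far x hx
    rwa [show N + 2 - 2 = N by omega] at this
  have hWN := hW N 8 (by norm_num) (by ring_nf; omega) (by ring_nf; omega)
  have w1 := h.w1 N (by omega)
  have keyE : ∀ (Ev : Finset Edg → Prop) (P : ℝ),
      (∀ i : Fin 4, ∀ F, F ⊆ UU β (2 ^ (N + 2)) →
        (Ev F ↔ Ev (F ∩ (UU β (2 ^ (N + 2)) \ (rcE (N + 2) i \ ∅))))) →
      (∀ x : Edg, (2:ℤ) ^ (N + 1) ≤ nm x → ∀ F, F ⊆ UU β (2 ^ (N + 2)) →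
        SD (fR β) g x F → Ev F) →
      PQ q (UU β (2 ^ (N + 2))) Ev ≤ P →
      ∑ x ∈ (UU β (2 ^ (N + 2))).filter (fun x => (2:ℤ) ^ (N + 2 - 1) ≤ nm x),
        PQ q (UU β (2 ^ (N + 2))) (SD (fR β) g x) ≤ 64 * Cw * (P * (A * vv ^ (3 * N))) := by
    intro Ev P hEv himp hP
    have hP0 : 0 ≤ P := (Pr_nonneg (okq h.h0 h.h1) _ _).trans hP
    have := zone_second h.h0 h.h1 (β := β) (M := N + 2) (K := N) (by omega) hWN (Ev := Ev) hg ∅
      hEv (fun i hcon => by
        rw [Finset.sdiff_empty] at hcon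
        have := hfar i g hcon
        omega)
      ((UU β (2 ^ (N + 2))).filter (fun x => (2:ℤ) ^ (N + 2 - 1) ≤ nm x))
      (Finset.filter_subset _ _) (fun x hx => (Finset.mem_filter.mp hx).2)
      (fun x _ => Finset.notMem_empty x) (fun x _ y _ => Finset.notMem_empty y)
      (fun x hx => himp x (by
        have := (Finset.mem_filter.mp hx).2
        rwa [show N + 2 - 1 = N + 1 by omega] at this))
    refine this.trans ?_
    have k1 : PQ q (UU β (2 ^ (N + 2))) Ev * (2 * (Cw * (8:ℕ) * W1s q N)) ≤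
        P * (2 * (Cw * (8:ℕ) * (A * vv ^ (3 * N)))) := by
      apply mul_le_mul hP _ (by positivity) hP0
      apply mul_le_mul_of_nonneg_left _ (by norm_num)
      exact mul_le_mul_of_nonneg_left w1 (by positivity)
    refine (mul_le_mul_of_nonneg_left k1 (by norm_num)).trans (le_of_eq ?_)
    push_cast
    ring
  by_cases h2 : 2 ≤ j
  · obtain ⟨i, rfl⟩ : ∃ i, j = i + 2 := ⟨j - 2, by omega⟩
    have g1 := hgj (by omega)
    have e4 : (2:ℤ) ^ (i + 2) = 4 * 2 ^ i := by ring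
    have e5 : (2:ℤ) ^ (i + 2 + 1) = 8 * 2 ^ i := by ring
    have e6 : (2:ℤ) ^ (i + 4) = 16 * 2 ^ i := by ring
    have e7 : (2:ℤ) ^ (i + 4) < 2 ^ N := pow_lt_pow_right₀ (by norm_num) (by omega)
    have p1 : (0:ℤ) < 2 ^ i := by positivity
    have key := keyE (fun F => BR (2 ^ (i + 4)) (2 ^ N) F ∧ (LR (2 ^ i) g F ∧ AR β (2 ^ i) F))
      (b4 q (2 ^ (i + 4)) (2 ^ N) * (a4 q (2 ^ i) * a4 q (2 ^ i))) ?_ ?_ ?_
    · refine key.trans ?_
      have a1 := h.a4 i (by omega)
      have a3 := h.b4 (i + 4) N (by omega) (by omega)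
      have m1 := mul_le_mul a1 a1 (hpos2 _) (by positivity)
      have m2 := mul_le_mul a3 m1 (mul_nonneg (hpos2 _) (hpos2 _)) (by positivity)
      have m3 := mul_le_mul_of_nonneg_left (mul_le_mul_of_nonneg_right m2
        (show 0 ≤ A * vv ^ (3 * N) by positivity)) (show 0 ≤ 64 * Cw by positivity)
      refine m3.trans ?_
      have f1 : 64 * Cw * (A * (vv ^ (4 * (i + 4)) / vv ^ (4 * N)) *
          (A / vv ^ (5 * i) * (A / vv ^ (5 * i))) * (A * vv ^ (3 * N))) =
          Cw * A ^ 4 * (64 * vv ^ 30) * (vv ^ (6 * (i + 2) + (N + 2)))⁻¹ := by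
        field_simp
        ring
      rw [f1]
      have f2 : 64 * vv ^ 30 ≤ 2 ^ 30 := by
        have : vv ^ 30 ≤ vv ^ (4 * 8) := vv_mono (by norm_num)
        rw [← vv_two] at this
        linarith
      have f3 : 0 ≤ Cw * A ^ 4 := by positivity
      exact mul_le_mul_of_nonneg_right (mul_le_mul_of_nonneg_left f2 f3) (by positivity)
    · intro r F hF
      have mem : ∀ x : Edg, nm x ≤ 2 ^ N → x ∈ F →
          x ∈ UU β (2 ^ (N + 2)) \ (rcE (N + 2) r \ ∅) := by
        intro x hx hxF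
        rw [Finset.mem_sdiff, Finset.sdiff_empty]
        refine ⟨hF hxF, fun hcon => ?_⟩
        have := hfar r x hcon
        omega
      refine and_congr ?_ (and_congr ?_ ?_)
      · exact BR_inter (fun x hx _ hxF => mem x (by
          have := nm_le_of_boxE hx
          push_cast at this
          exact this) hxF)
      · apply LR_inter
        intro x hx hxF
        have k2 := nm_blk hx
        push_cast at k2
        exact mem x (by omega) hxF
      · apply AR_inter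
        intro x hx _ hxF
        have k1 := nm_le_of_boxE hx
        push_cast at k1
        exact mem x (by omega) hxF
    · intro x hx F hF hSD
      have e8 : (2:ℤ) ^ (N + 1) = 2 * 2 ^ N := by ring
      have he : e0 β ∉ F := fun h => (Finset.mem_erase.mp (hF h)).1 rfl
      have b1 : x ∉ boxE (2 ^ N) := fun hcon => by
        have := nm_le_of_boxE hcon
        push_cast at this
        omega
      have b2 : x ∉ boxE (2 ^ i) := fun hcon => by
        have := nm_le_of_boxE hcon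
        push_cast at this
        omega
      have b3 : g ∉ boxE (2 ^ i) := fun hcon => by
        have := nm_le_of_boxE hcon
        push_cast at this
        omega
      refine ⟨SD_BR Nat.one_le_two_pow (Nat.pow_lt_pow_right (by norm_num) (by omega)) b1
        (mem_blk0 (by push_cast; omega)) (SD_comm.1 hSD),
        SD_LR Nat.one_le_two_pow (by push_cast; omega) ?_ hSD,
        SD_AR Nat.one_le_two_pow b3 b2 he hSD⟩
      intro hcon
      have := nm_blk hcon
      push_cast at this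
      omega
    · apply pr_X2 h.h0 h.h1
      · push_cast
        omega
      · push_cast
        omega
      · exact Nat.pow_lt_pow_right (by norm_num) (by omega)
      · exact Nat.pow_le_pow_right (by norm_num) (by omega)
  · have e4 : (2:ℤ) ^ (j + 1) ≤ 2 ^ 2 := pow_le_pow_right₀ (by norm_num) (by omega)
    have e7 : (2:ℤ) ^ 2 < 2 ^ N := pow_lt_pow_right₀ (by norm_num) (by omega)
    have key := keyE (fun F => BR (2 ^ 2) (2 ^ N) F) (b4 q (2 ^ 2) (2 ^ N)) ?_ ?_ ?_
    · refine key.trans ?_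
      have a3 := h.b4 2 N (by omega) (by omega)
      have m3 := mul_le_mul_of_nonneg_left (mul_le_mul_of_nonneg_right a3
        (show 0 ≤ A * vv ^ (3 * N) by positivity)) (show 0 ≤ 64 * Cw by positivity)
      refine m3.trans ?_
      have f1 : 64 * Cw * (A * (vv ^ (4 * 2) / vv ^ (4 * N)) * (A * vv ^ (3 * N))) =
          Cw * A ^ 2 * (64 * vv ^ (10 + 6 * j)) * (vv ^ (6 * j + (N + 2)))⁻¹ := by
        field_simp
        ring
      rw [f1]
      have f2 : 64 * vv ^ (10 + 6 * j) ≤ 2 ^ 30 := by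
        have : vv ^ (10 + 6 * j) ≤ vv ^ (4 * 8) := vv_mono (by omega)
        rw [← vv_two] at this
        linarith
      apply mul_le_mul_of_nonneg_right _ (by positivity)
      exact mul_le_mul (mul_le_mul_of_nonneg_left (pow_le_four hA (by norm_num)) hCw.le) f2
        (by positivity) (by positivity)
    · intro r F hF
      have mem : ∀ x : Edg, nm x ≤ 2 ^ N → x ∈ F →
          x ∈ UU β (2 ^ (N + 2)) \ (rcE (N + 2) r \ ∅) := by
        intro x hx hxF
        rw [Finset.mem_sdiff, Finset.sdiff_empty]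
        refine ⟨hF hxF, fun hcon => ?_⟩
        have := hfar r x hcon
        omega
      exact BR_inter (fun x hx _ hxF => mem x (by
          have := nm_le_of_boxE hx
          push_cast at this
          exact this) hxF)
    · intro x hx F hF hSD
      have e8 : (2:ℤ) ^ (N + 1) = 2 * 2 ^ N := by ring
      have b1 : x ∉ boxE (2 ^ N) := fun hcon => by
        have := nm_le_of_boxE hcon
        push_cast at this
        omega
      exact SD_BR Nat.one_le_two_pow (Nat.pow_lt_pow_right (by norm_num) (by omega)) b1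
        (mem_blk0 (by push_cast; omega)) (SD_comm.1 hSD)
    · apply pr_BR Nat.one_le_two_pow
      exact Nat.pow_le_pow_right (by norm_num) (by omega)

theorem zone_near {Cw : ℝ} (hCw : 0 < Cw)
    (hW : ∀ K Λ : ℕ, 1 ≤ Λ → 4 * 2 ^ K ≤ 2 ^ M → 2 ^ (M + 1) ≤ Λ * 2 ^ K →
      WBd β q M K (Cw * Λ * W1s q K)) (hg : g ∈ UU β (2 ^ M)) (hM16 : 16 ≤ M)
    (hj : M ≤ cl g + 5) (hgM : nm g < 2 ^ (M - 1)) :
    ∑ x ∈ (UU β (2 ^ M)).filter (fun x => (2:ℤ) ^ (M - 1) ≤ nm x ∧
        4 * 2 ^ (cl g - 6) < dst g x),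
      PQ q (UU β (2 ^ M)) (SD (fR β) g x) ≤ Cw * A ^ 4 * 2 ^ 30 * (vv ^ (6 * cl g + M))⁻¹ := by
  have hv := vv_pos
  have hA := h.A1
  have hMz := two_half (M := M) (by omega)
  have hclM := cl_le_of (by omega) hgM
  have g2 := nm_lt_cl g
  have g1 : (2:ℤ) ^ (cl g) ≤ nm g := cl_pos_nm (by omega)
  obtain ⟨j, hjj⟩ : ∃ j, j = cl g := ⟨_, rfl⟩
  rw [← hjj] at g2 hj g1 hclM ⊢
  obtain ⟨K, rfl⟩ : ∃ K, j = K + 8 := ⟨j - 8, by omega⟩
  have hpos2 : ∀ k, 0 ≤ a4 q k := fun k => a4nn h.h0 h.h1 k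
  have hpos1 : 0 ≤ W1s q K := by
    unfold W1s
    apply add_nonneg (Real.sqrt_nonneg _)
    exact Finset.sum_nonneg (fun k _ => mul_nonneg (mul_nonneg (by positivity) (hpos2 _))
      (Real.sqrt_nonneg _))
  have e1 : K + 8 - 6 = K + 2 := by omega
  rw [e1]
  have e2 : (2:ℤ) ^ (K + 2) = 4 * 2 ^ K := by ring
  have e3 : (2:ℤ) ^ (K + 8) = 256 * 2 ^ K := by ring
  have e4 : (2:ℤ) ^ (K + 8 + 1) = 512 * 2 ^ K := by ring
  have p1 : (0:ℤ) < 2 ^ K := by positivity
  have e5 : (256:ℤ) * 2 ^ K ≤ 2 ^ (M - 2) := by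
    rw [← e3]
    exact pow_le_pow_right₀ (by norm_num) (by omega)
  have e6 : (2:ℤ) ^ (M - 1) = 2 * 2 ^ (M - 2) := by
    rw [← pow_succ']
    congr 1
    omega
  have hWN := hW K (2 ^ 14) (by norm_num)
    (by
      rw [show (4:ℕ) = 2 ^ 2 by norm_num, ← pow_add]
      exact Nat.pow_le_pow_right (by norm_num) (by omega))
    (by
      rw [← pow_add]
      exact Nat.pow_le_pow_right (by norm_num) (by omega))
  have w1 := h.w1 K (by omega)
  set T := (UU β (2 ^ M)).filter (fun x => (2:ℤ) ^ (M - 1) ≤ nm x ∧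
        4 * 2 ^ (K + 2) < dst g x) with hT
  have hTd : ∀ x ∈ T, (2:ℤ) ^ (M - 1) ≤ nm x ∧ 16 * 2 ^ K < dst g x := by
    intro x hx
    rw [hT, Finset.mem_filter] at hx
    refine ⟨hx.2.1, ?_⟩
    have := hx.2.2
    omega
  have hself : g ∈ blk (bp g) (2 ^ (K + 2)) := self_blk Nat.one_le_two_pow
  have hsub := blk_UU (β := β) (m := 2 ^ M) (ρ := 2 ^ (K + 2)) (g := g)
    (by push_cast; omega) (by push_cast; omega)
  have key := zone_second h.h0 h.h1 (β := β) (M := M) (K := K) (by omega) hWN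
    (Ev := fun F => LR (2 ^ (K + 2)) g F ∧ AR β (2 ^ (K + 2)) F) hg (blk (bp g) (2 ^ (K + 2)))
    ?_ ?_ T (Finset.filter_subset _ _) (fun x hx => (hTd x hx).1) ?_ ?_ ?_
  · refine key.trans ?_
    have k1 := pr_X1 h.h0 h.h1 (β := β) (m := 2 ^ M) (ρ := 2 ^ (K + 2)) (g := g)
      (by push_cast; omega) (by push_cast; omega)
    have a1 := h.a4 (K + 2) (by omega)
    have m1 := k1.trans (mul_le_mul a1 a1 (hpos2 _) (by positivity))
    have m2 : Cw * ((2 ^ 14 : ℕ) : ℝ) * W1s q K ≤ Cw * ((2 ^ 14 : ℕ) : ℝ) * (A * vv ^ (3 * K)) :=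
      mul_le_mul_of_nonneg_left w1 (by positivity)
    have m3 := mul_le_mul m1 (mul_le_mul_of_nonneg_left m2 (show (0:ℝ) ≤ 2 by norm_num))
      (by positivity) (by positivity)
    refine (mul_le_mul_of_nonneg_left m3 (show (0:ℝ) ≤ 4 by norm_num)).trans ?_
    obtain ⟨d, hd⟩ : ∃ d, K + 8 + 5 = M + d := ⟨K + 8 + 5 - M, by omega⟩
    have f1 : 4 * (A / vv ^ (5 * (K + 2)) * (A / vv ^ (5 * (K + 2))) *
        (2 * (Cw * ((2 ^ 14 : ℕ) : ℝ) * (A * vv ^ (3 * K))))) =
        Cw * A ^ 3 * (2 ^ 17 * vv ^ 41) * (vv ^ (7 * K + 61))⁻¹ := by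
      push_cast
      field_simp
      ring
    rw [f1]
    have f2 : 2 ^ 17 * vv ^ 41 ≤ 2 ^ 30 := by
      have : vv ^ 41 ≤ vv ^ (4 * 13) := vv_mono (by norm_num)
      rw [← vv_two] at this
      linarith
    refine mul_le_mul (mul_le_mul (mul_le_mul_of_nonneg_left (pow_le_four hA (by norm_num))
      hCw.le) f2 (by positivity) (by positivity)) ?_ (by positivity) (by positivity)
    apply inv_anti₀ (by positivity)
    apply vv_mono
    omega
  · intro r F hF
    apply and_congr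
    · apply LR_inter
      intro x hx hxF
      rw [Finset.mem_sdiff]
      exact ⟨hF hxF, fun hcon => (Finset.mem_sdiff.mp hcon).2 hx⟩
    · apply AR_inter
      intro x hx _ hxF
      rw [Finset.mem_sdiff]
      refine ⟨hF hxF, fun hcon => ?_⟩
      have k1 := (rc_good β (by omega) r).far x (Finset.mem_sdiff.mp hcon).1
      have k2 := nm_le_of_boxE hx
      push_cast at k2
      omega
  · intro r hcon
    exact (Finset.mem_sdiff.mp hcon).2 hself
  · intro x hx hcon
    have k1 := (hTd x hx).2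
    have k2 := (dst_blk hcon).1
    push_cast at k2
    omega
  · intro x hx y hy hcon
    have k1 := (hTd x hx).2
    have k2 := (dst_blk hcon).1
    have k3 := dst_tri g y x
    push_cast at k2
    omega
  · intro x hx F hF hSD
    have he : e0 β ∉ F := fun h => (Finset.mem_erase.mp (hF h)).1 rfl
    have k1 := hTd x hx
    have b2 : x ∉ boxE (2 ^ (K + 2)) := fun hcon => by
      have := nm_le_of_boxE hcon
      push_cast at this
      omega
    have b3 : g ∉ boxE (2 ^ (K + 2)) := fun hcon => by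
      have := nm_le_of_boxE hcon
      push_cast at this
      omega
    refine ⟨SD_LR Nat.one_le_two_pow (by push_cast; omega) ?_ hSD,
      SD_AR Nat.one_le_two_pow b3 b2 he hSD⟩
    intro hcon
    have k2 := (dst_blk hcon).1
    push_cast at k2
    omega

end

end Pool.Agent.R960
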