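import Pool.Agent.R960.SumB

/-!
The bound for the second order sum.
-/

namespace Pool.Agent.R960

open H974 H12S H973N H973N.NP Finset

/-- The inner edges. -/
noncomputable def DD (β : Bool) (M : ℕ) : Finset Edg :=
  (UU β (2 ^ M)).filter (fun g => nm g < 2 ^ (M - 1))

theorem zone_all {q A : ℝ} {M : ℕ} (h : NB q M A) {β : Bool} {g : Edg} {Cw : ℝ} (hCw : 0 < Cw)
    (hW : ∀ K Λ : ℕ, 1 ≤ Λ → 4 * 2 ^ K ≤ 2 ^ M → 2 ^ (M + 1) ≤ Λ * 2 ^ K →
      WBd β q M K (Cw * Λ * W1s q K)) (hM16 : 16 ≤ M) (hg : g ∈ DD β M) :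
    ∑ x ∈ (UU β (2 ^ M)).filter (fun x => (2:ℤ) ^ (M - 1) ≤ nm x ∧
        (10 ≤ cl g → 4 * 2 ^ (cl g - 6) < dst g x)),
      PQ q (UU β (2 ^ M)) (SD (fR β) g x) ≤ Cw * A ^ 4 * 2 ^ 30 * (vv ^ (6 * cl g + M))⁻¹ := by
  have hok := okq h.h0 h.h1
  have hg' := Finset.mem_filter.mp hg
  by_cases hj : cl g + 6 ≤ M
  · refine le_trans ?_ (zone_far h hCw hW hg'.1 (by omega) hj)
    apply Finset.sum_le_sum_of_subset_of_nonneg
    · intro x hx
      rw [Finset.mem_filter] at hx ⊢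
      exact ⟨hx.1, hx.2.1⟩
    · intro x _ _
      exact Pr_nonneg hok _ _
  · refine le_trans ?_ (zone_near h hCw hW hg'.1 hM16 (by omega) hg'.2)
    apply Finset.sum_le_sum_of_subset_of_nonneg
    · intro x hx
      rw [Finset.mem_filter] at hx ⊢
      exact ⟨hx.1, hx.2.1, hx.2.2 (by omega)⟩
    · intro x _ _
      exact Pr_nonneg hok _ _

theorem near_all {q A : ℝ} {M : ℕ} (h : NB q M A) {β : Bool} {Cn : ℝ} (hCn : 0 < Cn)
    (hN : ∀ j : ℕ, 10 ≤ j → j + 2 ≤ M →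
      ∀ G : Finset Edg, G ⊆ UU β (2 ^ M) → (∀ g ∈ G, (2:ℤ) ^ j ≤ nm g ∧ nm g < 2 ^ (j + 1)) →
      ∑ g ∈ G, ∑ g' ∈ (UU β (2 ^ M)).filter (fun g' => g' ≠ g ∧ dst g g' ≤ 4 * 2 ^ (j - 6)),
        PQ q (UU β (2 ^ M)) (SD (fR β) g g') ≤ Cn * (a4 q (2 ^ (j - 2)) * W2s q (j - 6)))
    (hM2 : 2 ≤ M) :
    ∑ g ∈ DD β M, (if 10 ≤ cl g then
      ∑ g' ∈ (UU β (2 ^ M)).filter (fun g' => g' ≠ g ∧ dst g g' ≤ 4 * 2 ^ (cl g - 6)),
        PQ q (UU β (2 ^ M)) (SD (fR β) g g') else 0) ≤ 6 * (Cn * A ^ 4) * vv ^ M := by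
  classical
  have hv := vv_pos
  have hA := h.A1
  have hpos2 : ∀ k, 0 ≤ a4 q k := fun k => a4nn h.h0 h.h1 k
  have hcl : ∀ g ∈ DD β M, cl g ∈ range M := by
    intro g hg
    have := cl_le_of hM2 (Finset.mem_filter.mp hg).2
    rw [Finset.mem_range]
    omega
  rw [← Finset.sum_fiberwise_of_maps_to hcl]
  have one : ∀ j ∈ range M, ∑ g ∈ (DD β M).filter (fun g => cl g = j), (if 10 ≤ cl g then
      ∑ g' ∈ (UU β (2 ^ M)).filter (fun g' => g' ≠ g ∧ dst g g' ≤ 4 * 2 ^ (cl g - 6)),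
        PQ q (UU β (2 ^ M)) (SD (fR β) g g') else 0) ≤ Cn * A ^ 4 * vv ^ j := by
    intro j _
    have hrhs : 0 ≤ Cn * A ^ 4 * vv ^ j := by positivity
    by_cases hj : 10 ≤ j ∧ j + 2 ≤ M
    · obtain ⟨hj, hjM⟩ := hj
      have e1 : ∑ g ∈ (DD β M).filter (fun g => cl g = j), (if 10 ≤ cl g then
          ∑ g' ∈ (UU β (2 ^ M)).filter (fun g' => g' ≠ g ∧ dst g g' ≤ 4 * 2 ^ (cl g - 6)),
            PQ q (UU β (2 ^ M)) (SD (fR β) g g') else 0) =
          ∑ g ∈ (DD β M).filter (fun g => cl g = j),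
          ∑ g' ∈ (UU β (2 ^ M)).filter (fun g' => g' ≠ g ∧ dst g g' ≤ 4 * 2 ^ (j - 6)),
            PQ q (UU β (2 ^ M)) (SD (fR β) g g') := by
        apply Finset.sum_congr rfl
        intro g hg
        have hcg := (Finset.mem_filter.mp hg).2
        rw [hcg, if_pos hj]
      rw [e1]
      refine (hN j hj hjM _ ?_ ?_).trans ?_
      · intro g hg
        exact (Finset.mem_filter.mp (Finset.mem_filter.mp hg).1).1
      · intro g hg
        have hcg := (Finset.mem_filter.mp hg).2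
        rw [← hcg]
        exact ⟨cl_pos_nm (by omega), nm_lt_cl g⟩
      · obtain ⟨l, rfl⟩ : ∃ l, j = l + 6 := ⟨j - 6, by omega⟩
        have a1 := h.a4 (l + 4) (by omega)
        have a2 := h.w2 l (by omega)
        rw [show l + 6 - 2 = l + 4 by omega, show l + 6 - 6 = l by omega]
        have hw0 : 0 ≤ W2s q l := by
          unfold W2s
          apply add_nonneg (by positivity)
          exact Finset.sum_nonneg (fun k _ => by positivity)
        have m1 := mul_le_mul_of_nonneg_left (mul_le_mul a1 a2 hw0 (by positivity)) hCn.le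
        refine m1.trans ?_
        have f1 : Cn * (A / vv ^ (5 * (l + 4)) * (A * vv ^ (6 * l))) =
            Cn * A ^ 2 * (vv ^ l * (vv ^ 20)⁻¹) := by
          field_simp
          ring
        rw [f1]
        have f2 : vv ^ l * (vv ^ 20)⁻¹ ≤ vv ^ (l + 6) := by
          rw [← div_eq_mul_inv, div_le_iff₀ (by positivity), ← pow_add]
          exact vv_mono (by omega)
        exact mul_le_mul (mul_le_mul_of_nonneg_left (pow_le_four hA (by norm_num)) hCn.le) f2
          (by positivity) (by positivity)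
    · refine le_trans (le_of_eq ?_) hrhs
      apply Finset.sum_eq_zero
      intro g hg
      have hcg := (Finset.mem_filter.mp hg).2
      have := cl_le_of hM2 (Finset.mem_filter.mp (Finset.mem_filter.mp hg).1).2
      rw [if_neg (by omega)]
  refine (Finset.sum_le_sum one).trans ?_
  rw [← Finset.mul_sum]
  have h2 := geo vv_gt M
  have h3 : vv ^ M / (vv - 1) ≤ 6 * vv ^ M := by
    rw [div_le_iff₀ (by linarith [vv_gt])]
    have : 0 < vv ^ M := by positivity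
    nlinarith [vv_low]
  have h4 : 0 < Cn * A ^ 4 := by positivity
  calc Cn * A ^ 4 * ∑ i ∈ range M, vv ^ i ≤ Cn * A ^ 4 * (6 * vv ^ M) :=
        mul_le_mul_of_nonneg_left (h2.trans h3) h4.le
    _ = _ := by ring

theorem second_sum (κ : ℝ) (hκ : 0 < κ) : ∃ C : ℝ, 0 < C ∧ ∀ (β : Bool) (q : ℝ) (M : ℕ) (A : ℝ),
    Win q κ (2 ^ M) → NB q M A → 16 ≤ M →
    ∑ g ∈ DD β M, ∑ g' ∈ (UU β (2 ^ M)).erase g, PQ q (UU β (2 ^ M)) (SD (fR β) g g') ≤
      C * A ^ 4 * vv ^ M := by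
  classical
  obtain ⟨Cw, hCw, hW⟩ := wbd κ hκ
  obtain ⟨Cn, hCn, hN⟩ := near_class κ hκ
  refine ⟨6 * Cn + vv ^ 195 * 400000 + Cw * 2 ^ 30 * 300, by have := vv_pos; positivity, ?_⟩
  intro β q M A hwin h hM
  have hv := vv_pos
  have hA := h.A1
  have hok := okq h.h0 h.h1
  set U := UU β (2 ^ M) with hU
  -- splitting
  have split : ∀ g ∈ DD β M, ∑ g' ∈ U.erase g, PQ q U (SD (fR β) g g') ≤
      (if 10 ≤ cl g then
        ∑ g' ∈ U.filter (fun g' => g' ≠ g ∧ dst g g' ≤ 4 * 2 ^ (cl g - 6)),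
          PQ q U (SD (fR β) g g') else 0) +
      (∑ g' ∈ DD β M, A ^ 4 * vv ^ 195 * wt (cl g) (cl g')) +
      ∑ x ∈ U.filter (fun x => (2:ℤ) ^ (M - 1) ≤ nm x ∧
        (10 ≤ cl g → 4 * 2 ^ (cl g - 6) < dst g x)), PQ q U (SD (fR β) g x) := by
    intro g hg
    have hg' := Finset.mem_filter.mp hg
    have hx0 : ∀ x : Edg, 0 ≤ PQ q U (SD (fR β) g x) := fun x => Pr_nonneg hok _ _
    have e1 : (if 10 ≤ cl g then
        ∑ g' ∈ U.filter (fun g' => g' ≠ g ∧ dst g g' ≤ 4 * 2 ^ (cl g - 6)),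
          PQ q U (SD (fR β) g g') else 0) =
        ∑ g' ∈ U.filter (fun g' => 10 ≤ cl g ∧ g' ≠ g ∧ dst g g' ≤ 4 * 2 ^ (cl g - 6)),
          PQ q U (SD (fR β) g g') := by
      split_ifs with h10
      · apply Finset.sum_congr _ (fun _ _ => rfl)
        ext x
        simp [h10]
      · symm
        apply Finset.sum_eq_zero
        intro x hx
        exact absurd (Finset.mem_filter.mp hx).2.1 h10
    have e2 : ∑ g' ∈ U.filter (fun g' => nm g' < 2 ^ (M - 1) ∧
        (10 ≤ cl g → 4 * 2 ^ (cl g - 6) < dst g g')), PQ q U (SD (fR β) g g') ≤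
        ∑ g' ∈ DD β M, A ^ 4 * vv ^ 195 * wt (cl g) (cl g') := by
      calc ∑ g' ∈ U.filter (fun g' => nm g' < 2 ^ (M - 1) ∧
            (10 ≤ cl g → 4 * 2 ^ (cl g - 6) < dst g g')), PQ q U (SD (fR β) g g')
          ≤ ∑ g' ∈ U.filter (fun g' => nm g' < 2 ^ (M - 1) ∧
            (10 ≤ cl g → 4 * 2 ^ (cl g - 6) < dst g g')), A ^ 4 * vv ^ 195 * wt (cl g) (cl g') := by
            apply Finset.sum_le_sum
            intro x hx
            have hx' := (Finset.mem_filter.mp hx).2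
            exact pw h hx'.2 hg'.2 hx'.1 (by omega)
        _ ≤ _ := by
            apply Finset.sum_le_sum_of_subset_of_nonneg
            · intro x hx
              unfold DD
              rw [Finset.mem_filter] at hx ⊢
              exact ⟨hx.1, hx.2.1⟩
            · intro x _ _
              have := wt_nonneg (cl g) (cl x)
              positivity
    rw [e1]
    have e3 : ∑ g' ∈ U.erase g, PQ q U (SD (fR β) g g') ≤
        ∑ g' ∈ U.filter (fun g' => 10 ≤ cl g ∧ g' ≠ g ∧ dst g g' ≤ 4 * 2 ^ (cl g - 6)),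
          PQ q U (SD (fR β) g g') +
        ∑ g' ∈ U.filter (fun g' => nm g' < 2 ^ (M - 1) ∧
          (10 ≤ cl g → 4 * 2 ^ (cl g - 6) < dst g g')), PQ q U (SD (fR β) g g') +
        ∑ x ∈ U.filter (fun x => (2:ℤ) ^ (M - 1) ≤ nm x ∧
          (10 ≤ cl g → 4 * 2 ^ (cl g - 6) < dst g x)), PQ q U (SD (fR β) g x) := by
      rw [Finset.sum_filter, Finset.sum_filter, Finset.sum_filter, ← Finset.sum_add_distrib,
        ← Finset.sum_add_distrib]
      refine le_trans ?_ (Finset.sum_le_sum_of_subset_of_nonneg (Finset.erase_subset g U) ?_)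
      · apply Finset.sum_le_sum
        intro x hx
        have hne := (Finset.mem_erase.mp hx).1
        have hxx := hx0 x
        by_cases c1 : 10 ≤ cl g ∧ x ≠ g ∧ dst g x ≤ 4 * 2 ^ (cl g - 6)
        · rw [if_pos c1]
          have : ∀ (P : Prop) [Decidable P], 0 ≤ (if P then PQ q U (SD (fR β) g x) else 0) := by
            intro P _
            split_ifs
            · exact hxx
            · exact le_rfl
          have i1 := this (nm x < 2 ^ (M - 1) ∧ (10 ≤ cl g → 4 * 2 ^ (cl g - 6) < dst g x))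
          have i2 := this ((2:ℤ) ^ (M - 1) ≤ nm x ∧ (10 ≤ cl g → 4 * 2 ^ (cl g - 6) < dst g x))
          linarith
        · rw [if_neg c1]
          have c2 : 10 ≤ cl g → 4 * 2 ^ (cl g - 6) < dst g x := by
            intro h10
            by_contra hcon
            exact c1 ⟨h10, hne, not_lt.mp hcon⟩
          by_cases c3 : nm x < 2 ^ (M - 1)
          · rw [if_pos ⟨c3, c2⟩, if_neg (by
              rintro ⟨h7, -⟩
              omega)]
            linarith
          · rw [if_neg (fun h7 => c3 h7.1), if_pos ⟨not_lt.mp c3, c2⟩]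
            linarith
      · intro x _ _
        have : ∀ (P : Prop) [Decidable P], 0 ≤ (if P then PQ q U (SD (fR β) g x) else 0) := by
          intro P _
          split_ifs
          · exact hx0 x
          · exact le_rfl
        exact add_nonneg (add_nonneg (this _) (this _)) (this _)
    linarith
  have hWq : ∀ K Λ : ℕ, 1 ≤ Λ → 4 * 2 ^ K ≤ 2 ^ M → 2 ^ (M + 1) ≤ Λ * 2 ^ K →
      WBd β q M K (Cw * Λ * W1s q K) := fun K Λ h1 h2 h3 => hW β q _ hwin M K Λ h1 h2 h3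
  have hNq : ∀ j : ℕ, 10 ≤ j → j + 2 ≤ M →
      ∀ G : Finset Edg, G ⊆ UU β (2 ^ M) → (∀ g ∈ G, (2:ℤ) ^ j ≤ nm g ∧ nm g < 2 ^ (j + 1)) →
      ∑ g ∈ G, ∑ g' ∈ (UU β (2 ^ M)).filter (fun g' => g' ≠ g ∧ dst g g' ≤ 4 * 2 ^ (j - 6)),
        PQ q (UU β (2 ^ M)) (SD (fR β) g g') ≤ Cn * (a4 q (2 ^ (j - 2)) * W2s q (j - 6)) :=
    fun j h1 h2 G h3 h4 => hN β q _ hwin M j h1 h2 le_rfl G h3 h4
  have hDlt : ∀ g ∈ DD β M, nm g < 2 ^ M := by
    intro g hg
    have := (Finset.mem_filter.mp hg).2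
    have h2 := two_half (M := M) (by omega)
    have h3 : (0:ℤ) < 2 ^ (M - 1) := by positivity
    omega
  refine (Finset.sum_le_sum split).trans ?_
  rw [Finset.sum_add_distrib, Finset.sum_add_distrib]
  have s1 := near_all h hCn hNq (by omega)
  have s3 : ∑ g ∈ DD β M, ∑ x ∈ U.filter (fun x => (2:ℤ) ^ (M - 1) ≤ nm x ∧
      (10 ≤ cl g → 4 * 2 ^ (cl g - 6) < dst g x)), PQ q U (SD (fR β) g x) ≤
      Cw * A ^ 4 * 2 ^ 30 * (300 * vv ^ M) := by
    refine (Finset.sum_le_sum (fun g hg => zone_all h hCw hWq hM hg)).trans ?_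
    rw [← Finset.mul_sum]
    apply mul_le_mul_of_nonneg_left _ (by positivity)
    refine (sum_cl (J := M) (by omega) (DD β M) hDlt (fun j => (vv ^ (6 * j + M))⁻¹)
      (fun j => by positivity)).trans (bd_sum M)
  have s2 : ∑ g ∈ DD β M, ∑ g' ∈ DD β M, A ^ 4 * vv ^ 195 * wt (cl g) (cl g') ≤
      A ^ 4 * vv ^ 195 * (400000 * vv ^ M) := by
    have r1 : ∀ g ∈ DD β M, ∑ g' ∈ DD β M, A ^ 4 * vv ^ 195 * wt (cl g) (cl g') ≤
        A ^ 4 * vv ^ 195 * ∑ i ∈ range M, 72 * 4 ^ i * wt (cl g) i := by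
      intro g _
      rw [← Finset.mul_sum]
      apply mul_le_mul_of_nonneg_left _ (by positivity)
      exact sum_cl (J := M) (by omega) (DD β M) hDlt (fun i => wt (cl g) i)
        (fun i => wt_nonneg _ _)
    refine (Finset.sum_le_sum r1).trans ?_
    rw [← Finset.mul_sum]
    apply mul_le_mul_of_nonneg_left _ (by positivity)
    refine (sum_cl (J := M) (by omega) (DD β M) hDlt
      (fun j => ∑ i ∈ range M, 72 * 4 ^ i * wt j i) (fun j => ?_)).trans (wt_sum M)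
    exact Finset.sum_nonneg (fun i _ => by
      have := wt_nonneg j i
      positivity)
  have f : (6 * Cn + vv ^ 195 * 400000 + Cw * 2 ^ 30 * 300) * A ^ 4 * vv ^ M =
    6 * (Cn * A ^ 4) * vv ^ M + A ^ 4 * vv ^ 195 * (400000 * vv ^ M) +
      Cw * A ^ 4 * 2 ^ 30 * (300 * vv ^ M) := by ring
  rw [f]
  exact add_le_add (add_le_add s1 s2) s3

end Pool.Agent.R960
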