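import Pool.Agent.R960.SumC
import Pool.Agent.R960.B4c
import Pool.Agent.R960.Sand
import Pool.Agent.W424.NC.NearC

/-!
The first order expansion of the finite volume connection probability in the window.
-/

namespace Pool.Agent.R960

open H974 H12S H973N H973N.NP Finset

theorem nb_win : ∃ κ b A : ℝ, 0 < κ ∧ 0 < b ∧ 1 ≤ A ∧ ∀ (M : ℕ) (q : ℝ),
    |q - 1/2| ≤ b * (vv ^ (3 * M))⁻¹ → Win q κ (2 ^ M) ∧ NB q M A := by
  obtain ⟨κ, b, c, C, hκ, hb, hc, hC, hnear⟩ := Pool.Agent.W424.NC.nearS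
  obtain ⟨A1, hA1, hb4⟩ := b4_bound κ hκ
  obtain ⟨C2, hC2, hWb⟩ := Pool.Agent.W424.NC.W_bounds0 (ε := 0) le_rfl (by norm_num)
  have hv := vv_pos
  refine ⟨κ, b, (C + 1) + A1 + C2 * (C + 1) + C2 * (C + 1) ^ 2, hκ, hb, ?_, ?_⟩
  · have : 0 < C2 * (C + 1) := by positivity
    have : 0 < C2 * (C + 1) ^ 2 := by positivity
    linarith
  intro M q hq
  have hpw : ((2:ℝ) ^ M) ^ (-(3/4 : ℝ)) = (vv ^ (3 * M))⁻¹ := by
    rw [Real.rpow_neg (by positivity)]
    congr 1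
    have := rpow_vv M 3
    norm_num at this ⊢
    exact this
  have hw := hnear (2 ^ M) Nat.one_le_two_pow q (by push_cast; rw [hpw]; exact hq)
  obtain ⟨hwin, ha⟩ := hw
  have h0 : 0 ≤ q := by linarith [hwin.lo]
  have h1 : q ≤ 1 := by linarith [hwin.hi]
  have ha4 : ∀ k, k ≤ M → a4 q (2 ^ k) ≤ (C + 1) / vv ^ (5 * k) := by
    intro k hk
    have h2 := (ha (2 ^ k) Nat.one_le_two_pow (Nat.pow_le_pow_right (by norm_num) hk)).2
    push_cast at h2
    rw [rpow_neg_vv] at h2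
    refine h2.trans ?_
    rw [div_eq_mul_inv]
    apply mul_le_mul_of_nonneg_right (by linarith) (by positivity)
  have hp1 : 0 < C2 * (C + 1) := by positivity
  have hp2 : 0 < C2 * (C + 1) ^ 2 := by positivity
  have hWK : ∀ K, K ≤ M → W1s q K ≤ C2 * (C + 1) * vv ^ (3 * K) ∧
      W2s q K ≤ C2 * (C + 1) ^ 2 * vv ^ (6 * K) := by
    intro K hK
    have h3 := hWb q (C + 1) K h0 h1 (by linarith) (by
      intro k hk
      have h2 := (ha (2 ^ k) Nat.one_le_two_pow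
        (Nat.pow_le_pow_right (by norm_num) (hk.trans hK))).2
      push_cast at h2
      rw [add_zero]
      refine h2.trans ?_
      apply mul_le_mul_of_nonneg_right (by linarith) (by positivity))
    obtain ⟨h4, h5, -⟩ := h3
    have e1 := rpow_vv K 3
    have e2 := rpow_vv K 6
    norm_num at e1 e2
    constructor
    · rw [add_zero, e1] at h4
      exact h4
    · rw [mul_zero, add_zero, e2] at h5
      exact h5
  refine ⟨hwin, ⟨h0, h1, by linarith, ?_, ?_, ?_, ?_⟩⟩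
  · intro k hk
    refine (ha4 k hk).trans ?_
    apply div_le_div_of_nonneg_right _ (by positivity)
    linarith
  · intro s R hsR hRM
    have h2 := hb4 q _ hwin (2 ^ s) (2 ^ R) Nat.one_le_two_pow
      (Nat.pow_le_pow_right (by norm_num) hsR) (Nat.pow_le_pow_right (by norm_num) hRM)
    push_cast at h2
    rw [vv_two, vv_two] at h2
    refine h2.trans ?_
    apply mul_le_mul_of_nonneg_right (by linarith) (by positivity)
  · intro K hK
    refine (hWK K hK).1.trans ?_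
    apply mul_le_mul_of_nonneg_right (by linarith) (by positivity)
  · intro K hK
    refine (hWK K hK).2.trans ?_
    apply mul_le_mul_of_nonneg_right (by linarith) (by positivity)

theorem mvt {f : ℝ → ℝ} {r C : ℝ}
    (h : ∀ x, |x - 1/2| ≤ r → ∃ D, HasDerivAt f D x ∧ |D| ≤ C) {x : ℝ} (hx : |x - 1/2| ≤ r) :
    |f x - f (1/2)| ≤ C * |x - 1/2| := by
  have hr : 0 ≤ r := (abs_nonneg _).trans hx
  have hmem : ∀ y : ℝ, y ∈ Set.Icc (1/2 - r) (1/2 + r) ↔ |y - 1/2| ≤ r := by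
    intro y
    rw [Set.mem_Icc, abs_le]
    constructor
    · intro hy
      exact ⟨by linarith [hy.1], by linarith [hy.2]⟩
    · intro hy
      exact ⟨by linarith [hy.1], by linarith [hy.2]⟩
  have key := Convex.norm_image_sub_le_of_norm_hasDerivWithin_le (f := f)
    (f' := fun y => deriv f y) (s := Set.Icc (1/2 - r) (1/2 + r)) (x := 1/2) (y := x) (C := C)
    (fun y hy => by
      obtain ⟨D, hD, -⟩ := h y ((hmem y).1 hy)
      rw [hD.deriv]
      exact hD.hasDerivWithinAt)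
    (fun y hy => by
      obtain ⟨D, hD, hDC⟩ := h y ((hmem y).1 hy)
      rw [hD.deriv]
      exact hDC)
    (convex_Icc _ _) ((hmem _).2 (by simpa using hr)) ((hmem _).2 hx)
  exact key

/-- The contribution of the inner edges to its derivative. -/
noncomputable def TM (β : Bool) (M : ℕ) (q : ℝ) : ℝ :=
  ∑ g ∈ DD β M, PQ q (UU β (2 ^ M)) (Pf (fR β) g)

theorem fR_mono {β : Bool} : ∀ F G : Finset Edg, F ⊆ G → fR β F → fR β G :=
  fun _ _ h hF => co_mono h hF

theorem taylorM : ∃ b C : ℝ, 0 < b ∧ 0 < C ∧ ∀ (β : Bool) (M : ℕ), 16 ≤ M → ∀ q : ℝ,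
    |q - 1/2| ≤ b * (vv ^ (3 * M))⁻¹ →
    |HM β (2 ^ M) q - HM β (2 ^ M) (1/2) - TM β M (1/2) * (q - 1/2)| ≤
      C * (vv ^ (2 * M))⁻¹ * |q - 1/2| ∧ a4 q (2 ^ M) ≤ C * (vv ^ (5 * M))⁻¹ := by
  obtain ⟨κ, b, A, hκ, hb, hA, hnb⟩ := nb_win
  obtain ⟨C1, hC1, hss⟩ := second_sum κ hκ
  obtain ⟨Cw, hCw, hW⟩ := wbd κ hκ
  have hv := vv_pos
  refine ⟨b, C1 * A ^ 4 * b + 64 * Cw * A ^ 2 + A, hb, by positivity, ?_⟩
  intro β M hM q hq
  obtain ⟨r, hr⟩ : ∃ r, r = b * (vv ^ (3 * M))⁻¹ := ⟨_, rfl⟩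
  rw [← hr] at hq
  have hnb' : ∀ x : ℝ, |x - 1/2| ≤ r → Win x κ (2 ^ M) ∧ NB x M A := by
    intro x hx
    exact hnb M x (hr ▸ hx)
  -- the inner part
  have hT : ∀ x : ℝ, |x - 1/2| ≤ r → |TM β M x - TM β M (1/2)| ≤
      C1 * A ^ 4 * vv ^ M * |x - 1/2| := by
    intro x hx
    refine mvt (r := r) ?_ hx
    intro y hy
    obtain ⟨hwin, hNB⟩ := hnb' y hy
    obtain ⟨D, hD, hDle⟩ := deriv_T (UU β (2 ^ M)) (DD β M) (Finset.filter_subset _ _)
      (fR β) fR_mono y hNB.h0 hNB.h1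
    exact ⟨D, hD, hDle.trans (hss β y M A hwin hNB hM)⟩
  -- the derivative
  have hH : ∀ x : ℝ, |x - 1/2| ≤ r → ∃ D, HasDerivAt (HM β (2 ^ M)) D x ∧
      |D - TM β M (1/2)| ≤ (C1 * A ^ 4 * b + 64 * Cw * A ^ 2) * (vv ^ (2 * M))⁻¹ := by
    intro x hx
    obtain ⟨hwin, hNB⟩ := hnb' x hx
    refine ⟨_, deriv_f (UU β (2 ^ M)) (fR β) fR_mono x, ?_⟩
    have hsplit : ∑ e ∈ UU β (2 ^ M), PQ x (UU β (2 ^ M)) (Pf (fR β) e) = TM β M x +
        ∑ e ∈ (UU β (2 ^ M)).filter (fun e => (2:ℤ) ^ (M - 1) ≤ nm e),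
          PQ x (UU β (2 ^ M)) (Pf (fR β) e) := by
      unfold TM DD
      rw [← Finset.sum_filter_add_sum_filter_not (UU β (2 ^ M))
        (fun e => nm e < 2 ^ (M - 1))]
      congr 1
      apply Finset.sum_congr _ (fun _ _ => rfl)
      ext e
      rw [Finset.mem_filter, Finset.mem_filter, not_lt]
    have hz0 : 0 ≤ ∑ e ∈ (UU β (2 ^ M)).filter (fun e => (2:ℤ) ^ (M - 1) ≤ nm e),
          PQ x (UU β (2 ^ M)) (Pf (fR β) e) :=
      Finset.sum_nonneg (fun e _ => Pr_nonneg (okq hNB.h0 hNB.h1) _ _)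
    have hz1 : ∑ e ∈ (UU β (2 ^ M)).filter (fun e => (2:ℤ) ^ (M - 1) ≤ nm e),
          PQ x (UU β (2 ^ M)) (Pf (fR β) e) ≤ 64 * Cw * A ^ 2 * (vv ^ (2 * M))⁻¹ := by
      obtain ⟨N, rfl⟩ : ∃ N, M = N + 2 := ⟨M - 2, by omega⟩
      have hpos1 : 0 ≤ W1s x N := by
        unfold W1s
        apply add_nonneg (Real.sqrt_nonneg _)
        exact Finset.sum_nonneg (fun k _ => mul_nonneg (mul_nonneg (by positivity)
          (a4nn hNB.h0 hNB.h1 _)) (Real.sqrt_nonneg _))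
      have hWN := hW β x _ hwin (N + 2) N 8 (by norm_num) (by ring_nf; omega) (by ring_nf; omega)
      have hz := zone_first' hNB.h0 hNB.h1 (β := β) (M := N + 2) (K := N) (by omega) hWN
        (by positivity)
      refine hz.trans ?_
      have a1 := hNB.a4 N (by omega)
      have a2 := hNB.w1 N (by omega)
      rw [show N + 2 - 2 = N by omega]
      have m1 := mul_le_mul a1 (mul_le_mul_of_nonneg_left a2
        (show 0 ≤ Cw * ((8 : ℕ) : ℝ) by positivity)) (by positivity) (by positivity)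
      refine (mul_le_mul_of_nonneg_left m1 (show (0:ℝ) ≤ 4 by norm_num)).trans (le_of_eq ?_)
      have e3 : 64 * Cw * A ^ 2 * (vv ^ (2 * (N + 2)))⁻¹ =
          32 * vv ^ 4 * Cw * A ^ 2 * (vv ^ (2 * (N + 2)))⁻¹ := by
        rw [vv4]
        ring
      rw [e3]
      push_cast
      field_simp
      ring
    have hTx := hT x hx
    have e1 : ∑ e ∈ UU β (2 ^ M), Pr (fun _ => x) (UU β (2 ^ M)) (Pf (fR β) e) -
        TM β M (1/2) = (TM β M x - TM β M (1/2)) +
        ∑ e ∈ (UU β (2 ^ M)).filter (fun e => (2:ℤ) ^ (M - 1) ≤ nm e),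
          PQ x (UU β (2 ^ M)) (Pf (fR β) e) := by
      have := hsplit
      unfold PQ at this ⊢
      rw [this]
      ring
    rw [e1]
    refine (abs_add_le _ _).trans ?_
    rw [abs_of_nonneg hz0]
    have h3 : C1 * A ^ 4 * vv ^ M * |x - 1/2| ≤ C1 * A ^ 4 * b * (vv ^ (2 * M))⁻¹ := by
      refine (mul_le_mul_of_nonneg_left hx (by positivity)).trans (le_of_eq ?_)
      rw [hr]
      field_simp
      ring
    have h4 : (C1 * A ^ 4 * b + 64 * Cw * A ^ 2) * (vv ^ (2 * M))⁻¹ =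
      C1 * A ^ 4 * b * (vv ^ (2 * M))⁻¹ + 64 * Cw * A ^ 2 * (vv ^ (2 * M))⁻¹ := by ring
    rw [h4]
    exact add_le_add (hTx.trans h3) hz1
  constructor
  · have key := mvt (f := fun x => HM β (2 ^ M) x - TM β M (1/2) * (x - 1/2)) (r := r)
      (C := (C1 * A ^ 4 * b + 64 * Cw * A ^ 2) * (vv ^ (2 * M))⁻¹) (x := q) ?_ hq
    · have e1 : HM β (2 ^ M) q - TM β M (1/2) * (q - 1/2) -
          (HM β (2 ^ M) (1/2) - TM β M (1/2) * (1/2 - 1/2)) =
          HM β (2 ^ M) q - HM β (2 ^ M) (1/2) - TM β M (1/2) * (q - 1/2) := by ring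
      simp only [e1] at key
      refine key.trans ?_
      apply mul_le_mul_of_nonneg_right _ (abs_nonneg _)
      apply mul_le_mul_of_nonneg_right _ (by positivity)
      linarith
    · intro x hx
      obtain ⟨D, hD, hDle⟩ := hH x hx
      refine ⟨D - TM β M (1/2), ?_, hDle⟩
      have h5 : HasDerivAt (fun x : ℝ => TM β M (1/2) * (x - 1/2)) (TM β M (1/2)) x := by
        have := ((hasDerivAt_id x).sub_const (1/2)).const_mul (TM β M (1/2))
        simpa using this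
      exact hD.sub h5
  · have h6 := (hnb' q hq).2.a4 M le_rfl
    refine h6.trans ?_
    rw [div_eq_mul_inv]
    apply mul_le_mul_of_nonneg_right _ (by positivity)
    have : 0 < C1 * A ^ 4 * b := by positivity
    have : 0 < 64 * Cw * A ^ 2 := by positivity
    linarith

end Pool.Agent.R960
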