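import Pool.Agent.R960.Prod
import Pool.Agent.H973R3.NC.WH

/-!
The edges near the boundary of the box.
-/

namespace Pool.Agent.R960

open H974 H12S H973N H973N.NP Finset

/-- A rectangle in the box of radius `2 ^ M`, away from the centre. -/
structure GRect (β : Bool) (M : ℕ) (a b c d : ℤ) : Prop where
  hw : b - a ≤ 2 ^ (M + 1)
  hh : d - c ≤ 2 ^ (M + 1)
  sub : RE a b c d ⊆ UU β (2 ^ M)
  off : Off a b c d {src (e0 β)} {tgt (e0 β)}
  far : ∀ x ∈ RE a b c d, (2:ℤ) ^ (M - 2) < nm x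

/-- The four rectangles. -/
def rc (M : ℕ) (i : Fin 4) : ℤ × ℤ × ℤ × ℤ :=
  match i with
  | 0 => (2 ^ (M - 1) - 1, 2 ^ M, -2 ^ M, 2 ^ M)
  | 1 => (-2 ^ M, -(2 ^ (M - 1) - 1), -2 ^ M, 2 ^ M)
  | 2 => (-2 ^ M, 2 ^ M, 2 ^ (M - 1) - 1, 2 ^ M)
  | 3 => (-2 ^ M, 2 ^ M, -2 ^ M, -(2 ^ (M - 1) - 1))

/-- Its edges. -/
noncomputable def rcE (M : ℕ) (i : Fin 4) : Finset Edg :=
  RE (rc M i).1 (rc M i).2.1 (rc M i).2.2.1 (rc M i).2.2.2

theorem pow_split {M : ℕ} (hM : 3 ≤ M) : (2:ℤ) ^ M = 2 * 2 ^ (M - 1) ∧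
    (2:ℤ) ^ (M - 1) = 2 * 2 ^ (M - 2) ∧ (2:ℤ) ≤ 2 ^ (M - 2) ∧ (2:ℤ) ^ (M + 1) = 2 * 2 ^ M := by
  refine ⟨?_, ?_, ?_, ?_⟩
  · rw [← pow_succ']
    congr 1
    omega
  · rw [← pow_succ']
    congr 1
    omega
  · calc (2:ℤ) = 2 ^ 1 := by norm_num
      _ ≤ 2 ^ (M - 2) := pow_le_pow_right₀ (by norm_num) (by omega)
  · rw [← pow_succ']

theorem rc_good (β : Bool) {M : ℕ} (hM : 3 ≤ M) (i : Fin 4) :
    GRect β M (rc M i).1 (rc M i).2.1 (rc M i).2.2.1 (rc M i).2.2.2 := by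
  obtain ⟨p1, p2, p3, p4⟩ := pow_split hM
  have key : ∀ x ∈ rcE M i, (2:ℤ) ^ (M - 2) < nm x ∧ x ∈ boxE (2 ^ M) := by
    intro x hx
    unfold rcE at hx
    have hx' : ∀ z k : ℤ, k < |z| ↔ k < z ∨ k < -z := fun z k => lt_abs
    rw [lt_nm, hx', hx']
    obtain ⟨a, b, _ | _⟩ := x
    · rw [mem_RE_false] at hx
      unfold boxE
      rw [mem_RE_false]
      push_cast
      fin_cases i <;> simp only [rc] at hx ⊢ <;> omega
    · rw [mem_RE_true] at hx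
      unfold boxE
      rw [mem_RE_true]
      push_cast
      fin_cases i <;> simp only [rc] at hx ⊢ <;> omega
  refine ⟨?_, ?_, ?_, ?_, fun x hx => (key x hx).1⟩
  · fin_cases i <;> simp only [rc] <;> omega
  · fin_cases i <;> simp only [rc] <;> omega
  · intro x hx
    have := key x hx
    rw [Finset.mem_erase]
    refine ⟨?_, this.2⟩
    rintro rfl
    have h2 : nm (e0 β) = 0 := by simp [nm, e0]
    omega
  · rintro v (hv | hv) ⟨⟨h1, h2⟩, h3, h4⟩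
    · rw [Set.mem_singleton_iff] at hv
      subst hv
      simp only [e0, src_mk] at h1 h2 h3 h4
      fin_cases i <;> simp only [rc] at h1 h2 h3 h4 <;> omega
    · rw [Set.mem_singleton_iff] at hv
      subst hv
      cases β
      · simp only [e0, tgt_false] at h1 h2 h3 h4
        fin_cases i <;> simp only [rc] at h1 h2 h3 h4 <;> omega
      · simp only [e0, tgt_true] at h1 h2 h3 h4
        fin_cases i <;> simp only [rc] at h1 h2 h3 h4 <;> omega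

theorem rc_cover {M : ℕ} (hM : 3 ≤ M) {g : Edg} (hg : g ∈ boxE (2 ^ M))
    (h : (2:ℤ) ^ (M - 1) ≤ nm g) : ∃ i : Fin 4, g ∈ rcE M i := by
  obtain ⟨p1, p2, p3, p4⟩ := pow_split hM
  have hx' : ∀ z k : ℤ, k ≤ |z| ↔ k ≤ z ∨ k ≤ -z := fun z k => le_abs
  rw [le_nm, hx', hx'] at h
  unfold boxE at hg
  push_cast at hg
  have e0 : ∀ i : Fin 4, g ∈ rcE M i ↔
    g ∈ RE (rc M i).1 (rc M i).2.1 (rc M i).2.2.1 (rc M i).2.2.2 := fun i => Iff.rfl
  rcases h with (h | h) | (h | h)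
  · refine ⟨0, ?_⟩
    rw [e0]
    obtain ⟨a, b, _ | _⟩ := g
    · rw [mem_RE_false] at hg ⊢
      simp only [rc] at h ⊢
      omega
    · rw [mem_RE_true] at hg ⊢
      simp only [rc] at h ⊢
      omega
  · refine ⟨1, ?_⟩
    rw [e0]
    obtain ⟨a, b, _ | _⟩ := g
    · rw [mem_RE_false] at hg ⊢
      simp only [rc] at h ⊢
      omega
    · rw [mem_RE_true] at hg ⊢
      simp only [rc] at h ⊢
      omega
  · refine ⟨2, ?_⟩
    rw [e0]
    obtain ⟨a, b, _ | _⟩ := g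
    · rw [mem_RE_false] at hg ⊢
      simp only [rc] at h ⊢
      omega
    · rw [mem_RE_true] at hg ⊢
      simp only [rc] at h ⊢
      omega
  · refine ⟨3, ?_⟩
    rw [e0]
    obtain ⟨a, b, _ | _⟩ := g
    · rw [mem_RE_false] at hg ⊢
      simp only [rc] at h ⊢
      omega
    · rw [mem_RE_true] at hg ⊢
      simp only [rc] at h ⊢
      omega

/-- The inner bound on one rectangle. -/
def WBd (β : Bool) (q : ℝ) (M K : ℕ) (W : ℝ) : Prop :=
  ∀ (a b c d : ℤ), GRect β M a b c d → ∀ (bb : Finset Edg) (T : Finset Edg),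
    T ⊆ RE a b c d \ bb → (∀ g ∈ T, ∀ x : Edg, dst x g ≤ 8 * 2 ^ K → x ∉ bb) →
    ∀ w : Finset Edg, w ⊆ UU β (2 ^ M) \ (RE a b c d \ bb) →
    ∑ g ∈ T, PQ q (RE a b c d \ bb) (Pf (CO {src (e0 β)} {tgt (e0 β)} ↑w) g) ≤ W

theorem wbd (κ : ℝ) (hκ : 0 < κ) : ∃ C : ℝ, 0 < C ∧ ∀ (β : Bool) (q : ℝ) (n : ℕ), Win q κ n →
    ∀ M K Λ : ℕ, 1 ≤ Λ → 4 * 2 ^ K ≤ n → 2 ^ (M + 1) ≤ Λ * 2 ^ K →
      WBd β q M K (C * Λ * W1s q K) := by
  obtain ⟨C, hC, hW⟩ := whitney_sum κ hκ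
  refine ⟨C, hC, ?_⟩
  intro β q n hwin M K Λ hΛ hn hM a b c d hR bb T hT hfull w hw
  have hMz : (2:ℤ) ^ (M + 1) ≤ Λ * 2 ^ K := by exact_mod_cast hM
  refine hW q n hwin a b c d K Λ hΛ hn (hR.hw.trans hMz) (hR.hh.trans hMz) _ _ _ _ ?_ hR.off T hT
    (hT.trans Finset.sdiff_subset) ?_
  · rw [Finset.disjoint_coe]
    exact Finset.disjoint_of_subset_left hw Finset.sdiff_disjoint
  · intro g hg e he hd
    rw [Finset.mem_sdiff]
    exact ⟨RE_subset (by omega) (by omega) (by omega) (by omega) he, hfull g hg e hd⟩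

theorem sum_cover {T : Finset Edg} {x : Edg → ℝ} (hx : ∀ g, 0 ≤ x g) (P : Fin 4 → Finset Edg)
    (h : ∀ g ∈ T, ∃ i, g ∈ P i) {B : ℝ} (hB : ∀ i, ∑ g ∈ T.filter (fun g => g ∈ P i), x g ≤ B) :
    ∑ g ∈ T, x g ≤ 4 * B := by
  classical
  have h1 : ∑ g ∈ T, x g ≤ ∑ g ∈ T, ∑ i : Fin 4, if g ∈ P i then x g else 0 := by
    apply Finset.sum_le_sum
    intro g hg
    obtain ⟨i, hi⟩ := h g hg
    have h2 := Finset.single_le_sum (f := fun i => if g ∈ P i then x g else 0)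
      (fun j _ => by
        show 0 ≤ if g ∈ P j then x g else 0
        split_ifs
        · exact hx g
        · exact le_rfl) (Finset.mem_univ i)
    simp only [if_pos hi] at h2
    exact h2
  rw [Finset.sum_comm] at h1
  refine h1.trans ?_
  calc ∑ i : Fin 4, ∑ g ∈ T, (if g ∈ P i then x g else 0)
      = ∑ i : Fin 4, ∑ g ∈ T.filter (fun g => g ∈ P i), x g := by
        apply Finset.sum_congr rfl
        intro i _
        rw [Finset.sum_filter]
    _ ≤ ∑ _i : Fin 4, B := Finset.sum_le_sum (fun i _ => hB i)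
    _ = 4 * B := by simp

section
variable {q : ℝ} (h0 : 0 ≤ q) (h1 : q ≤ 1) {β : Bool} {M K : ℕ}
include h0 h1

/-- Second order sum over the boundary zone, the first edge being far. -/
theorem zone_second (hM : 3 ≤ M) {W : ℝ} (hW : WBd β q M K W) {Ev : Finset Edg → Prop}
    {g : Edg} (hg : g ∈ UU β (2 ^ M)) (bb : Finset Edg)
    (hEv : ∀ i : Fin 4, ∀ F, F ⊆ UU β (2 ^ M) →
      (Ev F ↔ Ev (F ∩ (UU β (2 ^ M) \ (rcE M i \ bb)))))
    (hgR : ∀ i : Fin 4, g ∉ rcE M i \ bb) (T : Finset Edg) (hT : T ⊆ UU β (2 ^ M))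
    (hTn : ∀ x ∈ T, (2:ℤ) ^ (M - 1) ≤ nm x) (hTb : ∀ x ∈ T, x ∉ bb)
    (hfull : ∀ x ∈ T, ∀ y : Edg, dst y x ≤ 8 * 2 ^ K → y ∉ bb)
    (himp : ∀ i ∈ T, ∀ F, F ⊆ UU β (2 ^ M) → SD (fR β) g i F → Ev F) :
    ∑ x ∈ T, PQ q (UU β (2 ^ M)) (SD (fR β) g x) ≤
      4 * (PQ q (UU β (2 ^ M)) Ev * (2 * W)) := by
  classical
  have hok : Ok (fun _ : Edg => q) := fun _ => ⟨h0, h1⟩
  apply sum_cover (fun x => Pr_nonneg hok _ _) (rcE M)
  · intro x hx
    exact rc_cover hM (Finset.mem_erase.mp (hT hx)).2 (hTn x hx)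
  · intro i
    have hsub : rcE M i \ bb ⊆ UU β (2 ^ M) :=
      Finset.sdiff_subset.trans (rc_good β hM i).sub
    refine sum_single h0 h1 hsub (hEv i) hg (hgR i) _ ?_ ?_ ?_
    · intro x hx
      rw [Finset.mem_filter] at hx
      exact Finset.mem_sdiff.mpr ⟨hx.2, hTb x hx.1⟩
    · intro x hx
      exact himp x (Finset.mem_filter.mp hx).1
    · intro w hw
      refine hW _ _ _ _ (rc_good β hM i) bb _ ?_ ?_ w hw
      · intro x hx
        rw [Finset.mem_filter] at hx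
        exact Finset.mem_sdiff.mpr ⟨hx.2, hTb x hx.1⟩
      · intro x hx
        exact hfull x (Finset.mem_filter.mp hx).1

/-- First order sum over the boundary zone. -/
theorem zone_first (hM : 3 ≤ M) {W : ℝ} (hW : WBd β q M K W) {Ev : Finset Edg → Prop}
    (hEv : ∀ i : Fin 4, ∀ F, F ⊆ UU β (2 ^ M) →
      (Ev F ↔ Ev (F ∩ (UU β (2 ^ M) \ rcE M i))))
    (T : Finset Edg) (hT : T ⊆ UU β (2 ^ M))
    (hTn : ∀ x ∈ T, (2:ℤ) ^ (M - 1) ≤ nm x)
    (himp : ∀ i ∈ T, ∀ F, F ⊆ UU β (2 ^ M) → Pf (fR β) i F → Ev F) :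
    ∑ x ∈ T, PQ q (UU β (2 ^ M)) (Pf (fR β) x) ≤ 4 * (PQ q (UU β (2 ^ M)) Ev * W) := by
  classical
  have hok : Ok (fun _ : Edg => q) := fun _ => ⟨h0, h1⟩
  apply sum_cover (fun x => Pr_nonneg hok _ _) (rcE M)
  · intro x hx
    exact rc_cover hM (Finset.mem_erase.mp (hT hx)).2 (hTn x hx)
  · intro i
    refine sum_first h0 h1 (rc_good β hM i).sub (hEv i) _ ?_ ?_ ?_
    · intro x hx
      rw [Finset.mem_filter] at hx
      exact hx.2
    · intro x hx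
      exact himp x (Finset.mem_filter.mp hx).1
    · intro w hw
      have := hW _ _ _ _ (rc_good β hM i) ∅ (T.filter (fun g => g ∈ rcE M i)) ?_ ?_ w ?_
      · rw [Finset.sdiff_empty] at this
        exact this
      · intro x hx
        rw [Finset.sdiff_empty]
        exact (Finset.mem_filter.mp hx).2
      · intro x _ y _
        exact Finset.notMem_empty y
      · rw [Finset.sdiff_empty]
        exact hw

theorem zone_first' (hM : 3 ≤ M) {W : ℝ} (hW : WBd β q M K W) (hW0 : 0 ≤ W) :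
    ∑ x ∈ (UU β (2 ^ M)).filter (fun x => (2:ℤ) ^ (M - 1) ≤ nm x),
      PQ q (UU β (2 ^ M)) (Pf (fR β) x) ≤ 4 * (a4 q (2 ^ (M - 2)) * W) := by
  obtain ⟨p1, p2, p3, p4⟩ := pow_split hM
  refine (zone_first h0 h1 hM hW (Ev := AR β (2 ^ (M - 2))) ?_ _ (Finset.filter_subset _ _) ?_
    ?_).trans ?_
  · intro i F hF
    apply AR_inter
    intro x hx hne hxF
    rw [Finset.mem_sdiff]
    refine ⟨hF hxF, fun hcon => ?_⟩
    have k1 := nm_le_of_boxE hx
    have k2 := (rc_good β hM i).far x hcon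
    push_cast at k1
    omega
  · intro x hx
    exact (Finset.mem_filter.mp hx).2
  · intro x hx F hF h
    have h2 := (Finset.mem_filter.mp hx).2
    refine Pf_root Nat.one_le_two_pow ?_ (fun h3 => (Finset.mem_erase.mp (hF h3)).1 rfl) h
    intro hcon
    have k1 := nm_le_of_boxE hcon
    push_cast at k1
    omega
  · apply mul_le_mul_of_nonneg_left _ (by norm_num)
    apply mul_le_mul_of_nonneg_right _ hW0
    apply pr_AR h0 h1
    exact Nat.pow_le_pow_right (by norm_num) (by omega)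

end

end Pool.Agent.R960
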